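import Mathlib
import Pool.Agent.H631.ES.X38

set_option autoImplicit false

open Set Metric Filter Topology MeasureTheory
open ExtStar (lap)

namespace Pool.Agent.D0H33.FB

noncomputable section

/-- three dimensional Euclidean space -/
abbrev V := EuclideanSpace ℝ (Fin 3)

/-- the positive phase -/
def NN (D : Set V) (u : V → ℝ) : Set V := {x | x ∈ D ∧ 0 < u x}

/-- the free boundary -/
def FF (D : Set V) (u : V → ℝ) : Set V := D ∩ frontier (NN D u)

/-- `u` is a solution of the one-phase problem in the open set `D`, with free boundary of class `C^1` -/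
structure Sol (D : Set V) (u : V → ℝ) : Prop where
  op : IsOpen D
  cont : ContinuousOn u D
  nonneg : ∀ x ∈ D, 0 ≤ u x
  smooth : ContDiffOn ℝ 2 u (NN D u)
  harm : ∀ x ∈ NN D u, lap u x = 0
  bdry : ∀ p ∈ FF D u, ∃ G : V → ℝ, ContDiffAt ℝ 1 G p ∧ G p = 0 ∧ ‖fderiv ℝ G p‖ = 1 ∧
    ∀ᶠ x in 𝓝 p, (0 < u x ↔ 0 < G x) ∧ (0 < u x → u x = G x)

variable {D : Set V} {u : V → ℝ}

namespace Sol

lemma isOpen_NN (h : Sol D u) : IsOpen (NN D u) := by
  have : NN D u = D ∩ u ⁻¹' (Ioi 0) := rfl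
  rw [this]
  exact h.cont.isOpen_inter_preimage h.op isOpen_Ioi

lemma meas_NN (h : Sol D u) : MeasurableSet (NN D u) := h.isOpen_NN.measurableSet

lemma eq_zero_of_not_mem (h : Sol D u) {x : V} (hx : x ∈ D) (hn : x ∉ NN D u) : u x = 0 := by
  have h1 := h.nonneg x hx
  by_contra h2
  exact hn ⟨hx, lt_of_le_of_ne h1 (Ne.symm h2)⟩

lemma zero_of_FF (h : Sol D u) {p : V} (hp : p ∈ FF D u) : u p = 0 := by
  apply h.eq_zero_of_not_mem hp.1
  intro hn
  have h1 : p ∈ frontier (NN D u) := hp.2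
  rw [h.isOpen_NN.frontier_eq] at h1
  exact h1.2 hn

lemma mem_FF (h : Sol D u) {p : V} (hp : p ∈ D) (hc : p ∈ closure (NN D u)) (h0 : ¬ 0 < u p) :
    p ∈ FF D u := by
  refine ⟨hp, ?_⟩
  rw [h.isOpen_NN.frontier_eq]
  exact ⟨hc, fun hn => h0 hn.2⟩

lemma diffAt (h : Sol D u) {x : V} (hx : x ∈ NN D u) : DifferentiableAt ℝ u x :=
  ((h.smooth.contDiffAt (h.isOpen_NN.mem_nhds hx)).differentiableAt (by norm_num))

lemma contDiffAt (h : Sol D u) {x : V} (hx : x ∈ NN D u) : ContDiffAt ℝ 2 u x :=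
  h.smooth.contDiffAt (h.isOpen_NN.mem_nhds hx)

/-- near a free boundary point the differential of `u` is the differential of `G` -/
lemma fderiv_near (h : Sol D u) {p : V} {G : V → ℝ}
    (hG : ∀ᶠ x in 𝓝 p, (0 < u x ↔ 0 < G x) ∧ (0 < u x → u x = G x)) :
    ∀ᶠ x in 𝓝 p, x ∈ NN D u → fderiv ℝ u x = fderiv ℝ G x := by
  rw [_root_.eventually_nhds_iff] at hG
  obtain ⟨t, ht, hto, hpt⟩ := hG
  filter_upwards [hto.mem_nhds hpt] with x hx hN
  apply Filter.EventuallyEq.fderiv_eq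
  filter_upwards [hto.mem_nhds hx, h.isOpen_NN.mem_nhds hN] with y hy hyN
  exact (ht y hy).2 hyN.2

lemma grad_near (h : Sol D u) {p : V} (hp : p ∈ FF D u) {η : ℝ} (hη : 0 < η) :
    ∀ᶠ x in 𝓝 p, x ∈ NN D u → |‖fderiv ℝ u x‖ - 1| < η := by
  obtain ⟨G, hG1, hG0, hGn, hG⟩ := h.bdry p hp
  have h1 := h.fderiv_near hG
  have h2 : ContinuousAt (fun x => ‖fderiv ℝ G x‖) p := by
    have : ContinuousAt (fderiv ℝ G) p := (hG1.fderiv_right (m := 0) (by norm_num)).continuousAt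
    exact this.norm
  have h3 : ∀ᶠ x in 𝓝 p, |‖fderiv ℝ G x‖ - 1| < η := by
    have := Metric.tendsto_nhds.1 h2.tendsto η hη
    rw [hGn] at this
    simpa [Real.dist_eq] using this
  filter_upwards [h1, h3] with x hx1 hx3 hN
  rw [hx1 hN]
  exact hx3

/-- what holds near every free boundary point in a compact set holds where `u` is small -/
lemma near_FF (h : Sol D u) {K : Set V} (hK : IsCompact K) (hKD : K ⊆ D) {Q : V → Prop}
    (hQ : ∀ p ∈ FF D u ∩ K, ∀ᶠ x in 𝓝 p, x ∈ NN D u → Q x) :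
    ∃ r : ℝ, 0 < r ∧ ∀ x ∈ NN D u, x ∈ K → u x < r → Q x := by
  by_contra hcon
  push Not at hcon
  have hcon' : ∀ n : ℕ, ∃ x ∈ NN D u, x ∈ K ∧ u x < 1 / ((n : ℝ) + 1) ∧ ¬ Q x := by
    intro n
    exact hcon _ (by positivity)
  choose x hxN hxK hxu hxQ using hcon'
  obtain ⟨p, hpK, φ, hφ, hlim⟩ := hK.tendsto_subseq hxK
  have hup : u p = 0 := by
    have h1 : Tendsto (fun n => u (x (φ n))) atTop (𝓝 (u p)) := by
      have h2 : ContinuousAt u p := h.cont.continuousAt (h.op.mem_nhds (hKD hpK))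
      exact h2.tendsto.comp hlim
    have h3 : Tendsto (fun n => u (x (φ n))) atTop (𝓝 0) := by
      refine squeeze_zero (fun n => (hxN _).2.le) (fun n => (hxu (φ n)).le) ?_
      exact (tendsto_one_div_add_atTop_nhds_zero_nat (𝕜 := ℝ)).comp hφ.tendsto_atTop
    exact tendsto_nhds_unique h1 h3
  have hpF : p ∈ FF D u := by
    apply h.mem_FF (hKD hpK) _ (by rw [hup]; exact lt_irrefl 0)
    exact mem_closure_of_tendsto hlim (Eventually.of_forall fun n => hxN _)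
  have h4 := hlim.eventually (hQ p ⟨hpF, hpK⟩)
  obtain ⟨n, hn⟩ := h4.exists
  exact hxQ _ (hn (hxN _))

end Sol

/-- functions of class `C^1` on the positive phase, bounded with their differential on `K` -/
structure BF (D : Set V) (u : V → ℝ) (K : Set V) (f : V → ℝ) : Prop where
  smooth : ContDiffOn ℝ 1 f (NN D u)
  bd : ∃ C : ℝ, ∀ x ∈ NN D u, x ∈ K → |f x| ≤ C ∧ ‖fderiv ℝ f x‖ ≤ C

/-- the functions of `BF` which vanish on the positive phase outside `K` -/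
structure TF (D : Set V) (u : V → ℝ) (K : Set V) (f : V → ℝ) : Prop extends BF D u K f where
  supp : ∀ x ∈ NN D u, x ∉ K → f x = 0

variable {K : Set V} {f g : V → ℝ}

lemma BF.diffAt (h : Sol D u) (hf : BF D u K f) {x : V} (hx : x ∈ NN D u) :
    DifferentiableAt ℝ f x :=
  (hf.smooth.contDiffAt (h.isOpen_NN.mem_nhds hx)).differentiableAt (by norm_num)

lemma BF.add (h : Sol D u) (hf : BF D u K f) (hg : BF D u K g) : BF D u K (fun x => f x + g x) := by
  refine ⟨hf.smooth.add hg.smooth, ?_⟩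
  obtain ⟨C1, h1⟩ := hf.bd
  obtain ⟨C2, h2⟩ := hg.bd
  refine ⟨C1 + C2, fun x hx hxK => ?_⟩
  obtain ⟨a1, a2⟩ := h1 x hx hxK
  obtain ⟨b1, b2⟩ := h2 x hx hxK
  refine ⟨(abs_add_le _ _).trans (add_le_add a1 b1), ?_⟩
  rw [show (fun x => f x + g x) = f + g from rfl, fderiv_add (hf.diffAt h hx) (hg.diffAt h hx)]
  exact (norm_add_le _ _).trans (add_le_add a2 b2)

lemma BF.mul (h : Sol D u) (hf : BF D u K f) (hg : BF D u K g) : BF D u K (fun x => f x * g x) := by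
  refine ⟨hf.smooth.mul hg.smooth, ?_⟩
  obtain ⟨C1, h1⟩ := hf.bd
  obtain ⟨C2, h2⟩ := hg.bd
  refine ⟨C1 * C2 + C2 * C1, fun x hx hxK => ?_⟩
  obtain ⟨a1, a2⟩ := h1 x hx hxK
  obtain ⟨b1, b2⟩ := h2 x hx hxK
  have a0 : 0 ≤ C1 := (abs_nonneg _).trans a1
  have b0 : 0 ≤ C2 := (abs_nonneg _).trans b1
  constructor
  · rw [abs_mul]
    have := mul_le_mul a1 b1 (abs_nonneg _) a0
    nlinarith [mul_nonneg b0 a0]
  · have e : fderiv ℝ (fun x => f x * g x) x = f x • fderiv ℝ g x + g x • fderiv ℝ f x :=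
      fderiv_fun_mul (hf.diffAt h hx) (hg.diffAt h hx)
    rw [e]
    refine (norm_add_le _ _).trans ?_
    rw [norm_smul, norm_smul, Real.norm_eq_abs, Real.norm_eq_abs]
    exact add_le_add (mul_le_mul a1 b2 (norm_nonneg _) a0) (mul_le_mul b1 a2 (norm_nonneg _) b0)

/-- smooth functions on the whole space -/
lemma BF.of_contDiff (hK : IsCompact K) (hf : ContDiff ℝ 1 f) : BF D u K f := by
  refine ⟨hf.contDiffOn, ?_⟩
  obtain ⟨C1, h1⟩ := hK.exists_bound_of_continuousOn (f := f) hf.continuous.continuousOn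
  obtain ⟨C2, h2⟩ := hK.exists_bound_of_continuousOn (f := fderiv ℝ f)
    (hf.continuous_fderiv (by norm_num)).continuousOn
  refine ⟨max C1 C2, fun x _ hx => ⟨?_, ?_⟩⟩
  · exact (h1 x hx).trans (le_max_left _ _)
  · exact (h2 x hx).trans (le_max_right _ _)

/-- functions of class `C^1` near `K` -/
lemma BF.of_contDiffOn {U : Set V} (hU : IsOpen U) (hK : IsCompact K) (hKU : K ⊆ U)
    (hDU : NN D u ⊆ U) (hf : ContDiffOn ℝ 1 f U) : BF D u K f := by
  refine ⟨hf.mono hDU, ?_⟩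
  obtain ⟨C1, h1⟩ := hK.exists_bound_of_continuousOn (f := f) (hf.continuousOn.mono hKU)
  obtain ⟨C2, h2⟩ := hK.exists_bound_of_continuousOn (f := fderiv ℝ f)
    ((hf.continuousOn_fderiv_of_isOpen hU (by norm_num)).mono hKU)
  refine ⟨max C1 C2, fun x _ hx => ⟨?_, ?_⟩⟩
  · exact (h1 x hx).trans (le_max_left _ _)
  · exact (h2 x hx).trans (le_max_right _ _)

/-- the solution itself -/
lemma BF.self (h : Sol D u) (hK : IsCompact K) (hKD : K ⊆ D)
    (hL : ∃ L : ℝ, ∀ x ∈ NN D u, x ∈ K → ‖fderiv ℝ u x‖ ≤ L) : BF D u K u := by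
  refine ⟨h.smooth.of_le (by norm_num), ?_⟩
  obtain ⟨L, hL⟩ := hL
  obtain ⟨C1, h1⟩ := hK.exists_bound_of_continuousOn (f := u) (h.cont.mono hKD)
  refine ⟨max C1 L, fun x hx hxK => ⟨?_, ?_⟩⟩
  · exact (h1 x hxK).trans (le_max_left _ _)
  · exact (hL x hx hxK).trans (le_max_right _ _)

lemma TF.mul_BF (h : Sol D u) (hf : TF D u K f) (hg : BF D u K g) :
    TF D u K (fun x => f x * g x) :=
  { toBF := hf.toBF.mul h hg
    supp := fun x hx hxK => by rw [hf.supp x hx hxK, zero_mul] }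

lemma TF.add (h : Sol D u) (hf : TF D u K f) (hg : TF D u K g) : TF D u K (fun x => f x + g x) :=
  { toBF := hf.toBF.add h hg.toBF
    supp := fun x hx hxK => by rw [hf.supp x hx hxK, hg.supp x hx hxK, add_zero] }

lemma TF.fderiv_zero (h : Sol D u) (hK : IsClosed K) (hf : TF D u K f) {x : V} (hx : x ∈ NN D u)
    (hxK : x ∉ K) : fderiv ℝ f x = 0 := by
  have h1 : f =ᶠ[𝓝 x] fun _ => (0 : ℝ) := by
    filter_upwards [h.isOpen_NN.mem_nhds hx, hK.isOpen_compl.mem_nhds hxK] with y hy hyK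
    exact hf.supp y hy hyK
  rw [h1.fderiv_eq]
  simp

end

end Pool.Agent.D0H33.FB
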