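import Pool.Agent.D0H33.FB.A01

set_option autoImplicit false

open Set Metric Filter Topology MeasureTheory
open ExtStar (lap)

namespace Pool.Agent.D0H33.FB

noncomputable section

/-- a cut off: `0` for `t ≤ 1`, `1` for `t ≥ 2` -/
def chi (t : ℝ) : ℝ := Real.smoothTransition (t - 1)

lemma chi_smooth {n : ℕ∞} : ContDiff ℝ n chi := by
  unfold chi
  exact Real.smoothTransition.contDiff.comp (contDiff_id.sub contDiff_const)

lemma chi_zero {t : ℝ} (ht : t ≤ 1) : chi t = 0 :=
  Real.smoothTransition.zero_of_nonpos (by linarith)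

lemma chi_one {t : ℝ} (ht : 2 ≤ t) : chi t = 1 :=
  Real.smoothTransition.one_of_one_le (by linarith)

lemma chi_nonneg (t : ℝ) : 0 ≤ chi t := Real.smoothTransition.nonneg _

lemma chi_le_one (t : ℝ) : chi t ≤ 1 := Real.smoothTransition.le_one _

lemma chi_mono : Monotone chi := fun s t h =>
  Real.smoothTransition.monotone (by linarith)

lemma chi_diff (t : ℝ) : DifferentiableAt ℝ chi t :=
  (chi_smooth (n := 1)).differentiable (by norm_num) t

lemma dchi_nonneg (t : ℝ) : 0 ≤ deriv chi t := chi_mono.deriv_nonneg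

lemma dchi_cont : Continuous (deriv chi) := (chi_smooth (n := 1)).continuous_deriv (by norm_num)

lemma dchi_zero {t : ℝ} (ht : t ≤ 1) : deriv chi t = 0 := by
  -- continuity: derivative zero on the open half line, hence on its closure
  have h1 : ∀ s ∈ Iio (1 : ℝ), deriv chi s = 0 := by
    intro s hs
    have : chi =ᶠ[𝓝 s] fun _ => (0 : ℝ) := by
      filter_upwards [isOpen_Iio.mem_nhds hs] with r hr
      exact chi_zero hr.le
    rw [this.deriv_eq]
    simp
  have hc : IsClosed {s : ℝ | deriv chi s = 0} := isClosed_eq dchi_cont continuous_const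
  have h2 : closure (Iio (1 : ℝ)) ⊆ {s : ℝ | deriv chi s = 0} :=
    closure_minimal h1 hc
  rw [closure_Iio] at h2
  exact h2 ht

lemma dchi_zero' {t : ℝ} (ht : 2 ≤ t) : deriv chi t = 0 := by
  have h1 : ∀ s ∈ Ioi (2 : ℝ), deriv chi s = 0 := by
    intro s hs
    have : chi =ᶠ[𝓝 s] fun _ => (1 : ℝ) := by
      filter_upwards [isOpen_Ioi.mem_nhds hs] with r hr
      exact chi_one (le_of_lt hr)
    rw [this.deriv_eq]
    simp
  have hc : IsClosed {s : ℝ | deriv chi s = 0} := isClosed_eq dchi_cont continuous_const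
  have h2 : closure (Ioi (2 : ℝ)) ⊆ {s : ℝ | deriv chi s = 0} :=
    closure_minimal h1 hc
  rw [closure_Ioi] at h2
  exact h2 ht

lemma dchi_bd : ∃ C : ℝ, 0 < C ∧ ∀ t, |deriv chi t| ≤ C := by
  obtain ⟨C, hC⟩ := (isCompact_Icc (a := (1 : ℝ)) (b := 2)).exists_bound_of_continuousOn
    dchi_cont.continuousOn
  refine ⟨max C 1, by positivity, fun t => ?_⟩
  by_cases h1 : t ≤ 1
  · rw [dchi_zero h1]; simp
  by_cases h2 : 2 ≤ t
  · rw [dchi_zero' h2]; simp
  push Not at h1 h2
  exact (hC t ⟨h1.le, h2.le⟩).trans (le_max_left _ _)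

variable {D : Set V} {u : V → ℝ} {K : Set V} {f g : V → ℝ}

/-- near a point outside the positive phase the cut off function vanishes -/
lemma Sol.ind_zero (h : Sol D u) (hK : IsCompact K) (hKD : K ⊆ D) (hfK : ∀ x ∈ NN D u, x ∉ K → f x = 0)
    {κ : ℝ → ℝ} (hκ : ∀ t ≤ 1, κ t = 0) {s : ℝ} (hs : 0 < s) {x : V} (hx : x ∉ NN D u) :
    (NN D u).indicator (fun x => κ (u x / s) * f x) =ᶠ[𝓝 x] fun _ => 0 := by
  by_cases hxD : x ∈ D
  · have hux : u x = 0 := h.eq_zero_of_not_mem hxD hx
    have hc : ContinuousAt u x := h.cont.continuousAt (h.op.mem_nhds hxD)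
    have : ∀ᶠ y in 𝓝 x, u y < s := by
      apply hc.eventually_lt continuousAt_const
      rw [hux]; exact hs
    filter_upwards [this] with y hy
    by_cases hyN : y ∈ NN D u
    · rw [indicator_of_mem hyN, hκ _ ((div_le_one hs).2 hy.le), zero_mul]
    · rw [indicator_of_notMem hyN]
  · have hxK : x ∉ K := fun hk => hxD (hKD hk)
    filter_upwards [hK.isClosed.isOpen_compl.mem_nhds hxK] with y hy
    by_cases hyN : y ∈ NN D u
    · rw [indicator_of_mem hyN, hfK y hyN hy, mul_zero]
    · rw [indicator_of_notMem hyN]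

lemma Sol.ind_cont (h : Sol D u) (hK : IsCompact K) (hKD : K ⊆ D) (hf : ContinuousOn f (NN D u))
    (hfK : ∀ x ∈ NN D u, x ∉ K → f x = 0)
    {κ : ℝ → ℝ} (hκc : Continuous κ) (hκ : ∀ t ≤ 1, κ t = 0) {s : ℝ} (hs : 0 < s) :
    Continuous ((NN D u).indicator (fun x => κ (u x / s) * f x)) := by
  rw [continuous_iff_continuousAt]
  intro x
  by_cases hx : x ∈ NN D u
  · have h1 : (NN D u).indicator (fun x => κ (u x / s) * f x) =ᶠ[𝓝 x] fun x => κ (u x / s) * f x := by
      filter_upwards [h.isOpen_NN.mem_nhds hx] with y hy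
      rw [indicator_of_mem hy]
    apply ContinuousAt.congr _ h1.symm
    have h2 : ContinuousAt u x := h.cont.continuousAt (h.op.mem_nhds hx.1)
    have h3 : ContinuousAt f x := hf.continuousAt (h.isOpen_NN.mem_nhds hx)
    have h4 : ContinuousAt (fun x => κ (u x / s)) x :=
      ContinuousAt.comp (g := κ) hκc.continuousAt (h2.div_const s)
    exact h4.mul h3
  · apply ContinuousAt.congr _ (h.ind_zero hK hKD hfK hκ hs hx).symm
    exact continuousAt_const

lemma Sol.ind_supp (hK : IsCompact K)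
    (hfK : ∀ x ∈ NN D u, x ∉ K → f x = 0) {κ : ℝ → ℝ} {s : ℝ} :
    HasCompactSupport ((NN D u).indicator (fun x => κ (u x / s) * f x)) := by
  apply HasCompactSupport.intro hK
  intro x hx
  by_cases hxN : x ∈ NN D u
  · rw [indicator_of_mem hxN, hfK x hxN hx, mul_zero]
  · rw [indicator_of_notMem hxN]

lemma Sol.ind_int (h : Sol D u) (hK : IsCompact K) (hKD : K ⊆ D) (hf : ContinuousOn f (NN D u))
    (hfK : ∀ x ∈ NN D u, x ∉ K → f x = 0)
    {κ : ℝ → ℝ} (hκc : Continuous κ) (hκ : ∀ t ≤ 1, κ t = 0) {s : ℝ} (hs : 0 < s) :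
    IntegrableOn (fun x => κ (u x / s) * f x) (NN D u) := by
  rw [← integrable_indicator_iff h.meas_NN]
  exact (h.ind_cont hK hKD hf hfK hκc hκ hs).integrable_of_hasCompactSupport (Sol.ind_supp hK hfK)

lemma Sol.ind_C1 (h : Sol D u) (hK : IsCompact K) (hKD : K ⊆ D) (hf : ContDiffOn ℝ 1 f (NN D u))
    (hfK : ∀ x ∈ NN D u, x ∉ K → f x = 0) {s : ℝ} (hs : 0 < s) :
    ContDiff ℝ 1 ((NN D u).indicator (fun x => chi (u x / s) * f x)) := by
  rw [contDiff_iff_contDiffAt]
  intro x
  by_cases hx : x ∈ NN D u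
  · have h1 : (NN D u).indicator (fun x => chi (u x / s) * f x) =ᶠ[𝓝 x]
        fun x => chi (u x / s) * f x := by
      filter_upwards [h.isOpen_NN.mem_nhds hx] with y hy
      rw [indicator_of_mem hy]
    apply ContDiffAt.congr_of_eventuallyEq _ h1
    have h2 : ContDiffAt ℝ 1 u x := (h.contDiffAt hx).of_le (by norm_num)
    have h3 : ContDiffAt ℝ 1 f x := hf.contDiffAt (h.isOpen_NN.mem_nhds hx)
    have h4 : ContDiffAt ℝ 1 (fun x => chi (u x / s)) x :=
      ContDiffAt.comp (g := chi) x (chi_smooth (n := 1)).contDiffAt (h2.div_const s)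
    exact h4.mul h3
  · apply ContDiffAt.congr_of_eventuallyEq _ (h.ind_zero hK hKD hfK (fun t => chi_zero) hs hx)
    exact contDiffAt_const

lemma Sol.fderiv_ind (h : Sol D u) (hK : IsCompact K) (hKD : K ⊆ D) (hf : ContDiffOn ℝ 1 f (NN D u))
    (hfK : ∀ x ∈ NN D u, x ∉ K → f x = 0) {s : ℝ} (hs : 0 < s) (x : V) :
    fderiv ℝ ((NN D u).indicator (fun x => chi (u x / s) * f x)) x =
      (NN D u).indicator (fun x => chi (u x / s) • fderiv ℝ f x +
        (deriv chi (u x / s) / s * f x) • fderiv ℝ u x) x := by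
  by_cases hx : x ∈ NN D u
  · have h1 : (NN D u).indicator (fun x => chi (u x / s) * f x) =ᶠ[𝓝 x]
        fun x => chi (u x / s) * f x := by
      filter_upwards [h.isOpen_NN.mem_nhds hx] with y hy
      rw [indicator_of_mem hy]
    rw [h1.fderiv_eq, indicator_of_mem hx]
    have h2 : DifferentiableAt ℝ u x := h.diffAt hx
    have h3 : DifferentiableAt ℝ f x :=
      (hf.contDiffAt (h.isOpen_NN.mem_nhds hx)).differentiableAt (by norm_num)
    have h4 : HasFDerivAt (fun x => u x / s) (s⁻¹ • fderiv ℝ u x) x := by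
      have := h2.hasFDerivAt.const_mul s⁻¹
      simpa [div_eq_inv_mul] using this
    have h5 : HasFDerivAt (fun x => chi (u x / s)) (deriv chi (u x / s) • (s⁻¹ • fderiv ℝ u x)) x := by
      have := (chi_diff (u x / s)).hasDerivAt.comp_hasFDerivAt x h4
      exact this
    have h6 := h5.mul h3.hasFDerivAt
    have h7 : fderiv ℝ (fun x => chi (u x / s) * f x) x =
      chi (u x / s) • fderiv ℝ f x + f x • (deriv chi (u x / s) • (s⁻¹ • fderiv ℝ u x)) := h6.fderiv
    rw [h7]
    congr 1
    rw [smul_smul, smul_smul]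
    congr 1
    field_simp
  · rw [(h.ind_zero hK hKD hfK (fun t => chi_zero) hs hx).fderiv_eq, indicator_of_notMem hx]
    simp

lemma integral_fderiv_zero {F : V → ℝ} (hF : ContDiff ℝ 1 F) (hc : HasCompactSupport F) (w : V) :
    ∫ x, fderiv ℝ F x w = 0 := by
  have hi : Integrable (fun x => fderiv ℝ F x w) := by
    have h1 : Continuous (fun x => fderiv ℝ F x w) :=
      (hF.continuous_fderiv (by norm_num)).clm_apply continuous_const
    exact h1.integrable_of_hasCompactSupport (hc.fderiv_apply (𝕜 := ℝ) w)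
  have := integral_mul_fderiv_eq_neg_fderiv_mul_of_integrable (𝕜 := ℝ) (μ := (volume : Measure V))
    (f := fun _ : V => (1 : ℝ)) (g := F) (v := w) (by simp) (by simpa using hi)
    (by simpa using hF.continuous.integrable_of_hasCompactSupport hc)
    (fun x _ => differentiableAt_const _) (fun x _ => hF.differentiable (by norm_num) x)
  simpa using this

/-- first identity -/
lemma Sol.G1 (h : Sol D u) (hK : IsCompact K) (hKD : K ⊆ D) (hf : ContDiffOn ℝ 1 f (NN D u))
    (hfK : ∀ x ∈ NN D u, x ∉ K → f x = 0) {s : ℝ} (hs : 0 < s) (w : V) :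
    ∫ x in NN D u, chi (u x / s) * fderiv ℝ f x w =
      - ∫ x in NN D u, deriv chi (u x / s) * (fderiv ℝ u x w * f x / s) := by
  have e1 := integral_fderiv_zero (h.ind_C1 hK hKD hf hfK hs) (Sol.ind_supp hK hfK) w
  have hfd : ContinuousOn (fun x => fderiv ℝ f x w) (NN D u) :=
    (hf.continuousOn_fderiv_of_isOpen h.isOpen_NN (by norm_num)).clm_apply continuousOn_const
  have hfdK : ∀ x ∈ NN D u, x ∉ K → fderiv ℝ f x w = 0 := by
    intro x hx hxK
    have h1 : f =ᶠ[𝓝 x] fun _ => (0 : ℝ) := by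
      filter_upwards [h.isOpen_NN.mem_nhds hx, hK.isClosed.isOpen_compl.mem_nhds hxK] with y hy hyK
      exact hfK y hy hyK
    rw [h1.fderiv_eq]
    simp
  have hud : ContinuousOn (fun x => fderiv ℝ u x w * f x / s) (NN D u) := by
    refine ContinuousOn.div_const (ContinuousOn.mul ?_ hf.continuousOn) s
    exact (h.smooth.continuousOn_fderiv_of_isOpen h.isOpen_NN (by norm_num)).clm_apply
      continuousOn_const
  have i1 := h.ind_int hK hKD hfd hfdK (chi_smooth (n := 0)).continuous (fun t => chi_zero) hs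
  have i2 := h.ind_int hK hKD hud (fun x hx hxK => by rw [hfK x hx hxK]; simp) dchi_cont
    (fun t => dchi_zero) hs
  have e2 : ∀ x, fderiv ℝ ((NN D u).indicator (fun x => chi (u x / s) * f x)) x w =
      (NN D u).indicator (fun x => chi (u x / s) * fderiv ℝ f x w +
        deriv chi (u x / s) * (fderiv ℝ u x w * f x / s)) x := by
    intro x
    rw [h.fderiv_ind hK hKD hf hfK hs x]
    by_cases hx : x ∈ NN D u
    · rw [indicator_of_mem hx, indicator_of_mem hx]
      simp only [ContinuousLinearMap.add_apply, ContinuousLinearMap.smul_apply, smul_eq_mul]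
      ring
    · rw [indicator_of_notMem hx, indicator_of_notMem hx]
      simp
  simp_rw [e2] at e1
  rw [integral_indicator h.meas_NN, integral_add i1 i2] at e1
  linarith

end

end Pool.Agent.D0H33.FB
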