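import Pool.Agent.D0H33.FB.A02

set_option autoImplicit false

open Set Metric Filter Topology MeasureTheory
open ExtStar (lap)

namespace Pool.Agent.D0H33.FB

noncomputable section

/-- the gradient -/
def gr (f : V → ℝ) (x : V) : V := (InnerProductSpace.toDual ℝ V).symm (fderiv ℝ f x)

/-- the standard basis -/
def ee (i : Fin 3) : V := EuclideanSpace.single i (1 : ℝ)

lemma gr_inner (f : V → ℝ) (x w : V) : inner ℝ (gr f x) w = fderiv ℝ f x w := by
  unfold gr
  exact InnerProductSpace.toDual_symm_apply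

lemma gr_norm (f : V → ℝ) (x : V) : ‖gr f x‖ = ‖fderiv ℝ f x‖ := by
  unfold gr
  exact LinearIsometryEquiv.norm_map _ _

lemma fderiv_gr (f : V → ℝ) (x : V) : fderiv ℝ f x (gr f x) = ‖gr f x‖ ^ 2 := by
  rw [← gr_inner, real_inner_self_eq_norm_sq]

lemma gr_coord (f : V → ℝ) (x : V) (i : Fin 3) : gr f x i = fderiv ℝ f x (ee i) := by
  rw [← gr_inner]
  unfold ee
  rw [EuclideanSpace.inner_single_right]
  simp

lemma clm_sum (T : V →L[ℝ] ℝ) (w : V) : T w = ∑ i, w i * T (ee i) := by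
  conv_lhs => rw [← (EuclideanSpace.basisFun (Fin 3) ℝ).sum_repr w]
  rw [map_sum]
  apply Finset.sum_congr rfl
  intro i _
  rw [map_smul, smul_eq_mul]
  simp [ee]

lemma gr_norm_sq (f : V → ℝ) (x : V) : ‖gr f x‖ ^ 2 = ∑ i, (fderiv ℝ f x (ee i)) ^ 2 := by
  rw [EuclideanSpace.norm_sq_eq]
  apply Finset.sum_congr rfl
  intro i _
  rw [gr_coord]
  simp

lemma lap_eq {f : V → ℝ} {x : V} (hf : ContDiffAt ℝ 2 f x) :
    lap f x = ∑ i, fderiv ℝ (fun y => fderiv ℝ f y (ee i)) x (ee i) := by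
  unfold lap
  apply Finset.sum_congr rfl
  intro i _
  rw [iteratedFDeriv_two_apply]
  have h1 : DifferentiableAt ℝ (fderiv ℝ f) x :=
    (hf.fderiv_right (m := 1) (by norm_num)).differentiableAt (by norm_num)
  have h2 : HasFDerivAt (fun y => fderiv ℝ f y (ee i))
      ((fderiv ℝ (fderiv ℝ f) x).flip (ee i)) x := by
    have := h1.hasFDerivAt.clm_apply (hasFDerivAt_const (ee i) x)
    simpa using this
  rw [h2.fderiv]
  rfl

lemma second_symm {f : V → ℝ} {x : V} (hf : ContDiffAt ℝ 2 f x) (v w : V) :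
    fderiv ℝ (fun y => fderiv ℝ f y v) x w = fderiv ℝ (fun y => fderiv ℝ f y w) x v := by
  have h1 : DifferentiableAt ℝ (fderiv ℝ f) x :=
    (hf.fderiv_right (m := 1) (by norm_num)).differentiableAt (by norm_num)
  have h2 : ∀ v : V, HasFDerivAt (fun y => fderiv ℝ f y v)
      ((fderiv ℝ (fderiv ℝ f) x).flip v) x := by
    intro v
    have := h1.hasFDerivAt.clm_apply (hasFDerivAt_const v x)
    simpa using this
  rw [(h2 v).fderiv, (h2 w).fderiv]
  have hs : IsSymmSndFDerivAt ℝ f x := hf.isSymmSndFDerivAt (by simp)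
  exact hs w v

variable {D : Set V} {u : V → ℝ} {K : Set V} {f g : V → ℝ}

/-- approximate surface integrals -/
def ms (D : Set V) (u : V → ℝ) (s : ℝ) (f : V → ℝ) : ℝ :=
  ∫ x in NN D u, deriv chi (u x / s) * (f x / s)

lemma Sol.dir_C1 (h : Sol D u) (w : V) : ContDiffOn ℝ 1 (fun x => fderiv ℝ u x w) (NN D u) :=
  (h.smooth.fderiv_of_isOpen h.isOpen_NN (by norm_num)).clm_apply contDiffOn_const

lemma Sol.nsq_C1 (h : Sol D u) : ContDiffOn ℝ 1 (fun x => ‖gr u x‖ ^ 2) (NN D u) := by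
  have : (fun x => ‖gr u x‖ ^ 2) = fun x => ∑ i, (fderiv ℝ u x (ee i)) ^ 2 := by
    funext x; exact gr_norm_sq u x
  rw [this]
  exact ContDiffOn.sum fun i _ => (h.dir_C1 (ee i)).pow 2

/-- divergence form of the first identity -/
lemma Sol.G2 (h : Sol D u) (hK : IsCompact K) (hKD : K ⊆ D) {F : Fin 3 → V → ℝ}
    (hf : ∀ i, ContDiffOn ℝ 1 (F i) (NN D u))
    (hfK : ∀ i, ∀ x ∈ NN D u, x ∉ K → F i x = 0) {s : ℝ} (hs : 0 < s) :
    ∫ x in NN D u, chi (u x / s) * (∑ i, fderiv ℝ (F i) x (ee i)) =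
      - ms D u s (fun x => ∑ i, fderiv ℝ u x (ee i) * F i x) := by
  have i1 : ∀ i, IntegrableOn (fun x => chi (u x / s) * fderiv ℝ (F i) x (ee i)) (NN D u) := by
    intro i
    have hfd : ContinuousOn (fun x => fderiv ℝ (F i) x (ee i)) (NN D u) :=
      ((hf i).continuousOn_fderiv_of_isOpen h.isOpen_NN (by norm_num)).clm_apply continuousOn_const
    refine h.ind_int hK hKD hfd ?_ (chi_smooth (n := 0)).continuous (fun t => chi_zero) hs
    intro x hx hxK
    have h1 : F i =ᶠ[𝓝 x] fun _ => (0 : ℝ) := by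
      filter_upwards [h.isOpen_NN.mem_nhds hx, hK.isClosed.isOpen_compl.mem_nhds hxK] with y hy hyK
      exact hfK i y hy hyK
    rw [h1.fderiv_eq]
    simp
  have i2 : ∀ i, IntegrableOn (fun x => deriv chi (u x / s) * (fderiv ℝ u x (ee i) * F i x / s))
      (NN D u) := by
    intro i
    refine h.ind_int hK hKD ?_ (fun x hx hxK => by rw [hfK i x hx hxK]; simp) dchi_cont
      (fun t => dchi_zero) hs
    exact ((h.dir_C1 (ee i)).continuousOn.mul (hf i).continuousOn).div_const s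
  simp_rw [Finset.mul_sum]
  rw [integral_finset_sum _ (fun i _ => i1 i)]
  simp_rw [h.G1 hK hKD (hf _) (hfK _) hs]
  rw [Finset.sum_neg_distrib, ← integral_finset_sum _ (fun i _ => i2 i)]
  unfold ms
  congr 1
  apply integral_congr_ae
  filter_upwards with x
  rw [Finset.sum_div, Finset.mul_sum]

/-- outer variation with cut off -/
lemma Sol.OVs (h : Sol D u) (hK : IsCompact K) (hKD : K ⊆ D) (hf : ContDiffOn ℝ 1 f (NN D u))
    (hfK : ∀ x ∈ NN D u, x ∉ K → f x = 0) {s : ℝ} (hs : 0 < s) :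
    ∫ x in NN D u, chi (u x / s) * fderiv ℝ f x (gr u x) =
      - ms D u s (fun x => ‖gr u x‖ ^ 2 * f x) := by
  have e := h.G2 hK hKD (F := fun i x => f x * fderiv ℝ u x (ee i))
    (fun i => hf.mul (h.dir_C1 (ee i))) (fun i x hx hxK => by rw [hfK x hx hxK]; ring) hs
  have e1 : ∀ x ∈ NN D u, (∑ i, fderiv ℝ (fun x => f x * fderiv ℝ u x (ee i)) x (ee i)) =
      fderiv ℝ f x (gr u x) := by
    intro x hx
    have d1 : DifferentiableAt ℝ f x :=
      (hf.contDiffAt (h.isOpen_NN.mem_nhds hx)).differentiableAt (by norm_num)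
    have d2 : ∀ i, DifferentiableAt ℝ (fun x => fderiv ℝ u x (ee i)) x := fun i =>
      ((h.dir_C1 (ee i)).contDiffAt (h.isOpen_NN.mem_nhds hx)).differentiableAt (by norm_num)
    have e2 : ∀ i, fderiv ℝ (fun x => f x * fderiv ℝ u x (ee i)) x (ee i) =
        f x * fderiv ℝ (fun x => fderiv ℝ u x (ee i)) x (ee i) +
          gr u x i * fderiv ℝ f x (ee i) := by
      intro i
      rw [fderiv_fun_mul d1 (d2 i), gr_coord]
      simp only [_root_.add_apply, _root_.smul_apply, smul_eq_mul]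
    simp_rw [e2]
    rw [Finset.sum_add_distrib, ← Finset.mul_sum, ← lap_eq (h.contDiffAt hx), h.harm x hx,
      ← clm_sum]
    ring
  have e3 : (fun x => ∑ i, fderiv ℝ u x (ee i) * (f x * fderiv ℝ u x (ee i))) =
      fun x => ‖gr u x‖ ^ 2 * f x := by
    funext x
    rw [gr_norm_sq, Finset.sum_mul]
    apply Finset.sum_congr rfl
    intro i _
    ring
  rw [e3] at e
  rw [← e]
  apply setIntegral_congr_fun h.meas_NN
  intro x hx
  simp only
  rw [e1 x hx]

/-- translation variation with cut off -/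
lemma Sol.LVs (h : Sol D u) (hK : IsCompact K) (hKD : K ⊆ D) (hf : ContDiffOn ℝ 1 f (NN D u))
    (hfK : ∀ x ∈ NN D u, x ∉ K → f x = 0) {s : ℝ} (hs : 0 < s) (w : V) :
    ∫ x in NN D u, chi (u x / s) * fderiv ℝ f x w =
      - ms D u s (fun x => fderiv ℝ u x w * f x) := h.G1 hK hKD hf hfK hs w

/-- inner variation with cut off -/
lemma Sol.IVs (h : Sol D u) (hK : IsCompact K) (hKD : K ⊆ D) (hf : ContDiffOn ℝ 1 f (NN D u))
    (hfK : ∀ x ∈ NN D u, x ∉ K → f x = 0) {s : ℝ} (hs : 0 < s) (w : V) :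
    ∫ x in NN D u, chi (u x / s) * ((‖gr u x‖ ^ 2 + 1) * fderiv ℝ f x w -
        2 * fderiv ℝ u x w * fderiv ℝ f x (gr u x)) =
      - ms D u s (fun x => (1 - ‖gr u x‖ ^ 2) * fderiv ℝ u x w * f x) := by
  have e := h.G2 hK hKD
    (F := fun i x => (‖gr u x‖ ^ 2 + 1) * (f x * w i) -
      (2 * (f x * fderiv ℝ u x w)) * fderiv ℝ u x (ee i))
    (fun i => ((h.nsq_C1.add contDiffOn_const).mul (hf.mul contDiffOn_const)).sub
      ((contDiffOn_const.mul (hf.mul (h.dir_C1 w))).mul (h.dir_C1 (ee i))))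
    (fun i x hx hxK => by rw [hfK x hx hxK]; ring) hs
  have e1 : ∀ x ∈ NN D u, (∑ i, fderiv ℝ (fun x => (‖gr u x‖ ^ 2 + 1) * (f x * w i) -
      (2 * (f x * fderiv ℝ u x w)) * fderiv ℝ u x (ee i)) x (ee i)) =
      (‖gr u x‖ ^ 2 + 1) * fderiv ℝ f x w - 2 * fderiv ℝ u x w * fderiv ℝ f x (gr u x) := by
    intro x hx
    have hxN := h.isOpen_NN.mem_nhds hx
    have d1 : DifferentiableAt ℝ f x := (hf.contDiffAt hxN).differentiableAt (by norm_num)
    have d2 : ∀ v, DifferentiableAt ℝ (fun x => fderiv ℝ u x v) x := fun v =>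
      ((h.dir_C1 v).contDiffAt hxN).differentiableAt (by norm_num)
    have d3 : DifferentiableAt ℝ (fun x => ‖gr u x‖ ^ 2) x :=
      (h.nsq_C1.contDiffAt hxN).differentiableAt (by norm_num)
    have f3 : fderiv ℝ (fun x => ‖gr u x‖ ^ 2) x =
        ∑ j, (2 * fderiv ℝ u x (ee j)) • fderiv ℝ (fun x => fderiv ℝ u x (ee j)) x := by
      have : (fun x => ‖gr u x‖ ^ 2) = fun x => ∑ i, (fderiv ℝ u x (ee i)) ^ 2 := by
        funext x; exact gr_norm_sq u x
      rw [this]
      have h4 : HasFDerivAt (fun x => ∑ i, (fderiv ℝ u x (ee i)) ^ 2)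
          (∑ j, (2 * fderiv ℝ u x (ee j)) • fderiv ℝ (fun x => fderiv ℝ u x (ee j)) x) x := by
        apply HasFDerivAt.fun_sum
        intro j _
        have := (d2 (ee j)).hasFDerivAt.pow 2
        simpa using this
      exact h4.fderiv
    have e2 : ∀ i, fderiv ℝ (fun x => (‖gr u x‖ ^ 2 + 1) * (f x * w i) -
        (2 * (f x * fderiv ℝ u x w)) * fderiv ℝ u x (ee i)) x (ee i) =
        (f x * w i) * (∑ j, (2 * fderiv ℝ u x (ee j)) *
          fderiv ℝ (fun x => fderiv ℝ u x (ee j)) x (ee i)) +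
        (‖gr u x‖ ^ 2 + 1) * (w i * fderiv ℝ f x (ee i)) -
        (2 * (f x * fderiv ℝ u x w) * fderiv ℝ (fun x => fderiv ℝ u x (ee i)) x (ee i) +
          2 * (f x * fderiv ℝ (fun x => fderiv ℝ u x w) x (ee i) +
            fderiv ℝ u x w * fderiv ℝ f x (ee i)) * fderiv ℝ u x (ee i)) := by
      intro i
      have a1 : HasFDerivAt (fun x => (‖gr u x‖ ^ 2 + 1) * (f x * w i) -
        (2 * (f x * fderiv ℝ u x w)) * fderiv ℝ u x (ee i))
        (((‖gr u x‖ ^ 2 + 1) • (w i • fderiv ℝ f x) + (f x * w i) • fderiv ℝ (fun x => ‖gr u x‖ ^ 2) x)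
        - ((2 * (f x * fderiv ℝ u x w)) • fderiv ℝ (fun x => fderiv ℝ u x (ee i)) x +
          (fderiv ℝ u x (ee i)) • ((2 : ℝ) • (f x • fderiv ℝ (fun x => fderiv ℝ u x w) x +
            (fderiv ℝ u x w) • fderiv ℝ f x)))) x := by
        refine HasFDerivAt.sub ?_ ?_
        · exact (d3.hasFDerivAt.add_const 1).mul (d1.hasFDerivAt.mul_const (w i))
        · exact ((d1.hasFDerivAt.mul (d2 w).hasFDerivAt).const_mul 2).mul (d2 (ee i)).hasFDerivAt
      rw [a1.fderiv, f3]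
      simp only [_root_.add_apply, _root_.sub_apply, _root_.smul_apply, smul_eq_mul,
        ContinuousLinearMap.sum_apply]
      ring
    simp_rw [e2]
    rw [Finset.sum_sub_distrib, Finset.sum_add_distrib, Finset.sum_add_distrib,
      ← Finset.mul_sum, ← Finset.mul_sum, ← lap_eq (h.contDiffAt hx), h.harm x hx, ← clm_sum]
    have s1 : ∑ i, (f x * w i) * (∑ j, (2 * fderiv ℝ u x (ee j)) *
          fderiv ℝ (fun x => fderiv ℝ u x (ee j)) x (ee i)) =
        2 * f x * ∑ j, fderiv ℝ u x (ee j) * fderiv ℝ (fun x => fderiv ℝ u x w) x (ee j) := by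
      simp_rw [Finset.mul_sum]
      rw [Finset.sum_comm]
      apply Finset.sum_congr rfl
      intro j _
      rw [← second_symm (h.contDiffAt hx) (ee j) w, clm_sum _ w, Finset.mul_sum, Finset.mul_sum]
      apply Finset.sum_congr rfl
      intro i _
      ring
    have s2 : ∑ i, 2 * (f x * fderiv ℝ (fun x => fderiv ℝ u x w) x (ee i) +
            fderiv ℝ u x w * fderiv ℝ f x (ee i)) * fderiv ℝ u x (ee i) =
        2 * f x * (∑ j, fderiv ℝ u x (ee j) * fderiv ℝ (fun x => fderiv ℝ u x w) x (ee j)) +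
          2 * fderiv ℝ u x w * fderiv ℝ f x (gr u x) := by
      rw [clm_sum (fderiv ℝ f x) (gr u x), Finset.mul_sum, Finset.mul_sum, ← Finset.sum_add_distrib]
      apply Finset.sum_congr rfl
      intro i _
      rw [gr_coord]
      ring
    rw [s1, s2]
    ring
  have e3 : (fun x => ∑ i, fderiv ℝ u x (ee i) * ((‖gr u x‖ ^ 2 + 1) * (f x * w i) -
      (2 * (f x * fderiv ℝ u x w)) * fderiv ℝ u x (ee i))) =
      fun x => (1 - ‖gr u x‖ ^ 2) * fderiv ℝ u x w * f x := by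
    funext x
    have t1 : ∑ i, fderiv ℝ u x (ee i) * ((‖gr u x‖ ^ 2 + 1) * (f x * w i) -
      (2 * (f x * fderiv ℝ u x w)) * fderiv ℝ u x (ee i)) =
      (‖gr u x‖ ^ 2 + 1) * f x * (∑ i, w i * fderiv ℝ u x (ee i)) -
        2 * (f x * fderiv ℝ u x w) * ∑ i, (fderiv ℝ u x (ee i)) ^ 2 := by
      rw [Finset.mul_sum, Finset.mul_sum, ← Finset.sum_sub_distrib]
      apply Finset.sum_congr rfl
      intro i _
      ring
    rw [t1, ← gr_norm_sq, ← clm_sum]
    ring
  rw [e3] at e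
  rw [← e]
  apply setIntegral_congr_fun h.meas_NN
  intro x hx
  simp only
  rw [e1 x hx]

end

end Pool.Agent.D0H33.FB
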