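import Pool.Agent.D0H33.FB.A03

set_option autoImplicit false

open Set Metric Filter Topology MeasureTheory
open scoped Manifold ContDiff
open ExtStar (lap)

namespace Pool.Agent.D0H33.FB

noncomputable section

lemma exists_bump {K D : Set V} (hK : IsCompact K) (hD : IsOpen D) (hKD : K ⊆ D) :
    ∃ (Φ : V → ℝ) (K' : Set V), ContDiff ℝ 2 Φ ∧ IsCompact K' ∧ K' ⊆ D ∧ (∀ x ∈ K, Φ x = 1) ∧
      (∀ x ∉ K', Φ x = 0) ∧ ∀ x, 0 ≤ Φ x ∧ Φ x ≤ 1 := by
  obtain ⟨K', hK', h1, h2⟩ := exists_compact_between hK hD hKD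
  obtain ⟨f, hf1, hf2, hf3⟩ := exists_contMDiffMap_one_nhds_of_subset_interior (n := 2)
    (𝓘(ℝ, V)) hK.isClosed h1
  refine ⟨f, K', ?_, hK', h2, fun x hx => hf1.self_of_nhdsSet x hx, hf2, hf3⟩
  exact_mod_cast f.contMDiff.contDiff

lemma le_op (T : V →L[ℝ] ℝ) (w : V) : |T w| ≤ ‖T‖ * ‖w‖ := by
  rw [← Real.norm_eq_abs]
  exact T.le_opNorm w

lemma cmul {f : V → ℝ} {S : Set V} (hf : ContinuousOn f S) (c : ℝ) :
    ContinuousOn (fun x => c * f x) S := continuousOn_const.mul hf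

variable {D : Set V} {u : V → ℝ} {K : Set V} {f g : V → ℝ}

/-- the gradient is bounded on compact sets -/
lemma Sol.grad_bd (h : Sol D u) (hK : IsCompact K) (hKD : K ⊆ D) :
    ∃ C : ℝ, 0 < C ∧ ∀ x ∈ NN D u, x ∈ K → ‖gr u x‖ ≤ C := by
  obtain ⟨r, hr, h1⟩ := h.near_FF hK hKD (Q := fun x => |‖fderiv ℝ u x‖ - 1| < 1)
    (fun p hp => h.grad_near hp.1 one_pos)
  have hK2 : IsCompact (K ∩ {x | r ≤ u x}) := by
    have : K ∩ {x | r ≤ u x} = K ∩ u ⁻¹' (Ici r) := rfl
    rw [this]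
    exact hK.of_isClosed_subset
      ((h.cont.mono hKD).preimage_isClosed_of_isClosed hK.isClosed isClosed_Ici) inter_subset_left
  have h2 : K ∩ {x | r ≤ u x} ⊆ NN D u := fun x hx => ⟨hKD hx.1, hr.trans_le hx.2⟩
  obtain ⟨C, hC⟩ := hK2.exists_bound_of_continuousOn (f := fderiv ℝ u)
    ((h.smooth.continuousOn_fderiv_of_isOpen h.isOpen_NN (by norm_num)).mono h2)
  refine ⟨max C 2, by positivity, fun x hx hxK => ?_⟩
  rw [gr_norm]
  by_cases hxr : r ≤ u x
  · exact (hC x ⟨hxK, hxr⟩).trans (le_max_left _ _)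
  · have := abs_lt.1 (h1 x hx hxK (not_le.1 hxr))
    exact le_trans (by linarith) (le_max_right _ _)

/-- first variation of the Dirichlet energy: the surface measure -/
def sig (D : Set V) (u : V → ℝ) (f : V → ℝ) : ℝ := - ∫ x in NN D u, fderiv ℝ f x (gr u x)

/-- first variation of the volume -/
def lam (D : Set V) (u : V → ℝ) (w : V) (f : V → ℝ) : ℝ := - ∫ x in NN D u, fderiv ℝ f x w

/-- continuous functions on the positive phase which are bounded and vanish off `K` -/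
structure BC (D : Set V) (u : V → ℝ) (K : Set V) (f : V → ℝ) : Prop where
  cont : ContinuousOn f (NN D u)
  bd : ∃ C : ℝ, ∀ x ∈ NN D u, x ∈ K → |f x| ≤ C
  supp : ∀ x ∈ NN D u, x ∉ K → f x = 0

lemma BC.integrable (h : Sol D u) (hK : IsCompact K) (hf : BC D u K f) :
    IntegrableOn f (NN D u) := by
  obtain ⟨C, hC⟩ := hf.bd
  have h1 : IntegrableOn (K.indicator (fun _ : V => C)) (NN D u) := by
    refine Integrable.integrableOn ?_
    rw [integrable_indicator_iff hK.measurableSet]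
    exact integrableOn_const (hs := hK.measure_lt_top.ne)
  refine h1.mono' (hf.cont.aestronglyMeasurable h.meas_NN) ?_
  rw [ae_restrict_iff' h.meas_NN]
  filter_upwards with x hx
  by_cases hxK : x ∈ K
  · rw [indicator_of_mem hxK]; exact hC x hx hxK
  · rw [indicator_of_notMem hxK, hf.supp x hx hxK]; simp

lemma BC.mul (hf : BC D u K f) (hg : ContinuousOn g (NN D u))
    (hgb : ∃ C : ℝ, ∀ x ∈ NN D u, x ∈ K → |g x| ≤ C) : BC D u K (fun x => f x * g x) := by
  obtain ⟨C, hC⟩ := hf.bd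
  obtain ⟨C', hC'⟩ := hgb
  refine ⟨hf.cont.mul hg, ⟨C * C', fun x hx hxK => ?_⟩,
    fun x hx hxK => by rw [hf.supp x hx hxK, zero_mul]⟩
  rw [abs_mul]
  exact mul_le_mul (hC x hx hxK) (hC' x hx hxK) (abs_nonneg _) ((abs_nonneg _).trans (hC x hx hxK))

lemma BC.add (hf : BC D u K f) (hg : BC D u K g) : BC D u K (fun x => f x + g x) := by
  obtain ⟨C, hC⟩ := hf.bd
  obtain ⟨C', hC'⟩ := hg.bd
  refine ⟨hf.cont.add hg.cont, ⟨C + C', fun x hx hxK => ?_⟩,
    fun x hx hxK => by rw [hf.supp x hx hxK, hg.supp x hx hxK, add_zero]⟩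
  exact (abs_add_le _ _).trans (add_le_add (hC x hx hxK) (hC' x hx hxK))

lemma BC.const_mul (hf : BC D u K f) (c : ℝ) : BC D u K (fun x => c * f x) := by
  obtain ⟨C, hC⟩ := hf.bd
  refine ⟨continuousOn_const.mul hf.cont, ⟨|c| * C, fun x hx hxK => ?_⟩,
    fun x hx hxK => by rw [hf.supp x hx hxK, mul_zero]⟩
  rw [abs_mul]
  exact mul_le_mul_of_nonneg_left (hC x hx hxK) (abs_nonneg _)

lemma BC.sub (hf : BC D u K f) (hg : BC D u K g) : BC D u K (fun x => f x - g x) := by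
  have := hf.add (hg.const_mul (-1))
  have e : (fun x => f x - g x) = fun x => f x + (-1) * g x := by funext x; ring
  rw [e]; exact this

lemma TF.toBC (hf : TF D u K f) : BC D u K f :=
  ⟨hf.smooth.continuousOn, by obtain ⟨C, hC⟩ := hf.bd; exact ⟨C, fun x hx hxK => (hC x hx hxK).1⟩,
    hf.supp⟩

lemma TF.BC_dir (h : Sol D u) (hK : IsCompact K) (hf : TF D u K f) (w : V) :
    BC D u K (fun x => fderiv ℝ f x w) := by
  refine ⟨(hf.smooth.continuousOn_fderiv_of_isOpen h.isOpen_NN (by norm_num)).clm_apply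
    continuousOn_const, ?_, ?_⟩
  · obtain ⟨C, hC⟩ := hf.bd
    refine ⟨C * ‖w‖, fun x hx hxK => ?_⟩
    exact (le_op _ _).trans
      (mul_le_mul_of_nonneg_right (hC x hx hxK).2 (norm_nonneg _))
  · intro x hx hxK
    rw [hf.fderiv_zero h hK.isClosed hx hxK]; simp

lemma Sol.gr_cont (h : Sol D u) : ContinuousOn (gr u) (NN D u) := by
  have h1 : ContinuousOn (fderiv ℝ u) (NN D u) :=
    h.smooth.continuousOn_fderiv_of_isOpen h.isOpen_NN (by norm_num)
  exact (LinearIsometryEquiv.continuous _).comp_continuousOn h1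

lemma TF.BC_gr (h : Sol D u) (hK : IsCompact K) (hKD : K ⊆ D) (hf : TF D u K f) :
    BC D u K (fun x => fderiv ℝ f x (gr u x)) := by
  refine ⟨(hf.smooth.continuousOn_fderiv_of_isOpen h.isOpen_NN (by norm_num)).clm_apply
    h.gr_cont, ?_, ?_⟩
  · obtain ⟨C, hC⟩ := hf.bd
    obtain ⟨C', hC'0, hC'⟩ := h.grad_bd hK hKD
    refine ⟨C * C', fun x hx hxK => ?_⟩
    refine (le_op _ _).trans ?_
    exact mul_le_mul (hC x hx hxK).2 (hC' x hx hxK) (norm_nonneg _)
      ((norm_nonneg _).trans (hC x hx hxK).2)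
  · intro x hx hxK
    rw [hf.fderiv_zero h hK.isClosed hx hxK]; simp

lemma BC.cut_lim (h : Sol D u) (hK : IsCompact K) (hg : BC D u K g) :
    Tendsto (fun s : ℝ => ∫ x in NN D u, chi (u x / s) * g x) (𝓝[>] 0)
      (𝓝 (∫ x in NN D u, g x)) := by
  have hcu : ContinuousOn u (NN D u) := h.smooth.continuousOn
  apply tendsto_integral_filter_of_dominated_convergence (fun x => |g x|)
  · filter_upwards with s
    have h1 : ContinuousOn (fun x => chi (u x / s) * g x) (NN D u) :=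
      ((chi_smooth (n := 0)).continuous.comp_continuousOn (hcu.div_const s)).mul hg.cont
    exact h1.aestronglyMeasurable h.meas_NN
  · filter_upwards with s
    filter_upwards with x
    rw [norm_mul, Real.norm_eq_abs, Real.norm_eq_abs, abs_of_nonneg (chi_nonneg _)]
    exact mul_le_of_le_one_left (abs_nonneg _) (chi_le_one _)
  · exact (hg.integrable h hK).abs
  · rw [ae_restrict_iff' h.meas_NN]
    filter_upwards with x hx
    have h2 : ∀ᶠ s : ℝ in 𝓝[>] 0, chi (u x / s) * g x = g x := by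
      have h3 : ∀ᶠ s : ℝ in 𝓝[>] (0 : ℝ), s < u x / 2 := by
        have : Iio (u x / 2) ∈ 𝓝 (0 : ℝ) := Iio_mem_nhds (half_pos hx.2)
        exact mem_nhdsWithin_of_mem_nhds this
      filter_upwards [h3, self_mem_nhdsWithin] with s hs hs0
      have hs0' : (0 : ℝ) < s := hs0
      rw [chi_one, one_mul]
      rw [le_div_iff₀ hs0']
      linarith
    exact (tendsto_congr' h2).2 tendsto_const_nhds

lemma TF.OVlim (h : Sol D u) (hK : IsCompact K) (hKD : K ⊆ D) (hf : TF D u K f) :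
    Tendsto (fun s : ℝ => ms D u s (fun x => ‖gr u x‖ ^ 2 * f x)) (𝓝[>] 0) (𝓝 (sig D u f)) := by
  have h1 := ((hf.BC_gr h hK hKD).cut_lim h hK).neg
  refine h1.congr' ?_
  filter_upwards [self_mem_nhdsWithin] with s hs
  rw [h.OVs hK hKD hf.smooth hf.supp hs, neg_neg]

lemma TF.LVlim (h : Sol D u) (hK : IsCompact K) (hKD : K ⊆ D) (hf : TF D u K f) (w : V) :
    Tendsto (fun s : ℝ => ms D u s (fun x => fderiv ℝ u x w * f x)) (𝓝[>] 0)
      (𝓝 (lam D u w f)) := by
  have h1 := ((hf.BC_dir h hK w).cut_lim h hK).neg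
  refine h1.congr' ?_
  filter_upwards [self_mem_nhdsWithin] with s hs
  rw [h.LVs hK hKD hf.smooth hf.supp hs, neg_neg]

lemma Sol.ms_int (h : Sol D u) (hK : IsCompact K) (hKD : K ⊆ D) (hf : ContinuousOn f (NN D u))
    (hfK : ∀ x ∈ NN D u, x ∉ K → f x = 0) {s : ℝ} (hs : 0 < s) :
    IntegrableOn (fun x => deriv chi (u x / s) * (f x / s)) (NN D u) :=
  h.ind_int hK hKD (hf.div_const s) (fun x hx hxK => by rw [hfK x hx hxK, zero_div]) dchi_cont
    (fun t => dchi_zero) hs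

/-- positivity of approximate surface integrals -/
lemma Sol.ms_nonneg (h : Sol D u) {s r : ℝ} (hs : 0 < s) (hr : 2 * s < r)
    (hf : ∀ x ∈ NN D u, u x < r → 0 ≤ f x) : 0 ≤ ms D u s f := by
  unfold ms
  apply setIntegral_nonneg h.meas_NN
  intro x hx
  by_cases h2 : 2 ≤ u x / s
  · rw [dchi_zero' h2, zero_mul]
  · rw [not_le, div_lt_iff₀ hs] at h2
    exact mul_nonneg (dchi_nonneg _) (div_nonneg (hf x hx (h2.trans hr)) hs.le)

lemma Sol.ms_add (h : Sol D u) (hK : IsCompact K) (hKD : K ⊆ D) (hf : ContinuousOn f (NN D u))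
    (hfK : ∀ x ∈ NN D u, x ∉ K → f x = 0) (hg : ContinuousOn g (NN D u))
    (hgK : ∀ x ∈ NN D u, x ∉ K → g x = 0) {s : ℝ} (hs : 0 < s) :
    ms D u s (fun x => f x + g x) = ms D u s f + ms D u s g := by
  unfold ms
  rw [← integral_add (h.ms_int hK hKD hf hfK hs) (h.ms_int hK hKD hg hgK hs)]
  congr 1
  funext x
  ring

lemma ms_const_mul (c s : ℝ) : ms D u s (fun x => c * f x) = c * ms D u s f := by
  unfold ms
  rw [← integral_const_mul]
  congr 1
  funext x
  ring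

lemma TF.cont_gr (h : Sol D u) (hf : TF D u K f) :
    ContinuousOn (fun x => ‖gr u x‖ ^ 2 * f x) (NN D u) :=
  h.nsq_C1.continuousOn.mul hf.smooth.continuousOn

lemma TF.cont_dir (h : Sol D u) (hf : TF D u K f) (w : V) :
    ContinuousOn (fun x => fderiv ℝ u x w * f x) (NN D u) :=
  (h.dir_C1 w).continuousOn.mul hf.smooth.continuousOn

/-- near the free boundary, inside a compact set, the gradient has length about one -/
lemma Sol.near_one (h : Sol D u) (hK : IsCompact K) (hKD : K ⊆ D) {η : ℝ} (hη : 0 < η) :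
    ∃ r : ℝ, 0 < r ∧ ∀ x ∈ NN D u, x ∈ K → u x < r → |‖gr u x‖ - 1| < η := by
  obtain ⟨r, hr, h1⟩ := h.near_FF hK hKD (Q := fun x => |‖fderiv ℝ u x‖ - 1| < η)
    (fun p hp => h.grad_near hp.1 hη)
  refine ⟨r, hr, fun x hx hxK hxr => ?_⟩
  rw [gr_norm]
  exact h1 x hx hxK hxr

/-- main comparison lemma -/
lemma TF.lam_le (h : Sol D u) (hK : IsCompact K) (hKD : K ⊆ D) (hf : TF D u K f) (w : V)
    {r : ℝ} (hr : 0 < r) (hf0 : ∀ x ∈ NN D u, u x < r → 0 ≤ f x) :
    lam D u w f ≤ ‖w‖ * sig D u f := by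
  have key : ∀ η : ℝ, 0 < η → lam D u w f ≤ ‖w‖ * (1 + η) * sig D u f := by
    intro η hη
    -- near the free boundary `‖∇u‖ ≥ 1 / (1 + η)`
    have hη2 : 0 < 1 - 1 / (1 + η) := by
      have : 1 / (1 + η) < 1 := by rw [div_lt_one (by linarith)]; linarith
      linarith
    obtain ⟨r', hr', h1⟩ := h.near_one hK hKD hη2
    have h2 : Tendsto (fun s : ℝ => ‖w‖ * (1 + η) * ms D u s (fun x => ‖gr u x‖ ^ 2 * f x) -
        ms D u s (fun x => fderiv ℝ u x w * f x)) (𝓝[>] 0)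
        (𝓝 (‖w‖ * (1 + η) * sig D u f - lam D u w f)) :=
      ((hf.OVlim h hK hKD).const_mul _).sub (hf.LVlim h hK hKD w)
    have h3 : ∀ᶠ s : ℝ in 𝓝[>] 0, 0 ≤ ‖w‖ * (1 + η) * ms D u s (fun x => ‖gr u x‖ ^ 2 * f x) -
        ms D u s (fun x => fderiv ℝ u x w * f x) := by
      have h4 : ∀ᶠ s : ℝ in 𝓝[>] (0 : ℝ), s < min r r' / 2 := by
        have : Iio (min r r' / 2) ∈ 𝓝 (0 : ℝ) := Iio_mem_nhds (half_pos (lt_min hr hr'))
        exact mem_nhdsWithin_of_mem_nhds this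
      filter_upwards [h4, self_mem_nhdsWithin] with s hs hs0
      have hs0' : (0 : ℝ) < s := hs0
      have e1 : ‖w‖ * (1 + η) * ms D u s (fun x => ‖gr u x‖ ^ 2 * f x) -
          ms D u s (fun x => fderiv ℝ u x w * f x) =
          ms D u s (fun x => ‖w‖ * (1 + η) * (‖gr u x‖ ^ 2 * f x) +
            (-1) * (fderiv ℝ u x w * f x)) := by
        rw [h.ms_add hK hKD (cmul (hf.cont_gr h) _)
          (fun x hx hxK => by rw [hf.supp x hx hxK]; ring)
          (cmul (hf.cont_dir h w) _)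
          (fun x hx hxK => by rw [hf.supp x hx hxK]; ring) hs0', ms_const_mul, ms_const_mul]
        ring
      rw [e1]
      refine h.ms_nonneg hs0' (r := min r r') (by linarith) ?_
      intro x hx hux
      by_cases hxK : x ∈ K
      · have h5 := abs_lt.1 (h1 x hx hxK (hux.trans_le (min_le_right _ _)))
        have h6 : 1 / (1 + η) ≤ ‖gr u x‖ := by linarith [h5.1]
        have h7 : 1 ≤ (1 + η) * ‖gr u x‖ := by
          rw [div_le_iff₀ (by linarith)] at h6
          linarith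
        have h8 : fderiv ℝ u x w ≤ ‖w‖ * (1 + η) * ‖gr u x‖ ^ 2 := by
          have h9 : fderiv ℝ u x w ≤ ‖gr u x‖ * ‖w‖ := by
            rw [gr_norm]
            exact (le_abs_self _).trans (le_op _ _)
          have h10 : ‖gr u x‖ * ‖w‖ * 1 ≤ ‖gr u x‖ * ‖w‖ * ((1 + η) * ‖gr u x‖) :=
            mul_le_mul_of_nonneg_left h7 (by positivity)
          nlinarith
        have h11 := hf0 x hx (hux.trans_le (min_le_left _ _))
        have h12 := mul_le_mul_of_nonneg_right h8 h11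
        nlinarith
      · rw [hf.supp x hx hxK]; simp
    have h13 := ge_of_tendsto h2 h3
    linarith
  have h14 : Tendsto (fun η : ℝ => ‖w‖ * (1 + η) * sig D u f) (𝓝[>] 0)
      (𝓝 (‖w‖ * (1 + 0) * sig D u f)) := by
    apply Tendsto.mono_left _ nhdsWithin_le_nhds
    apply Continuous.tendsto
    fun_prop
  have h15 := ge_of_tendsto h14 (by
    filter_upwards [self_mem_nhdsWithin] with η hη
    exact key η hη)
  simpa using h15

lemma TF.sig_nonneg (h : Sol D u) (hK : IsCompact K) (hKD : K ⊆ D) (hf : TF D u K f)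
    {r : ℝ} (hr : 0 < r) (hf0 : ∀ x ∈ NN D u, u x < r → 0 ≤ f x) : 0 ≤ sig D u f := by
  obtain ⟨w, hw⟩ : ∃ w : V, ‖w‖ = 1 := ⟨ee 0, by simp [ee]⟩
  have h1 := hf.lam_le h hK hKD w hr hf0
  have h2 := hf.lam_le h hK hKD (-w) hr hf0
  have e : lam D u (-w) f = - lam D u w f := by
    unfold lam
    simp_rw [map_neg]
    rw [integral_neg]
  rw [norm_neg, hw, e] at h2
  rw [hw] at h1
  linarith

lemma TF.mono (h : Sol D u) (hK : IsClosed K) (hf : TF D u K f) {K' : Set V} (hKK : K ⊆ K') :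
    TF D u K' f where
  smooth := hf.smooth
  bd := by
    obtain ⟨C, hC⟩ := hf.bd
    refine ⟨max C 0, fun x hx _ => ?_⟩
    by_cases hxK : x ∈ K
    · exact ⟨(hC x hx hxK).1.trans (le_max_left _ _), (hC x hx hxK).2.trans (le_max_left _ _)⟩
    · rw [hf.supp x hx hxK, hf.fderiv_zero h hK hx hxK]
      simp
  supp := fun x hx hxK => hf.supp x hx (fun hk => hxK (hKK hk))

/-- inner variation identity -/
lemma TF.IV (h : Sol D u) (hK : IsCompact K) (hKD : K ⊆ D) (hf : TF D u K f) (w : V) :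
    ∫ x in NN D u, ((‖gr u x‖ ^ 2 + 1) * fderiv ℝ f x w -
        2 * fderiv ℝ u x w * fderiv ℝ f x (gr u x)) = 0 := by
  obtain ⟨C, hC0, hC⟩ := h.grad_bd hK hKD
  obtain ⟨B, hB⟩ := hf.bd
  have hBC : BC D u K (fun x => (‖gr u x‖ ^ 2 + 1) * fderiv ℝ f x w -
        2 * fderiv ℝ u x w * fderiv ℝ f x (gr u x)) := by
    have a1 := (hf.BC_dir h hK w).mul (g := fun x => ‖gr u x‖ ^ 2 + 1)
      (h.nsq_C1.continuousOn.add continuousOn_const) ⟨C ^ 2 + 1, fun x hx hxK => by
        rw [abs_of_nonneg (by positivity)]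
        have := hC x hx hxK
        have := norm_nonneg (gr u x)
        nlinarith⟩
    have a2 := (hf.BC_gr h hK hKD).mul (g := fun x => 2 * fderiv ℝ u x w)
      (continuousOn_const.mul (h.dir_C1 w).continuousOn) ⟨2 * (C * ‖w‖), fun x hx hxK => by
        rw [abs_mul, abs_of_pos (by norm_num : (0:ℝ) < 2)]
        have : |fderiv ℝ u x w| ≤ ‖gr u x‖ * ‖w‖ := by
          rw [gr_norm]
          exact le_op _ _
        have := mul_le_mul_of_nonneg_right (hC x hx hxK) (norm_nonneg w)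
        linarith⟩
    have a3 := a1.sub a2
    have e : (fun x => (‖gr u x‖ ^ 2 + 1) * fderiv ℝ f x w -
        2 * fderiv ℝ u x w * fderiv ℝ f x (gr u x)) = fun x => fderiv ℝ f x w *
        (‖gr u x‖ ^ 2 + 1) - fderiv ℝ f x (gr u x) * (2 * fderiv ℝ u x w) := by
      funext x; ring
    rw [e]; exact a3
  have lim1 := hBC.cut_lim h hK
  obtain ⟨Φ, K', hΦ1, hK', hK'D, hΦK, hΦ0, hΦn⟩ := exists_bump hK h.op hKD
  have hΦ : TF D u K' Φ :=
    { toBF := BF.of_contDiff hK' (hΦ1.of_le (by norm_num)), supp := fun x _ hx => hΦ0 x hx }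
  have hKK : K ⊆ K' := fun x hx => by
    by_contra hn
    have := hΦ0 x hn
    rw [hΦK x hx] at this
    norm_num at this
  have lim2 := hΦ.OVlim h hK' hK'D
  set B' := max B 0 with hB'
  have hB'0 : 0 ≤ B' := le_max_right _ _
  -- the error term
  have key : ∀ η : ℝ, 0 < η → η < 1 / 2 → |∫ x in NN D u, ((‖gr u x‖ ^ 2 + 1) * fderiv ℝ f x w -
        2 * fderiv ℝ u x w * fderiv ℝ f x (gr u x))| ≤ η * (20 * (‖w‖ * B') * sig D u Φ) := by
    intro η hη hη1
    obtain ⟨r, hr, h1⟩ := h.near_one hK' hK'D hη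
    have lim3 : Tendsto (fun s : ℝ => η * (20 * (‖w‖ * B') *
        ms D u s (fun x => ‖gr u x‖ ^ 2 * Φ x))) (𝓝[>] 0)
        (𝓝 (η * (20 * (‖w‖ * B') * sig D u Φ))) := (lim2.const_mul _).const_mul _
    refine le_of_tendsto_of_tendsto lim1.abs lim3 ?_
    have h4 : ∀ᶠ s : ℝ in 𝓝[>] (0 : ℝ), s < r / 2 := by
      have : Iio (r / 2) ∈ 𝓝 (0 : ℝ) := Iio_mem_nhds (half_pos hr)
      exact mem_nhdsWithin_of_mem_nhds this
    filter_upwards [h4, self_mem_nhdsWithin] with s hs hs0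
    have hs0' : (0 : ℝ) < s := hs0
    rw [h.IVs hK hKD hf.smooth hf.supp hs0' w, abs_neg]
    have c1 : ContinuousOn (fun x => (1 - ‖gr u x‖ ^ 2) * fderiv ℝ u x w * f x) (NN D u) :=
      ((continuousOn_const.sub h.nsq_C1.continuousOn).mul (h.dir_C1 w).continuousOn).mul
        hf.smooth.continuousOn
    have z1 : ∀ x ∈ NN D u, x ∉ K' → (1 - ‖gr u x‖ ^ 2) * fderiv ℝ u x w * f x = 0 := by
      intro x hx hxK
      rw [hf.supp x hx (fun hk => hxK (hKK hk)), mul_zero]
    have c2 : ContinuousOn (fun x => ‖gr u x‖ ^ 2 * Φ x) (NN D u) := hΦ.cont_gr h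
    have z2 : ∀ x ∈ NN D u, x ∉ K' → ‖gr u x‖ ^ 2 * Φ x = 0 := by
      intro x hx hxK
      rw [hΦ0 x hxK, mul_zero]
    -- pointwise estimate
    have pt : ∀ x ∈ NN D u, u x < r → |(1 - ‖gr u x‖ ^ 2) * fderiv ℝ u x w * f x| ≤
        (η * (20 * (‖w‖ * B'))) * (‖gr u x‖ ^ 2 * Φ x) := by
      intro x hx hux
      by_cases hxK : x ∈ K
      · have h5 := abs_lt.1 (h1 x hx (hKK hxK) hux)
        set q := ‖gr u x‖ with hq
        have q1 : q < 3 / 2 := by linarith [h5.2]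
        have q2 : 1 / 2 < q := by linarith [h5.1]
        have b1 : |1 - q ^ 2| ≤ η * (5 / 2) := by
          have : 1 - q ^ 2 = (1 - q) * (1 + q) := by ring
          rw [this, abs_mul]
          have t1 : |1 - q| ≤ η := by rw [abs_sub_comm]; exact (h1 x hx (hKK hxK) hux).le
          have t2 : |1 + q| ≤ 5 / 2 := by rw [abs_of_pos (by linarith)]; linarith
          exact mul_le_mul t1 t2 (abs_nonneg _) hη.le
        have b2 : |fderiv ℝ u x w| ≤ (3 / 2) * ‖w‖ := by
          have : |fderiv ℝ u x w| ≤ q * ‖w‖ := by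
            rw [hq, gr_norm]
            exact le_op _ _
          refine this.trans (mul_le_mul_of_nonneg_right q1.le (norm_nonneg _))
        have b3 : |f x| ≤ B' := ((hB x hx hxK).1).trans (le_max_left _ _)
        rw [abs_mul, abs_mul, hΦK x hxK]
        have t3 : |1 - q ^ 2| * |fderiv ℝ u x w| ≤ (η * (5 / 2)) * ((3 / 2) * ‖w‖) :=
          mul_le_mul b1 b2 (abs_nonneg _) (by positivity)
        have t4 : |1 - q ^ 2| * |fderiv ℝ u x w| * |f x| ≤ (η * (5 / 2)) * ((3 / 2) * ‖w‖) * B' :=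
          mul_le_mul t3 b3 (abs_nonneg _) (by positivity)
        refine t4.trans ?_
        have t5 : (1 : ℝ) / 4 ≤ q ^ 2 := by nlinarith
        have t6 : η * (20 * (‖w‖ * B')) * (1 / 4) ≤ η * (20 * (‖w‖ * B')) * (q ^ 2 * 1) := by
          apply mul_le_mul_of_nonneg_left _ (by positivity)
          linarith
        refine le_trans ?_ t6
        have t7 : 0 ≤ η * (‖w‖ * B') := by positivity
        nlinarith
      · rw [hf.supp x hx hxK, mul_zero, abs_zero]
        have := (hΦn x).1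
        positivity
    have e1 : η * (20 * (‖w‖ * B') * ms D u s (fun x => ‖gr u x‖ ^ 2 * Φ x)) =
        ms D u s (fun x => (η * (20 * (‖w‖ * B'))) * (‖gr u x‖ ^ 2 * Φ x)) := by
      rw [ms_const_mul]; ring
    rw [e1, abs_le]
    constructor
    · have n1 : 0 ≤ ms D u s (fun x => (η * (20 * (‖w‖ * B'))) * (‖gr u x‖ ^ 2 * Φ x) +
          (1 - ‖gr u x‖ ^ 2) * fderiv ℝ u x w * f x) := by
        refine h.ms_nonneg hs0' (r := r) (by linarith) ?_
        intro x hx hux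
        have := (abs_le.1 (pt x hx hux)).1
        linarith
      rw [h.ms_add hK' hK'D (cmul c2 _)
        (fun x hx hxK => by rw [z2 x hx hxK, mul_zero]) c1 z1 hs0'] at n1
      linarith
    · have n1 : 0 ≤ ms D u s (fun x => (η * (20 * (‖w‖ * B'))) * (‖gr u x‖ ^ 2 * Φ x) +
          (-1) * ((1 - ‖gr u x‖ ^ 2) * fderiv ℝ u x w * f x)) := by
        refine h.ms_nonneg hs0' (r := r) (by linarith) ?_
        intro x hx hux
        have := (abs_le.1 (pt x hx hux)).2
        linarith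
      rw [h.ms_add hK' hK'D (cmul c2 _)
        (fun x hx hxK => by rw [z2 x hx hxK, mul_zero]) (cmul c1 _)
        (fun x hx hxK => by rw [z1 x hx hxK, mul_zero]) hs0',
        ms_const_mul (-1 : ℝ)] at n1
      linarith
  -- conclusion
  have h14 : Tendsto (fun η : ℝ => η * (20 * (‖w‖ * B') * sig D u Φ)) (𝓝[>] 0)
      (𝓝 (0 * (20 * (‖w‖ * B') * sig D u Φ))) := by
    apply Tendsto.mono_left _ nhdsWithin_le_nhds
    apply Continuous.tendsto
    fun_prop
  have h15 := ge_of_tendsto h14 (by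
    have h16 : ∀ᶠ s : ℝ in 𝓝[>] (0 : ℝ), s < 1 / 2 := by
      have : Iio ((1 : ℝ) / 2) ∈ 𝓝 (0 : ℝ) := Iio_mem_nhds (by norm_num)
      exact mem_nhdsWithin_of_mem_nhds this
    filter_upwards [self_mem_nhdsWithin, h16] with η hη hη1
    exact key η hη hη1)
  rw [zero_mul] at h15
  exact abs_eq_zero.1 (le_antisymm h15 (abs_nonneg _))

end

end Pool.Agent.D0H33.FB
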