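import Pool.Agent.D0H33.FB.A04

set_option autoImplicit false

open Set Metric Filter Topology MeasureTheory
open ExtStar (lap)

namespace Pool.Agent.D0H33.FB

noncomputable section

variable {D : Set V} {u : V → ℝ} {K : Set V} {f g : V → ℝ}

lemma TF.diffAt (h : Sol D u) (hf : TF D u K f) {x : V} (hx : x ∈ NN D u) :
    DifferentiableAt ℝ f x := hf.toBF.diffAt h hx

lemma TF.BC_any (h : Sol D u) (hK : IsCompact K) (hf : TF D u K f) {a : V → V}
    (ha : ContinuousOn a (NN D u)) (hab : ∃ C : ℝ, ∀ x ∈ NN D u, x ∈ K → ‖a x‖ ≤ C) :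
    BC D u K (fun x => fderiv ℝ f x (a x)) := by
  refine ⟨(hf.smooth.continuousOn_fderiv_of_isOpen h.isOpen_NN (by norm_num)).clm_apply ha, ?_, ?_⟩
  · obtain ⟨C, hC⟩ := hf.bd
    obtain ⟨C', hC'⟩ := hab
    refine ⟨C * C', fun x hx hxK => ?_⟩
    refine (le_op _ _).trans ?_
    exact mul_le_mul (hC x hx hxK).2 (hC' x hx hxK) (norm_nonneg _)
      ((norm_nonneg _).trans (hC x hx hxK).2)
  · intro x hx hxK
    rw [hf.fderiv_zero h hK.isClosed hx hxK]; simp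

lemma TF.BC_norm (h : Sol D u) (hK : IsCompact K) (hf : TF D u K f) :
    BC D u K (fun x => ‖fderiv ℝ f x‖) := by
  refine ⟨(hf.smooth.continuousOn_fderiv_of_isOpen h.isOpen_NN (by norm_num)).norm, ?_, ?_⟩
  · obtain ⟨C, hC⟩ := hf.bd
    refine ⟨C, fun x hx hxK => ?_⟩
    rw [abs_of_nonneg (norm_nonneg _)]
    exact (hC x hx hxK).2
  · intro x hx hxK
    rw [hf.fderiv_zero h hK.isClosed hx hxK]; simp

lemma Sol.a_cont (h : Sol D u) (ν : V) : ContinuousOn (fun x => gr u x - ν) (NN D u) :=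
  h.gr_cont.sub continuousOn_const

lemma Sol.a_bd (h : Sol D u) (hK : IsCompact K) (hKD : K ⊆ D) (ν : V) :
    ∃ C : ℝ, ∀ x ∈ NN D u, x ∈ K → ‖gr u x - ν‖ ≤ C := by
  obtain ⟨C, hC0, hC⟩ := h.grad_bd hK hKD
  exact ⟨C + ‖ν‖, fun x hx hxK => (norm_sub_le _ _).trans (by linarith [hC x hx hxK])⟩

lemma Sol.a2_bd (h : Sol D u) (hK : IsCompact K) (hKD : K ⊆ D) (ν : V) :
    ∃ C : ℝ, ∀ x ∈ NN D u, x ∈ K → |‖gr u x - ν‖ ^ 2| ≤ C := by
  obtain ⟨C, hC⟩ := h.a_bd hK hKD ν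
  refine ⟨C ^ 2, fun x hx hxK => ?_⟩
  rw [abs_of_nonneg (by positivity)]
  exact pow_le_pow_left₀ (norm_nonneg _) (hC x hx hxK) 2

/-- first variation inequality -/
lemma TF.M1 (h : Sol D u) (hK : IsCompact K) (hKD : K ⊆ D) (hf : TF D u K f) {ν : V}
    (hν : ‖ν‖ = 1) {r : ℝ} (hr : 0 < r) (hf0 : ∀ x ∈ NN D u, u x < r → 0 ≤ f x) :
    ∫ x in NN D u, fderiv ℝ f x (gr u x - ν) ≤ 0 := by
  have h1 := hf.lam_le h hK hKD ν hr hf0
  rw [hν, one_mul] at h1
  have h2 : ∫ x in NN D u, fderiv ℝ f x (gr u x - ν) = - sig D u f + lam D u ν f := by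
    unfold sig lam
    rw [neg_neg, ← sub_eq_add_neg, ← integral_sub ((hf.BC_gr h hK hKD).integrable h hK)
      ((hf.BC_dir h hK ν).integrable h hK)]
    congr 1
    funext x
    rw [map_sub]
  rw [h2]
  linarith

/-- inner variation estimate -/
lemma TF.IVn (h : Sol D u) (hK : IsCompact K) (hKD : K ⊆ D) (hf : TF D u K f) {ν : V}
    (hν : ‖ν‖ = 1) : |∫ x in NN D u, fderiv ℝ f x (gr u x - ν)| ≤
      3 / 2 * ∫ x in NN D u, ‖fderiv ℝ f x‖ * ‖gr u x - ν‖ ^ 2 := by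
  have h1 := hf.IV h hK hKD ν
  have b1 : BC D u K (fun x => fderiv ℝ f x (gr u x - ν)) :=
    hf.BC_any h hK (h.a_cont ν) (h.a_bd hK hKD ν)
  have b2 : BC D u K (fun x => ‖fderiv ℝ f x‖ * ‖gr u x - ν‖ ^ 2) :=
    (hf.BC_norm h hK).mul ((h.a_cont ν).norm.pow 2) (h.a2_bd hK hKD ν)
  have pt : ∀ x, (‖gr u x‖ ^ 2 + 1) * fderiv ℝ f x ν - 2 * fderiv ℝ u x ν * fderiv ℝ f x (gr u x) =
      (‖gr u x - ν‖ ^ 2 * fderiv ℝ f x ν - 2 * inner ℝ (gr u x - ν) ν * fderiv ℝ f x (gr u x - ν))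
        - 2 * fderiv ℝ f x (gr u x - ν) := by
    intro x
    rw [← gr_inner u x ν]
    have e1 : gr u x = (gr u x - ν) + ν := by abel
    have e2 : ‖gr u x‖ ^ 2 = ‖gr u x - ν‖ ^ 2 + 2 * inner ℝ (gr u x - ν) ν + 1 := by
      conv_lhs => rw [e1]
      rw [norm_add_sq_real, hν]
      ring
    have e3 : inner ℝ (gr u x) ν = inner ℝ (gr u x - ν) ν + 1 := by
      conv_lhs => rw [e1]
      rw [inner_add_left, real_inner_self_eq_norm_sq, hν]
      ring
    have e4 : fderiv ℝ f x (gr u x) = fderiv ℝ f x (gr u x - ν) + fderiv ℝ f x ν := by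
      conv_lhs => rw [e1]
      rw [map_add]
    rw [e2, e3, e4]
    ring
  have pt2 : ∀ x, |‖gr u x - ν‖ ^ 2 * fderiv ℝ f x ν -
      2 * inner ℝ (gr u x - ν) ν * fderiv ℝ f x (gr u x - ν)| ≤
      3 * (‖fderiv ℝ f x‖ * ‖gr u x - ν‖ ^ 2) := by
    intro x
    set a := gr u x - ν
    have t1 : |fderiv ℝ f x ν| ≤ ‖fderiv ℝ f x‖ := by
      have := le_op (fderiv ℝ f x) ν
      rwa [hν, mul_one] at this
    have t2 := le_op (fderiv ℝ f x) a
    have t3 : |inner ℝ a ν| ≤ ‖a‖ := by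
      have := abs_real_inner_le_norm a ν
      rwa [hν, mul_one] at this
    calc |‖a‖ ^ 2 * fderiv ℝ f x ν - 2 * inner ℝ a ν * fderiv ℝ f x a|
        ≤ |‖a‖ ^ 2 * fderiv ℝ f x ν| + |2 * inner ℝ a ν * fderiv ℝ f x a| := abs_sub _ _
      _ = ‖a‖ ^ 2 * |fderiv ℝ f x ν| + 2 * (|inner ℝ a ν| * |fderiv ℝ f x a|) := by
          rw [abs_mul, abs_mul, abs_mul, abs_of_nonneg (by positivity : (0:ℝ) ≤ ‖a‖ ^ 2),
            abs_of_pos (by norm_num : (0:ℝ) < 2)]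
          ring
      _ ≤ ‖a‖ ^ 2 * ‖fderiv ℝ f x‖ + 2 * (‖a‖ * (‖fderiv ℝ f x‖ * ‖a‖)) := by
          have s1 := mul_le_mul_of_nonneg_left t1 (by positivity : (0:ℝ) ≤ ‖a‖ ^ 2)
          have s2 := mul_le_mul t3 t2 (abs_nonneg _) (norm_nonneg _)
          linarith
      _ = 3 * (‖fderiv ℝ f x‖ * ‖a‖ ^ 2) := by ring
  simp_rw [pt] at h1
  have i1 : IntegrableOn (fun x => 2 * fderiv ℝ f x (gr u x - ν)) (NN D u) :=
    (b1.const_mul 2).integrable h hK
  have b3 : BC D u K (fun x => ‖gr u x - ν‖ ^ 2 * fderiv ℝ f x ν -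
      2 * inner ℝ (gr u x - ν) ν * fderiv ℝ f x (gr u x - ν)) := by
    have c1 : ContinuousOn (fun x => ‖gr u x - ν‖ ^ 2 * fderiv ℝ f x ν -
      2 * inner ℝ (gr u x - ν) ν * fderiv ℝ f x (gr u x - ν)) (NN D u) :=
      (((h.a_cont ν).norm.pow 2).mul (hf.BC_dir h hK ν).cont).sub
        ((continuousOn_const.mul ((h.a_cont ν).inner continuousOn_const)).mul b1.cont)
    refine ⟨c1, ?_, ?_⟩
    · obtain ⟨C, hC⟩ := b2.bd
      exact ⟨3 * C, fun x hx hxK => (pt2 x).trans (mul_le_mul_of_nonneg_left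
        ((le_abs_self _).trans (hC x hx hxK)) (by norm_num))⟩
    · intro x hx hxK
      rw [hf.fderiv_zero h hK.isClosed hx hxK]; simp
  rw [integral_sub (b3.integrable h hK) i1, integral_const_mul] at h1
  have h2 : |∫ x in NN D u, ‖gr u x - ν‖ ^ 2 * fderiv ℝ f x ν -
      2 * inner ℝ (gr u x - ν) ν * fderiv ℝ f x (gr u x - ν)| ≤
      3 * ∫ x in NN D u, ‖fderiv ℝ f x‖ * ‖gr u x - ν‖ ^ 2 := by
    rw [← integral_const_mul]
    refine (abs_integral_le_integral_abs).trans ?_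
    exact integral_mono ((b3.integrable h hK).abs) ((b2.const_mul 3).integrable h hK) pt2
  have h3 : (∫ x in NN D u, fderiv ℝ f x (gr u x - ν)) = 1 / 2 *
      ∫ x in NN D u, ‖gr u x - ν‖ ^ 2 * fderiv ℝ f x ν -
      2 * inner ℝ (gr u x - ν) ν * fderiv ℝ f x (gr u x - ν) := by linarith
  rw [h3, abs_mul, abs_of_pos (by norm_num : (0:ℝ) < 1 / 2)]
  linarith

/-- the difference of the solution and an affine function -/
def vv (u : V → ℝ) (ν : V) (c : ℝ) (x : V) : ℝ := u x - inner ℝ ν x - c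

lemma vv_C1 (h : Sol D u) (ν : V) (c : ℝ) : ContDiffOn ℝ 2 (vv u ν c) (NN D u) := by
  unfold vv
  exact (h.smooth.sub (contDiff_const.inner ℝ contDiff_id).contDiffOn).sub contDiffOn_const

lemma vv_fderiv (h : Sol D u) (ν : V) (c : ℝ) {x : V} (hx : x ∈ NN D u) (w : V) :
    fderiv ℝ (vv u ν c) x w = inner ℝ (gr u x - ν) w := by
  have h1 : HasFDerivAt (vv u ν c) (fderiv ℝ u x - innerSL ℝ ν) x := by
    unfold vv
    exact ((h.diffAt hx).hasFDerivAt.sub (innerSL ℝ ν).hasFDerivAt).sub_const c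
  rw [h1.fderiv, inner_sub_left, gr_inner]
  simp

lemma vv_fderiv_norm (h : Sol D u) (ν : V) (c : ℝ) {x : V} (hx : x ∈ NN D u) :
    ‖fderiv ℝ (vv u ν c) x‖ = ‖gr u x - ν‖ := by
  have : fderiv ℝ (vv u ν c) x = InnerProductSpace.toDual ℝ V (gr u x - ν) := by
    ext w
    rw [vv_fderiv h ν c hx, InnerProductSpace.toDual_apply_apply]
  rw [this, LinearIsometryEquiv.norm_map]

lemma vv_BF (h : Sol D u) (hK : IsCompact K) (hKD : K ⊆ D) (ν : V) (c : ℝ) :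
    BF D u K (vv u ν c) := by
  refine ⟨(vv_C1 h ν c).of_le (by norm_num), ?_⟩
  obtain ⟨C, hC⟩ := h.a_bd hK hKD ν
  have h1 : ContinuousOn (vv u ν c) K := by
    unfold vv
    exact ((h.cont.mono hKD).sub (continuousOn_const.inner continuousOn_id)).sub continuousOn_const
  obtain ⟨C1, h1⟩ := hK.exists_bound_of_continuousOn h1
  refine ⟨max C C1, fun x hx hxK => ⟨(h1 x hxK).trans (le_max_right _ _), ?_⟩⟩
  rw [vv_fderiv_norm h ν c hx]
  exact (hC x hx hxK).trans (le_max_left _ _)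

/-- near the free boundary, inside `K`, affine functions are controlled -/
lemma Sol.near_aff (h : Sol D u) (hK : IsCompact K) (hKD : K ⊆ D) {ν : V} {c H : ℝ} (hH : 0 < H)
    (hh : ∀ p ∈ FF D u, p ∈ K → |inner ℝ ν p + c| ≤ H) :
    ∃ r : ℝ, 0 < r ∧ ∀ x ∈ NN D u, x ∈ K → u x < r → |vv u ν c x| ≤ 2 * H := by
  obtain ⟨r, hr, h1⟩ := h.near_FF hK hKD (Q := fun x => |inner ℝ ν x + c| < 3 / 2 * H) (by
    intro p hp
    have h2 : ContinuousAt (fun x : V => |inner ℝ ν x + c|) p := by fun_prop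
    have h3 : |inner ℝ ν p + c| < 3 / 2 * H := by linarith [hh p hp.1 hp.2]
    filter_upwards [h2.eventually_lt continuousAt_const h3] with x hx _
    exact hx)
  refine ⟨min r (H / 2), by positivity, fun x hx hxK hxr => ?_⟩
  have h4 := h1 x hx hxK (hxr.trans_le (min_le_left _ _))
  have h5 := hxr.trans_le (min_le_right _ _)
  unfold vv
  rw [abs_lt] at h4
  rw [abs_le]
  have := hx.2
  constructor <;> linarith [h4.1, h4.2]

/-- Caccioppoli inequality -/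
lemma TF.cacc (h : Sol D u) (hK : IsCompact K) (hKD : K ⊆ D) (hf : TF D u K f)
    (hf0 : ∀ x ∈ NN D u, 0 ≤ f x) {ν : V} (hν : ‖ν‖ = 1) {c H : ℝ} (hH : 0 < H)
    (hh : ∀ p ∈ FF D u, p ∈ K → |inner ℝ ν p + c| ≤ H) :
    ∫ x in NN D u, f x * ‖gr u x - ν‖ ^ 2 ≤
      (∫ x in NN D u, |vv u ν c x| * (‖fderiv ℝ f x‖ * ‖gr u x - ν‖)) +
      3 * H * ∫ x in NN D u, ‖fderiv ℝ f x‖ * ‖gr u x - ν‖ ^ 2 := by
  obtain ⟨r, hr, h1⟩ := h.near_aff hK hKD hH hh
  have hv := vv_BF h hK hKD ν c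
  have hfv : TF D u K (fun x => f x * vv u ν c x) := hf.mul_BF h hv
  have hfH : TF D u K (fun x => f x * (2 * H)) :=
    hf.mul_BF h (BF.of_contDiff hK contDiff_const)
  have hsum : TF D u K (fun x => f x * (2 * H) + f x * vv u ν c x) := hfH.add h hfv
  have hM := hsum.M1 h hK hKD hν hr (by
    intro x hx hux
    by_cases hxK : x ∈ K
    · have := (abs_le.1 (h1 x hx hxK hux)).1
      have h0 := hf0 x hx
      nlinarith
    · rw [hf.supp x hx hxK]; simp)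
  have b1 : BC D u K (fun x => fderiv ℝ f x (gr u x - ν)) :=
    hf.BC_any h hK (h.a_cont ν) (h.a_bd hK hKD ν)
  have b2 : BC D u K (fun x => f x * ‖gr u x - ν‖ ^ 2) :=
    hf.toBC.mul ((h.a_cont ν).norm.pow 2) (h.a2_bd hK hKD ν)
  have b3 : BC D u K (fun x => fderiv ℝ f x (gr u x - ν) * vv u ν c x) :=
    b1.mul hv.smooth.continuousOn (by
      obtain ⟨C, hC⟩ := hv.bd
      exact ⟨C, fun x hx hxK => (hC x hx hxK).1⟩)
  have e1 : ∀ x ∈ NN D u, fderiv ℝ (fun x => f x * (2 * H) + f x * vv u ν c x) x (gr u x - ν) =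
      2 * H * fderiv ℝ f x (gr u x - ν) + (f x * ‖gr u x - ν‖ ^ 2 +
        fderiv ℝ f x (gr u x - ν) * vv u ν c x) := by
    intro x hx
    have d1 := hf.diffAt h hx
    have d2 := hv.diffAt h hx
    have a1 : HasFDerivAt (fun x => f x * (2 * H) + f x * vv u ν c x)
        ((2 * H) • fderiv ℝ f x + (f x • fderiv ℝ (vv u ν c) x + vv u ν c x • fderiv ℝ f x)) x :=
      (d1.hasFDerivAt.mul_const (2 * H)).add (d1.hasFDerivAt.mul d2.hasFDerivAt)
    rw [a1.fderiv]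
    simp only [_root_.add_apply, _root_.smul_apply, smul_eq_mul]
    rw [vv_fderiv h ν c hx, real_inner_self_eq_norm_sq]
    ring
  rw [setIntegral_congr_fun h.meas_NN e1, integral_add ((b1.const_mul (2 * H)).integrable h hK)
    ((b2.add b3).integrable h hK), integral_const_mul,
    integral_add (b2.integrable h hK) (b3.integrable h hK)] at hM
  have hIV := (abs_le.1 (hf.IVn h hK hKD hν)).1
  have b4 : BC D u K (fun x => |vv u ν c x| * (‖fderiv ℝ f x‖ * ‖gr u x - ν‖)) := by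
    have b5 := ((hf.BC_norm h hK).mul (h.a_cont ν).norm (by
      obtain ⟨C, hC⟩ := h.a_bd hK hKD ν
      exact ⟨C, fun x hx hxK => by rw [abs_of_nonneg (norm_nonneg _)]; exact hC x hx hxK⟩)).mul
      (g := fun x => |vv u ν c x|) hv.smooth.continuousOn.abs (by
      obtain ⟨C, hC⟩ := hv.bd
      exact ⟨C, fun x hx hxK => by rw [abs_abs]; exact (hC x hx hxK).1⟩)
    have e : (fun x => |vv u ν c x| * (‖fderiv ℝ f x‖ * ‖gr u x - ν‖)) =
      fun x => (‖fderiv ℝ f x‖ * ‖gr u x - ν‖) * |vv u ν c x| := by funext x; ring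
    rw [e]; exact b5
  have h6 : - ∫ x in NN D u, fderiv ℝ f x (gr u x - ν) * vv u ν c x ≤
      ∫ x in NN D u, |vv u ν c x| * (‖fderiv ℝ f x‖ * ‖gr u x - ν‖) := by
    rw [← integral_neg]
    refine integral_mono (b3.integrable h hK).neg (b4.integrable h hK) ?_
    intro x
    have t1 := le_op (fderiv ℝ f x) (gr u x - ν)
    have t2 : -(fderiv ℝ f x (gr u x - ν) * vv u ν c x) ≤
        |fderiv ℝ f x (gr u x - ν)| * |vv u ν c x| := by
      rw [← abs_mul]; exact neg_le_abs _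
    have t3 := mul_le_mul_of_nonneg_right t1 (abs_nonneg (vv u ν c x))
    simp only
    linarith
  nlinarith

end

end Pool.Agent.D0H33.FB
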