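import Pool.Agent.D0H33.FB.A05

set_option autoImplicit false

open Set Metric Filter Topology MeasureTheory
open ExtStar (lap)

namespace Pool.Agent.D0H33.FB

noncomputable section

/-- radial cut off: `1` on the ball of radius `a`, `0` off the ball of radius `b` -/
def cut (p : V) (a b : ℝ) (x : V) : ℝ := chi (1 + (b ^ 2 - ‖x - p‖ ^ 2) / (b ^ 2 - a ^ 2))

lemma cut_smooth (p : V) (a b : ℝ) {n : ℕ∞} : ContDiff ℝ n (cut p a b) := by
  unfold cut
  apply chi_smooth.comp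
  apply contDiff_const.add
  apply ContDiff.div_const
  exact contDiff_const.sub ((contDiff_id.sub contDiff_const).norm_sq ℝ)

lemma cut_nonneg (p : V) (a b : ℝ) (x : V) : 0 ≤ cut p a b x := chi_nonneg _

lemma cut_le_one (p : V) (a b : ℝ) (x : V) : cut p a b x ≤ 1 := chi_le_one _

lemma cut_one {p : V} {a b : ℝ} (ha : 0 ≤ a) (hab : a < b) {x : V} (hx : ‖x - p‖ ≤ a) :
    cut p a b x = 1 := by
  apply chi_one
  have h1 : 0 < b ^ 2 - a ^ 2 := by nlinarith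
  have h2 : ‖x - p‖ ^ 2 ≤ a ^ 2 := by nlinarith [norm_nonneg (x - p)]
  have h3 : 1 ≤ (b ^ 2 - ‖x - p‖ ^ 2) / (b ^ 2 - a ^ 2) := by
    rw [le_div_iff₀ h1]; linarith
  linarith

lemma cut_zero {p : V} {a b : ℝ} (ha : 0 ≤ a) (hab : a < b) {x : V} (hx : b ≤ ‖x - p‖) :
    cut p a b x = 0 := by
  apply chi_zero
  have h1 : 0 < b ^ 2 - a ^ 2 := by nlinarith
  have h2 : b ^ 2 ≤ ‖x - p‖ ^ 2 := by nlinarith
  have h3 : (b ^ 2 - ‖x - p‖ ^ 2) / (b ^ 2 - a ^ 2) ≤ 0 :=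
    div_nonpos_of_nonpos_of_nonneg (by linarith) h1.le
  linarith

lemma cut_hasFDeriv (p : V) (a b : ℝ) (x : V) : HasFDerivAt (cut p a b)
    ((deriv chi (1 + (b ^ 2 - ‖x - p‖ ^ 2) / (b ^ 2 - a ^ 2)) * (-2 / (b ^ 2 - a ^ 2))) •
      (innerSL ℝ (x - p))) x := by
  have h1 : HasFDerivAt (fun x : V => ‖x - p‖ ^ 2) ((2 : ℝ) • innerSL ℝ (x - p)) x := by
    have := ((hasFDerivAt_id x).sub_const p).norm_sq
    refine this.congr_fderiv ?_
    ext w
    simp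
  have h2 : HasFDerivAt (fun x : V => 1 + (b ^ 2 - ‖x - p‖ ^ 2) / (b ^ 2 - a ^ 2))
      ((-2 / (b ^ 2 - a ^ 2)) • innerSL ℝ (x - p)) x := by
    have := ((h1.const_sub (b ^ 2)).mul_const ((b ^ 2 - a ^ 2)⁻¹)).const_add 1
    refine (this.congr_fderiv ?_).congr_of_eventuallyEq ?_
    · ext w
      simp only [_root_.smul_apply, _root_.neg_apply, smul_eq_mul, div_eq_mul_inv]
      ring
    · filter_upwards with y
      simp [div_eq_mul_inv]
  have h3 := (chi_diff (1 + (b ^ 2 - ‖x - p‖ ^ 2) / (b ^ 2 - a ^ 2))).hasDerivAt.comp_hasFDerivAt x h2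
  refine h3.congr_fderiv ?_
  rw [smul_smul]

/-- the gradient bound for cut offs -/
lemma cut_grad : ∃ C : ℝ, 0 < C ∧ ∀ (p : V) (a b : ℝ), 0 ≤ a → a < b → ∀ x : V,
    ‖fderiv ℝ (cut p a b) x‖ ≤ C / (b - a) ∧ (b ≤ ‖x - p‖ → fderiv ℝ (cut p a b) x = 0) ∧
      (‖x - p‖ ≤ a → fderiv ℝ (cut p a b) x = 0) := by
  obtain ⟨C, hC, hCb⟩ := dchi_bd
  refine ⟨2 * C, by positivity, fun p a b ha hab x => ?_⟩
  have h1 : 0 < b ^ 2 - a ^ 2 := by nlinarith
  have h4 : b ≤ ‖x - p‖ → fderiv ℝ (cut p a b) x = 0 := by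
    intro hb
    rw [(cut_hasFDeriv p a b x).fderiv, dchi_zero, zero_mul, zero_smul]
    have h2 : b ^ 2 ≤ ‖x - p‖ ^ 2 := by nlinarith
    have h3 : (b ^ 2 - ‖x - p‖ ^ 2) / (b ^ 2 - a ^ 2) ≤ 0 :=
      div_nonpos_of_nonpos_of_nonneg (by linarith) h1.le
    linarith
  have h5 : ‖x - p‖ ≤ a → fderiv ℝ (cut p a b) x = 0 := by
    intro hb
    rw [(cut_hasFDeriv p a b x).fderiv, dchi_zero', zero_mul, zero_smul]
    have h2 : ‖x - p‖ ^ 2 ≤ a ^ 2 := by nlinarith [norm_nonneg (x - p)]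
    have h3 : 1 ≤ (b ^ 2 - ‖x - p‖ ^ 2) / (b ^ 2 - a ^ 2) := by
      rw [le_div_iff₀ h1]; linarith
    linarith
  refine ⟨?_, h4, h5⟩
  by_cases hb : b ≤ ‖x - p‖
  · rw [h4 hb, norm_zero]
    have : 0 < b - a := by linarith
    positivity
  · push Not at hb
    rw [(cut_hasFDeriv p a b x).fderiv, norm_smul, innerSL_apply_norm, Real.norm_eq_abs, abs_mul,
      abs_div, abs_of_pos h1]
    have h2 := hCb (1 + (b ^ 2 - ‖x - p‖ ^ 2) / (b ^ 2 - a ^ 2))
    have h3 : |(-2 : ℝ)| = 2 := by norm_num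
    rw [h3]
    have hba : 0 < b - a := by linarith
    have h6 : 2 / (b ^ 2 - a ^ 2) * ‖x - p‖ ≤ 2 / (b - a) := by
      have e : b ^ 2 - a ^ 2 = (b - a) * (b + a) := by ring
      have hba2 : 0 < b + a := by linarith
      rw [e, div_mul_eq_mul_div, div_le_div_iff₀ (by positivity) hba]
      have : ‖x - p‖ ≤ b + a := by linarith
      nlinarith [mul_le_mul_of_nonneg_left this hba.le]
    calc |deriv chi (1 + (b ^ 2 - ‖x - p‖ ^ 2) / (b ^ 2 - a ^ 2))| * (2 / (b ^ 2 - a ^ 2)) * ‖x - p‖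
        = |deriv chi (1 + (b ^ 2 - ‖x - p‖ ^ 2) / (b ^ 2 - a ^ 2))| *
          (2 / (b ^ 2 - a ^ 2) * ‖x - p‖) := by ring
      _ ≤ C * (2 / (b - a)) := mul_le_mul h2 h6 (by positivity) hC.le
      _ = 2 * C / (b - a) := by ring

/-- volume of the unit ball -/
def om : ℝ := (volume : Measure V).real (ball (0 : V) 1)

lemma om_pos : 0 < om := by
  unfold om Measure.real
  exact ENNReal.toReal_pos (measure_ball_pos _ _ one_pos).ne' measure_ball_lt_top.ne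

lemma vol_ball (p : V) {r : ℝ} (hr : 0 ≤ r) : (volume : Measure V).real (ball p r) = om * r ^ 3 := by
  unfold om Measure.real
  rw [Measure.addHaar_ball _ _ hr, ENNReal.toReal_mul, ENNReal.toReal_ofReal (by positivity)]
  simp [mul_comm]

lemma vol_closedBall (p : V) {r : ℝ} (hr : 0 ≤ r) :
    (volume : Measure V).real (closedBall p r) = om * r ^ 3 := by
  unfold om Measure.real
  rw [Measure.addHaar_closedBall _ _ hr, ENNReal.toReal_mul, ENNReal.toReal_ofReal (by positivity)]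
  simp [mul_comm]

end

end Pool.Agent.D0H33.FB
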