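import Pool.Agent.D0H33.FB.A06

set_option autoImplicit false

open Set Metric Filter Topology MeasureTheory
open ExtStar (lap)

namespace Pool.Agent.D0H33.FB

noncomputable section

variable {D : Set V} {u : V → ℝ} {K : Set V} {f g : V → ℝ}

lemma fin_ball (S : Set V) (p : V) (r : ℝ) : volume (S ∩ ball p r) ≠ ⊤ :=
  ((measure_mono inter_subset_right).trans_lt measure_ball_lt_top).ne

lemma cut_TF {p : V} {a b : ℝ} (ha : 0 ≤ a) (hab : a < b) :
    TF D u (closedBall p b) (cut p a b) :=
  { toBF := BF.of_contDiff (isCompact_closedBall _ _) (cut_smooth p a b (n := 1))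
    supp := fun x _ hx => cut_zero ha hab (by
      rw [mem_closedBall, dist_eq_norm, not_le] at hx; exact hx.le) }

/-- Sobolev inequality for functions of compact support -/
lemma sobolev : ∃ C : ℝ, 0 < C ∧ ∀ F : V → ℝ, ContDiff ℝ 1 F → HasCompactSupport F → ∀ (S : Set V)
    (y : ℝ), MeasurableSet S → 0 ≤ y → (∀ x ∈ S, 1 ≤ F x) → (∫ x, ‖fderiv ℝ F x‖) ≤ y ^ 2 →
    (volume : Measure V).real S ≤ C * y ^ 3 := by
  set C0 := lintegralPowLePowLIntegralFDerivConst (volume : Measure V) (3 / 2 : ℝ) with hC0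
  refine ⟨(C0 : ℝ) + 1, by positivity, ?_⟩
  intro F hF hFc S y hS hy hSF hI
  have hp : Real.HolderConjugate (Module.finrank ℝ V : ℝ) (3 / 2 : ℝ) := by
    rw [finrank_euclideanSpace_fin, Real.holderConjugate_iff]
    norm_num
  have h1 := lintegral_pow_le_pow_lintegral_fderiv (volume : Measure V) hF hFc hp
  have h2 : volume S ≤ ∫⁻ x, ‖F x‖ₑ ^ (3 / 2 : ℝ) := by
    calc volume S = ∫⁻ x in S, 1 := by simp
      _ ≤ ∫⁻ x in S, ‖F x‖ₑ ^ (3 / 2 : ℝ) := by
          apply setLIntegral_mono' hS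
          intro x hx
          have h3 := hSF x hx
          have h4 : (1 : ENNReal) ≤ ‖F x‖ₑ := by
            rw [Real.enorm_eq_ofReal (by linarith)]
            rw [← ENNReal.ofReal_one]
            exact ENNReal.ofReal_le_ofReal h3
          exact ENNReal.one_le_rpow h4 (by norm_num)
      _ ≤ ∫⁻ x, ‖F x‖ₑ ^ (3 / 2 : ℝ) := setLIntegral_le_lintegral _ _
  have hint : Integrable (fun x => fderiv ℝ F x) :=
    (hF.continuous_fderiv (by norm_num)).integrable_of_hasCompactSupport (hFc.fderiv (𝕜 := ℝ))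
  have h5 : ∫⁻ x, ‖fderiv ℝ F x‖ₑ = ENNReal.ofReal (∫ x, ‖fderiv ℝ F x‖) :=
    (ofReal_integral_norm_eq_lintegral_enorm hint).symm
  have h6 : ∫⁻ x, ‖fderiv ℝ F x‖ₑ ≤ ENNReal.ofReal (y ^ 2) := by
    rw [h5]; exact ENNReal.ofReal_le_ofReal hI
  have h7 : volume S ≤ ENNReal.ofReal (C0 * y ^ 3) := by
    refine h2.trans (h1.trans ?_)
    calc (C0 : ENNReal) * (∫⁻ x, ‖fderiv ℝ F x‖ₑ) ^ (3 / 2 : ℝ)
        ≤ C0 * (ENNReal.ofReal (y ^ 2)) ^ (3 / 2 : ℝ) := by gcongr
      _ = ENNReal.ofReal (C0 * y ^ 3) := by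
          rw [ENNReal.ofReal_rpow_of_nonneg (by positivity) (by norm_num),
            ENNReal.ofReal_mul (by positivity)]
          congr 1
          · simp
          · congr 1
            rw [← Real.rpow_natCast, ← Real.rpow_natCast, ← Real.rpow_mul hy]
            norm_num
  have h8 : (volume : Measure V).real S ≤ C0 * y ^ 3 := by
    unfold Measure.real
    exact ENNReal.toReal_le_of_le_ofReal (by positivity) h7
  have h9 : 0 ≤ y ^ 3 := by positivity
  linarith

/-- one step of the iteration -/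
lemma dens_step (L : ℝ) (hL : 0 < L) : ∃ C : ℝ, 0 < C ∧ ∀ (D : Set V) (u : V → ℝ) (p : V) (a b y : ℝ),
    Sol D u → closedBall p b ⊆ D → (∀ x ∈ NN D u, x ∈ closedBall p b → ‖gr u x‖ ≤ L) →
    0 < a → a < b → 0 ≤ y → (volume : Measure V).real (NN D u ∩ ball p b) ≤ y ^ 2 * (b - a) →
    (volume : Measure V).real (NN D u ∩ ball p a) ≤ C * y ^ 3 := by
  obtain ⟨Cs, hCs, hsob⟩ := sobolev
  obtain ⟨Cc, hCc, hcut⟩ := cut_grad
  set M := (1 + 2 * L) * Cc with hM
  have hM0 : 0 < M := by positivity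
  refine ⟨Cs * (Real.sqrt M) ^ 3, by positivity, ?_⟩
  intro D u p a b y h hbD hLip ha hab hy hvol
  have hK : IsCompact (closedBall p b) := isCompact_closedBall _ _
  have hTF := cut_TF (D := D) (u := u) (p := p) ha.le hab
  set φ := cut p a b with hφ
  have hba : 0 < b - a := by linarith
  have hfin : volume (NN D u ∩ ball p b) ≠ ⊤ := fin_ball _ _ _
  -- the total gradient of the cut off function
  have hI0 : ∫ x in NN D u, ‖fderiv ℝ φ x‖ ≤ Cc * y ^ 2 := by
    have e1 : ∫ x in NN D u, ‖fderiv ℝ φ x‖ = ∫ x in NN D u ∩ ball p b, ‖fderiv ℝ φ x‖ := by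
      apply setIntegral_eq_of_subset_of_forall_sdiff_eq_zero h.meas_NN inter_subset_left
      intro x hx
      have : b ≤ ‖x - p‖ := by
        by_contra hc
        exact hx.2 ⟨hx.1, by rw [mem_ball, dist_eq_norm]; exact not_le.1 hc⟩
      rw [(hcut p a b ha.le hab x).2.1 this, norm_zero]
    rw [e1]
    have e2 : ∫ x in NN D u ∩ ball p b, ‖fderiv ℝ φ x‖ ≤
        Cc / (b - a) * (volume : Measure V).real (NN D u ∩ ball p b) := by
      have := norm_setIntegral_le_of_norm_le_const (μ := (volume : Measure V))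
        (s := NN D u ∩ ball p b) (f := fun x => ‖fderiv ℝ φ x‖) (C := Cc / (b - a))
        hfin.lt_top (by
          intro x _
          rw [norm_norm]
          exact (hcut p a b ha.le hab x).1)
      exact (le_abs_self _).trans this
    refine e2.trans ?_
    calc Cc / (b - a) * (volume : Measure V).real (NN D u ∩ ball p b)
        ≤ Cc / (b - a) * (y ^ 2 * (b - a)) := by gcongr
      _ = Cc * y ^ 2 := by field_simp
  obtain ⟨r, hr, hone⟩ := h.near_one hK hbD (η := 1 / 2) (by norm_num)
  -- the estimate for the truncated sets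
  have key : ∀ s : ℝ, 0 < s → s < r / 2 →
      (volume : Measure V).real ((NN D u ∩ ball p a) ∩ {x | 2 * s ≤ u x}) ≤
        Cs * (Real.sqrt M * y) ^ 3 := by
    intro s hs hsr
    have hC1 := h.ind_C1 hK hbD hTF.smooth hTF.supp hs
    have hcs := Sol.ind_supp (D := D) (u := u) hK hTF.supp (κ := chi) (s := s)
    apply hsob _ hC1 hcs
    · have h1 : (NN D u ∩ ball p a) ∩ {x | 2 * s ≤ u x} =
          (NN D u ∩ ball p a) ∩ (NN D u ∩ u ⁻¹' (Ici (2 * s))) := by
        ext x; simp only [mem_inter_iff, mem_ofPred_eq, mem_preimage, mem_Ici]; tauto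
      rw [h1]
      refine (h.meas_NN.inter measurableSet_ball).inter ?_
      have hcu : ContinuousOn u (NN D u) := h.smooth.continuousOn
      have h2 : MeasurableSet (NN D u ∩ u ⁻¹' (Iio (2 * s))) :=
        (hcu.isOpen_inter_preimage h.isOpen_NN isOpen_Iio).measurableSet
      have h3 : NN D u ∩ u ⁻¹' (Ici (2 * s)) = NN D u \ (NN D u ∩ u ⁻¹' (Iio (2 * s))) := by
        ext x; simp only [mem_inter_iff, mem_preimage, mem_Ici, Set.mem_sdiff, mem_Iio, not_and, not_lt]
        tauto
      rw [h3]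
      exact h.meas_NN.diff h2
    · positivity
    · intro x hx
      rw [indicator_of_mem hx.1.1, chi_one, one_mul, hφ, cut_one ha.le hab]
      · have := hx.1.2; rw [mem_ball, dist_eq_norm] at this; exact this.le
      · rw [le_div_iff₀ hs]; exact hx.2
    · -- the gradient estimate
      have e1 : ∀ x, ‖fderiv ℝ ((NN D u).indicator (fun x => chi (u x / s) * φ x)) x‖ ≤
          (NN D u).indicator (fun x => ‖fderiv ℝ φ x‖ +
            2 * (deriv chi (u x / s) * (‖gr u x‖ ^ 2 * φ x / s))) x := by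
        intro x
        rw [h.fderiv_ind hK hbD hTF.smooth hTF.supp hs x]
        by_cases hx : x ∈ NN D u
        · rw [indicator_of_mem hx, indicator_of_mem hx]
          refine (norm_add_le _ _).trans ?_
          rw [norm_smul, norm_smul, Real.norm_eq_abs, Real.norm_eq_abs,
            abs_of_nonneg (chi_nonneg _)]
          have t1 : chi (u x / s) * ‖fderiv ℝ φ x‖ ≤ ‖fderiv ℝ φ x‖ :=
            mul_le_of_le_one_left (norm_nonneg _) (chi_le_one _)
          have t2 : |deriv chi (u x / s) / s * φ x| * ‖fderiv ℝ u x‖ ≤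
              2 * (deriv chi (u x / s) * (‖gr u x‖ ^ 2 * φ x / s)) := by
            have hφ0 : 0 ≤ φ x := cut_nonneg _ _ _ _
            rw [abs_of_nonneg (mul_nonneg (div_nonneg (dchi_nonneg _) hs.le) hφ0), ← gr_norm]
            by_cases h2 : 2 ≤ u x / s
            · rw [dchi_zero' h2]; simp
            by_cases hxK : x ∈ closedBall p b
            · rw [not_le, div_lt_iff₀ hs] at h2
              have h3 := abs_lt.1 (hone x hx hxK (by linarith))
              have h4 : 1 / 2 < ‖gr u x‖ := by linarith [h3.1]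
              have h5 : ‖gr u x‖ ≤ 2 * ‖gr u x‖ ^ 2 := by nlinarith
              have h6 : 0 ≤ deriv chi (u x / s) / s * φ x :=
                mul_nonneg (div_nonneg (dchi_nonneg _) hs.le) hφ0
              calc deriv chi (u x / s) / s * φ x * ‖gr u x‖
                  ≤ deriv chi (u x / s) / s * φ x * (2 * ‖gr u x‖ ^ 2) :=
                    mul_le_mul_of_nonneg_left h5 h6
                _ = 2 * (deriv chi (u x / s) * (‖gr u x‖ ^ 2 * φ x / s)) := by ring
            · rw [hTF.supp x hx hxK]; simp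
          exact add_le_add t1 t2
        · rw [indicator_of_notMem hx, indicator_of_notMem hx, norm_zero]
      have bN := hTF.BC_norm h hK
      have i2 : IntegrableOn (fun x => deriv chi (u x / s) * (‖gr u x‖ ^ 2 * φ x / s)) (NN D u) :=
        h.ms_int hK hbD (hTF.cont_gr h) (fun x hx hxK => by rw [hTF.supp x hx hxK, mul_zero]) hs
      have i1 : IntegrableOn (fun x => ‖fderiv ℝ φ x‖ +
            2 * (deriv chi (u x / s) * (‖gr u x‖ ^ 2 * φ x / s))) (NN D u) :=
        (bN.integrable h hK).add (i2.const_mul 2)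
      have i0 : Integrable (fun x => fderiv ℝ ((NN D u).indicator
          (fun x => chi (u x / s) * φ x)) x) :=
        (hC1.continuous_fderiv (by norm_num)).integrable_of_hasCompactSupport (hcs.fderiv (𝕜 := ℝ))
      have e2 : ∫ x, ‖fderiv ℝ ((NN D u).indicator (fun x => chi (u x / s) * φ x)) x‖ ≤
          (∫ x in NN D u, ‖fderiv ℝ φ x‖) + 2 * ms D u s (fun x => ‖gr u x‖ ^ 2 * φ x) := by
        refine (integral_mono i0.norm ((integrable_indicator_iff h.meas_NN).2 i1) e1).trans ?_
        rw [integral_indicator h.meas_NN, integral_add (bN.integrable h hK) (i2.const_mul 2),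
          integral_const_mul]
        exact le_refl _
      have e3 : ms D u s (fun x => ‖gr u x‖ ^ 2 * φ x) ≤ L * ∫ x in NN D u, ‖fderiv ℝ φ x‖ := by
        have h7 := h.OVs hK hbD hTF.smooth hTF.supp hs
        have h8 : ms D u s (fun x => ‖gr u x‖ ^ 2 * φ x) =
            ∫ x in NN D u, -(chi (u x / s) * fderiv ℝ φ x (gr u x)) := by
          rw [integral_neg, h7, neg_neg]
        rw [h8, ← integral_const_mul]
        have i3 : IntegrableOn (fun x => chi (u x / s) * fderiv ℝ φ x (gr u x)) (NN D u) :=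
          h.ind_int hK hbD (hTF.BC_gr h hK hbD).cont (hTF.BC_gr h hK hbD).supp
            (chi_smooth (n := 0)).continuous (fun t => chi_zero) hs
        apply setIntegral_mono_on i3.neg ((bN.integrable h hK).const_mul L) h.meas_NN
        intro x hx
        show -(chi (u x / s) * fderiv ℝ φ x (gr u x)) ≤ L * ‖fderiv ℝ φ x‖
        by_cases hxK : x ∈ closedBall p b
        · have t1 := le_op (fderiv ℝ φ x) (gr u x)
          have t2 := mul_le_mul_of_nonneg_left (hLip x hx hxK) (norm_nonneg (fderiv ℝ φ x))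
          have t3 : -(chi (u x / s) * fderiv ℝ φ x (gr u x)) ≤ |fderiv ℝ φ x (gr u x)| := by
            have t4 : |chi (u x / s) * fderiv ℝ φ x (gr u x)| ≤ |fderiv ℝ φ x (gr u x)| := by
              rw [abs_mul, abs_of_nonneg (chi_nonneg _)]
              exact mul_le_of_le_one_left (abs_nonneg _) (chi_le_one _)
            exact (neg_le_abs _).trans t4
          linarith
        · rw [hTF.fderiv_zero h isClosed_closedBall hx hxK]; simp
      calc ∫ x, ‖fderiv ℝ ((NN D u).indicator (fun x => chi (u x / s) * φ x)) x‖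
          ≤ (1 + 2 * L) * ∫ x in NN D u, ‖fderiv ℝ φ x‖ := by linarith
        _ ≤ (1 + 2 * L) * (Cc * y ^ 2) := by gcongr
        _ = (Real.sqrt M * y) ^ 2 := by
            rw [mul_pow, Real.sq_sqrt hM0.le, hM]; ring
  -- pass to the limit
  have hmono : Monotone (fun n : ℕ => (NN D u ∩ ball p a) ∩ {x | 2 * (1 / ((n : ℝ) + 1)) ≤ u x}) := by
    intro m n hmn x hx
    refine ⟨hx.1, ?_⟩
    have h1 : 1 / ((n : ℝ) + 1) ≤ 1 / ((m : ℝ) + 1) := by
      apply one_div_le_one_div_of_le (by positivity)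
      have : (m : ℝ) ≤ n := by exact_mod_cast hmn
      linarith
    have h2 : 2 * (1 / ((m : ℝ) + 1)) ≤ u x := hx.2
    show 2 * (1 / ((n : ℝ) + 1)) ≤ u x
    linarith
  have hU : ⋃ n : ℕ, ((NN D u ∩ ball p a) ∩ {x | 2 * (1 / ((n : ℝ) + 1)) ≤ u x}) =
      NN D u ∩ ball p a := by
    ext x
    simp only [mem_iUnion]
    constructor
    · rintro ⟨n, hn⟩; exact hn.1
    · intro hx
      obtain ⟨n, hn⟩ := exists_nat_one_div_lt (show 0 < u x / 2 by have := hx.1.2; linarith)
      exact ⟨n, hx, by show 2 * (1 / ((n : ℝ) + 1)) ≤ u x; linarith⟩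
  have hlim := tendsto_measure_iUnion_atTop (μ := (volume : Measure V)) hmono
  rw [hU] at hlim
  have hfin2 : volume (NN D u ∩ ball p a) ≠ ⊤ := fin_ball _ _ _
  have hlim2 : Tendsto (fun n : ℕ => (volume : Measure V).real
      ((NN D u ∩ ball p a) ∩ {x | 2 * (1 / ((n : ℝ) + 1)) ≤ u x})) atTop
      (𝓝 ((volume : Measure V).real (NN D u ∩ ball p a))) :=
    (ENNReal.tendsto_toReal hfin2).comp hlim
  have hfinal : (volume : Measure V).real (NN D u ∩ ball p a) ≤ Cs * (Real.sqrt M * y) ^ 3 := by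
    refine le_of_tendsto hlim2 ?_
    obtain ⟨N, hN⟩ := exists_nat_one_div_lt (show 0 < r / 2 by linarith)
    filter_upwards [eventually_ge_atTop N] with n hn
    apply key _ (by positivity)
    refine lt_of_le_of_lt ?_ hN
    apply one_div_le_one_div_of_le (by positivity)
    have : (N : ℝ) ≤ n := by exact_mod_cast hn
    linarith
  rw [mul_pow] at hfinal
  linarith

/-- density of the positive phase at its boundary points -/
theorem density (L : ℝ) (hL : 0 < L) : ∃ c : ℝ, 0 < c ∧ ∀ (D : Set V) (u : V → ℝ) (p : V) (t : ℝ),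
    Sol D u → 0 < t → closedBall p t ⊆ D → (∀ x ∈ NN D u, x ∈ closedBall p t → ‖gr u x‖ ≤ L) →
    p ∈ closure (NN D u) → c * t ^ 3 ≤ (volume : Measure V).real (NN D u ∩ ball p t) := by
  obtain ⟨C, hC, hstep⟩ := dens_step L hL
  set θ := 1 / (64 * C) with hθ
  have hθ0 : 0 < θ := by positivity
  have hCθ : 64 * C * θ = 1 := by rw [hθ]; field_simp
  refine ⟨θ ^ 2, by positivity, ?_⟩
  intro D u p t h ht htD hLip hp
  by_contra hcon
  push Not at hcon
  set ρ : ℕ → ℝ := fun k => t * (1 / 2 + (1 / 2) ^ (k + 1)) with hρ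
  have hρ0 : ρ 0 = t := by simp only [hρ]; norm_num
  have hρpos : ∀ k, t / 2 < ρ k := by
    intro k
    simp only [hρ]
    have : (0 : ℝ) < (1 / 2) ^ (k + 1) := by positivity
    nlinarith
  have hρt : ∀ k, ρ k ≤ t := by
    intro k
    simp only [hρ]
    have : ((1 : ℝ) / 2) ^ (k + 1) ≤ 1 / 2 := by
      rw [pow_succ]
      have : ((1 : ℝ) / 2) ^ k ≤ 1 := pow_le_one₀ (by norm_num) (by norm_num)
      linarith
    nlinarith
  have hiter : ∀ k, (volume : Measure V).real (NN D u ∩ ball p (ρ k)) ≤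
      θ ^ 2 * t ^ 3 * (1 / 8) ^ k := by
    intro k
    induction k with
    | zero => rw [hρ0]; simpa using hcon.le
    | succ k ih =>
      have hsub : closedBall p (ρ k) ⊆ closedBall p t := closedBall_subset_closedBall (hρt k)
      have h1 := hstep D u p (ρ (k + 1)) (ρ k) (2 * θ * t * (1 / 2) ^ k) h (hsub.trans htD)
        (fun x hx hxb => hLip x hx (hsub hxb)) (by linarith [hρpos (k + 1)])
        (by
          simp only [hρ]
          have : ((1 : ℝ) / 2) ^ (k + 1 + 1) < (1 / 2) ^ (k + 1) := by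
            rw [pow_succ _ (k + 1)]
            have : (0 : ℝ) < (1 / 2) ^ (k + 1) := by positivity
            linarith
          nlinarith) (by positivity) ?_
      · refine h1.trans (le_of_eq ?_)
        have e1 : ((1 : ℝ) / 8) ^ k = ((1 / 2) ^ k) ^ 3 := by
          rw [← pow_mul, mul_comm, pow_mul]; norm_num
        rw [pow_succ ((1 : ℝ) / 8), e1]
        have e2 : C * (2 * θ * t * (1 / 2) ^ k) ^ 3 =
            (64 * C * θ) * (θ ^ 2 * t ^ 3 * (((1 / 2) ^ k) ^ 3 * (1 / 8))) := by ring
        rw [e2, hCθ, one_mul]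
      · refine ih.trans (le_of_eq ?_)
        have e1 : ((1 : ℝ) / 8) ^ k = ((1 / 2) ^ k) ^ 3 := by
          rw [← pow_mul, mul_comm, pow_mul]; norm_num
        have e2 : ρ k - ρ (k + 1) = t * ((1 / 2) ^ k / 4) := by
          simp only [hρ]
          rw [pow_succ _ (k + 1), pow_succ _ k]
          ring
        rw [e1, e2]
        ring
  have hzero : (volume : Measure V).real (NN D u ∩ ball p (t / 2)) ≤ 0 := by
    have hlim : Tendsto (fun k : ℕ => θ ^ 2 * t ^ 3 * ((1 : ℝ) / 8) ^ k) atTop (𝓝 (θ ^ 2 * t ^ 3 * 0)) :=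
      (tendsto_pow_atTop_nhds_zero_of_lt_one (by norm_num) (by norm_num)).const_mul _
    rw [mul_zero] at hlim
    refine ge_of_tendsto' hlim fun k => ?_
    refine le_trans ?_ (hiter k)
    exact measureReal_mono (inter_subset_inter_right _ (ball_subset_ball (hρpos k).le))
      (fin_ball _ _ _)
  have hopen : IsOpen (NN D u ∩ ball p (t / 2)) := h.isOpen_NN.inter isOpen_ball
  have hne : (NN D u ∩ ball p (t / 2)).Nonempty := by
    obtain ⟨x, hx1, hx2⟩ := mem_closure_iff_nhds.1 hp (ball p (t / 2)) (ball_mem_nhds p (by linarith))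
    exact ⟨x, hx2, hx1⟩
  have hpos := hopen.measure_pos (volume : Measure V) hne
  have : 0 < (volume : Measure V).real (NN D u ∩ ball p (t / 2)) :=
    ENNReal.toReal_pos hpos.ne' (fin_ball _ _ _)
  linarith

end

end Pool.Agent.D0H33.FB
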