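import Pool.Agent.D0H33.FB.A07

set_option autoImplicit false

open Set Metric Filter Topology MeasureTheory
open ExtStar (lap)

namespace Pool.Agent.D0H33.FB

noncomputable section

variable {D : Set V} {u : V → ℝ} {K : Set V} {f g : V → ℝ}

/-- Lipschitz bound along segments inside the positive phase -/
lemma Sol.lip_seg (h : Sol D u) {L : ℝ} {x y : V} (hseg : segment ℝ x y ⊆ NN D u)
    (hL : ∀ z ∈ segment ℝ x y, ‖gr u z‖ ≤ L) : |u x - u y| ≤ L * ‖x - y‖ := by
  have h1 := (convex_segment x y).norm_image_sub_le_of_norm_hasFDerivWithin_le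
    (f := u) (f' := fun z => fderiv ℝ u z) (C := L)
    (fun z hz => (h.diffAt (hseg hz)).hasFDerivAt.hasFDerivWithinAt)
    (fun z hz => by rw [← gr_norm]; exact hL z hz) (right_mem_segment ℝ x y)
    (left_mem_segment ℝ x y)
  simpa using h1

/-- Lipschitz bound on convex sets -/
lemma Sol.lip_convex (h : Sol D u) {L : ℝ} (hL0 : 0 ≤ L) {C : Set V} (hC : Convex ℝ C) (hCD : C ⊆ D)
    (hL : ∀ z ∈ NN D u, z ∈ C → ‖gr u z‖ ≤ L) {x y : V} (hx : x ∈ C) (hy : y ∈ C) :
    |u x - u y| ≤ L * ‖x - y‖ := by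
  -- one sided version
  have key : ∀ x ∈ C, ∀ y ∈ C, u x - u y ≤ L * ‖x - y‖ := by
    intro x hx y hy
    by_contra hcon
    push Not at hcon
    have hy0 := h.nonneg y (hCD hy)
    have hux : 0 < u x := by
      have : 0 ≤ L * ‖x - y‖ := by positivity
      linarith
    set w : ℝ → V := fun t => x + t • (y - x) with hw
    have hwC : ∀ t ∈ Icc (0 : ℝ) 1, w t ∈ C := by
      intro t ht
      have : w t = (1 - t) • x + t • y := by simp only [hw]; module
      rw [this]
      exact hC hx hy (by linarith [ht.2]) ht.1 (by ring)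
    have hwc : Continuous w := by fun_prop
    have hcont : ContinuousOn (fun t => u (w t)) (Icc 0 1) :=
      h.cont.comp hwc.continuousOn (fun t ht => hCD (hwC t ht))
    set S : Set ℝ := Icc 0 1 ∩ (fun t => u (w t)) ⁻¹' (Iic 0) with hS
    have hScl : IsCompact S := isCompact_Icc.of_isClosed_subset
      (hcont.preimage_isClosed_of_isClosed isClosed_Icc isClosed_Iic) inter_subset_left
    -- the part of the segment before `S`
    have hpre : ∀ t ∈ Icc (0 : ℝ) 1, (∀ s ∈ Icc (0 : ℝ) t, s ∉ S) → u x - u (w t) ≤ L * ‖x - y‖ := by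
      intro t ht hs
      have hsegN : ∀ z ∈ segment ℝ x (w t), z ∈ NN D u ∧ z ∈ C := by
        intro z hz
        rw [segment_eq_image'] at hz
        obtain ⟨θ, hθ, rfl⟩ := hz
        have e : x + θ • (w t - x) = w (θ * t) := by simp only [hw]; module
        simp only
        rw [e]
        have hθt : θ * t ∈ Icc (0 : ℝ) t := ⟨mul_nonneg hθ.1 ht.1, by nlinarith [hθ.2, ht.1]⟩
        have hθt1 : θ * t ∈ Icc (0 : ℝ) 1 := ⟨hθt.1, hθt.2.trans ht.2⟩
        refine ⟨⟨hCD (hwC _ hθt1), ?_⟩, hwC _ hθt1⟩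
        by_contra hn
        exact hs _ hθt ⟨hθt1, not_lt.1 hn⟩
      have h1 := h.lip_seg (L := L) (x := x) (y := w t) (fun z hz => (hsegN z hz).1)
        (fun z hz => hL z (hsegN z hz).1 (hsegN z hz).2)
      have h2 : ‖x - w t‖ ≤ ‖x - y‖ := by
        have : x - w t = t • (x - y) := by simp only [hw]; module
        rw [this, norm_smul, Real.norm_eq_abs, abs_of_nonneg ht.1]
        exact mul_le_of_le_one_left (norm_nonneg _) ht.2
      exact ((le_abs_self _).trans h1).trans (mul_le_mul_of_nonneg_left h2 hL0)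
    by_cases hne : S.Nonempty
    · obtain ⟨t, htS, htmin⟩ := hScl.exists_isLeast hne
      have ht0 : 0 < t := by
        rcases eq_or_lt_of_le htS.1.1 with h0 | h0
        · exfalso
          have h3 : u (w t) ≤ 0 := htS.2
          rw [← h0] at h3
          simp only [hw, zero_smul, add_zero] at h3
          linarith
        · exact h0
      have hut : u (w t) ≤ 0 := htS.2
      -- limit from the left
      have hlim : Tendsto (fun s => u x - u (w s)) (𝓝[<] t) (𝓝 (u x - u (w t))) := by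
        have h4 : ContinuousAt (fun s => u (w s)) t := by
          have h5 : ContinuousAt u (w t) :=
            h.cont.continuousAt (h.op.mem_nhds (hCD (hwC t htS.1)))
          exact ContinuousAt.comp (g := u) h5 hwc.continuousAt
        exact (tendsto_const_nhds.sub h4.tendsto).mono_left nhdsWithin_le_nhds
      have hle : u x - u (w t) ≤ L * ‖x - y‖ := by
        refine le_of_tendsto hlim ?_
        have h6 : Ioo 0 t ∈ 𝓝[<] t := Ioo_mem_nhdsLT ht0
        filter_upwards [h6] with s hs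
        refine hpre s ⟨hs.1.le, hs.2.le.trans htS.1.2⟩ ?_
        intro r hr hrS
        have := htmin hrS
        linarith [hr.2, hs.2]
      linarith
    · have h7 := hpre 1 ⟨zero_le_one, le_refl _⟩ (fun s _ hsS => hne ⟨s, hsS⟩)
      have h8 : w 1 = y := by simp only [hw]; module
      rw [h8] at h7
      linarith
  rw [abs_le]
  constructor
  · have := key y hy x hx
    rw [norm_sub_rev] at this
    linarith
  · exact key x hx y hy

/-- annuli -/
def ann (a b : ℝ) : Set V := {x | a < ‖x‖ ∧ ‖x‖ < b}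

lemma ann_open (a b : ℝ) : IsOpen (ann a b) :=
  (isOpen_lt continuous_const continuous_norm).inter (isOpen_lt continuous_norm continuous_const)

lemma ann_meas (a b : ℝ) : MeasurableSet (ann a b) := (ann_open a b).measurableSet

lemma ann_fin (a b : ℝ) : volume (ann a b) < ⊤ := by
  have : ann a b ⊆ ball (0 : V) b := fun x hx => by
    rw [mem_ball, dist_zero_right]; exact hx.2
  exact (measure_mono this).trans_lt measure_ball_lt_top

lemma ann_vol {a b : ℝ} (hb : 0 ≤ b) : (volume : Measure V).real (ann a b) ≤ om * b ^ 3 := by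
  rw [← vol_ball (0 : V) hb]
  apply measureReal_mono _ measure_ball_lt_top.ne
  intro x hx
  rw [mem_ball, dist_zero_right]; exact hx.2

/-- integrability of bounded functions -/
lemma Sol.int_bdd (h : Sol D u) {S : Set V} (hS : MeasurableSet S) (hSf : volume S < ⊤)
    (hf : ContinuousOn f (NN D u)) {C : ℝ} (hC : ∀ x ∈ NN D u, x ∈ S → |f x| ≤ C) :
    IntegrableOn f (NN D u ∩ S) := by
  have hfin : volume (NN D u ∩ S) < ⊤ := (measure_mono inter_subset_right).trans_lt hSf
  have h1 : IntegrableOn (fun _ : V => C) (NN D u ∩ S) := integrableOn_const (hs := hfin.ne)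
  refine h1.mono' ((hf.mono inter_subset_left).aestronglyMeasurable (h.meas_NN.inter hS)) ?_
  rw [ae_restrict_iff' (h.meas_NN.inter hS)]
  filter_upwards with x hx
  exact hC x hx.1 hx.2

/-- a solution with a hole of radius `δ`, at unit scale -/
structure Cfg (L c κ δ : ℝ) (D : Set V) (u : V → ℝ) : Prop where
  sol : Sol D u
  δ0 : 0 < δ
  sub : ∀ x : V, δ < ‖x‖ → ‖x‖ < 1 → x ∈ D
  lip : ∀ x ∈ NN D u, δ < ‖x‖ → ‖x‖ < 1 → ‖gr u x‖ ≤ L
  bd : ∀ x : V, δ < ‖x‖ → ‖x‖ < 1 → u x ≤ L * ‖x‖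
  dens : ∀ t : ℝ, κ * δ ≤ t → t ≤ 1 / 2 →
    c * t ^ 3 ≤ (volume : Measure V).real (NN D u ∩ ann (t / κ) t)

/-- the excess -/
def exc (δ : ℝ) (D : Set V) (u : V → ℝ) (ν : V) (c : ℝ) : ℝ :=
  ∫ x in NN D u ∩ ann δ 1, vv u ν c x ^ 2

lemma exc_nonneg (δ : ℝ) (D : Set V) (u : V → ℝ) (ν : V) (c : ℝ) : 0 ≤ exc δ D u ν c :=
  integral_nonneg fun _ => sq_nonneg _

lemma vv_cont (h : Sol D u) (ν : V) (c : ℝ) : ContinuousOn (vv u ν c) D := by
  unfold vv
  exact (h.cont.sub (continuousOn_const.inner continuousOn_id)).sub continuousOn_const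

section cfg

variable {L c κ δ : ℝ} {ν : V} {c' : ℝ}

lemma Cfg.vv_bd (h : Cfg L c κ δ D u) (hν : ‖ν‖ = 1) {x : V} (hx : x ∈ ann δ 1) :
    |vv u ν c' x| ≤ (L + 1) * ‖x‖ + |c'| := by
  have h1 := h.bd x hx.1 hx.2
  have h2 := h.sol.nonneg x (h.sub x hx.1 hx.2)
  have h3 := abs_le.1 (abs_real_inner_le_norm ν x)
  rw [hν, one_mul] at h3
  have h4 := abs_le.1 (le_refl |c'|)
  unfold vv
  rw [abs_le]
  constructor
  · nlinarith [norm_nonneg x, h3.2, h4.2]
  · linarith [h3.1, h4.1]

lemma Cfg.vv_bd1 (h : Cfg L c κ δ D u) (hL : 0 ≤ L) (hν : ‖ν‖ = 1) {x : V} (hx : x ∈ ann δ 1) :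
    |vv u ν c' x| ≤ L + 1 + |c'| := by
  have := h.vv_bd (c' := c') hν hx
  nlinarith [hx.2, norm_nonneg x]

lemma Cfg.exc_int (h : Cfg L c κ δ D u) (hL : 0 ≤ L) (hν : ‖ν‖ = 1) :
    IntegrableOn (fun x => vv u ν c' x ^ 2) (NN D u ∩ ann δ 1) := by
  apply h.sol.int_bdd (ann_meas _ _) (ann_fin _ _)
  · exact ((vv_cont h.sol ν c').mono fun x hx => hx.1).pow 2
  · intro x hx hxa
    rw [abs_of_nonneg (sq_nonneg _), ← sq_abs]
    exact pow_le_pow_left₀ (abs_nonneg _) (h.vv_bd1 hL hν hxa) 2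

/-- lower bound for the excess from a set where `v` is large -/
lemma Cfg.exc_lower (h : Cfg L c κ δ D u) (hL : 0 ≤ L) (hν : ‖ν‖ = 1) {S : Set V}
    (hS : MeasurableSet S) (hSa : S ⊆ ann δ 1) {m : ℝ} (hm : 0 ≤ m)
    (hv : ∀ x ∈ NN D u, x ∈ S → m ≤ |vv u ν c' x|) :
    m ^ 2 * (volume : Measure V).real (NN D u ∩ S) ≤ exc δ D u ν c' := by
  have hfin : volume (NN D u ∩ S) < ⊤ :=
    (measure_mono (inter_subset_right.trans hSa)).trans_lt (ann_fin _ _)
  have hsub : NN D u ∩ S ⊆ NN D u ∩ ann δ 1 := inter_subset_inter_right _ hSa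
  have hint := h.exc_int (c' := c') hL hν
  calc m ^ 2 * (volume : Measure V).real (NN D u ∩ S)
      = ∫ x in NN D u ∩ S, m ^ 2 := by simp [mul_comm, Measure.real]
    _ ≤ ∫ x in NN D u ∩ S, vv u ν c' x ^ 2 := by
        apply setIntegral_mono_on (integrableOn_const (hs := hfin.ne)) (hint.mono_set hsub)
          (h.sol.meas_NN.inter hS)
        intro x hx
        rw [← sq_abs (vv u ν c' x)]
        exact pow_le_pow_left₀ hm (hv x hx.1 hx.2) 2
    _ ≤ exc δ D u ν c' := by
        unfold exc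
        apply setIntegral_mono_set hint
        · filter_upwards with x
          exact sq_nonneg _
        · exact hsub.eventuallyLE

end cfg

end

end Pool.Agent.D0H33.FB
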