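import Pool.Agent.D0H33.FB.A08

set_option autoImplicit false

open Set Metric Filter Topology MeasureTheory
open ExtStar (lap)

namespace Pool.Agent.D0H33.FB

noncomputable section

variable {D : Set V} {u : V → ℝ} {K : Set V} {f g : V → ℝ}

/-- volume of slabs -/
lemma slab_vol : ∃ C : ℝ, 0 < C ∧ ∀ (ν : V) (a b : ℝ), ‖ν‖ = 1 → a ≤ b →
    (volume : Measure V).real {x | ‖x‖ < 1 ∧ a ≤ inner ℝ ν x ∧ inner ℝ ν x ≤ b} ≤ C * (b - a) := by
  obtain ⟨Cc, hCc, hcut⟩ := cut_grad
  refine ⟨2 * (Real.pi * (Cc * (om * 8))), by have := om_pos; positivity, ?_⟩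
  intro ν a b hν hab
  -- it is enough to treat wider slabs
  have key : ∀ w : ℝ, b - a < 2 * w →
      (volume : Measure V).real {x | ‖x‖ < 1 ∧ a ≤ inner ℝ ν x ∧ inner ℝ ν x ≤ b} ≤
        2 * (Real.pi * (Cc * (om * 8))) * (2 * w) / 2 := by
    intro w hw
    have hw0 : 0 < w := by linarith
    set m := (a + b) / 2 with hm
    set φ := cut (0 : V) 1 2 with hφ
    set q : ℝ → ℝ := fun s => w * Real.arctan ((s - m) / w) with hq
    have hq' : ∀ s, HasDerivAt q (1 / (1 + ((s - m) / w) ^ 2)) s := by
      intro s
      have h1 : HasDerivAt (fun s : ℝ => (s - m) / w) (1 / w) s :=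
        ((hasDerivAt_id s).sub_const m).div_const w
      have h2 := (h1.arctan).const_mul w
      refine h2.congr_deriv ?_
      field_simp
    have hqb : ∀ s, |q s| ≤ w * (Real.pi / 2) := by
      intro s
      simp only [hq]
      rw [abs_mul, abs_of_pos hw0]
      apply mul_le_mul_of_nonneg_left _ hw0.le
      rw [abs_le]
      exact ⟨(Real.neg_pi_div_two_lt_arctan _).le, (Real.arctan_lt_pi_div_two _).le⟩
    have hinner : ContDiff ℝ 1 (fun x : V => inner ℝ ν x) := contDiff_const.inner ℝ contDiff_id
    have hqs : ContDiff ℝ 1 q := by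
      simp only [hq]
      exact contDiff_const.mul (Real.contDiff_arctan.comp ((contDiff_id.sub contDiff_const).div_const w))
    set F : V → ℝ := fun x => φ x * q (inner ℝ ν x) with hF
    have hFs : ContDiff ℝ 1 F := (cut_smooth _ _ _ (n := 1)).mul (hqs.comp hinner)
    have hFc : HasCompactSupport F := by
      apply HasCompactSupport.intro (isCompact_closedBall (0 : V) 2)
      intro x hx
      rw [mem_closedBall, dist_eq_norm, not_le] at hx
      simp only [hF, hφ]
      rw [cut_zero (by norm_num) (by norm_num) hx.le, zero_mul]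
    have h0 := integral_fderiv_zero hFs hFc ν
    have e1 : ∀ x, fderiv ℝ F x ν = φ x * (1 / (1 + ((inner ℝ ν x - m) / w) ^ 2)) +
        q (inner ℝ ν x) * fderiv ℝ φ x ν := by
      intro x
      have h2 : HasFDerivAt (fun x : V => inner ℝ ν x) (innerSL ℝ ν) x := (innerSL ℝ ν).hasFDerivAt
      have h3 : HasFDerivAt (fun x : V => q (inner ℝ ν x))
          ((1 / (1 + ((inner ℝ ν x - m) / w) ^ 2)) • innerSL ℝ ν) x :=
        (hq' (inner ℝ ν x)).comp_hasFDerivAt x h2
      have h4 : HasFDerivAt φ (fderiv ℝ φ x) x :=
        ((cut_smooth _ _ _ (n := 1)).differentiable (by norm_num) x).hasFDerivAt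
      have h5 : HasFDerivAt F _ x := h4.mul h3
      rw [h5.fderiv]
      simp only [_root_.add_apply, _root_.smul_apply, smul_eq_mul, innerSL_apply_apply,
        real_inner_self_eq_norm_sq, hν]
      ring
    have c1 : Continuous (fun x => φ x * (1 / (1 + ((inner ℝ ν x - m) / w) ^ 2))) := by
      have h5 : Continuous φ := (cut_smooth _ _ _ (n := 0)).continuous
      refine h5.mul (continuous_const.div (by fun_prop) ?_)
      intro x
      positivity
    have c2 : Continuous (fun x => q (inner ℝ ν x) * fderiv ℝ φ x ν) := by
      refine (hqs.continuous.comp (by fun_prop)).mul ?_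
      exact ((cut_smooth _ _ _ (n := 1)).continuous_fderiv (by norm_num)).clm_apply continuous_const
    have s1 : HasCompactSupport (fun x => φ x * (1 / (1 + ((inner ℝ ν x - m) / w) ^ 2))) := by
      apply HasCompactSupport.intro (isCompact_closedBall (0 : V) 2)
      intro x hx
      rw [mem_closedBall, dist_eq_norm, not_le] at hx
      simp only [hφ]
      rw [cut_zero (by norm_num) (by norm_num) hx.le, zero_mul]
    have s2 : HasCompactSupport (fun x => q (inner ℝ ν x) * fderiv ℝ φ x ν) := by
      apply HasCompactSupport.intro (isCompact_closedBall (0 : V) 2)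
      intro x hx
      rw [mem_closedBall, dist_eq_norm, not_le] at hx
      simp only [hφ]
      rw [((hcut 0 1 2 (by norm_num) (by norm_num) x).2.1 hx.le)]
      simp
    simp_rw [e1] at h0
    have i1 := c1.integrable_of_hasCompactSupport s1 (μ := (volume : Measure V))
    have i2 := c2.integrable_of_hasCompactSupport s2 (μ := (volume : Measure V))
    rw [integral_add i1 i2] at h0
    set S : Set V := {x | ‖x‖ < 1 ∧ a ≤ inner ℝ ν x ∧ inner ℝ ν x ≤ b} with hS
    have hSm : MeasurableSet S := by
      have m1 : MeasurableSet {x : V | ‖x‖ < 1} :=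
        (isOpen_lt continuous_norm continuous_const).measurableSet
      have m2 : MeasurableSet {x : V | a ≤ inner ℝ ν x} :=
        (isClosed_le continuous_const (by fun_prop)).measurableSet
      have m3 : MeasurableSet {x : V | inner ℝ ν x ≤ b} :=
        (isClosed_le (by fun_prop) continuous_const).measurableSet
      exact m1.inter (m2.inter m3)
    have hSf : volume S < ⊤ := by
      have : S ⊆ ball (0 : V) 1 := fun x hx => by rw [mem_ball, dist_zero_right]; exact hx.1
      exact (measure_mono this).trans_lt measure_ball_lt_top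
    -- lower bound
    have l1 : (volume : Measure V).real S * (1 / 2) ≤
        ∫ x, φ x * (1 / (1 + ((inner ℝ ν x - m) / w) ^ 2)) := by
      calc (volume : Measure V).real S * (1 / 2) = ∫ x in S, (1 / 2 : ℝ) := by simp [Measure.real]
        _ ≤ ∫ x in S, φ x * (1 / (1 + ((inner ℝ ν x - m) / w) ^ 2)) := by
            apply setIntegral_mono_on (integrableOn_const (hs := hSf.ne)) i1.integrableOn hSm
            intro x hx
            have hx1 : φ x = 1 := cut_one (by norm_num) (by norm_num) (by
              rw [sub_zero]; exact hx.1.le)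
            rw [hx1, one_mul]
            apply one_div_le_one_div_of_le (by positivity)
            have h6 : |(inner ℝ ν x - m) / w| ≤ 1 := by
              rw [abs_div, abs_of_pos hw0, div_le_one hw0, abs_le]
              constructor <;> linarith [hx.2.1, hx.2.2]
            have h7 : ((inner ℝ ν x - m) / w) ^ 2 ≤ 1 := by
              rw [← sq_abs]; exact pow_le_one₀ (abs_nonneg _) h6
            linarith
        _ ≤ ∫ x, φ x * (1 / (1 + ((inner ℝ ν x - m) / w) ^ 2)) := by
            apply setIntegral_le_integral i1
            filter_upwards with x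
            have : 0 ≤ φ x := cut_nonneg _ _ _ _
            positivity
    -- upper bound
    have l2 : |∫ x, q (inner ℝ ν x) * fderiv ℝ φ x ν| ≤ w * (Real.pi / 2) * Cc * (om * 8) := by
      have e2 : ∫ x, q (inner ℝ ν x) * fderiv ℝ φ x ν =
          ∫ x in closedBall (0 : V) 2, q (inner ℝ ν x) * fderiv ℝ φ x ν := by
        symm
        apply setIntegral_eq_integral_of_forall_compl_eq_zero
        intro x hx
        rw [mem_closedBall, dist_eq_norm, not_le] at hx
        simp only [hφ]
        rw [((hcut 0 1 2 (by norm_num) (by norm_num) x).2.1 hx.le)]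
        simp
      rw [e2]
      have h8 := norm_setIntegral_le_of_norm_le_const (μ := (volume : Measure V))
        (s := closedBall (0 : V) 2) (f := fun x => q (inner ℝ ν x) * fderiv ℝ φ x ν)
        (C := w * (Real.pi / 2) * Cc) measure_closedBall_lt_top (by
          intro x _
          rw [Real.norm_eq_abs, abs_mul]
          have t1 := hqb (inner ℝ ν x)
          have t2 := le_op (fderiv ℝ φ x) ν
          have t3 := (hcut 0 1 2 (by norm_num) (by norm_num) x).1
          rw [hν, mul_one] at t2
          norm_num at t3
          exact mul_le_mul t1 (t2.trans t3) (abs_nonneg _) (by have := Real.pi_pos; positivity))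
      rw [vol_closedBall _ (by norm_num)] at h8
      norm_num at h8 ⊢
      exact h8
    have l3 := (abs_le.1 l2).1
    have l4 : 0 ≤ w * Real.pi * Cc * om := by
      have := om_pos; have := Real.pi_pos; positivity
    linarith
  -- conclusion
  refine le_of_forall_pos_le_add fun ε hε => ?_
  have hP : 0 < 2 * (Real.pi * (Cc * (om * 8))) := by have := om_pos; positivity
  have h9 := key ((b - a) / 2 + ε / (2 * (Real.pi * (Cc * (om * 8))))) (by
    have : 0 < ε / (2 * (Real.pi * (Cc * (om * 8)))) := by positivity
    linarith)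
  refine h9.trans ?_
  have e3 : 2 * (Real.pi * (Cc * (om * 8))) *
      (2 * ((b - a) / 2 + ε / (2 * (Real.pi * (Cc * (om * 8)))))) / 2 =
      2 * (Real.pi * (Cc * (om * 8))) * (b - a) / 2 + ε := by
    have h10 := om_pos.ne'
    have h11 := Real.pi_pos.ne'
    field_simp
  rw [e3]
  have : 0 ≤ 2 * (Real.pi * (Cc * (om * 8))) * (b - a) := mul_nonneg hP.le (by linarith)
  linarith

end

end Pool.Agent.D0H33.FB
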