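import Pool.Agent.D0H33.FB.A10

set_option autoImplicit false

open Set Metric Filter Topology MeasureTheory
open ExtStar (lap)

namespace Pool.Agent.D0H33.FB

noncomputable section

variable {D : Set V} {u : V → ℝ}

/-- the free boundary is in a slab of width `h`, and the phases are separated by the slab -/
structure Cln (h δ : ℝ) (D : Set V) (u : V → ℝ) (ν : V) (c' : ℝ) : Prop where
  h0 : 0 < h
  hs : h ≤ 1 / 100
  hδ : 8 * δ ≤ h
  hc : |c'| ≤ h / 4
  F : ∀ p ∈ FF D u, δ < ‖p‖ → ‖p‖ ≤ 7 / 8 → |inner ℝ ν p + c'| ≤ h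
  pos : ∀ x : V, ‖x‖ < 7 / 8 → h < inner ℝ ν x + c' → x ∈ NN D u
  neg : ∀ x : V, ‖x‖ < 7 / 8 → inner ℝ ν x + c' < -h → x ∉ NN D u

theorem clean_all (L c κ : ℝ) (hL : 1 ≤ L) (hc : 0 < c) (hκ : 1 ≤ κ) :
    ∃ M : ℝ, 1 ≤ M ∧ ∀ η : ℝ, 0 < η → ∃ ε : ℝ, 0 < ε ∧
    ∀ (δ : ℝ) (D : Set V) (u : V → ℝ) (ν : V) (c' : ℝ), Cfg L c κ δ D u → ‖ν‖ = 1 →
      exc δ D u ν c' + δ ≤ ε → ∃ h : ℝ, h ^ 5 = M * (exc δ D u ν c' + δ) ∧ h ≤ η ∧
        Cln h δ D u ν c' := by
  obtain ⟨M0, ε0, hM0, hε0, hH⟩ := height_F L c κ hL hc hκ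
  obtain ⟨Cs, hCs, hslab⟩ := slab_vol
  refine ⟨M0 * 8 ^ 5, by nlinarith, ?_⟩
  intro η hη
  set η' := min η (min (1 / 100) (c / (32 * Cs))) with hη'
  have hη'0 : 0 < η' := by positivity
  refine ⟨min (min ε0 (η' ^ 5 / (M0 * 8 ^ 5))) (min (1 / (4 * κ)) (min (1 / 100) (om / 10000))),
    by have := om_pos; positivity, ?_⟩
  intro δ D u ν c' hcfg hν hE
  obtain ⟨hcc, hF⟩ := hH δ D u ν c' hcfg hν (hE.trans ((min_le_left _ _).trans (min_le_left _ _)))
  set E := exc δ D u ν c' + δ with hEdef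
  have hexc := exc_nonneg δ D u ν c'
  have hδ := hcfg.δ0
  have hE1 : E ≤ η' ^ 5 / (M0 * 8 ^ 5) := hE.trans ((min_le_left _ _).trans (min_le_right _ _))
  have hE2 : E ≤ 1 / (4 * κ) := hE.trans ((min_le_right _ _).trans (min_le_left _ _))
  have hE3 : E ≤ 1 / 100 :=
    hE.trans ((min_le_right _ _).trans ((min_le_right _ _).trans (min_le_left _ _)))
  have hE4 : E ≤ om / 10000 :=
    hE.trans ((min_le_right _ _).trans ((min_le_right _ _).trans (min_le_right _ _)))
  have hE0 : 0 < E := by linarith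
  have hδE : δ ≤ E := by linarith
  set h := (M0 * 8 ^ 5 * E) ^ ((1 : ℝ) / 5) with hh
  have hh5 : h ^ 5 = M0 * 8 ^ 5 * E := by
    rw [hh, ← Real.rpow_natCast, ← Real.rpow_mul (by positivity)]
    norm_num
  have hh0 : 0 < h := by positivity
  have hroot : ∀ x : ℝ, 0 ≤ x → x ^ 5 ≤ h ^ 5 → x ≤ h := fun x _ hx =>
    le_of_pow_le_pow_left₀ (by norm_num) hh0.le hx
  have hhη : h ≤ η' := by
    apply le_of_pow_le_pow_left₀ (n := 5) (by norm_num) hη'0.le
    rw [hh5]
    rw [le_div_iff₀ (by positivity)] at hE1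
    linarith
  have h100 : h ≤ 1 / 100 := hhη.trans ((min_le_right _ _).trans (min_le_left _ _))
  have hCs' : h ≤ c / (32 * Cs) := hhη.trans ((min_le_right _ _).trans (min_le_right _ _))
  have hδ5 : δ ^ 5 ≤ E := by
    have : δ ^ 5 ≤ δ ^ 1 := pow_le_pow_of_le_one hδ.le (by linarith) (by norm_num)
    rw [pow_one] at this
    linarith
  have h8δ : 8 * δ ≤ h := by
    apply hroot _ (by positivity)
    rw [hh5, mul_pow]
    nlinarith
  have hc4 : |c'| ≤ h / 4 := by
    have : 4 * |c'| ≤ h := by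
      apply hroot _ (by positivity)
      rw [hh5, mul_pow]
      nlinarith
    linarith
  have hFh : ∀ p ∈ FF D u, δ < ‖p‖ → ‖p‖ ≤ 7 / 8 → |inner ℝ ν p + c'| ≤ h := by
    intro p hp h1 h2
    apply hroot _ (abs_nonneg _)
    rw [hh5]
    have := hF p hp h1 h2
    nlinarith
  have hin : ∀ x : V, |inner ℝ ν x| ≤ ‖x‖ := fun x => by
    have := abs_real_inner_le_norm ν x
    rwa [hν, one_mul] at this
  -- the two half balls
  have hballc : Convex ℝ {x : V | ‖x‖ < 7 / 8} := by
    have : {x : V | ‖x‖ < 7 / 8} = ball 0 (7 / 8) := by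
      ext x; simp
    rw [this]; exact convex_ball _ _
  have hneg : ∀ x : V, ‖x‖ < 7 / 8 → inner ℝ ν x + c' < -h → x ∉ NN D u := by
    set U : Set V := {x | ‖x‖ < 7 / 8} ∩ {x | inner ℝ ν x < -h - c'} with hU
    have hUconv : Convex ℝ U := hballc.inter
      (convex_halfSpace_lt (𝕜 := ℝ) (f := fun x : V => inner ℝ ν x)
        (innerSL ℝ ν).toLinearMap.isLinear _)
    have hUnorm : ∀ x ∈ U, δ < ‖x‖ := by
      intro x hx
      have h1 := hin x
      have h2 : inner ℝ ν x < -h - c' := hx.2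
      have h3 := abs_le.1 hc4
      have h4 := (abs_le.1 h1).1
      linarith [h3.1, h3.2]
    have hUD : U ⊆ D := fun x hx => hcfg.sub x (hUnorm x hx) (by have := hx.1; simp only [mem_ofPred_eq] at this; linarith)
    have hUF : ∀ x ∈ U, x ∉ FF D u := by
      intro x hx hxF
      have h1 := hFh x hxF (hUnorm x hx) (le_of_lt hx.1)
      have h2 : inner ℝ ν x < -h - c' := hx.2
      have h3 := (abs_le.1 h1).1
      linarith
    rcases hcfg.sol.clean hUconv.isPreconnected hUD hUF with h1 | h1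
    · exfalso
      set p : V := (-(1 / 2 : ℝ)) • ν with hp
      have hpn : ‖p‖ = 1 / 2 := by rw [hp, norm_smul, hν]; norm_num
      have hpν : inner ℝ ν p = -(1 / 2 : ℝ) := by
        rw [hp, inner_smul_right, real_inner_self_eq_norm_sq, hν]; norm_num
      have hb : ∀ x ∈ ball p (1 / 8), ‖x‖ < 5 / 8 ∧ 3 / 8 < ‖x‖ ∧ inner ℝ ν x < -(3 / 8 : ℝ) := by
        intro x hx
        rw [mem_ball, dist_eq_norm] at hx
        have a1 : ‖p‖ ≤ ‖x‖ + ‖x - p‖ := by
          have := norm_sub_le x (x - p)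
          rwa [sub_sub_cancel] at this
        have a2 : ‖x‖ ≤ ‖p‖ + ‖x - p‖ := by
          have := norm_add_le p (x - p)
          rwa [add_sub_cancel] at this
        have a3 := (abs_le.1 (hin (x - p))).2
        rw [inner_sub_right, hpν] at a3
        refine ⟨by linarith, by linarith, by linarith⟩
      have h3 := abs_le.1 hc4
      have h4 := hcfg.exc_lower (c' := c') (by linarith) hν (S := ball p (1 / 8)) measurableSet_ball
        (fun x hx => ⟨by linarith [(hb x hx).2.1], by linarith [(hb x hx).1]⟩) (m := 1 / 4)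
        (by norm_num) (by
          intro x hx hxb
          have h5 := hx.2
          have h6 := (hb x hxb).2.2
          unfold vv
          rw [abs_of_pos (by linarith [h3.2])]
          linarith [h3.2])
      have h5 : NN D u ∩ ball p (1 / 8) = ball p (1 / 8) := by
        apply inter_eq_right.2
        intro x hx
        apply h1
        refine ⟨by show ‖x‖ < 7 / 8; linarith [(hb x hx).1], ?_⟩
        show inner ℝ ν x < -h - c'
        linarith [(hb x hx).2.2, h3.2]
      rw [h5, vol_ball _ (by norm_num)] at h4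
      have := om_pos
      norm_num at h4
      linarith
    · intro x hx1 hx2
      exact h1 x ⟨hx1, by show inner ℝ ν x < -h - c'; linarith⟩
  have hpos : ∀ x : V, ‖x‖ < 7 / 8 → h < inner ℝ ν x + c' → x ∈ NN D u := by
    set U : Set V := {x | ‖x‖ < 7 / 8} ∩ {x | h - c' < inner ℝ ν x} with hU
    have hUconv : Convex ℝ U := hballc.inter
      (convex_halfSpace_gt (𝕜 := ℝ) (f := fun x : V => inner ℝ ν x)
        (innerSL ℝ ν).toLinearMap.isLinear _)
    have hUnorm : ∀ x ∈ U, δ < ‖x‖ := by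
      intro x hx
      have h1 := hin x
      have h2 : h - c' < inner ℝ ν x := hx.2
      have h3 := abs_le.1 hc4
      have h4 := (abs_le.1 h1).2
      linarith [h3.1, h3.2]
    have hUD : U ⊆ D := fun x hx => hcfg.sub x (hUnorm x hx) (by have := hx.1; simp only [mem_ofPred_eq] at this; linarith)
    have hUF : ∀ x ∈ U, x ∉ FF D u := by
      intro x hx hxF
      have h1 := hFh x hxF (hUnorm x hx) (le_of_lt hx.1)
      have h2 : h - c' < inner ℝ ν x := hx.2
      have h3 := (abs_le.1 h1).2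
      linarith
    rcases hcfg.sol.clean hUconv.isPreconnected hUD hUF with h1 | h1
    · intro x hx1 hx2
      exact h1 ⟨hx1, by show h - c' < inner ℝ ν x; linarith⟩
    · exfalso
      have h2 := hcfg.dens (1 / 2) (by
        have : κ * δ ≤ κ * (1 / (4 * κ)) := by gcongr; linarith
        have e : κ * (1 / (4 * κ)) = 1 / 4 := by field_simp
        linarith) (le_refl _)
      have h3 : NN D u ∩ ann (1 / 2 / κ) (1 / 2) ⊆
          {x | ‖x‖ < 1 ∧ -h - c' ≤ inner ℝ ν x ∧ inner ℝ ν x ≤ h - c'} := by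
        intro x hx
        have h4 : ‖x‖ < 1 / 2 := hx.2.2
        refine ⟨by linarith, ?_, ?_⟩
        · by_contra hn
          push Not at hn
          exact hneg x (by linarith) (by linarith) hx.1
        · by_contra hn
          push Not at hn
          exact h1 x ⟨by show ‖x‖ < 7 / 8; linarith, hn⟩ hx.1
      have h4 : (volume : Measure V).real (NN D u ∩ ann (1 / 2 / κ) (1 / 2)) ≤
          Cs * (h - c' - (-h - c')) := by
        refine le_trans (measureReal_mono h3 ?_) (hslab ν _ _ hν (by linarith))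
        have : {x : V | ‖x‖ < 1 ∧ -h - c' ≤ inner ℝ ν x ∧ inner ℝ ν x ≤ h - c'} ⊆ ball 0 1 :=
          fun x hx => by rw [mem_ball, dist_zero_right]; exact hx.1
        exact ((measure_mono this).trans_lt measure_ball_lt_top).ne
      have h5 : Cs * h ≤ c / 32 := by
        rw [le_div_iff₀ (by positivity)] at hCs'
        linarith
      norm_num at h2
      nlinarith
  exact ⟨h, hh5, hhη.trans (min_le_left _ _), ⟨hh0, h100, h8δ, hc4, hFh, hpos, hneg⟩⟩

end

end Pool.Agent.D0H33.FB
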