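import Pool.Agent.D0H33.FB.A11

set_option autoImplicit false

open Set Metric Filter Topology MeasureTheory
open ExtStar (lap)

namespace Pool.Agent.D0H33.FB

noncomputable section

variable {D : Set V} {u : V → ℝ}

/-- cut off near the hole -/
def hol (δ : ℝ) (x : V) : ℝ := 1 - cut 0 (2 * δ) (3 * δ) x

lemma hol_smooth (δ : ℝ) {n : ℕ∞} : ContDiff ℝ n (hol δ) := contDiff_const.sub (cut_smooth _ _ _)

lemma hol_nonneg (δ : ℝ) (x : V) : 0 ≤ hol δ x := by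
  unfold hol; linarith [cut_le_one 0 (2 * δ) (3 * δ) x]

lemma hol_le_one (δ : ℝ) (x : V) : hol δ x ≤ 1 := by
  unfold hol; linarith [cut_nonneg 0 (2 * δ) (3 * δ) x]

lemma hol_zero {δ : ℝ} (hδ : 0 < δ) {x : V} (hx : ‖x‖ ≤ 2 * δ) : hol δ x = 0 := by
  unfold hol
  rw [cut_one (by linarith) (by linarith) (by rwa [sub_zero]), sub_self]

lemma hol_one {δ : ℝ} (hδ : 0 < δ) {x : V} (hx : 3 * δ ≤ ‖x‖) : hol δ x = 1 := by
  unfold hol
  rw [cut_zero (by linarith) (by linarith) (by rwa [sub_zero]), sub_zero]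

lemma hol_grad : ∃ C : ℝ, 0 < C ∧ ∀ (δ : ℝ), 0 < δ → ∀ x : V,
    ‖fderiv ℝ (hol δ) x‖ ≤ C / δ ∧ (3 * δ ≤ ‖x‖ → fderiv ℝ (hol δ) x = 0) := by
  obtain ⟨C, hC, hcut⟩ := cut_grad
  refine ⟨C, hC, fun δ hδ x => ?_⟩
  have e : fderiv ℝ (hol δ) x = - fderiv ℝ (cut 0 (2 * δ) (3 * δ)) x := by
    have h1 : HasFDerivAt (hol δ) (- fderiv ℝ (cut 0 (2 * δ) (3 * δ)) x) x := by
      unfold hol
      exact (((cut_smooth 0 (2 * δ) (3 * δ) (n := 1)).differentiable (by norm_num) x).hasFDerivAt).const_sub 1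
    exact h1.fderiv
  have h2 := hcut 0 (2 * δ) (3 * δ) (by linarith) (by linarith) x
  rw [e, norm_neg]
  constructor
  · refine h2.1.trans (le_of_eq ?_)
    congr 1; ring
  · intro hx
    rw [h2.2.1 (by rwa [sub_zero]), neg_zero]

/-- integral bounds for the gradient of the cut off near the hole -/
lemma hol_int : ∃ C : ℝ, 0 < C ∧ ∀ (δ : ℝ) (S : Set V), 0 < δ → MeasurableSet S →
    IntegrableOn (fun x => ‖fderiv ℝ (hol δ) x‖) S ∧
    IntegrableOn (fun x => ‖fderiv ℝ (hol δ) x‖ ^ 2) S ∧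
    ∫ x in S, ‖fderiv ℝ (hol δ) x‖ ≤ C * δ ^ 2 ∧
    ∫ x in S, ‖fderiv ℝ (hol δ) x‖ ^ 2 ≤ C * δ := by
  obtain ⟨C, hC, hgr⟩ := hol_grad
  refine ⟨(C + C ^ 2) * (om * 27), by have := om_pos; positivity, ?_⟩
  intro δ S hδ hS
  have hcont : Continuous (fun x => ‖fderiv ℝ (hol δ) x‖) :=
    ((hol_smooth δ (n := 1)).continuous_fderiv (by norm_num)).norm
  have gen : ∀ k : ℕ, 1 ≤ k → IntegrableOn (fun x => ‖fderiv ℝ (hol δ) x‖ ^ k) S ∧
      ∫ x in S, ‖fderiv ℝ (hol δ) x‖ ^ k ≤ (C / δ) ^ k * (om * (3 * δ) ^ 3) := by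
    intro k hk
    have hz : ∀ x : V, x ∉ closedBall (0 : V) (3 * δ) → ‖fderiv ℝ (hol δ) x‖ ^ k = 0 := by
      intro x hx
      rw [mem_closedBall, dist_zero_right, not_le] at hx
      rw [(hgr δ hδ x).2 hx.le, norm_zero, zero_pow (by omega)]
    have hcs : HasCompactSupport (fun x => ‖fderiv ℝ (hol δ) x‖ ^ k) :=
      HasCompactSupport.intro (isCompact_closedBall (0 : V) (3 * δ)) hz
    have hint : Integrable (fun x => ‖fderiv ℝ (hol δ) x‖ ^ k) (volume : Measure V) :=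
      (hcont.pow k).integrable_of_hasCompactSupport hcs
    refine ⟨hint.integrableOn, ?_⟩
    calc ∫ x in S, ‖fderiv ℝ (hol δ) x‖ ^ k ≤ ∫ x, ‖fderiv ℝ (hol δ) x‖ ^ k :=
          setIntegral_le_integral hint (Eventually.of_forall fun x => by positivity)
      _ = ∫ x in closedBall (0 : V) (3 * δ), ‖fderiv ℝ (hol δ) x‖ ^ k :=
          (setIntegral_eq_integral_of_forall_compl_eq_zero hz).symm
      _ ≤ (C / δ) ^ k * (om * (3 * δ) ^ 3) := by
          have h8 := norm_setIntegral_le_of_norm_le_const (μ := (volume : Measure V))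
            (s := closedBall (0 : V) (3 * δ)) (f := fun x => ‖fderiv ℝ (hol δ) x‖ ^ k)
            (C := (C / δ) ^ k) measure_closedBall_lt_top (by
              intro x _
              rw [Real.norm_eq_abs, abs_of_nonneg (by positivity)]
              exact pow_le_pow_left₀ (norm_nonneg _) (hgr δ hδ x).1 k)
          rw [vol_closedBall _ (by positivity)] at h8
          exact (le_abs_self _).trans h8
  have g1 := gen 1 (le_refl _)
  have g2 := gen 2 (by norm_num)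
  simp only [pow_one] at g1
  have hom := om_pos
  refine ⟨g1.1, g2.1, g1.2.trans ?_, g2.2.trans ?_⟩
  · have e : C / δ * (om * (3 * δ) ^ 3) = C * (om * 27) * δ ^ 2 := by field_simp; ring
    rw [e]
    have : 0 ≤ C ^ 2 * (om * 27) * δ ^ 2 := by positivity
    nlinarith
  · have e : (C / δ) ^ 2 * (om * (3 * δ) ^ 3) = C ^ 2 * (om * 27) * δ := by field_simp; ring
    rw [e]
    have : 0 ≤ C * (om * 27) * δ := by positivity
    nlinarith

/-- the compact set where the test functions live -/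
def Kc (δ : ℝ) : Set V := {x | 2 * δ ≤ ‖x‖ ∧ ‖x‖ ≤ 7 / 8}

lemma Kc_compact (δ : ℝ) : IsCompact (Kc δ) := by
  have h1 : IsClosed (Kc δ) :=
    (isClosed_le continuous_const continuous_norm).inter (isClosed_le continuous_norm continuous_const)
  have h2 : Kc δ ⊆ closedBall (0 : V) (7 / 8) := fun x hx => by
    rw [mem_closedBall, dist_zero_right]; exact hx.2
  exact (isCompact_closedBall _ _).of_isClosed_subset h1 h2

lemma Kc_ann {δ : ℝ} (hδ : 0 < δ) : Kc δ ⊆ ann δ 1 := fun x hx =>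
  ⟨by linarith [hx.1], by linarith [hx.2]⟩

section cfg

variable {L c κ δ : ℝ} {ν : V} {c' h : ℝ}

lemma Cfg.KcD (hc : Cfg L c κ δ D u) : Kc δ ⊆ D := fun x hx =>
  hc.sub x (Kc_ann hc.δ0 hx).1 (Kc_ann hc.δ0 hx).2

/-- smooth functions of compact support times the hole cut off are test functions -/
lemma Cfg.test (hc : Cfg L c κ δ D u) {P : V → ℝ} (hP : ContDiff ℝ 1 P)
    (hP0 : ∀ x, 7 / 8 ≤ ‖x‖ → P x = 0) : TF D u (Kc δ) (fun x => P x * hol δ x) where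
  toBF := BF.of_contDiff (Kc_compact δ) (hP.mul (hol_smooth δ (n := 1)))
  supp := fun x _ hx => by
    have : ‖x‖ < 2 * δ ∨ 7 / 8 < ‖x‖ := by
      by_contra hn
      push Not at hn
      exact hx ⟨hn.1, hn.2⟩
    rcases this with h1 | h1
    · rw [hol_zero hc.δ0 h1.le, mul_zero]
    · rw [hP0 x h1.le, zero_mul]

lemma Cfg.a_le (hc : Cfg L c κ δ D u) (hν : ‖ν‖ = 1) {x : V} (hx : x ∈ NN D u) (hxa : x ∈ ann δ 1) :
    ‖gr u x - ν‖ ≤ L + 1 := by
  have h1 := hc.lip x hx hxa.1 hxa.2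
  have h2 := norm_sub_le (gr u x) ν
  rw [hν] at h2
  linarith

lemma Cfg.int_eq (hc : Cfg L c κ δ D u) {F : V → ℝ} (hF : ∀ x ∈ NN D u, x ∉ Kc δ → F x = 0) :
    ∫ x in NN D u, F x = ∫ x in NN D u ∩ ann δ 1, F x := by
  apply setIntegral_eq_of_subset_of_forall_sdiff_eq_zero hc.sol.meas_NN inter_subset_left
  intro x hx
  apply hF x hx.1
  intro hxK
  exact hx.2 ⟨hx.1, Kc_ann hc.δ0 hxK⟩

end cfg

lemma young5 {a b : ℝ} (ha : 0 ≤ a) (hb : 0 ≤ b) : a * b ^ 4 ≤ b ^ 5 / 4 + 256 * a ^ 5 := by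
  by_cases h : a ≤ b / 4
  · have h1 : a * b ^ 4 ≤ b / 4 * b ^ 4 := mul_le_mul_of_nonneg_right h (by positivity)
    have h2 : 0 ≤ 256 * a ^ 5 := by positivity
    nlinarith
  · push Not at h
    have h1 : b ≤ 4 * a := by linarith
    have h2 : b ^ 4 ≤ (4 * a) ^ 4 := pow_le_pow_left₀ hb h1 4
    have h3 : a * b ^ 4 ≤ a * (4 * a) ^ 4 := mul_le_mul_of_nonneg_left h2 ha
    have h4 : 0 ≤ b ^ 5 / 4 := by positivity
    nlinarith

/-- energy estimate -/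
theorem energy (L c κ : ℝ) (hL : 1 ≤ L) : ∃ C : ℝ, 0 < C ∧
    ∀ (δ : ℝ) (D : Set V) (u : V → ℝ) (ν : V) (c' h : ℝ), Cfg L c κ δ D u → ‖ν‖ = 1 →
      Cln h δ D u ν c' →
      ∫ x in NN D u ∩ ann δ (3 / 4), ‖gr u x - ν‖ ^ 2 ≤ C * (exc δ D u ν c' + δ + h ^ 5) := by
  obtain ⟨Cc, hCc, hcut⟩ := cut_grad
  obtain ⟨Ch, hCh, hhol⟩ := hol_int
  set P0 := 8 * Cc with hP0
  have hP00 : 0 < P0 := by positivity
  have hom := om_pos
  set C1 := 50 * P0 ^ 2 + (50 * (L + 2) ^ 2 + 15 * (L + 1) ^ 2) * Ch +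
    256 * (15 * P0) ^ 5 * (L + 1) ^ 2 * om with hC1
  refine ⟨2 * C1 + (L + 1) ^ 2 * (om * 27), by positivity, ?_⟩
  intro δ D u ν c' h hc hν hcl
  have hδ := hc.δ0
  have hδ1 : δ ≤ 1 := by linarith [hcl.hδ, hcl.hs]
  have hh0 := hcl.h0
  have hh1 : h ≤ 1 := by linarith [hcl.hs]
  set φ := cut (0 : V) (3 / 4) (7 / 8) with hφ
  have hφs : ContDiff ℝ 1 φ := cut_smooth _ _ _ (n := 1)
  have hφ0 : ∀ x : V, 7 / 8 ≤ ‖x‖ → φ x = 0 := fun x hx =>
    cut_zero (by norm_num) (by norm_num) (by rwa [sub_zero])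
  set χ : V → ℝ := fun x => φ x * hol δ x with hχ
  have hχT : TF D u (Kc δ) χ := hc.test hφs hφ0
  have hχs : ContDiff ℝ 1 χ := hφs.mul (hol_smooth δ (n := 1))
  have hχ01 : ∀ x, 0 ≤ χ x ∧ χ x ≤ 1 := fun x => ⟨mul_nonneg (cut_nonneg _ _ _ _) (hol_nonneg _ _),
    mul_le_one₀ (cut_le_one _ _ _ _) (hol_nonneg _ _) (hol_le_one _ _)⟩
  have hχg : ∀ x, ‖fderiv ℝ χ x‖ ≤ P0 + ‖fderiv ℝ (hol δ) x‖ := by
    intro x
    have h1 : HasFDerivAt χ (φ x • fderiv ℝ (hol δ) x + hol δ x • fderiv ℝ φ x) x :=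
      (hφs.differentiable (by norm_num) x).hasFDerivAt.mul
        ((hol_smooth δ (n := 1)).differentiable (by norm_num) x).hasFDerivAt
    rw [h1.fderiv]
    refine (norm_add_le _ _).trans ?_
    rw [norm_smul, norm_smul, Real.norm_eq_abs, Real.norm_eq_abs,
      abs_of_nonneg (cut_nonneg _ _ _ _), abs_of_nonneg (hol_nonneg _ _)]
    have h2 : φ x * ‖fderiv ℝ (hol δ) x‖ ≤ ‖fderiv ℝ (hol δ) x‖ :=
      mul_le_of_le_one_left (norm_nonneg _) (cut_le_one _ _ _ _)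
    have h3 : hol δ x * ‖fderiv ℝ φ x‖ ≤ ‖fderiv ℝ φ x‖ :=
      mul_le_of_le_one_left (norm_nonneg _) (hol_le_one _ _)
    have h4 := (hcut 0 (3 / 4) (7 / 8) (by norm_num) (by norm_num) x).1
    have h5 : Cc / (7 / 8 - 3 / 4) = P0 := by rw [hP0]; norm_num; ring
    rw [h5] at h4
    linarith
  set f : V → ℝ := fun x => χ x ^ 5 with hf
  have hfT : TF D u (Kc δ) f :=
    { toBF := BF.of_contDiff (Kc_compact δ) (hχs.pow 5)
      supp := fun x hx hxK => by simp only [hf]; rw [hχT.supp x hx hxK]; norm_num }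
  have hfg : ∀ x, fderiv ℝ f x = (5 * χ x ^ 4) • fderiv ℝ χ x := by
    intro x
    have h1 : HasFDerivAt f ((5 * χ x ^ 4) • fderiv ℝ χ x) x := by
      have := (hχs.differentiable (by norm_num) x).hasFDerivAt.pow 5
      simpa using this
    exact h1.fderiv
  have hfn : ∀ x, ‖fderiv ℝ f x‖ = 5 * χ x ^ 4 * ‖fderiv ℝ χ x‖ := by
    intro x
    rw [hfg, norm_smul, Real.norm_eq_abs, abs_of_nonneg (by positivity)]
  have hf0 : ∀ x, 0 ≤ f x := fun x => pow_nonneg (hχ01 x).1 5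
  have hca := hfT.cacc hc.sol (Kc_compact δ) hc.KcD (fun x _ => hf0 x) hν hh0 (c := c') (by
    intro p hp hpK
    exact hcl.F p hp (Kc_ann hδ hpK).1 hpK.2)
  -- integrability
  have bA : BC D u (Kc δ) (fun x => f x * ‖gr u x - ν‖ ^ 2) :=
    hfT.toBC.mul ((hc.sol.a_cont ν).norm.pow 2) (hc.sol.a2_bd (Kc_compact δ) hc.KcD ν)
  have bB : BC D u (Kc δ) (fun x => ‖fderiv ℝ f x‖ * ‖gr u x - ν‖ ^ 2) :=
    (hfT.BC_norm hc.sol (Kc_compact δ)).mul ((hc.sol.a_cont ν).norm.pow 2)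
      (hc.sol.a2_bd (Kc_compact δ) hc.KcD ν)
  have bC : BC D u (Kc δ) (fun x => |vv u ν c' x| * (‖fderiv ℝ f x‖ * ‖gr u x - ν‖)) := by
    have b5 := ((hfT.BC_norm hc.sol (Kc_compact δ)).mul (hc.sol.a_cont ν).norm (by
      obtain ⟨C, hC⟩ := hc.sol.a_bd (Kc_compact δ) hc.KcD ν
      exact ⟨C, fun x hx hxK => by rw [abs_of_nonneg (norm_nonneg _)]; exact hC x hx hxK⟩)).mul
      (g := fun x => |vv u ν c' x|) (vv_BF hc.sol (Kc_compact δ) hc.KcD ν c').smooth.continuousOn.abs (by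
      obtain ⟨C, hC⟩ := (vv_BF hc.sol (Kc_compact δ) hc.KcD ν c').bd
      exact ⟨C, fun x hx hxK => by rw [abs_abs]; exact (hC x hx hxK).1⟩)
    have e : (fun x => |vv u ν c' x| * (‖fderiv ℝ f x‖ * ‖gr u x - ν‖)) =
      fun x => (‖fderiv ℝ f x‖ * ‖gr u x - ν‖) * |vv u ν c' x| := by funext x; ring
    rw [e]; exact b5
  have iA := (bA.integrable hc.sol (Kc_compact δ)).mono_set (inter_subset_left (t := ann δ 1))
  have iB := (bB.integrable hc.sol (Kc_compact δ)).mono_set (inter_subset_left (t := ann δ 1))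
  have iC := (bC.integrable hc.sol (Kc_compact δ)).mono_set (inter_subset_left (t := ann δ 1))
  rw [hc.int_eq bA.supp, hc.int_eq bB.supp, hc.int_eq bC.supp] at hca
  have hSm : MeasurableSet (NN D u ∩ ann δ 1) := hc.sol.meas_NN.inter (ann_meas _ _)
  have hSf : volume (NN D u ∩ ann δ 1) < ⊤ :=
    (measure_mono inter_subset_right).trans_lt (ann_fin _ _)
  obtain ⟨iZ, iZ2, hZ, hZ2⟩ := hhol δ (NN D u ∩ ann δ 1) hδ hSm
  have iv := hc.exc_int (c' := c') (by linarith) hν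
  -- pointwise estimate
  set Z : V → ℝ := fun x => ‖fderiv ℝ (hol δ) x‖ with hZdef
  set G : V → ℝ := fun x => 50 * P0 ^ 2 * vv u ν c' x ^ 2 + (50 * (L + 2) ^ 2 * Z x ^ 2 +
    (15 * (L + 1) ^ 2 * Z x + 256 * (15 * P0) ^ 5 * (L + 1) ^ 2 * h ^ 5)) with hG
  have iG : IntegrableOn G (NN D u ∩ ann δ 1) :=
    (iv.const_mul _).add ((iZ2.const_mul _).add ((iZ.const_mul _).add
      (integrableOn_const (hs := hSf.ne))))
  have pt : ∀ x ∈ NN D u ∩ ann δ 1, |vv u ν c' x| * (‖fderiv ℝ f x‖ * ‖gr u x - ν‖) +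
      3 * h * (‖fderiv ℝ f x‖ * ‖gr u x - ν‖ ^ 2) ≤
      1 / 2 * (f x * ‖gr u x - ν‖ ^ 2) + G x := by
    intro x hx
    have hA := hc.a_le hν hx.1 hx.2
    have hv := hc.vv_bd1 (c' := c') (by linarith) hν hx.2
    set A := ‖gr u x - ν‖ with hAdef
    set v := |vv u ν c' x| with hvdef
    have hv2 : vv u ν c' x ^ 2 = v ^ 2 := by rw [hvdef, sq_abs]
    have hA0 : 0 ≤ A := norm_nonneg _
    have hv0 : 0 ≤ v := abs_nonneg _
    have hZ0 : 0 ≤ Z x := norm_nonneg _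
    have hg := hχg x
    have hg0 : 0 ≤ ‖fderiv ℝ χ x‖ := norm_nonneg _
    set X := ‖fderiv ℝ χ x‖ with hX
    have hχ0 := (hχ01 x).1
    have hχ1 := (hχ01 x).2
    set t := χ x with htdef
    have hvL : v ≤ L + 2 := by
      have := hcl.hc
      linarith [hcl.hs]
    rw [hfn]
    simp only [hG, hf]
    rw [hv2]
    have ht3 : t ^ 3 ≤ 1 := pow_le_one₀ hχ0 hχ1
    have ht4 : t ^ 4 ≤ 1 := pow_le_one₀ hχ0 hχ1
    -- first term
    have s1 : v * (5 * t ^ 4 * X * A) ≤ 1 / 4 * (t ^ 5 * A ^ 2) + 25 * (v ^ 2 * X ^ 2) := by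
      have e1 : v * (5 * t ^ 4 * X * A) = t ^ 3 * (2 * (t * A / 2) * (5 * (v * X))) := by ring
      have e2 : 2 * (t * A / 2) * (5 * (v * X)) ≤ (t * A / 2) ^ 2 + (5 * (v * X)) ^ 2 :=
        two_mul_le_add_sq _ _
      rw [e1]
      calc t ^ 3 * (2 * (t * A / 2) * (5 * (v * X)))
          ≤ t ^ 3 * ((t * A / 2) ^ 2 + (5 * (v * X)) ^ 2) :=
            mul_le_mul_of_nonneg_left e2 (by positivity)
        _ = 1 / 4 * (t ^ 5 * A ^ 2) + t ^ 3 * (25 * (v ^ 2 * X ^ 2)) := by ring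
        _ ≤ 1 / 4 * (t ^ 5 * A ^ 2) + 1 * (25 * (v ^ 2 * X ^ 2)) := by gcongr
        _ = _ := by ring
    have s2 : X ^ 2 ≤ 2 * P0 ^ 2 + 2 * Z x ^ 2 := by
      have : X ^ 2 ≤ (P0 + Z x) ^ 2 := pow_le_pow_left₀ hg0 hg 2
      nlinarith [sq_nonneg (P0 - Z x)]
    have s3 : v ^ 2 * X ^ 2 ≤ 2 * P0 ^ 2 * v ^ 2 + 2 * (L + 2) ^ 2 * Z x ^ 2 := by
      have a1 : v ^ 2 * X ^ 2 ≤ v ^ 2 * (2 * P0 ^ 2 + 2 * Z x ^ 2) :=
        mul_le_mul_of_nonneg_left s2 (by positivity)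
      have a2 : v ^ 2 ≤ (L + 2) ^ 2 := pow_le_pow_left₀ hv0 hvL 2
      have a3 : v ^ 2 * (2 * Z x ^ 2) ≤ (L + 2) ^ 2 * (2 * Z x ^ 2) :=
        mul_le_mul_of_nonneg_right a2 (by positivity)
      linarith
    -- second term
    have s4 : 15 * h * P0 * t ^ 4 ≤ t ^ 5 / 4 + 256 * (15 * h * P0) ^ 5 :=
      young5 (by positivity) hχ0
    have hA2 : A ^ 2 ≤ (L + 1) ^ 2 := pow_le_pow_left₀ hA0 hA 2
    have s5 : 3 * h * (5 * t ^ 4 * X * A ^ 2) ≤ 1 / 4 * (t ^ 5 * A ^ 2) +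
        256 * (15 * P0) ^ 5 * (L + 1) ^ 2 * h ^ 5 + 15 * (L + 1) ^ 2 * Z x := by
      calc 3 * h * (5 * t ^ 4 * X * A ^ 2) ≤ 3 * h * (5 * t ^ 4 * (P0 + Z x) * A ^ 2) := by gcongr
        _ = (15 * h * P0 * t ^ 4) * A ^ 2 + 15 * (h * t ^ 4) * Z x * A ^ 2 := by ring
        _ ≤ (t ^ 5 / 4 + 256 * (15 * h * P0) ^ 5) * A ^ 2 + 15 * (1 * 1) * Z x * A ^ 2 := by
            gcongr
        _ = 1 / 4 * (t ^ 5 * A ^ 2) + 256 * (15 * P0) ^ 5 * h ^ 5 * A ^ 2 + 15 * Z x * A ^ 2 := by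
            ring
        _ ≤ 1 / 4 * (t ^ 5 * A ^ 2) + 256 * (15 * P0) ^ 5 * h ^ 5 * (L + 1) ^ 2 +
            15 * Z x * (L + 1) ^ 2 := by gcongr
        _ = _ := by ring
    nlinarith
  have hint : (∫ x in NN D u ∩ ann δ 1, |vv u ν c' x| * (‖fderiv ℝ f x‖ * ‖gr u x - ν‖)) +
      3 * h * ∫ x in NN D u ∩ ann δ 1, ‖fderiv ℝ f x‖ * ‖gr u x - ν‖ ^ 2 ≤
      1 / 2 * (∫ x in NN D u ∩ ann δ 1, f x * ‖gr u x - ν‖ ^ 2) +
        ∫ x in NN D u ∩ ann δ 1, G x := by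
    rw [← integral_const_mul, ← integral_const_mul, ← integral_add iC (iB.const_mul _),
      ← integral_add (iA.const_mul _) iG]
    exact setIntegral_mono_on (iC.add (iB.const_mul _)) ((iA.const_mul _).add iG) hSm pt
  have hGint : ∫ x in NN D u ∩ ann δ 1, G x ≤ C1 * (exc δ D u ν c' + δ + h ^ 5) := by
    have e0 : ∫ x in NN D u ∩ ann δ 1, G x = 50 * P0 ^ 2 * exc δ D u ν c' +
        (50 * (L + 2) ^ 2 * (∫ x in NN D u ∩ ann δ 1, Z x ^ 2) +
        (15 * (L + 1) ^ 2 * (∫ x in NN D u ∩ ann δ 1, Z x) +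
          256 * (15 * P0) ^ 5 * (L + 1) ^ 2 * h ^ 5 *
          (volume : Measure V).real (NN D u ∩ ann δ 1))) := by
      have j1 : IntegrableOn (fun x => 50 * P0 ^ 2 * vv u ν c' x ^ 2) (NN D u ∩ ann δ 1) :=
        iv.const_mul _
      have j2 : IntegrableOn (fun x => 50 * (L + 2) ^ 2 * Z x ^ 2) (NN D u ∩ ann δ 1) :=
        iZ2.const_mul _
      have j3 : IntegrableOn (fun x => 15 * (L + 1) ^ 2 * Z x) (NN D u ∩ ann δ 1) :=
        iZ.const_mul _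
      have j4 : IntegrableOn (fun _ : V => 256 * (15 * P0) ^ 5 * (L + 1) ^ 2 * h ^ 5)
        (NN D u ∩ ann δ 1) := integrableOn_const (hs := hSf.ne)
      have j34 : IntegrableOn (fun x => 15 * (L + 1) ^ 2 * Z x +
        256 * (15 * P0) ^ 5 * (L + 1) ^ 2 * h ^ 5) (NN D u ∩ ann δ 1) := j3.add j4
      have j234 : IntegrableOn (fun x => 50 * (L + 2) ^ 2 * Z x ^ 2 + (15 * (L + 1) ^ 2 * Z x +
        256 * (15 * P0) ^ 5 * (L + 1) ^ 2 * h ^ 5)) (NN D u ∩ ann δ 1) := j2.add j34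
      simp only [hG]
      rw [integral_add j1 j234, integral_add j2 j34, integral_add j3 j4, integral_const_mul,
        integral_const_mul, integral_const_mul, setIntegral_const, smul_eq_mul]
      unfold exc
      ring
    have hvol : (volume : Measure V).real (NN D u ∩ ann δ 1) ≤ om := by
      have h1 := ann_vol (a := δ) (b := 1) (by norm_num)
      have h2 : (volume : Measure V).real (NN D u ∩ ann δ 1) ≤ (volume : Measure V).real (ann δ 1) :=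
        measureReal_mono inter_subset_right (ann_fin _ _).ne
      linarith
    rw [e0]
    have hexc := exc_nonneg δ D u ν c'
    have hδ2 : δ ^ 2 ≤ δ := by nlinarith
    have t1 : 50 * (L + 2) ^ 2 * (∫ x in NN D u ∩ ann δ 1, Z x ^ 2) ≤ 50 * (L + 2) ^ 2 * (Ch * δ) :=
      mul_le_mul_of_nonneg_left hZ2 (by positivity)
    have t2 : 15 * (L + 1) ^ 2 * (∫ x in NN D u ∩ ann δ 1, Z x) ≤ 15 * (L + 1) ^ 2 * (Ch * δ) :=
      mul_le_mul_of_nonneg_left (hZ.trans (mul_le_mul_of_nonneg_left hδ2 hCh.le)) (by positivity)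
    have t3 : 256 * (15 * P0) ^ 5 * (L + 1) ^ 2 * h ^ 5 *
        (volume : Measure V).real (NN D u ∩ ann δ 1) ≤
        256 * (15 * P0) ^ 5 * (L + 1) ^ 2 * h ^ 5 * om :=
      mul_le_mul_of_nonneg_left hvol (by positivity)
    have u1 : 0 ≤ 50 * P0 ^ 2 * (δ + h ^ 5) := by positivity
    have u2 : 0 ≤ (50 * (L + 2) ^ 2 + 15 * (L + 1) ^ 2) * Ch * (exc δ D u ν c' + h ^ 5) := by
      positivity
    have u3 : 0 ≤ 256 * (15 * P0) ^ 5 * (L + 1) ^ 2 * om * (exc δ D u ν c' + δ) := by positivity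
    rw [hC1]
    nlinarith
  have hmain : ∫ x in NN D u ∩ ann δ 1, f x * ‖gr u x - ν‖ ^ 2 ≤
      2 * C1 * (exc δ D u ν c' + δ + h ^ 5) := by linarith
  -- remove the cut off
  have hsub : NN D u ∩ ann δ (3 / 4) ⊆ NN D u ∩ ann δ 1 := fun x hx =>
    ⟨hx.1, hx.2.1, by linarith [hx.2.2]⟩
  have hTm : MeasurableSet (NN D u ∩ ann δ (3 / 4)) := hc.sol.meas_NN.inter (ann_meas _ _)
  have hbf : volume (ball (0 : V) (3 * δ)) < ⊤ := measure_ball_lt_top
  have iI : Integrable ((ball (0 : V) (3 * δ)).indicator (fun _ => (L + 1) ^ 2))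
      (volume : Measure V) := by
    rw [integrable_indicator_iff measurableSet_ball]
    exact integrableOn_const (hs := hbf.ne)
  have hpt2 : ∀ x ∈ NN D u ∩ ann δ (3 / 4), ‖gr u x - ν‖ ^ 2 ≤ f x * ‖gr u x - ν‖ ^ 2 +
      (ball (0 : V) (3 * δ)).indicator (fun _ => (L + 1) ^ 2) x := by
    intro x hx
    have hxa := (hsub hx).2
    by_cases hb : x ∈ ball (0 : V) (3 * δ)
    · rw [indicator_of_mem hb]
      have h1 := pow_le_pow_left₀ (norm_nonneg _) (hc.a_le hν hx.1 hxa) 2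
      have h2 : 0 ≤ f x * ‖gr u x - ν‖ ^ 2 := mul_nonneg (hf0 x) (by positivity)
      linarith
    · rw [indicator_of_notMem hb]
      rw [mem_ball, dist_zero_right, not_lt] at hb
      have h1 : f x = 1 := by
        simp only [hf, hχ, hφ]
        rw [cut_one (by norm_num) (by norm_num) (by rw [sub_zero]; exact hx.2.2.le),
          hol_one hδ hb]
        norm_num
      rw [h1]; linarith
  have iA2 : IntegrableOn (fun x => ‖gr u x - ν‖ ^ 2) (NN D u ∩ ann δ (3 / 4)) := by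
    apply hc.sol.int_bdd (ann_meas _ _) (ann_fin _ _) ((hc.sol.a_cont ν).norm.pow 2)
      (C := (L + 1) ^ 2)
    intro x hx hxa
    rw [abs_of_nonneg (sq_nonneg _)]
    exact pow_le_pow_left₀ (norm_nonneg _) (hc.a_le hν hx ⟨hxa.1, by linarith [hxa.2]⟩) 2
  calc ∫ x in NN D u ∩ ann δ (3 / 4), ‖gr u x - ν‖ ^ 2
      ≤ ∫ x in NN D u ∩ ann δ (3 / 4), (f x * ‖gr u x - ν‖ ^ 2 +
        (ball (0 : V) (3 * δ)).indicator (fun _ => (L + 1) ^ 2) x) :=
        setIntegral_mono_on iA2 ((iA.mono_set hsub).add iI.integrableOn) hTm hpt2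
    _ = (∫ x in NN D u ∩ ann δ (3 / 4), f x * ‖gr u x - ν‖ ^ 2) +
        ∫ x in NN D u ∩ ann δ (3 / 4), (ball (0 : V) (3 * δ)).indicator (fun _ => (L + 1) ^ 2) x :=
        integral_add (iA.mono_set hsub) iI.integrableOn
    _ ≤ (∫ x in NN D u ∩ ann δ 1, f x * ‖gr u x - ν‖ ^ 2) +
        ∫ x, (ball (0 : V) (3 * δ)).indicator (fun _ => (L + 1) ^ 2) x := by
        apply add_le_add
        · apply setIntegral_mono_set iA
          · filter_upwards with x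
            exact mul_nonneg (hf0 x) (by positivity)
          · exact hsub.eventuallyLE
        · apply setIntegral_le_integral iI
          filter_upwards with x
          apply indicator_nonneg
          intro _ _
          positivity
    _ ≤ 2 * C1 * (exc δ D u ν c' + δ + h ^ 5) + (L + 1) ^ 2 * (om * 27) * δ := by
        apply add_le_add hmain
        rw [integral_indicator measurableSet_ball, setIntegral_const, smul_eq_mul,
          vol_ball _ (r := 3 * δ) (by positivity)]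
        have : δ ^ 3 ≤ δ := by nlinarith [sq_nonneg δ]
        calc om * (3 * δ) ^ 3 * (L + 1) ^ 2 = (L + 1) ^ 2 * (om * 27) * δ ^ 3 := by ring
          _ ≤ (L + 1) ^ 2 * (om * 27) * δ := by gcongr
    _ ≤ (2 * C1 + (L + 1) ^ 2 * (om * 27)) * (exc δ D u ν c' + δ + h ^ 5) := by
        have hexc := exc_nonneg δ D u ν c'
        have : 0 ≤ (L + 1) ^ 2 * (om * 27) * (exc δ D u ν c' + h ^ 5) := by positivity
        nlinarith

end

end Pool.Agent.D0H33.FB
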