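import Pool.Agent.D0H33.FB.A12

set_option autoImplicit false

open Set Metric Filter Topology MeasureTheory
open ExtStar (lap)

namespace Pool.Agent.D0H33.FB

noncomputable section

variable {D : Set V} {u : V → ℝ}

/-- derivative of the squared positive part -/
lemma hasDerivAt_mx2 (s : ℝ) : HasDerivAt (fun s : ℝ => (max 0 s) ^ 2) (2 * max 0 s) s := by
  rcases lt_trichotomy s 0 with h | h | h
  · have h1 : (fun s : ℝ => (max 0 s) ^ 2) =ᶠ[𝓝 s] fun _ => 0 := by
      filter_upwards [isOpen_Iio.mem_nhds h] with r hr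
      rw [max_eq_left (le_of_lt hr)]; norm_num
    have h2 := (hasDerivAt_const s (0 : ℝ)).congr_of_eventuallyEq h1
    refine h2.congr_deriv ?_
    rw [max_eq_left h.le, mul_zero]
  · rw [h, max_self, mul_zero, hasDerivAt_iff_isLittleO]
    simp only [max_self, ne_eq, OfNat.ofNat_ne_zero, not_false_eq_true, zero_pow, sub_zero,
      smul_zero]
    rw [Asymptotics.isLittleO_iff]
    intro c hc
    filter_upwards [Metric.ball_mem_nhds (0 : ℝ) hc] with r hr
    rw [mem_ball, dist_zero_right] at hr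
    rw [norm_pow]
    have h3 : ‖max 0 r‖ ≤ ‖r‖ := by
      rw [Real.norm_eq_abs, Real.norm_eq_abs, abs_of_nonneg (le_max_left _ _)]
      exact max_le (abs_nonneg _) (le_abs_self _)
    nlinarith [norm_nonneg (max 0 r), norm_nonneg r]
  · have h1 : (fun s : ℝ => (max 0 s) ^ 2) =ᶠ[𝓝 s] fun s => s ^ 2 := by
      filter_upwards [isOpen_Ioi.mem_nhds h] with r hr
      rw [max_eq_right (le_of_lt hr)]
    have h2 := (hasDerivAt_pow 2 s).congr_of_eventuallyEq h1
    refine h2.congr_deriv ?_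
    rw [max_eq_right h.le]
    norm_num

lemma contDiff_mx2 : ContDiff ℝ 1 (fun s : ℝ => (max 0 s) ^ 2) := by
  rw [contDiff_one_iff_deriv]
  refine ⟨fun s => (hasDerivAt_mx2 s).differentiableAt, ?_⟩
  have : deriv (fun s : ℝ => (max 0 s) ^ 2) = fun s => 2 * max 0 s := by
    funext s; exact (hasDerivAt_mx2 s).deriv
  rw [this]
  fun_prop

/-- weighted functions with square -/
lemma vv_sq_BF (h : Sol D u) {K : Set V} (hK : IsCompact K) (hKD : K ⊆ D) (ν : V) (c : ℝ) :
    BF D u K (fun x => vv u ν c x ^ 2) := by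
  have h1 := (vv_BF h hK hKD ν c).mul h (vv_BF h hK hKD ν c)
  have e : (fun x => vv u ν c x ^ 2) = fun x => vv u ν c x * vv u ν c x := by
    funext x; ring
  rw [e]; exact h1

theorem slabL2 (L c κ : ℝ) (hL : 1 ≤ L) : ∃ C : ℝ, 0 < C ∧
    ∀ (δ : ℝ) (D : Set V) (u : V → ℝ) (ν : V) (c' h T : ℝ), Cfg L c κ δ D u → ‖ν‖ = 1 →
      Cln h δ D u ν c' → h ≤ T → T ≤ 1 →
      ∫ x in NN D u ∩ (ann (3 * δ) (1 / 2) ∩ {x | inner ℝ ν x + c' < T}), vv u ν c' x ^ 2 ≤
        C * T * (exc δ D u ν c' + δ + h ^ 5) := by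
  obtain ⟨Cc, hCc, hcut⟩ := cut_grad
  obtain ⟨Ch, hCh, hhol⟩ := hol_int
  obtain ⟨Ce, hCe, hen⟩ := energy L c κ hL
  set P0 := 4 * Cc with hP0
  have hP00 : 0 < P0 := by positivity
  set C1 := P0 + 1 + (L + 2) ^ 2 * Ch + Ce with hC1
  refine ⟨5 * (L + 1) * C1, by positivity, ?_⟩
  intro δ D u ν c' h T hc hν hcl hhT hT1
  have hδ := hc.δ0
  have hδ1 : δ ≤ 1 := by linarith [hcl.hδ, hcl.hs]
  have hh0 := hcl.h0
  have hT0 : 0 < T := by linarith
  have hexc := exc_nonneg δ D u ν c'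
  set φ := cut (0 : V) (1 / 2) (3 / 4) with hφ
  have hφs : ContDiff ℝ 1 φ := cut_smooth _ _ _ (n := 1)
  have hφ0 : ∀ x : V, 3 / 4 ≤ ‖x‖ → φ x = 0 := fun x hx =>
    cut_zero (by norm_num) (by norm_num) (by rwa [sub_zero])
  set χ : V → ℝ := fun x => φ x * hol δ x with hχ
  have hχT : TF D u (Kc δ) χ := hc.test hφs (fun x hx => hφ0 x (by linarith))
  have hχs : ContDiff ℝ 1 χ := hφs.mul (hol_smooth δ (n := 1))
  have hχ01 : ∀ x, 0 ≤ χ x ∧ χ x ≤ 1 := fun x => ⟨mul_nonneg (cut_nonneg _ _ _ _) (hol_nonneg _ _),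
    mul_le_one₀ (cut_le_one _ _ _ _) (hol_nonneg _ _) (hol_le_one _ _)⟩
  have hχg : ∀ x, ‖fderiv ℝ χ x‖ ≤ P0 + ‖fderiv ℝ (hol δ) x‖ := by
    intro x
    have h1 : HasFDerivAt χ (φ x • fderiv ℝ (hol δ) x + hol δ x • fderiv ℝ φ x) x :=
      (hφs.differentiable (by norm_num) x).hasFDerivAt.mul
        ((hol_smooth δ (n := 1)).differentiable (by norm_num) x).hasFDerivAt
    rw [h1.fderiv]
    refine (norm_add_le _ _).trans ?_
    rw [norm_smul, norm_smul, Real.norm_eq_abs, Real.norm_eq_abs,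
      abs_of_nonneg (cut_nonneg _ _ _ _), abs_of_nonneg (hol_nonneg _ _)]
    have h2 : φ x * ‖fderiv ℝ (hol δ) x‖ ≤ ‖fderiv ℝ (hol δ) x‖ :=
      mul_le_of_le_one_left (norm_nonneg _) (cut_le_one _ _ _ _)
    have h3 : hol δ x * ‖fderiv ℝ φ x‖ ≤ ‖fderiv ℝ φ x‖ :=
      mul_le_of_le_one_left (norm_nonneg _) (hol_le_one _ _)
    have h4 := (hcut 0 (1 / 2) (3 / 4) (by norm_num) (by norm_num) x).1
    have h5 : Cc / (3 / 4 - 1 / 2) = P0 := by rw [hP0]; norm_num; ring
    rw [h5] at h4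
    linarith
  -- outside the ball of radius 3/4 everything vanishes
  have hχz : ∀ x : V, 3 / 4 ≤ ‖x‖ → χ x = 0 ∧ fderiv ℝ χ x = 0 := by
    intro x hx
    have h0 : χ x = 0 := by simp only [hχ]; rw [hφ0 x hx, zero_mul]
    refine ⟨h0, ?_⟩
    have h1 : HasFDerivAt χ (φ x • fderiv ℝ (hol δ) x + hol δ x • fderiv ℝ φ x) x :=
      (hφs.differentiable (by norm_num) x).hasFDerivAt.mul
        ((hol_smooth δ (n := 1)).differentiable (by norm_num) x).hasFDerivAt
    rw [h1.fderiv, hφ0 x hx,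
      (hcut 0 (1 / 2) (3 / 4) (by norm_num) (by norm_num) x).2.1 (by rwa [sub_zero])]
    simp
  have hv2 := vv_sq_BF hc.sol (Kc_compact δ) hc.KcD ν c'
  set f0 : V → ℝ := fun x => χ x * vv u ν c' x ^ 2 with hf0
  have hf0T : TF D u (Kc δ) f0 := hχT.mul_BF hc.sol hv2
  have hf0n : ∀ x, 0 ≤ f0 x := fun x => mul_nonneg (hχ01 x).1 (sq_nonneg _)
  -- the weight
  set q : ℝ → ℝ := fun s => (max 0 (2 * T - s)) ^ 2 / (2 * T) with hq
  have hqs : ContDiff ℝ 1 q :=
    (contDiff_mx2.comp (contDiff_const.sub contDiff_id)).div_const (2 * T)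
  have hqd : ∀ s, HasDerivAt q (-(max 0 (2 * T - s)) / T) s := by
    intro s
    have h1 : HasDerivAt (fun s : ℝ => 2 * T - s) (-1) s := by
      simpa using (hasDerivAt_id s).const_sub (2 * T)
    have h2 := ((hasDerivAt_mx2 (2 * T - s)).comp s h1).div_const (2 * T)
    refine h2.congr_deriv ?_
    field_simp
  set Q : V → ℝ := fun x => q (inner ℝ ν x + c') with hQ
  have hlin : ContDiff ℝ 1 (fun x : V => inner ℝ ν x + c') :=
    (contDiff_const.inner ℝ contDiff_id).add contDiff_const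
  have hQs : ContDiff ℝ 1 Q := hqs.comp hlin
  have hQd : ∀ x, HasFDerivAt Q ((-(max 0 (2 * T - (inner ℝ ν x + c'))) / T) • innerSL ℝ ν) x := by
    intro x
    have h1 : HasFDerivAt (fun x : V => inner ℝ ν x + c') (innerSL ℝ ν) x :=
      (innerSL ℝ ν).hasFDerivAt.add_const c'
    exact (hqd _).comp_hasFDerivAt x h1
  have hQ0 : ∀ x, 0 ≤ Q x := fun x => by simp only [hQ, hq]; positivity
  have hQle : ∀ x ∈ NN D u, ‖x‖ < 3 / 4 → Q x ≤ 5 * T := by
    intro x hx hx1
    have h1 : -h ≤ inner ℝ ν x + c' := by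
      by_contra hn
      push Not at hn
      exact hcl.neg x (by linarith) hn hx
    simp only [hQ, hq]
    rw [div_le_iff₀ (by positivity)]
    have h2 : max 0 (2 * T - (inner ℝ ν x + c')) ≤ 3 * T := max_le (by linarith) (by linarith)
    have h3 : 0 ≤ max 0 (2 * T - (inner ℝ ν x + c')) := le_max_left _ _
    nlinarith
  set f1 : V → ℝ := fun x => f0 x * Q x with hf1
  have hf1T : TF D u (Kc δ) f1 := hf0T.mul_BF hc.sol (BF.of_contDiff (Kc_compact δ) hQs)
  set f2 : V → ℝ := fun x => f0 x * (5 * T - Q x) with hf2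
  have hf2T : TF D u (Kc δ) f2 :=
    hf0T.mul_BF hc.sol (BF.of_contDiff (Kc_compact δ) (contDiff_const.sub hQs))
  have hM1 := hf1T.M1 hc.sol (Kc_compact δ) hc.KcD hν one_pos
    (fun x _ _ => mul_nonneg (hf0n x) (hQ0 x))
  have hM2 := hf2T.sig_nonneg hc.sol (Kc_compact δ) hc.KcD one_pos (by
    intro x hx _
    by_cases h1 : ‖x‖ < 3 / 4
    · exact mul_nonneg (hf0n x) (by linarith [hQle x hx h1])
    · push Not at h1
      have : f0 x = 0 := by simp only [hf0]; rw [(hχz x h1).1, zero_mul]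
      simp only [hf2]; rw [this, zero_mul])
  unfold sig at hM2
  -- derivatives
  have hdf0 : ∀ x ∈ NN D u, DifferentiableAt ℝ f0 x := fun x hx => hf0T.diffAt hc.sol hx
  have hsum : ∫ x in NN D u, (fderiv ℝ f1 x (gr u x - ν) + fderiv ℝ f2 x (gr u x)) ≤ 0 := by
    rw [integral_add ((hf1T.BC_any hc.sol (Kc_compact δ) (hc.sol.a_cont ν)
      (hc.sol.a_bd (Kc_compact δ) hc.KcD ν)).integrable hc.sol (Kc_compact δ))
      ((hf2T.BC_gr hc.sol (Kc_compact δ) hc.KcD).integrable hc.sol (Kc_compact δ))]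
    linarith
  have e1 : ∀ x ∈ NN D u, fderiv ℝ f1 x (gr u x - ν) + fderiv ℝ f2 x (gr u x) =
      f0 x * (max 0 (2 * T - (inner ℝ ν x + c')) / T) -
        (Q x * fderiv ℝ f0 x ν - 5 * T * fderiv ℝ f0 x (gr u x)) := by
    intro x hx
    have d0 := (hdf0 x hx).hasFDerivAt
    have d1 : HasFDerivAt f1 _ x := d0.mul (hQd x)
    have d2 : HasFDerivAt f2 _ x := d0.mul ((hQd x).const_sub (5 * T))
    rw [d1.fderiv, d2.fderiv]
    simp only [_root_.add_apply, _root_.smul_apply, _root_.neg_apply, smul_eq_mul,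
      innerSL_apply_apply, map_sub, real_inner_self_eq_norm_sq, hν]
    ring
  -- bound for the gradient of f0
  set Z : V → ℝ := fun x => ‖fderiv ℝ (hol δ) x‖ with hZdef
  have hg0 : ∀ x ∈ NN D u ∩ ann δ 1, ‖fderiv ℝ f0 x‖ ≤ (P0 + 1) * vv u ν c' x ^ 2 +
      ((L + 2) ^ 2 * Z x + (ann δ (3 / 4)).indicator (fun x => ‖gr u x - ν‖ ^ 2) x) := by
    intro x hx
    have hZ0 : 0 ≤ Z x := norm_nonneg _
    have hvs := sq_nonneg (vv u ν c' x)
    by_cases h34 : ‖x‖ < 3 / 4
    · have hxa : x ∈ ann δ (3 / 4) := ⟨hx.2.1, h34⟩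
      rw [indicator_of_mem hxa]
      have d1 := (hχs.differentiable (by norm_num) x).hasFDerivAt
      have d2 := ((vv_C1 hc.sol ν c').contDiffAt (hc.sol.isOpen_NN.mem_nhds hx.1)).differentiableAt
        (by norm_num) |>.hasFDerivAt
      have d3 : HasFDerivAt (fun x => vv u ν c' x ^ 2)
          ((2 * vv u ν c' x) • fderiv ℝ (vv u ν c') x) x := by simpa using d2.pow 2
      have d4 : HasFDerivAt f0 _ x := d1.mul d3
      rw [d4.fderiv]
      refine (norm_add_le _ _).trans ?_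
      rw [norm_smul, norm_smul, norm_smul, vv_fderiv_norm hc.sol ν c' hx.1, Real.norm_eq_abs,
        Real.norm_eq_abs, Real.norm_eq_abs, abs_of_nonneg (hχ01 x).1, abs_of_nonneg hvs, abs_mul,
        abs_of_pos (by norm_num : (0:ℝ) < 2)]
      set v := |vv u ν c' x| with hv
      have hv2 : vv u ν c' x ^ 2 = v ^ 2 := by rw [hv, sq_abs]
      rw [hv2]
      have hvL : v ≤ L + 2 := by
        have := hc.vv_bd1 (c' := c') (by linarith) hν hx.2
        linarith [hcl.hc, hcl.hs]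
      have hv0 : 0 ≤ v := abs_nonneg _
      set A := ‖gr u x - ν‖ with hA
      have hA0 : 0 ≤ A := norm_nonneg _
      have t1 : χ x * (2 * v * A) ≤ 1 * (2 * v * A) :=
        mul_le_mul_of_nonneg_right (hχ01 x).2 (by positivity)
      have t2 : 2 * v * A ≤ v ^ 2 + A ^ 2 := two_mul_le_add_sq _ _
      have t3 : v ^ 2 * ‖fderiv ℝ χ x‖ ≤ v ^ 2 * (P0 + Z x) :=
        mul_le_mul_of_nonneg_left (hχg x) (by positivity)
      have t4 : v ^ 2 * Z x ≤ (L + 2) ^ 2 * Z x :=
        mul_le_mul_of_nonneg_right (pow_le_pow_left₀ hv0 hvL 2) hZ0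
      nlinarith
    · push Not at h34
      have hxa : x ∉ ann δ (3 / 4) := fun hn => by linarith [hn.2]
      rw [indicator_of_notMem hxa]
      have d1 := (hχs.differentiable (by norm_num) x).hasFDerivAt
      have d2 := ((vv_C1 hc.sol ν c').contDiffAt (hc.sol.isOpen_NN.mem_nhds hx.1)).differentiableAt
        (by norm_num) |>.hasFDerivAt
      have d4 : HasFDerivAt f0 _ x := d1.mul (d2.pow 2)
      rw [d4.fderiv, (hχz x h34).1, (hχz x h34).2]
      simp only [zero_smul, smul_zero, add_zero, norm_zero]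
      positivity
  have hSm : MeasurableSet (NN D u ∩ ann δ 1) := hc.sol.meas_NN.inter (ann_meas _ _)
  obtain ⟨iZ, -, hZ, -⟩ := hhol δ (NN D u ∩ ann δ 1) hδ hSm
  have iv := hc.exc_int (c' := c') (by linarith) hν
  have iA2 : IntegrableOn (fun x => ‖gr u x - ν‖ ^ 2) (NN D u ∩ ann δ 1) := by
    apply hc.sol.int_bdd (ann_meas _ _) (ann_fin _ _) ((hc.sol.a_cont ν).norm.pow 2)
      (C := (L + 1) ^ 2)
    intro x hx hxa
    rw [abs_of_nonneg (sq_nonneg _)]
    exact pow_le_pow_left₀ (norm_nonneg _) (hc.a_le hν hx hxa) 2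
  have iI : IntegrableOn ((ann δ (3 / 4)).indicator (fun x => ‖gr u x - ν‖ ^ 2))
      (NN D u ∩ ann δ 1) := iA2.indicator (ann_meas _ _)
  have bN := hf0T.BC_norm hc.sol (Kc_compact δ)
  have iN := (bN.integrable hc.sol (Kc_compact δ)).mono_set (inter_subset_left (t := ann δ 1))
  have hgint : ∫ x in NN D u, ‖fderiv ℝ f0 x‖ ≤ C1 * (exc δ D u ν c' + δ + h ^ 5) := by
    rw [hc.int_eq bN.supp]
    have j1 : IntegrableOn (fun x => (P0 + 1) * vv u ν c' x ^ 2) (NN D u ∩ ann δ 1) :=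
      iv.const_mul _
    have j2 : IntegrableOn (fun x => (L + 2) ^ 2 * Z x) (NN D u ∩ ann δ 1) := iZ.const_mul _
    have j23 : IntegrableOn (fun x => (L + 2) ^ 2 * Z x +
      (ann δ (3 / 4)).indicator (fun x => ‖gr u x - ν‖ ^ 2) x) (NN D u ∩ ann δ 1) := j2.add iI
    have jall : IntegrableOn (fun x => (P0 + 1) * vv u ν c' x ^ 2 + ((L + 2) ^ 2 * Z x +
      (ann δ (3 / 4)).indicator (fun x => ‖gr u x - ν‖ ^ 2) x)) (NN D u ∩ ann δ 1) := j1.add j23
    refine (setIntegral_mono_on iN jall hSm hg0).trans ?_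
    rw [integral_add j1 j23, integral_add j2 iI, integral_const_mul, integral_const_mul]
    have e2 : ∫ x in NN D u ∩ ann δ 1, (ann δ (3 / 4)).indicator (fun x => ‖gr u x - ν‖ ^ 2) x =
        ∫ x in NN D u ∩ ann δ (3 / 4), ‖gr u x - ν‖ ^ 2 := by
      rw [setIntegral_indicator (ann_meas _ _)]
      congr 2
      ext x
      constructor
      · rintro ⟨⟨a1, a2⟩, a3⟩; exact ⟨a1, a3⟩
      · rintro ⟨a1, a3⟩; exact ⟨⟨a1, a3.1, by linarith [a3.2]⟩, a3⟩
    rw [e2]
    have h1 := hen δ D u ν c' h hc hν hcl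
    have h2 : (∫ x in NN D u ∩ ann δ 1, Z x) ≤ Ch * δ :=
      hZ.trans (mul_le_mul_of_nonneg_left (by nlinarith) hCh.le)
    have h3 : (∫ x in NN D u ∩ ann δ 1, vv u ν c' x ^ 2) = exc δ D u ν c' := rfl
    rw [h3]
    have h4 : (L + 2) ^ 2 * (∫ x in NN D u ∩ ann δ 1, Z x) ≤ (L + 2) ^ 2 * (Ch * δ) :=
      mul_le_mul_of_nonneg_left h2 (by positivity)
    have u1 : 0 ≤ (P0 + 1) * (δ + h ^ 5) := by positivity
    have u2 : 0 ≤ (L + 2) ^ 2 * Ch * (exc δ D u ν c' + h ^ 5) := by positivity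
    rw [hC1]
    nlinarith
  -- main inequality
  have bw : BC D u (Kc δ) (fun x => f0 x * (max 0 (2 * T - (inner ℝ ν x + c')) / T)) := by
    apply hf0T.toBC.mul
    · exact Continuous.continuousOn (by fun_prop)
    · obtain ⟨C, hC⟩ := (Kc_compact δ).exists_bound_of_continuousOn
        (f := fun x : V => max 0 (2 * T - (inner ℝ ν x + c')) / T)
        (Continuous.continuousOn (by fun_prop))
      exact ⟨C, fun x _ hx => hC x hx⟩
  have b1 : BC D u (Kc δ) (fun x => Q x * fderiv ℝ f0 x ν - 5 * T * fderiv ℝ f0 x (gr u x)) := by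
    have b2 := (hf0T.BC_dir hc.sol (Kc_compact δ) ν).mul (g := Q) hQs.continuous.continuousOn (by
      obtain ⟨C, hC⟩ := (Kc_compact δ).exists_bound_of_continuousOn (f := Q)
        hQs.continuous.continuousOn
      exact ⟨C, fun x _ hx => hC x hx⟩)
    have b3 := (hf0T.BC_gr hc.sol (Kc_compact δ) hc.KcD).const_mul (5 * T)
    have b4 := b2.sub b3
    have e : (fun x => Q x * fderiv ℝ f0 x ν - 5 * T * fderiv ℝ f0 x (gr u x)) =
      fun x => fderiv ℝ f0 x ν * Q x - 5 * T * fderiv ℝ f0 x (gr u x) := by funext x; ring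
    rw [e]; exact b4
  rw [setIntegral_congr_fun hc.sol.meas_NN e1, integral_sub (bw.integrable hc.sol (Kc_compact δ))
    (b1.integrable hc.sol (Kc_compact δ))] at hsum
  have h5 : ∫ x in NN D u, (Q x * fderiv ℝ f0 x ν - 5 * T * fderiv ℝ f0 x (gr u x)) ≤
      5 * T * (L + 1) * ∫ x in NN D u, ‖fderiv ℝ f0 x‖ := by
    rw [← integral_const_mul]
    apply setIntegral_mono_on (b1.integrable hc.sol (Kc_compact δ))
      ((bN.integrable hc.sol (Kc_compact δ)).const_mul _) hc.sol.meas_NN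
    intro x hx
    by_cases hxK : x ∈ Kc δ
    · have hxa := Kc_ann hδ hxK
      have t1 := le_op (fderiv ℝ f0 x) ν
      rw [hν, mul_one] at t1
      have t2 := le_op (fderiv ℝ f0 x) (gr u x)
      have t3 := hc.lip x hx hxa.1 hxa.2
      have hn := norm_nonneg (fderiv ℝ f0 x)
      have t4 : |fderiv ℝ f0 x (gr u x)| ≤ ‖fderiv ℝ f0 x‖ * L :=
        t2.trans (mul_le_mul_of_nonneg_left t3 hn)
      by_cases h34 : ‖x‖ < 3 / 4
      · have t5 := hQle x hx h34
        have t6 : Q x * fderiv ℝ f0 x ν ≤ 5 * T * ‖fderiv ℝ f0 x‖ := by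
          calc Q x * fderiv ℝ f0 x ν ≤ Q x * |fderiv ℝ f0 x ν| :=
                mul_le_mul_of_nonneg_left (le_abs_self _) (hQ0 x)
            _ ≤ 5 * T * ‖fderiv ℝ f0 x‖ := mul_le_mul t5 t1 (abs_nonneg _) (by positivity)
        have t7 : -(5 * T * fderiv ℝ f0 x (gr u x)) ≤ 5 * T * (‖fderiv ℝ f0 x‖ * L) := by
          have := mul_le_mul_of_nonneg_left ((neg_le_abs _).trans t4) (by positivity : 0 ≤ 5 * T)
          linarith
        show Q x * fderiv ℝ f0 x ν - 5 * T * fderiv ℝ f0 x (gr u x) ≤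
          5 * T * (L + 1) * ‖fderiv ℝ f0 x‖
        nlinarith
      · push Not at h34
        have d1 := (hχs.differentiable (by norm_num) x).hasFDerivAt
        have d2 := ((vv_C1 hc.sol ν c').contDiffAt (hc.sol.isOpen_NN.mem_nhds hx)).differentiableAt
          (by norm_num) |>.hasFDerivAt
        have d4 : HasFDerivAt f0 _ x := d1.mul (d2.pow 2)
        have : fderiv ℝ f0 x = 0 := by
          rw [d4.fderiv, (hχz x h34).1, (hχz x h34).2]
          simp
        show Q x * fderiv ℝ f0 x ν - 5 * T * fderiv ℝ f0 x (gr u x) ≤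
          5 * T * (L + 1) * ‖fderiv ℝ f0 x‖
        rw [this]; simp
    · show Q x * fderiv ℝ f0 x ν - 5 * T * fderiv ℝ f0 x (gr u x) ≤
          5 * T * (L + 1) * ‖fderiv ℝ f0 x‖
      rw [hf0T.fderiv_zero hc.sol (Kc_compact δ).isClosed hx hxK]; simp
  have h6 : ∫ x in NN D u, f0 x * (max 0 (2 * T - (inner ℝ ν x + c')) / T) ≤
      5 * T * (L + 1) * (C1 * (exc δ D u ν c' + δ + h ^ 5)) := by
    have : 5 * T * (L + 1) * ∫ x in NN D u, ‖fderiv ℝ f0 x‖ ≤
        5 * T * (L + 1) * (C1 * (exc δ D u ν c' + δ + h ^ 5)) :=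
      mul_le_mul_of_nonneg_left hgint (by positivity)
    linarith
  -- restrict to the slab
  have hRm : MeasurableSet (NN D u ∩ (ann (3 * δ) (1 / 2) ∩ {x | inner ℝ ν x + c' < T})) := by
    refine hc.sol.meas_NN.inter ((ann_meas _ _).inter ?_)
    exact (isOpen_lt (by fun_prop) continuous_const).measurableSet
  have hRs : NN D u ∩ (ann (3 * δ) (1 / 2) ∩ {x | inner ℝ ν x + c' < T}) ⊆ NN D u ∩ ann δ 1 :=
    fun x hx => ⟨hx.1, by linarith [hx.2.1.1], by linarith [hx.2.1.2]⟩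
  have iw := bw.integrable hc.sol (Kc_compact δ)
  calc ∫ x in NN D u ∩ (ann (3 * δ) (1 / 2) ∩ {x | inner ℝ ν x + c' < T}), vv u ν c' x ^ 2
      ≤ ∫ x in NN D u ∩ (ann (3 * δ) (1 / 2) ∩ {x | inner ℝ ν x + c' < T}),
          f0 x * (max 0 (2 * T - (inner ℝ ν x + c')) / T) := by
        apply setIntegral_mono_on (iv.mono_set hRs) (iw.mono_set inter_subset_left) hRm
        intro x hx
        have h1 : χ x = 1 := by
          simp only [hχ, hφ]
          rw [cut_one (by norm_num) (by norm_num) (by rw [sub_zero]; exact hx.2.1.2.le),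
            hol_one hδ hx.2.1.1.le]
          norm_num
        have h2 : 1 ≤ max 0 (2 * T - (inner ℝ ν x + c')) / T := by
          rw [le_div_iff₀ hT0, one_mul]
          have : inner ℝ ν x + c' < T := hx.2.2
          exact le_trans (by linarith) (le_max_right _ _)
        simp only [hf0]
        rw [h1, one_mul]
        nlinarith [sq_nonneg (vv u ν c' x)]
    _ ≤ ∫ x in NN D u, f0 x * (max 0 (2 * T - (inner ℝ ν x + c')) / T) := by
        apply setIntegral_mono_set iw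
        · filter_upwards with x
          have : 0 ≤ max 0 (2 * T - (inner ℝ ν x + c')) := le_max_left _ _
          exact mul_nonneg (hf0n x) (by positivity)
        · exact (inter_subset_left).eventuallyLE
    _ ≤ 5 * (L + 1) * C1 * T * (exc δ D u ν c' + δ + h ^ 5) := by
        refine h6.trans (le_of_eq ?_)
        ring

end

end Pool.Agent.D0H33.FB
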