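import Pool.Agent.D0H33.FB.A13

set_option autoImplicit false

open Set Metric Filter Topology MeasureTheory
open ExtStar (lap)

namespace Pool.Agent.D0H33.FB

noncomputable section

/-- gluing at the point 1 -/
lemma glue {f g f' g' : ℝ → ℝ} (hf : ∀ r, r ≤ 1 → HasDerivAt f (f' r) r)
    (hg : ∀ r, 1 ≤ r → HasDerivAt g (g' r) r) (h0 : f 1 = g 1) (h1 : f' 1 = g' 1) (r : ℝ) :
    HasDerivAt (fun r => if r ≤ 1 then f r else g r) (if r ≤ 1 then f' r else g' r) r := by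
  rcases lt_trichotomy r 1 with h | h | h
  · rw [if_pos h.le]
    refine (hf r h.le).congr_of_eventuallyEq ?_
    filter_upwards [isOpen_Iio.mem_nhds h] with s hs
    rw [if_pos (le_of_lt hs)]
  · subst h
    rw [if_pos (le_refl _)]
    have a1 : HasDerivWithinAt (fun r => if r ≤ 1 then f r else g r) (f' 1) (Iic 1) 1 := by
      refine (hf 1 (le_refl _)).hasDerivWithinAt.congr ?_ ?_
      · intro s hs
        have hs' : s ≤ 1 := hs
        rw [if_pos hs']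
      · rw [if_pos (le_refl _)]
    have a2 : HasDerivWithinAt (fun r => if r ≤ 1 then f r else g r) (f' 1) (Ici 1) 1 := by
      rw [h1]
      refine (hg 1 (le_refl _)).hasDerivWithinAt.congr ?_ ?_
      · intro s hs
        by_cases hs1 : s ≤ 1
        · have : s = 1 := le_antisymm hs1 hs
          rw [if_pos hs1, this, h0]
        · rw [if_neg hs1]
      · rw [if_pos (le_refl _), h0]
    have a3 := a1.union a2
    rwa [Iic_union_Ici, hasDerivWithinAt_univ] at a3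
  · rw [if_neg (not_le.2 h)]
    refine (hg r h.le).congr_of_eventuallyEq ?_
    filter_upwards [isOpen_Ioi.mem_nhds h] with s hs
    rw [if_neg (not_le.2 hs)]

/-- radial profile -/
def G0 (r : ℝ) : ℝ := if r ≤ 1 then 1 - (r - 1) / 2 + 3 / 8 * (r - 1) ^ 2 - 5 / 16 * (r - 1) ^ 3 +
  35 / 128 * (r - 1) ^ 4 else (Real.sqrt r)⁻¹

def G1 (r : ℝ) : ℝ := if r ≤ 1 then -1 / 2 + 3 / 4 * (r - 1) - 15 / 16 * (r - 1) ^ 2 +
  35 / 32 * (r - 1) ^ 3 else -(1 / 2) * (r⁻¹ * (Real.sqrt r)⁻¹)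

def G2 (r : ℝ) : ℝ := if r ≤ 1 then 3 / 4 - 15 / 8 * (r - 1) + 105 / 32 * (r - 1) ^ 2
  else 3 / 4 * (r⁻¹ * (r⁻¹ * (Real.sqrt r)⁻¹))

def G3 (r : ℝ) : ℝ := if r ≤ 1 then - 15 / 8 + 105 / 16 * (r - 1)
  else -(15 / 8) * (r⁻¹ * (r⁻¹ * (r⁻¹ * (Real.sqrt r)⁻¹)))

lemma dsq {r : ℝ} (hr : 1 ≤ r) : HasDerivAt (fun r => (Real.sqrt r)⁻¹)
    (-(1 / 2) * (r⁻¹ * (Real.sqrt r)⁻¹)) r := by
  have h0 : r ≠ 0 := by linarith
  have hs : Real.sqrt r ≠ 0 := (Real.sqrt_pos.2 (by linarith)).ne'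
  have h1 := (Real.hasDerivAt_sqrt h0).inv hs
  refine h1.congr_deriv ?_
  have h2 : Real.sqrt r ^ 2 = r := Real.sq_sqrt (by linarith)
  rw [h2]
  field_simp

lemma dinv {r : ℝ} (hr : 1 ≤ r) : HasDerivAt (fun r : ℝ => r⁻¹) (-(r⁻¹ * r⁻¹)) r := by
  have h0 : r ≠ 0 := by linarith
  refine (hasDerivAt_inv h0).congr_deriv ?_
  field_simp

lemma dG0 (r : ℝ) : HasDerivAt G0 (G1 r) r := by
  unfold G0 G1
  apply glue
  · intro r _
    have h1 : HasDerivAt (fun r : ℝ => r - 1) 1 r := (hasDerivAt_id r).sub_const 1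
    have h2 := ((((hasDerivAt_const r (1:ℝ)).sub (h1.div_const 2)).add ((h1.pow 2).const_mul (3/8))).sub
      ((h1.pow 3).const_mul (5/16))).add ((h1.pow 4).const_mul (35/128))
    refine h2.congr_deriv ?_
    norm_num
    ring
  · intro r hr
    exact dsq hr
  · norm_num
  · norm_num

lemma dG1 (r : ℝ) : HasDerivAt G1 (G2 r) r := by
  unfold G1 G2
  apply glue
  · intro r _
    have h1 : HasDerivAt (fun r : ℝ => r - 1) 1 r := (hasDerivAt_id r).sub_const 1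
    have h2 := (((hasDerivAt_const r (-1/2:ℝ)).add (h1.const_mul (3/4))).sub ((h1.pow 2).const_mul (15/16))).add
      ((h1.pow 3).const_mul (35/32))
    refine h2.congr_deriv ?_
    norm_num
    ring
  · intro r hr
    have h0 : r ≠ 0 := by linarith
    have hs : Real.sqrt r ≠ 0 := (Real.sqrt_pos.2 (by linarith)).ne'
    have h1 := ((dinv hr).mul (dsq hr)).const_mul (-(1/2))
    refine h1.congr_deriv ?_
    ring
  · norm_num
  · norm_num

lemma dG2 (r : ℝ) : HasDerivAt G2 (G3 r) r := by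
  unfold G2 G3
  apply glue
  · intro r _
    have h1 : HasDerivAt (fun r : ℝ => r - 1) 1 r := (hasDerivAt_id r).sub_const 1
    have h2 := ((hasDerivAt_const r (3/4:ℝ)).sub (h1.const_mul (15/8))).add ((h1.pow 2).const_mul (105/32))
    refine h2.congr_deriv ?_
    norm_num
    ring
  · intro r hr
    have h1 := ((dinv hr).mul ((dinv hr).mul (dsq hr))).const_mul (3/4)
    refine h1.congr_deriv ?_
    simp only [Pi.mul_apply]
    ring
  · norm_num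
  · norm_num

lemma G2_cont : Continuous G2 := continuous_iff_continuousAt.2 fun r => (dG2 r).continuousAt

lemma G1_C1 : ContDiff ℝ 1 G1 := by
  rw [contDiff_one_iff_deriv]
  refine ⟨fun s => (dG1 s).differentiableAt, ?_⟩
  have : deriv G1 = G2 := funext fun s => (dG1 s).deriv
  rw [this]
  exact G2_cont

lemma G0_C2 : ContDiff ℝ 2 G0 := by
  have h : (2 : WithTop ℕ∞) = 1 + 1 := by norm_num
  rw [h, contDiff_succ_iff_deriv]
  refine ⟨fun s => (dG0 s).differentiableAt, by simp, ?_⟩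
  have : deriv G0 = G1 := funext fun s => (dG0 s).deriv
  rw [this]
  exact G1_C1

lemma G_id {r : ℝ} (hr : 0 ≤ r) : 4 * G2 r * r + 6 * G1 r = -(315 / 16) * (max 0 (1 - r)) ^ 3 := by
  unfold G1 G2
  by_cases h : r ≤ 1
  · rw [if_pos h, if_pos h, max_eq_right (by linarith)]
    ring
  · rw [if_neg h, if_neg h, max_eq_left (by linarith)]
    have h0 : r ≠ 0 := by linarith
    field_simp
    norm_num

lemma G0_far {r : ℝ} (hr : 1 ≤ r) : G0 r = (Real.sqrt r)⁻¹ := by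
  unfold G0
  by_cases h : r ≤ 1
  · have : r = 1 := le_antisymm h hr
    rw [this]; norm_num
  · rw [if_neg h]

/-- regularised Newtonian kernel -/
def gk (t : ℝ) (z : V) : ℝ := t⁻¹ * G0 (‖z‖ ^ 2 / t ^ 2)

/-- its (negative) Laplacian -/
def qk (t : ℝ) (z : V) : ℝ := 315 / 16 * (t⁻¹) ^ 3 * ExtStar.eta (t⁻¹ • z)

lemma gk_C2 (t : ℝ) : ContDiff ℝ 2 (gk t) := by
  unfold gk
  exact contDiff_const.mul (G0_C2.comp ((contDiff_norm_sq ℝ).div_const _))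

lemma gk_far {t : ℝ} (ht : 0 < t) {z : V} (hz : t ≤ ‖z‖) : gk t z = ‖z‖⁻¹ := by
  unfold gk
  rw [G0_far (by rw [le_div_iff₀ (by positivity)]; nlinarith)]
  have : ‖z‖ ^ 2 / t ^ 2 = (‖z‖ / t) ^ 2 := by rw [div_pow]
  rw [this, Real.sqrt_sq (by positivity)]
  have : ‖z‖ ≠ 0 := by linarith
  field_simp

lemma lap_gk {t : ℝ} (ht : 0 < t) (z : V) : lap (gk t) z = - qk t z := by
  have h1 : ∀ s : ℝ, HasDerivAt (fun r : ℝ => t⁻¹ * G0 (r / t ^ 2)) (t⁻¹ * (G1 (s / t ^ 2) * (1 / t ^ 2))) s := by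
    intro s
    have : HasDerivAt (fun r : ℝ => r / t ^ 2) (1 / t ^ 2) s := (hasDerivAt_id s).div_const _
    exact ((dG0 (s / t ^ 2)).comp s this).const_mul _
  have h2 : ∀ s : ℝ, HasDerivAt (fun r : ℝ => t⁻¹ * (G1 (r / t ^ 2) * (1 / t ^ 2)))
      (t⁻¹ * ((G2 (s / t ^ 2) * (1 / t ^ 2)) * (1 / t ^ 2))) s := by
    intro s
    have : HasDerivAt (fun r : ℝ => r / t ^ 2) (1 / t ^ 2) s := (hasDerivAt_id s).div_const _
    exact (((dG1 (s / t ^ 2)).comp s this).mul_const _).const_mul _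
  have h3 := ExtStar.x05_comp (d := 3) (fun r : ℝ => t⁻¹ * G0 (r / t ^ 2))
    (fun s => t⁻¹ * (G1 (s / t ^ 2) * (1 / t ^ 2)))
    (fun s => t⁻¹ * ((G2 (s / t ^ 2) * (1 / t ^ 2)) * (1 / t ^ 2))) 0 z h1 h2 (by
      have : (fun y : V => t⁻¹ * G0 (‖y - 0‖ ^ 2 / t ^ 2)) = gk t := by
        funext y; rw [sub_zero]; rfl
      rw [this]
      exact gk_C2 t)
  simp only [sub_zero] at h3
  have h4 : lap (gk t) z = 4 * (t⁻¹ * ((G2 (‖z‖ ^ 2 / t ^ 2) * (1 / t ^ 2)) * (1 / t ^ 2))) * ‖z‖ ^ 2 +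
      2 * ((3 : ℕ) : ℝ) * (t⁻¹ * (G1 (‖z‖ ^ 2 / t ^ 2) * (1 / t ^ 2))) := h3
  rw [h4]
  unfold qk ExtStar.eta
  have h5 := G_id (r := ‖z‖ ^ 2 / t ^ 2) (by positivity)
  have h6 : ‖t⁻¹ • z‖ ^ 2 = ‖z‖ ^ 2 / t ^ 2 := by
    rw [norm_smul, Real.norm_eq_abs, abs_of_pos (by positivity), mul_pow, inv_pow]
    field_simp
  rw [h6]
  set ρ := ‖z‖ ^ 2 / t ^ 2 with hρ
  have h7 : ‖z‖ ^ 2 = ρ * t ^ 2 := by rw [hρ]; field_simp
  rw [h7]
  have h8 : 4 * (t⁻¹ * (G2 ρ * (1 / t ^ 2) * (1 / t ^ 2))) * (ρ * t ^ 2) +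
      2 * ((3 : ℕ) : ℝ) * (t⁻¹ * (G1 ρ * (1 / t ^ 2))) = (t⁻¹) ^ 3 * (4 * G2 ρ * ρ + 6 * G1 ρ) := by
    field_simp
    norm_num
    ring
  rw [h8, h5]
  ring

end

end Pool.Agent.D0H33.FB
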