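import Pool.Agent.D0H33.FB.A14
import Pool.Agent.H631.ES.X10
import Pool.Agent.H631.ES.X04

set_option autoImplicit false

open Set Metric Filter Topology MeasureTheory
open ExtStar (lap eta wgt)

namespace Pool.Agent.D0H33.FB

noncomputable section

lemma eta_smooth : ContDiff ℝ 2 (eta (d := 3)) := by
  have h1 : ContDiff ℝ 2 (fun s : ℝ => (max 0 s) ^ 3) := by
    have hd : ∀ s : ℝ, HasDerivAt (fun s : ℝ => (max 0 s) ^ 3) (3 * (max 0 s) ^ 2) s := by
      intro s
      rcases lt_trichotomy s 0 with h | h | h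
      · have h1 : (fun s : ℝ => (max 0 s) ^ 3) =ᶠ[𝓝 s] fun _ => 0 := by
          filter_upwards [isOpen_Iio.mem_nhds h] with r hr
          rw [max_eq_left (le_of_lt hr)]; norm_num
        have h2 := (hasDerivAt_const s (0 : ℝ)).congr_of_eventuallyEq h1
        refine h2.congr_deriv ?_
        rw [max_eq_left h.le]; norm_num
      · -- product of `(max 0 s)^2` and a continuous function vanishing at `0`
        rw [h, hasDerivAt_iff_isLittleO]
        simp only [max_self, ne_eq, OfNat.ofNat_ne_zero, not_false_eq_true, zero_pow, sub_zero,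
          mul_zero, smul_zero]
        rw [Asymptotics.isLittleO_iff]
        intro c hc
        filter_upwards [Metric.ball_mem_nhds (0 : ℝ) hc, Metric.ball_mem_nhds (0 : ℝ) one_pos]
          with r hr hr1
        rw [mem_ball, dist_zero_right] at hr hr1
        rw [norm_pow]
        have h3 : ‖max 0 r‖ ≤ ‖r‖ := by
          rw [Real.norm_eq_abs, Real.norm_eq_abs, abs_of_nonneg (le_max_left _ _)]
          exact max_le (abs_nonneg _) (le_abs_self _)
        have h4 := norm_nonneg (max 0 r)
        have h5 := norm_nonneg r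
        calc ‖max 0 r‖ ^ 3 ≤ ‖r‖ ^ 3 := pow_le_pow_left₀ h4 h3 3
          _ = ‖r‖ * ‖r‖ * ‖r‖ := by ring
          _ ≤ c * 1 * ‖r‖ := by gcongr
          _ = c * ‖r‖ := by ring
      · have h1 : (fun s : ℝ => (max 0 s) ^ 3) =ᶠ[𝓝 s] fun s => s ^ 3 := by
          filter_upwards [isOpen_Ioi.mem_nhds h] with r hr
          rw [max_eq_right (le_of_lt hr)]
        have h2 := (hasDerivAt_pow 3 s).congr_of_eventuallyEq h1
        refine h2.congr_deriv ?_
        rw [max_eq_right h.le]
        norm_num
    have h : (2 : WithTop ℕ∞) = 1 + 1 := by norm_num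
    rw [h, contDiff_succ_iff_deriv]
    refine ⟨fun s => (hd s).differentiableAt, by simp, ?_⟩
    have : deriv (fun s : ℝ => (max 0 s) ^ 3) = fun s => 3 * (max 0 s) ^ 2 :=
      funext fun s => (hd s).deriv
    rw [this]
    exact contDiff_const.mul contDiff_mx2
  unfold eta
  exact h1.comp (contDiff_const.sub (contDiff_norm_sq ℝ))

lemma qk_C2 (t : ℝ) : ContDiff ℝ 2 (qk t) := by
  unfold qk
  exact contDiff_const.mul (eta_smooth.comp (contDiff_const_smul _))

lemma qk_far {t : ℝ} (ht : 0 < t) {z : V} (hz : t ≤ ‖z‖) : qk t z = 0 := by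
  unfold qk
  have h1 : 1 ≤ ‖t⁻¹ • z‖ := by
    rw [norm_smul, Real.norm_eq_abs, abs_of_pos (by positivity)]
    rw [inv_mul_eq_div, le_div_iff₀ ht]
    linarith
  rw [((ExtStar.eta_facts 3).2.2.2.2.2.2.1 _ h1).1, mul_zero]

lemma qk_radial (t : ℝ) {z w : V} (h : ‖z‖ = ‖w‖) : qk t z = qk t w := by
  unfold qk eta
  rw [norm_smul, norm_smul, h]

/-- normalisation constant -/
def kap : ℝ := 315 / 16 * ∫ x : V, eta x

lemma kap_pos : 0 < kap := by
  unfold kap
  have := (ExtStar.eta_facts 3).2.2.2.2.2.2.2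
  positivity

/-- mean value property -/
lemma mvp {P : V → ℝ} (hP : ContDiff ℝ 2 P) (x : V) {t : ℝ} (ht : 0 < t)
    (hl : ∀ y ∈ closedBall x t, lap P y = 0) :
    ∫ y, P y * qk t (y - x) = kap * P x := by
  -- the spherical type means are constant
  have h1 : ∫ z : V, P (x + t • z) * eta z = P x * ∫ z : V, eta z := by
    have hd : ∀ s : ℝ, HasDerivAt (fun s : ℝ => ∫ z : V, P (x + s • z) * eta z)
        (s * ∫ z : V, lap P (x + s • z) * wgt z) s := by
      intro s
      have := ExtStar.mean_deriv P hP x s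
      rw [ExtStar.mean_ibp P hP x s] at this
      exact this
    have hz : ∀ s ∈ Ico 0 t, s * ∫ z : V, lap P (x + s • z) * wgt z = 0 := by
      intro s hs
      have : (fun z : V => lap P (x + s • z) * wgt z) = fun _ => 0 := by
        funext z
        by_cases hz1 : 1 ≤ ‖z‖
        · rw [((ExtStar.eta_facts 3).2.2.2.2.2.2.1 z hz1).2, mul_zero]
        · push Not at hz1
          rw [hl (x + s • z), zero_mul]
          rw [mem_closedBall, dist_eq_norm, add_sub_cancel_left, norm_smul, Real.norm_eq_abs,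
            abs_of_nonneg hs.1]
          nlinarith [hs.2, hs.1, norm_nonneg z]
      rw [this]
      simp
    have hcont : ContinuousOn (fun s : ℝ => ∫ z : V, P (x + s • z) * eta z) (Icc 0 t) :=
      fun s _ => (hd s).continuousAt.continuousWithinAt
    have hconst := constant_of_has_deriv_right_zero hcont (fun s hs => by
      have := (hd s).hasDerivWithinAt (s := Ici s)
      rwa [hz s hs] at this)
    have h2 := hconst t ⟨ht.le, le_refl _⟩
    simp only [zero_smul, add_zero] at h2
    rw [h2, integral_const_mul]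
  -- change of variables
  have h3 : ∫ y, P y * qk t (y - x) = ∫ y, P (x + y) * qk t y := by
    rw [← integral_add_left_eq_self (fun y => P y * qk t (y - x)) x]
    simp
  have h4 := Measure.integral_comp_smul (volume : Measure V) (fun y => P (x + y) * qk t y) t
  have h5 : ∫ z : V, P (x + t • z) * qk t (t • z) = 315 / 16 * (t⁻¹) ^ 3 * ∫ z : V, P (x + t • z) * eta z := by
    rw [← integral_const_mul]
    congr 1
    funext z
    unfold qk
    rw [smul_smul, inv_mul_cancel₀ ht.ne', one_smul]
    ring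
  rw [h5, h1] at h4
  rw [h3]
  unfold kap
  have hfr : Module.finrank ℝ V = 3 := finrank_euclideanSpace_fin
  rw [hfr, smul_eq_mul, abs_of_pos (by positivity)] at h4
  have h6 : ∫ y, P (x + y) * qk t y = t ^ 3 * (315 / 16 * (t⁻¹) ^ 3 * (P x * ∫ z : V, eta z)) := by
    rw [h4]; field_simp
  rw [h6]
  field_simp

/-- compactly supported function whose Laplacian is a difference of kernels -/
def Qs (s T : ℝ) (z : V) : ℝ := gk s z - gk T z

lemma Qs_C2 (s T : ℝ) : ContDiff ℝ 2 (Qs s T) := (gk_C2 s).sub (gk_C2 T)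

lemma Qs_far {s T : ℝ} (hs : 0 < s) (hsT : s ≤ T) {z : V} (hz : T ≤ ‖z‖) : Qs s T z = 0 := by
  unfold Qs
  rw [gk_far hs (hsT.trans hz), gk_far (hs.trans_le hsT) hz, sub_self]

lemma Qs_radial (s T : ℝ) {z w : V} (h : ‖z‖ = ‖w‖) : Qs s T z = Qs s T w := by
  unfold Qs gk
  rw [h]

lemma lap_Qs {s T : ℝ} (hs : 0 < s) (hsT : s ≤ T) (z : V) :
    lap (Qs s T) z = qk T z - qk s z := by
  have h1 : lap (Qs s T) z = lap (gk s) z - lap (gk T) z :=
    ExtStar.lap_sub (gk s) (gk T) z (gk_C2 s).contDiffAt (gk_C2 T).contDiffAt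
  rw [h1, lap_gk hs, lap_gk (hs.trans_le hsT)]
  ring

/-- Green's identity -/
lemma green {P Q : V → ℝ} (hP : ContDiff ℝ 1 P) (hQ : ContDiff ℝ 2 Q) (hc : HasCompactSupport Q) :
    ∫ y, P y * lap Q y = - ∫ y, fderiv ℝ Q y (gr P y) := by
  have hQi : ∀ i, ContDiff ℝ 1 (fun y => fderiv ℝ Q y (ee i)) := fun i =>
    (hQ.fderiv_right (m := 1) (by norm_num)).clm_apply contDiff_const
  have hci : ∀ i, HasCompactSupport (fun y => fderiv ℝ Q y (ee i)) := fun i =>
    hc.fderiv_apply (𝕜 := ℝ) (ee i)
  have hcii : ∀ i, HasCompactSupport (fun y => fderiv ℝ (fun y => fderiv ℝ Q y (ee i)) y (ee i)) :=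
    fun i => (hci i).fderiv_apply (𝕜 := ℝ) (ee i)
  have i1 : ∀ i, Integrable (fun y => P y * fderiv ℝ (fun y => fderiv ℝ Q y (ee i)) y (ee i)) := by
    intro i
    apply Continuous.integrable_of_hasCompactSupport
    · exact hP.continuous.mul (((hQi i).continuous_fderiv (by norm_num)).clm_apply continuous_const)
    · exact (hcii i).mul_left
  have i2 : ∀ i, Integrable (fun y => fderiv ℝ P y (ee i) * fderiv ℝ Q y (ee i)) := by
    intro i
    apply Continuous.integrable_of_hasCompactSupport
    · exact ((hP.continuous_fderiv (by norm_num)).clm_apply continuous_const).mul (hQi i).continuous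
    · exact (hci i).mul_left
  have i3 : ∀ i, Integrable (fun y => P y * fderiv ℝ Q y (ee i)) := by
    intro i
    apply Continuous.integrable_of_hasCompactSupport
    · exact hP.continuous.mul (hQi i).continuous
    · exact (hci i).mul_left
  have e1 : ∀ i, ∫ y, P y * fderiv ℝ (fun y => fderiv ℝ Q y (ee i)) y (ee i) =
      - ∫ y, fderiv ℝ P y (ee i) * fderiv ℝ Q y (ee i) := fun i =>
    integral_mul_fderiv_eq_neg_fderiv_mul_of_integrable (i2 i) (i1 i) (i3 i)
      (fun x _ => hP.differentiable (by norm_num) x) (fun x _ => (hQi i).differentiable (by norm_num) x)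
  calc ∫ y, P y * lap Q y = ∫ y, ∑ i, P y * fderiv ℝ (fun y => fderiv ℝ Q y (ee i)) y (ee i) := by
        congr 1
        funext y
        rw [lap_eq hQ.contDiffAt, Finset.mul_sum]
    _ = ∑ i, ∫ y, P y * fderiv ℝ (fun y => fderiv ℝ Q y (ee i)) y (ee i) :=
        integral_finsetSum _ fun i _ => i1 i
    _ = ∑ i, - ∫ y, fderiv ℝ P y (ee i) * fderiv ℝ Q y (ee i) := Finset.sum_congr rfl fun i _ => e1 i
    _ = - ∑ i, ∫ y, fderiv ℝ P y (ee i) * fderiv ℝ Q y (ee i) := Finset.sum_neg_distrib _
    _ = - ∫ y, ∑ i, fderiv ℝ P y (ee i) * fderiv ℝ Q y (ee i) := by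
        rw [integral_finsetSum _ fun i _ => i2 i]
    _ = - ∫ y, fderiv ℝ Q y (gr P y) := by
        congr 2
        funext y
        rw [clm_sum (fderiv ℝ Q y) (gr P y)]
        apply Finset.sum_congr rfl
        intro i _
        rw [gr_coord]

/-- Green's identity, second form -/
lemma green2 {P Q : V → ℝ} (hP : ContDiff ℝ 2 P) (hQ : ContDiff ℝ 1 Q) (hc : HasCompactSupport Q) :
    ∫ y, fderiv ℝ Q y (gr P y) = - ∫ y, lap P y * Q y := by
  have hPi : ∀ i, ContDiff ℝ 1 (fun y => fderiv ℝ P y (ee i)) := fun i =>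
    (hP.fderiv_right (m := 1) (by norm_num)).clm_apply contDiff_const
  have i1 : ∀ i, Integrable (fun y => fderiv ℝ P y (ee i) * fderiv ℝ Q y (ee i)) := by
    intro i
    apply Continuous.integrable_of_hasCompactSupport
    · exact (hPi i).continuous.mul ((hQ.continuous_fderiv (by norm_num)).clm_apply continuous_const)
    · exact (hc.fderiv_apply (𝕜 := ℝ) (ee i)).mul_left
  have i2 : ∀ i, Integrable (fun y => fderiv ℝ (fun y => fderiv ℝ P y (ee i)) y (ee i) * Q y) := by
    intro i
    apply Continuous.integrable_of_hasCompactSupport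
    · exact (((hPi i).continuous_fderiv (by norm_num)).clm_apply continuous_const).mul hQ.continuous
    · exact hc.mul_left
  have i3 : ∀ i, Integrable (fun y => fderiv ℝ P y (ee i) * Q y) := by
    intro i
    apply Continuous.integrable_of_hasCompactSupport
    · exact (hPi i).continuous.mul hQ.continuous
    · exact hc.mul_left
  have e1 : ∀ i, ∫ y, fderiv ℝ P y (ee i) * fderiv ℝ Q y (ee i) =
      - ∫ y, fderiv ℝ (fun y => fderiv ℝ P y (ee i)) y (ee i) * Q y := fun i =>
    integral_mul_fderiv_eq_neg_fderiv_mul_of_integrable (i2 i) (i1 i) (i3 i)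
      (fun x _ => (hPi i).differentiable (by norm_num) x) (fun x _ => hQ.differentiable (by norm_num) x)
  calc ∫ y, fderiv ℝ Q y (gr P y) = ∫ y, ∑ i, fderiv ℝ P y (ee i) * fderiv ℝ Q y (ee i) := by
        congr 1
        funext y
        rw [clm_sum (fderiv ℝ Q y) (gr P y)]
        apply Finset.sum_congr rfl
        intro i _
        rw [gr_coord]
    _ = ∑ i, ∫ y, fderiv ℝ P y (ee i) * fderiv ℝ Q y (ee i) := integral_finsetSum _ fun i _ => i1 i
    _ = ∑ i, - ∫ y, fderiv ℝ (fun y => fderiv ℝ P y (ee i)) y (ee i) * Q y :=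
        Finset.sum_congr rfl fun i _ => e1 i
    _ = - ∑ i, ∫ y, fderiv ℝ (fun y => fderiv ℝ P y (ee i)) y (ee i) * Q y :=
        Finset.sum_neg_distrib _
    _ = - ∫ y, ∑ i, fderiv ℝ (fun y => fderiv ℝ P y (ee i)) y (ee i) * Q y := by
        rw [integral_finsetSum _ fun i _ => i2 i]
    _ = - ∫ y, lap P y * Q y := by
        congr 2
        funext y
        rw [lap_eq hP.contDiffAt, Finset.sum_mul]

/-- representation formula -/
lemma repr {P : V → ℝ} (hP : ContDiff ℝ 2 P) (x : V) {s T : ℝ} (hs : 0 < s) (hsT : s ≤ T)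
    (hl : ∀ y ∈ closedBall x s, lap P y = 0) :
    kap * P x = (∫ y, P y * qk T (y - x)) + ∫ y, fderiv ℝ (fun y => Qs s T (y - x)) y (gr P y) := by
  have hT : 0 < T := hs.trans_le hsT
  have hsub : ContDiff ℝ 2 (fun y : V => y - x) := contDiff_id.sub contDiff_const
  have hQ : ContDiff ℝ 2 (fun y => Qs s T (y - x)) := (Qs_C2 s T).comp hsub
  have hsupp : ∀ (f : V → ℝ), (∀ z, T ≤ ‖z‖ → f z = 0) → HasCompactSupport (fun y => f (y - x)) := by
    intro f hf
    apply HasCompactSupport.intro (isCompact_closedBall x T)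
    intro y hy
    rw [mem_closedBall, dist_eq_norm, not_le] at hy
    exact hf _ hy.le
  have hc : HasCompactSupport (fun y => Qs s T (y - x)) := hsupp _ fun z hz => Qs_far hs hsT hz
  have h1 := green (P := P) (hP.of_le (by norm_num)) hQ hc
  have h2 := mvp hP x hs hl
  have hlap : ∀ y, lap (fun y => Qs s T (y - x)) y = qk T (y - x) - qk s (y - x) := by
    intro y
    have := ExtStar.lap_shift (-x) (Qs s T) y
    simp only [← sub_eq_add_neg] at this
    rw [this, lap_Qs hs hsT]
  simp_rw [hlap] at h1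
  have iT : Integrable (fun y => P y * qk T (y - x)) := by
    apply Continuous.integrable_of_hasCompactSupport
    · exact hP.continuous.mul ((qk_C2 T).continuous.comp hsub.continuous)
    · exact (hsupp _ fun z hz => qk_far hT hz).mul_left
  have is : Integrable (fun y => P y * qk s (y - x)) := by
    apply Continuous.integrable_of_hasCompactSupport
    · exact hP.continuous.mul ((qk_C2 s).continuous.comp hsub.continuous)
    · exact (hsupp _ fun z hz => qk_far hs (hsT.trans hz)).mul_left
  have h3 : ∫ y, P y * (qk T (y - x) - qk s (y - x)) =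
      (∫ y, P y * qk T (y - x)) - ∫ y, P y * qk s (y - x) := by
    rw [← integral_sub iT is]
    congr 1
    funext y
    ring
  rw [h3] at h1
  linarith

end

end Pool.Agent.D0H33.FB
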