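import Pool.Agent.D0H33.FB.A15

set_option autoImplicit false

open Set Metric Filter Topology MeasureTheory
open ExtStar (lap eta wgt)

namespace Pool.Agent.D0H33.FB

noncomputable section

variable {D : Set V} {u : V → ℝ}

/-- Cauchy-Schwarz on a set of finite measure -/
lemma cs_int {S : Set V} (hSf : volume S ≠ ⊤) {f : V → ℝ}
    (hf : IntegrableOn f S) (hf2 : IntegrableOn (fun x => f x ^ 2) S) {A B : ℝ} (hA : 0 ≤ A)
    (hB : 0 ≤ B) (h1 : (volume : Measure V).real S ≤ A ^ 2) (h2 : ∫ x in S, f x ^ 2 ≤ B ^ 2) :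
    ∫ x in S, |f x| ≤ A * B := by
  -- for every positive parameter
  have key : ∀ t : ℝ, 0 < t → ∫ x in S, |f x| ≤ (t * A ^ 2 + B ^ 2 / t) / 2 := by
    intro t ht
    have h3 : ∫ x in S, |f x| ≤ ∫ x in S, (t / 2 + f x ^ 2 / (2 * t)) := by
      have i0 : IntegrableOn (fun _ : V => t / 2) S := integrableOn_const (hs := hSf)
      apply integral_mono hf.abs (i0.add (hf2.div_const _))
      intro x
      show |f x| ≤ t / 2 + f x ^ 2 / (2 * t)
      have : t / 2 + f x ^ 2 / (2 * t) - |f x| = (t - |f x|) ^ 2 / (2 * t) := by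
        rw [← sq_abs (f x)]; field_simp; ring
      have h4 : 0 ≤ (t - |f x|) ^ 2 / (2 * t) := by positivity
      linarith
    have h4 : ∫ x in S, (t / 2 + f x ^ 2 / (2 * t)) =
        (volume : Measure V).real S * (t / 2) + (∫ x in S, f x ^ 2) / (2 * t) := by
      have i0 : IntegrableOn (fun _ : V => t / 2) S := integrableOn_const (hs := hSf)
      rw [integral_add i0 (hf2.div_const _), setIntegral_const, smul_eq_mul]
      congr 1
      exact integral_div _ _
    rw [h4] at h3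
    have h5 : (volume : Measure V).real S * (t / 2) ≤ A ^ 2 * (t / 2) := by gcongr
    have h6 : (∫ x in S, f x ^ 2) / (2 * t) ≤ B ^ 2 / (2 * t) := by gcongr
    have h7 : B ^ 2 / (2 * t) = B ^ 2 / t / 2 := by field_simp
    linarith
  refine le_of_forall_pos_le_add fun ε hε => ?_
  -- perturb
  set η := min 1 (ε / (A + B + 1)) with hη
  have hη0 : 0 < η := by positivity
  have hη1 : η ≤ 1 := min_le_left _ _
  have hη2 : η * (A + B + 1) ≤ ε := by
    have : η ≤ ε / (A + B + 1) := min_le_right _ _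
    rwa [le_div_iff₀ (by positivity)] at this
  have h8 := key ((B + η) / (A + η)) (by positivity)
  refine h8.trans ?_
  have h9 : (B + η) / (A + η) * A ^ 2 ≤ (B + η) * A := by
    rw [div_mul_eq_mul_div, div_le_iff₀ (by positivity)]
    have : 0 ≤ (B + η) * A * η := by positivity
    nlinarith
  have h10 : B ^ 2 / ((B + η) / (A + η)) ≤ B * (A + η) := by
    rw [div_div_eq_mul_div, div_le_iff₀ (by positivity)]
    have : 0 ≤ B * (A + η) * η := by positivity
    nlinarith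
  nlinarith

lemma bd_comp {F : Type*} [NormedAddCommGroup F] {g : V → F} (hg : Continuous g)
    (hc : HasCompactSupport g) : ∃ C : ℝ, ∀ x, ‖g x‖ ≤ C := hc.exists_bound_of_continuous hg

lemma bd_comp1 {F : Type*} [NormedAddCommGroup F] [NormedSpace ℝ F] {g : V → F}
    (hg : ContDiff ℝ 1 g) (hc : HasCompactSupport g) : ∃ C : ℝ, 0 < C ∧ (∀ x, ‖g x‖ ≤ C) ∧
      (∀ x, ‖fderiv ℝ g x‖ ≤ C) ∧ ∀ z w, ‖g z - g w‖ ≤ C * ‖z - w‖ := by
  obtain ⟨M0, h0⟩ := bd_comp hg.continuous hc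
  obtain ⟨M1, h1⟩ := bd_comp (hg.continuous_fderiv (by norm_num)) (hc.fderiv (𝕜 := ℝ))
  refine ⟨max (max M0 M1) 1, lt_of_lt_of_le one_pos (le_max_right _ _), fun x =>
    (h0 x).trans ((le_max_left _ _).trans (le_max_left _ _)), fun x =>
    (h1 x).trans ((le_max_right _ _).trans (le_max_left _ _)), fun z w => ?_⟩
  exact Convex.norm_image_sub_le_of_norm_fderiv_le (𝕜 := ℝ) (f := g) (s := univ)
      (x := w) (y := z)
      (fun x _ => hg.differentiable (by norm_num) x) (fun x _ => (h1 x).trans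
        ((le_max_right _ _).trans (le_max_left _ _))) convex_univ (mem_univ w)
      (mem_univ z)

lemma C2_bounds {f : V → ℝ} (hf : ContDiff ℝ 2 f) (hc : HasCompactSupport f) : ∃ M : ℝ, 0 < M ∧
    (∀ z, |f z| ≤ M) ∧ (∀ z, ‖fderiv ℝ f z‖ ≤ M) ∧
    (∀ z w, ‖fderiv ℝ f z - fderiv ℝ f w‖ ≤ M * ‖z - w‖) ∧
    (∀ z w, |f z - f w| ≤ M * ‖z - w‖) ∧
    (∀ z w, |f (z + w) - f z - fderiv ℝ f z w| ≤ M * ‖w‖ ^ 2) := by
  obtain ⟨M1, hM1, a1, a2, a3⟩ := bd_comp1 (hf.of_le (by norm_num)) hc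
  obtain ⟨M2, hM2, b1, b2, b3⟩ := bd_comp1 (g := fderiv ℝ f) (hf.fderiv_right (by norm_num))
    (hc.fderiv (𝕜 := ℝ))
  have hd1 : Differentiable ℝ f := hf.differentiable (by norm_num)
  have hlip : ∀ z w, ‖fderiv ℝ f z - fderiv ℝ f w‖ ≤ (M1 + M2) * ‖z - w‖ := fun z w =>
    (b3 z w).trans (mul_le_mul_of_nonneg_right (by linarith) (norm_nonneg _))
  refine ⟨M1 + M2, by positivity, fun z => (a1 z).trans (by linarith), fun z =>
    (a2 z).trans (by linarith), hlip, fun z w =>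
    (a3 z w).trans (mul_le_mul_of_nonneg_right (by linarith) (norm_nonneg _)), ?_⟩
  intro z w
  have h3 := Convex.norm_image_sub_le_of_norm_fderiv_le' (𝕜 := ℝ) (f := f)
    (s := segment ℝ z (z + w)) (x := z) (y := z + w)
    (φ := fderiv ℝ f z) (C := (M1 + M2) * ‖w‖) (fun x _ => hd1 x) (by
      intro x hx
      refine (hlip x z).trans ?_
      apply mul_le_mul_of_nonneg_left _ (by positivity)
      rw [segment_eq_image'] at hx
      obtain ⟨θ, hθ, rfl⟩ := hx
      simp only [add_sub_cancel_left, norm_smul, Real.norm_eq_abs]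
      rw [abs_of_nonneg hθ.1]
      exact mul_le_of_le_one_left (norm_nonneg _) hθ.2)
    (convex_segment z (z + w)) (left_mem_segment ℝ z (z + w)) (right_mem_segment ℝ z (z + w))
  rw [add_sub_cancel_left, Real.norm_eq_abs] at h3
  calc |f (z + w) - f z - fderiv ℝ f z w| ≤ (M1 + M2) * ‖w‖ * ‖w‖ := h3
    _ = (M1 + M2) * ‖w‖ ^ 2 := by ring

/-- weak Neumann condition -/
theorem weakN (L c κ : ℝ) (hL : 1 ≤ L) : ∃ C : ℝ, 0 < C ∧
    ∀ (δ : ℝ) (D : Set V) (u : V → ℝ) (ν : V) (c' h : ℝ), Cfg L c κ δ D u → ‖ν‖ = 1 →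
      Cln h δ D u ν c' → ∀ (P : V → ℝ) (B : ℝ), ContDiff ℝ 1 P → (∀ x, 1 / 2 ≤ ‖x‖ → P x = 0) →
        0 ≤ B → (∀ x, |P x| ≤ B) → (∀ x, ‖fderiv ℝ P x‖ ≤ B) →
      |∫ x in NN D u, hol δ x * fderiv ℝ P x (gr u x - ν)| ≤
        C * B * (exc δ D u ν c' + δ + h ^ 5) := by
  obtain ⟨Ch, hCh, hhol⟩ := hol_int
  obtain ⟨Ce, hCe, hen⟩ := energy L c κ hL
  refine ⟨(L + 1) * Ch + 3 / 2 * (Ce + (L + 1) ^ 2 * Ch), by positivity, ?_⟩
  intro δ D u ν c' h hc hν hcl P B hP hPs hB hPB hPg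
  have hδ := hc.δ0
  have hδ1 : δ ≤ 1 := by linarith [hcl.hδ, hcl.hs]
  have hh0 := hcl.h0
  have hexc := exc_nonneg δ D u ν c'
  set f : V → ℝ := fun x => P x * hol δ x with hf
  have hfT : TF D u (Kc δ) f := hc.test hP (fun x hx => hPs x (by linarith))
  have hKc := Kc_compact δ
  -- derivative
  have hfd : ∀ x, fderiv ℝ f x = P x • fderiv ℝ (hol δ) x + hol δ x • fderiv ℝ P x := by
    intro x
    exact ((hP.differentiable (by norm_num) x).hasFDerivAt.mul
      ((hol_smooth δ (n := 1)).differentiable (by norm_num) x).hasFDerivAt).fderiv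
  set Z : V → ℝ := fun x => ‖fderiv ℝ (hol δ) x‖ with hZdef
  have hP0 : ∀ x, 1 / 2 < ‖x‖ → P x = 0 ∧ fderiv ℝ P x = 0 := by
    intro x hx
    refine ⟨hPs x hx.le, ?_⟩
    have : P =ᶠ[𝓝 x] fun _ => 0 := by
      filter_upwards [(isOpen_lt continuous_const continuous_norm).mem_nhds hx] with y hy
      exact hPs y (le_of_lt hy)
    rw [this.fderiv_eq]; simp
  have hfn : ∀ x, ‖fderiv ℝ f x‖ ≤ B * Z x + B * (ball (0 : V) (3 / 4)).indicator (fun _ => 1) x := by
    intro x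
    rw [hfd]
    refine (norm_add_le _ _).trans ?_
    rw [norm_smul, norm_smul, Real.norm_eq_abs, Real.norm_eq_abs, abs_of_nonneg (hol_nonneg _ _)]
    apply add_le_add
    · exact mul_le_mul_of_nonneg_right (hPB x) (norm_nonneg _)
    · by_cases hx : x ∈ ball (0 : V) (3 / 4)
      · rw [indicator_of_mem hx, mul_one]
        calc hol δ x * ‖fderiv ℝ P x‖ ≤ 1 * B :=
              mul_le_mul (hol_le_one _ _) (hPg x) (norm_nonneg _) zero_le_one
          _ = B := one_mul _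
      · rw [indicator_of_notMem hx]
        rw [mem_ball, dist_zero_right, not_lt] at hx
        rw [(hP0 x (by linarith)).2]; simp
  have hIV := hfT.IVn hc.sol hKc hc.KcD hν
  -- the right hand side
  have hSm : MeasurableSet (NN D u ∩ ann δ 1) := hc.sol.meas_NN.inter (ann_meas _ _)
  obtain ⟨iZ, -, hZ, -⟩ := hhol δ (NN D u ∩ ann δ 1) hδ hSm
  have iA2 : IntegrableOn (fun x => ‖gr u x - ν‖ ^ 2) (NN D u ∩ ann δ 1) := by
    apply hc.sol.int_bdd (ann_meas _ _) (ann_fin _ _) ((hc.sol.a_cont ν).norm.pow 2)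
      (C := (L + 1) ^ 2)
    intro x hx hxa
    rw [abs_of_nonneg (sq_nonneg _)]
    exact pow_le_pow_left₀ (norm_nonneg _) (hc.a_le hν hx hxa) 2
  have bB : BC D u (Kc δ) (fun x => ‖fderiv ℝ f x‖ * ‖gr u x - ν‖ ^ 2) :=
    (hfT.BC_norm hc.sol hKc).mul ((hc.sol.a_cont ν).norm.pow 2) (hc.sol.a2_bd hKc hc.KcD ν)
  have hδ2 : δ ^ 2 ≤ δ := by nlinarith
  have hZ' : ∫ x in NN D u ∩ ann δ 1, Z x ≤ Ch * δ :=
    hZ.trans (mul_le_mul_of_nonneg_left hδ2 hCh.le)
  have hR : ∫ x in NN D u, ‖fderiv ℝ f x‖ * ‖gr u x - ν‖ ^ 2 ≤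
      B * (Ce + (L + 1) ^ 2 * Ch) * (exc δ D u ν c' + δ + h ^ 5) := by
    rw [hc.int_eq bB.supp]
    have j1 : IntegrableOn (fun x => B * (L + 1) ^ 2 * Z x) (NN D u ∩ ann δ 1) := iZ.const_mul _
    have j2 : IntegrableOn (fun x => B * (ball (0 : V) (3 / 4)).indicator
        (fun x => ‖gr u x - ν‖ ^ 2) x) (NN D u ∩ ann δ 1) :=
      (iA2.indicator measurableSet_ball).const_mul _
    have j12 : IntegrableOn (fun x => B * (L + 1) ^ 2 * Z x + B * (ball (0 : V) (3 / 4)).indicator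
        (fun x => ‖gr u x - ν‖ ^ 2) x) (NN D u ∩ ann δ 1) := j1.add j2
    refine (setIntegral_mono_on ((bB.integrable hc.sol hKc).mono_set inter_subset_left) j12 hSm ?_).trans ?_
    · intro x hx
      have hA := hc.a_le hν hx.1 hx.2
      have hA0 := norm_nonneg (gr u x - ν)
      have hA2 : ‖gr u x - ν‖ ^ 2 ≤ (L + 1) ^ 2 := pow_le_pow_left₀ hA0 hA 2
      have hZ0 : 0 ≤ Z x := norm_nonneg _
      have h1 := mul_le_mul_of_nonneg_right (hfn x) (by positivity : 0 ≤ ‖gr u x - ν‖ ^ 2)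
      refine h1.trans ?_
      have h2 : B * Z x * ‖gr u x - ν‖ ^ 2 ≤ B * (L + 1) ^ 2 * Z x := by
        calc B * Z x * ‖gr u x - ν‖ ^ 2 ≤ B * Z x * (L + 1) ^ 2 := by gcongr
          _ = _ := by ring
      by_cases hxb : x ∈ ball (0 : V) (3 / 4)
      · rw [indicator_of_mem hxb, indicator_of_mem hxb]; linarith
      · rw [indicator_of_notMem hxb, indicator_of_notMem hxb]; linarith
    · rw [integral_add j1 j2, integral_const_mul, integral_const_mul]
      have e2 : ∫ x in NN D u ∩ ann δ 1, (ball (0 : V) (3 / 4)).indicator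
          (fun x => ‖gr u x - ν‖ ^ 2) x = ∫ x in NN D u ∩ ann δ (3 / 4), ‖gr u x - ν‖ ^ 2 := by
        rw [setIntegral_indicator measurableSet_ball]
        congr 2
        ext x
        constructor
        · rintro ⟨⟨a1, a2⟩, a3⟩
          rw [mem_ball, dist_zero_right] at a3
          exact ⟨a1, a2.1, a3⟩
        · rintro ⟨a1, a3⟩
          exact ⟨⟨a1, a3.1, by linarith [a3.2]⟩, by rw [mem_ball, dist_zero_right]; exact a3.2⟩
      rw [e2]
      have h1 := hen δ D u ν c' h hc hν hcl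
      have h2 : B * (∫ x in NN D u ∩ ann δ (3 / 4), ‖gr u x - ν‖ ^ 2) ≤
          B * (Ce * (exc δ D u ν c' + δ + h ^ 5)) := mul_le_mul_of_nonneg_left h1 hB
      have h3 : B * (L + 1) ^ 2 * (∫ x in NN D u ∩ ann δ 1, Z x) ≤ B * (L + 1) ^ 2 * (Ch * δ) :=
        mul_le_mul_of_nonneg_left hZ' (by positivity)
      have u2 : 0 ≤ B * ((L + 1) ^ 2 * Ch) * (exc δ D u ν c' + h ^ 5) := by positivity
      nlinarith
  -- the left hand side
  have b1 : BC D u (Kc δ) (fun x => fderiv ℝ f x (gr u x - ν)) :=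
    hfT.BC_any hc.sol hKc (hc.sol.a_cont ν) (hc.sol.a_bd hKc hc.KcD ν)
  have hsup2 : ∀ x ∈ NN D u, x ∉ Kc δ → P x * fderiv ℝ (hol δ) x (gr u x - ν) = 0 := by
    intro x _ hx
    have : ‖x‖ < 2 * δ ∨ 7 / 8 < ‖x‖ := by
      by_contra hn
      push Not at hn
      exact hx ⟨hn.1, hn.2⟩
    rcases this with h1 | h1
    · have : hol δ =ᶠ[𝓝 x] fun _ => 0 := by
        filter_upwards [(isOpen_lt continuous_norm continuous_const).mem_nhds h1] with y hy
        exact hol_zero hδ (le_of_lt hy)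
      rw [this.fderiv_eq]; simp
    · rw [hPs x (by linarith), zero_mul]
  have b2 : BC D u (Kc δ) (fun x => P x * fderiv ℝ (hol δ) x (gr u x - ν)) := by
    refine ⟨?_, ?_, hsup2⟩
    · exact hP.continuous.continuousOn.mul
        (((hol_smooth δ (n := 1)).continuous_fderiv (by norm_num)).continuousOn.clm_apply
          (hc.sol.a_cont ν))
    · obtain ⟨C1, hC1⟩ := hc.sol.a_bd hKc hc.KcD ν
      obtain ⟨C2, hC2⟩ := hKc.exists_bound_of_continuousOn (f := fderiv ℝ (hol δ))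
        ((hol_smooth δ (n := 1)).continuous_fderiv (by norm_num)).continuousOn
      refine ⟨B * (C2 * C1), fun x hx hxK => ?_⟩
      rw [abs_mul]
      have h1 := le_op (fderiv ℝ (hol δ) x) (gr u x - ν)
      have h2 := mul_le_mul (hC2 x hxK) (hC1 x hx hxK) (norm_nonneg _)
        ((norm_nonneg _).trans (hC2 x hxK))
      exact mul_le_mul (hPB x) (h1.trans h2) (abs_nonneg _) hB
  have e3 : ∫ x in NN D u, hol δ x * fderiv ℝ P x (gr u x - ν) =
      (∫ x in NN D u, fderiv ℝ f x (gr u x - ν)) -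
        ∫ x in NN D u, P x * fderiv ℝ (hol δ) x (gr u x - ν) := by
    rw [← integral_sub (b1.integrable hc.sol hKc) (b2.integrable hc.sol hKc)]
    congr 1
    funext x
    rw [hfd]
    simp only [_root_.add_apply, _root_.smul_apply, smul_eq_mul]
    ring
  have h4 : |∫ x in NN D u, P x * fderiv ℝ (hol δ) x (gr u x - ν)| ≤ B * (L + 1) * (Ch * δ) := by
    rw [hc.int_eq b2.supp]
    have i2 := (b2.integrable hc.sol hKc).mono_set (inter_subset_left (t := ann δ 1))
    have j1 : IntegrableOn (fun x => B * (L + 1) * Z x) (NN D u ∩ ann δ 1) := iZ.const_mul _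
    calc |∫ x in NN D u ∩ ann δ 1, P x * fderiv ℝ (hol δ) x (gr u x - ν)|
        ≤ ∫ x in NN D u ∩ ann δ 1, |P x * fderiv ℝ (hol δ) x (gr u x - ν)| :=
          abs_integral_le_integral_abs
      _ ≤ ∫ x in NN D u ∩ ann δ 1, B * (L + 1) * Z x := by
          apply setIntegral_mono_on i2.abs j1 hSm
          intro x hx
          rw [abs_mul]
          have h1 := le_op (fderiv ℝ (hol δ) x) (gr u x - ν)
          have h2 := mul_le_mul_of_nonneg_left (hc.a_le hν hx.1 hx.2)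
            (norm_nonneg (fderiv ℝ (hol δ) x))
          calc |P x| * |fderiv ℝ (hol δ) x (gr u x - ν)| ≤ B * (‖fderiv ℝ (hol δ) x‖ * (L + 1)) :=
                mul_le_mul (hPB x) (h1.trans h2) (abs_nonneg _) hB
            _ = B * (L + 1) * Z x := by ring
      _ ≤ B * (L + 1) * (Ch * δ) := by
          rw [integral_const_mul]
          exact mul_le_mul_of_nonneg_left hZ' (by positivity)
  rw [e3]
  refine (abs_sub _ _).trans ?_
  have u1 : 0 ≤ B * (L + 1) * Ch * (exc δ D u ν c' + h ^ 5) := by positivity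
  nlinarith

end

end Pool.Agent.D0H33.FB
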