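import Pool.Agent.D0H33.FB.A16
import Pool.Agent.H631.ES.X06
import Pool.Agent.H631.ES.X03

set_option autoImplicit false

open Set Metric Filter Topology MeasureTheory
open ExtStar (lap eta wgt)

namespace Pool.Agent.D0H33.FB

noncomputable section

variable {D : Set V} {u : V → ℝ}

/-- reflection in the plane orthogonal to `ν` -/
def rf (ν x : V) : V := x - (2 * inner ℝ ν x) • ν

lemma rf_inner {ν : V} (hν : ‖ν‖ = 1) (x : V) : inner ℝ ν (rf ν x) = - inner ℝ ν x := by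
  unfold rf
  rw [inner_sub_right, inner_smul_right, real_inner_self_eq_norm_sq, hν]; ring

lemma rf_sub (ν x y : V) : rf ν (x - y) = rf ν x - rf ν y := by
  unfold rf; rw [inner_sub_right]; module

lemma rf_rf {ν : V} (hν : ‖ν‖ = 1) (x : V) : rf ν (rf ν x) = x := by
  have h := rf_inner hν x
  unfold rf at *
  rw [h]; module

lemma rf_norm {ν : V} (hν : ‖ν‖ = 1) (x : V) : ‖rf ν x‖ = ‖x‖ := by
  have h : ‖rf ν x‖ ^ 2 = ‖x‖ ^ 2 := by
    unfold rf
    rw [norm_sub_sq_real, inner_smul_right, norm_smul, hν, real_inner_comm, mul_one,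
      Real.norm_eq_abs, sq_abs]
    ring
  exact (sq_eq_sq₀ (norm_nonneg _) (norm_nonneg _)).1 h

lemma rf_dist {ν : V} (hν : ‖ν‖ = 1) (x y : V) : ‖y - rf ν x‖ = ‖rf ν y - x‖ := by
  rw [← rf_norm hν (y - rf ν x), rf_sub, rf_rf hν]

lemma rf_self {ν : V} (hν : ‖ν‖ = 1) (y : V) : ‖y - rf ν y‖ = 2 * |inner ℝ ν y| := by
  unfold rf
  rw [sub_sub_cancel, norm_smul, hν, mul_one, Real.norm_eq_abs, abs_mul]
  norm_num

/-- even combination: the normal derivative is small near the plane -/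
lemma even_ker {f : V → ℝ} (hf : Differentiable ℝ f) (hr : ∀ z w : V, ‖z‖ = ‖w‖ → f z = f w) {M : ℝ}
    (hM : ∀ z w, ‖fderiv ℝ f z - fderiv ℝ f w‖ ≤ M * ‖z - w‖) {ν : V} (hν : ‖ν‖ = 1) (x y : V) :
    |fderiv ℝ (fun y => f (y - x) + f (y - rf ν x)) y ν| ≤ 2 * M * |inner ℝ ν y| := by
  have e0 : (fun y => f (y - x) + f (y - rf ν x)) = fun y => f (y - x) + f (rf ν y - x) := by
    funext y
    rw [hr (y - rf ν x) (rf ν y - x) (rf_dist hν x y)]
  have h1 : HasFDerivAt (fun y : V => y - x) (ContinuousLinearMap.id ℝ V) y :=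
    (hasFDerivAt_id y).sub_const x
  have h2 : HasFDerivAt (fun y : V => rf ν y - x)
      (ContinuousLinearMap.id ℝ V - ((2 : ℝ) • (innerSL ℝ ν)).smulRight ν) y := by
    have h3 : HasFDerivAt (fun y : V => (2 * inner ℝ ν y) • ν)
        (((2 : ℝ) • (innerSL ℝ ν)).smulRight ν) y := by
      have h4 : HasFDerivAt (fun y : V => 2 * inner ℝ ν y) ((2 : ℝ) • (innerSL ℝ ν)) y :=
        ((innerSL ℝ ν).hasFDerivAt).const_mul 2
      exact h4.smul_const ν
    exact ((hasFDerivAt_id y).sub h3).sub_const x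
  have h5 : HasFDerivAt (fun y => f (y - x) + f (rf ν y - x)) _ y :=
    ((hf (y - x)).hasFDerivAt.comp y h1).add ((hf (rf ν y - x)).hasFDerivAt.comp y h2)
  rw [e0, h5.fderiv]
  simp only [_root_.add_apply, ContinuousLinearMap.comp_apply, ContinuousLinearMap.id_apply,
    _root_.sub_apply, ContinuousLinearMap.smulRight_apply, _root_.smul_apply, innerSL_apply_apply,
    real_inner_self_eq_norm_sq, hν, smul_eq_mul]
  have e1 : ν - ((2 : ℝ) * 1 ^ 2) • ν = -ν := by module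
  rw [e1, map_neg, ← sub_eq_add_neg, ← ContinuousLinearMap.sub_apply]
  refine (le_op _ _).trans ?_
  rw [hν, mul_one]
  refine (hM _ _).trans (le_of_eq ?_)
  rw [sub_sub_sub_cancel_right, rf_self hν]
  ring

/-- odd combination: the kernel is small near the plane -/
lemma odd_ker {f : V → ℝ} (hr : ∀ z w : V, ‖z‖ = ‖w‖ → f z = f w) {M : ℝ}
    (hM : ∀ z w, |f z - f w| ≤ M * ‖z - w‖) {ν : V} (hν : ‖ν‖ = 1) (x y : V) :
    |f (y - x) - f (y - rf ν x)| ≤ 2 * M * |inner ℝ ν y| := by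
  rw [hr (y - rf ν x) (rf ν y - x) (rf_dist hν x y)]
  refine (hM _ _).trans (le_of_eq ?_)
  rw [sub_sub_sub_cancel_right, rf_self hν]
  ring

/-- cutting off near the plane -/
lemma cutP {v : V → ℝ} {ν : V} {τ : ℝ} (hτ : 0 < τ)
    (hv : ContDiffOn ℝ 2 v {y | ‖y‖ < 7 / 8 ∧ τ / 2 < inner ℝ ν y}) :
    ∃ P : V → ℝ, ContDiff ℝ 2 P ∧
      (∀ y, ‖y‖ ≤ 3 / 4 → inner ℝ ν y < τ → P y = 0 ∧ gr P y = 0 ∧ lap P y = 0) ∧
      (∀ y, ‖y‖ ≤ 3 / 4 → P =ᶠ[𝓝 y] fun y => chi (inner ℝ ν y / τ) * v y) ∧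
      (∀ y, ‖y‖ ≤ 3 / 4 → τ ≤ inner ℝ ν y → P y = chi (inner ℝ ν y / τ) * v y ∧
        gr P y = chi (inner ℝ ν y / τ) • gr v y +
          (v y * (deriv chi (inner ℝ ν y / τ) / τ)) • ν) ∧
      (∀ y, ‖y‖ ≤ 3 / 4 → 2 * τ < inner ℝ ν y → P y = v y ∧ lap P y = lap v y) := by
  have hin : Continuous (fun y : V => inner ℝ ν y) := by fun_prop
  have hU : IsOpen {y : V | ‖y‖ < 7 / 8 ∧ τ / 2 < inner ℝ ν y} :=
    (isOpen_lt continuous_norm continuous_const).inter (isOpen_lt continuous_const hin)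
  have hlin : ContDiff ℝ 2 (fun y : V => inner ℝ ν y / τ) :=
    (contDiff_const.inner ℝ contDiff_id).div_const τ
  have hchi : ContDiff ℝ 2 chi := chi_smooth (n := 2)
  have hW : ContDiffOn ℝ 2 (fun y => chi (inner ℝ ν y / τ) * v y) (ball (0 : V) (7 / 8)) := by
    intro y hy
    rw [mem_ball, dist_zero_right] at hy
    apply ContDiffAt.contDiffWithinAt
    by_cases h1 : τ / 2 < inner ℝ ν y
    · exact ((hchi.comp hlin).contDiffAt).mul (hv.contDiffAt (hU.mem_nhds ⟨hy, h1⟩))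
    · have h2 : inner ℝ ν y < τ := by linarith
      apply ContDiffAt.congr_of_eventuallyEq contDiffAt_const
      swap
      · exact 0
      have h3 : ∀ᶠ z : V in 𝓝 y, inner ℝ ν z < τ :=
        (isOpen_lt (by fun_prop) continuous_const).mem_nhds h2
      filter_upwards [h3] with z hz
      rw [chi_zero ((div_le_one hτ).2 hz.le), zero_mul]
  obtain ⟨P, hP, hPW⟩ := ExtStar.ext_C2 (d := 3) _ (0 : V) (3 / 4) (7 / 8) (by norm_num)
    (by norm_num) hW
  have hPW' : ∀ y : V, ‖y‖ ≤ 3 / 4 → P =ᶠ[𝓝 y] fun y => chi (inner ℝ ν y / τ) * v y :=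
    fun y hy => hPW y (by rw [mem_closedBall, dist_zero_right]; exact hy)
  refine ⟨P, hP, ?_, hPW', ?_, ?_⟩
  · intro y hy h2
    have h3 : ∀ᶠ z : V in 𝓝 y, inner ℝ ν z < τ :=
      (isOpen_lt (by fun_prop) continuous_const).mem_nhds h2
    have h4 : P =ᶠ[𝓝 y] fun _ => 0 := by
      filter_upwards [h3, hPW' y hy] with z hz hz2
      rw [hz2, chi_zero ((div_le_one hτ).2 hz.le), zero_mul]
    refine ⟨h4.self_of_nhds, ?_, ?_⟩
    · unfold gr; rw [h4.fderiv_eq]; simp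
    · rw [ExtStar.lap_congr P (fun _ => 0) y h4]
      exact ExtStar.lap_const 0 y
  · intro y hy h2
    have h3 := hPW' y hy
    refine ⟨h3.self_of_nhds, ?_⟩
    have hvd : DifferentiableAt ℝ v y :=
      (hv.contDiffAt (hU.mem_nhds ⟨by linarith, by linarith⟩)).differentiableAt (by norm_num)
    have h5 : HasFDerivAt (fun y : V => inner ℝ ν y / τ) (τ⁻¹ • innerSL ℝ ν) y := by
      have := (innerSL ℝ ν).hasFDerivAt (x := y) |>.mul_const τ⁻¹
      simpa [div_eq_mul_inv] using this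
    have h6 : HasFDerivAt (fun y : V => chi (inner ℝ ν y / τ))
        (deriv chi (inner ℝ ν y / τ) • (τ⁻¹ • innerSL ℝ ν)) y :=
      (chi_diff _).hasDerivAt.comp_hasFDerivAt y h5
    have h7 : HasFDerivAt (fun y => chi (inner ℝ ν y / τ) * v y) _ y := h6.mul hvd.hasFDerivAt
    unfold gr
    rw [h3.fderiv_eq, h7.fderiv, map_add, map_smul, map_smul, map_smul, map_smul]
    have h8 : (InnerProductSpace.toDual ℝ V).symm (innerSL ℝ ν) = ν := by
      have : innerSL ℝ ν = InnerProductSpace.toDual ℝ V ν := by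
        ext w; simp
      rw [this, LinearIsometryEquiv.symm_apply_apply]
    rw [h8, smul_smul, smul_smul]
    congr 2
    ring
  · intro y hy h2
    have h3 : ∀ᶠ z : V in 𝓝 y, 2 * τ < inner ℝ ν z :=
      (isOpen_lt continuous_const (by fun_prop)).mem_nhds h2
    have h4 : P =ᶠ[𝓝 y] v := by
      filter_upwards [h3, hPW' y hy] with z hz hz2
      rw [hz2, chi_one ((le_div_iff₀ hτ).2 hz.le), one_mul]
    exact ⟨h4.self_of_nhds, ExtStar.lap_congr P v y h4⟩

end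

end Pool.Agent.D0H33.FB
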