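import Pool.Agent.D0H33.FB.A17

set_option autoImplicit false

open Set Metric Filter Topology MeasureTheory
open ExtStar (lap eta wgt)

namespace Pool.Agent.D0H33.FB

noncomputable section

variable {D : Set V} {u : V → ℝ} {L c κ δ : ℝ} {ν : V} {c' h : ℝ}

lemma Cfg.vol_le (hc : Cfg L c κ δ D u) (S : Set V) :
    (volume : Measure V).real (NN D u ∩ ann δ 1) ≤ om := by
  have h1 := ann_vol (a := δ) (b := 1) (by norm_num)
  have h2 : (volume : Measure V).real (NN D u ∩ ann δ 1) ≤ (volume : Measure V).real (ann δ 1) :=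
    measureReal_mono inter_subset_right (ann_fin _ _).ne
  linarith

lemma Cfg.vv_int (hc : Cfg L c κ δ D u) (hL : 0 ≤ L) (hν : ‖ν‖ = 1) :
    IntegrableOn (vv u ν c') (NN D u ∩ ann δ 1) := by
  apply hc.sol.int_bdd (ann_meas _ _) (ann_fin _ _)
  · exact (vv_cont hc.sol ν c').mono fun x hx => hx.1
  · intro x hx hxa
    exact hc.vv_bd1 hL hν hxa

/-- integrals against the cut off function -/
lemma Cfg.Pint (hc : Cfg L c κ δ D u) (hL : 0 ≤ L) (hν : ‖ν‖ = 1) {τ : ℝ} (hδτ : δ < τ)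
    (hN : ∀ y : V, ‖y‖ ≤ 3 / 4 → τ ≤ inner ℝ ν y → y ∈ NN D u) {P k : V → ℝ} {B : ℝ}
    (hPc : Continuous P) (hB : 0 ≤ B)
    (hP0 : ∀ y, ‖y‖ ≤ 3 / 4 → inner ℝ ν y < τ → P y = 0)
    (hP1 : ∀ y, ‖y‖ ≤ 3 / 4 → τ ≤ inner ℝ ν y → |P y| ≤ |vv u ν c' y|)
    (hk : Continuous k) (hkB : ∀ y, |k y| ≤ B) (hk0 : ∀ y, 3 / 4 ≤ ‖y‖ → k y = 0) :
    ∫ y, |P y * k y| ≤ B * (Real.sqrt om * Real.sqrt (exc δ D u ν c')) := by
  have hz : ∀ y, y ∉ NN D u ∩ ann δ 1 → |P y * k y| = 0 := by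
    intro y hy
    by_cases h1 : 3 / 4 ≤ ‖y‖
    · rw [hk0 y h1]; simp
    · push Not at h1
      have h2 : inner ℝ ν y < τ := by
        by_contra hn
        push Not at hn
        apply hy
        refine ⟨hN y h1.le hn, ?_, by linarith⟩
        have := abs_real_inner_le_norm ν y
        rw [hν, one_mul] at this
        linarith [le_abs_self (inner ℝ ν y)]
      rw [hP0 y h1.le h2]; simp
  have hSm : MeasurableSet (NN D u ∩ ann δ 1) := hc.sol.meas_NN.inter (ann_meas _ _)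
  have hSf : volume (NN D u ∩ ann δ 1) ≠ ⊤ :=
    ((measure_mono inter_subset_right).trans_lt (ann_fin _ _)).ne
  have hcs : HasCompactSupport (fun y => |P y * k y|) := by
    apply HasCompactSupport.intro (isCompact_closedBall (0 : V) (3 / 4))
    intro y hy
    rw [mem_closedBall, dist_zero_right, not_le] at hy
    rw [hk0 y hy.le]; simp
  have hi : Integrable (fun y => |P y * k y|) :=
    (hPc.mul hk).abs.integrable_of_hasCompactSupport hcs
  have iv := hc.vv_int (c' := c') hL hν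
  rw [← setIntegral_eq_integral_of_forall_compl_eq_zero hz]
  calc ∫ y in NN D u ∩ ann δ 1, |P y * k y| ≤ ∫ y in NN D u ∩ ann δ 1, B * |vv u ν c' y| := by
        apply setIntegral_mono_on hi.integrableOn (iv.abs.const_mul _) hSm
        intro y _
        rw [abs_mul, mul_comm]
        by_cases h1 : 3 / 4 ≤ ‖y‖
        · rw [hk0 y h1]; simp; positivity
        · push Not at h1
          by_cases h2 : inner ℝ ν y < τ
          · rw [hP0 y h1.le h2]; simp; positivity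
          · push Not at h2
            exact mul_le_mul (hkB y) (hP1 y h1.le h2) (abs_nonneg _) hB
    _ = B * ∫ y in NN D u ∩ ann δ 1, |vv u ν c' y| := integral_const_mul _ _
    _ ≤ B * (Real.sqrt om * Real.sqrt (exc δ D u ν c')) := by
        apply mul_le_mul_of_nonneg_left _ hB
        apply cs_int hSf iv (hc.exc_int hL hν) (Real.sqrt_nonneg _) (Real.sqrt_nonneg _)
        · rw [Real.sq_sqrt om_pos.le]; exact hc.vol_le univ
        · rw [Real.sq_sqrt (exc_nonneg _ _ _ _ _)]; exact le_refl _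

/-- volume of the part of the positive phase in a thin slab -/
lemma Cfg.slabN {Cs : ℝ} (hCs : 0 < Cs) (hslab : ∀ (ν : V) (a b : ℝ), ‖ν‖ = 1 → a ≤ b →
    (volume : Measure V).real {x | ‖x‖ < 1 ∧ a ≤ inner ℝ ν x ∧ inner ℝ ν x ≤ b} ≤ Cs * (b - a))
    (hν : ‖ν‖ = 1) (hcl : Cln h δ D u ν c') {t : ℝ} (ht : 0 ≤ t) :
    (volume : Measure V).real (NN D u ∩ (ann δ (3 / 4) ∩ {y | inner ℝ ν y < t})) ≤
      Cs * (t + 2 * h) := by
  have h0 := hcl.h0
  have h1 := abs_le.1 hcl.hc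
  have hsub : NN D u ∩ (ann δ (3 / 4) ∩ {y | inner ℝ ν y < t}) ⊆
      {x | ‖x‖ < 1 ∧ -h - c' ≤ inner ℝ ν x ∧ inner ℝ ν x ≤ t} := by
    intro x hx
    have h2 : inner ℝ ν x < t := hx.2.2
    have h3 : ‖x‖ < 3 / 4 := hx.2.1.2
    refine ⟨by linarith, ?_, h2.le⟩
    by_contra hn
    push Not at hn
    exact hcl.neg x (by linarith) (by linarith) hx.1
  have hfin : volume {x : V | ‖x‖ < 1 ∧ -h - c' ≤ inner ℝ ν x ∧ inner ℝ ν x ≤ t} ≠ ⊤ := by
    have : {x : V | ‖x‖ < 1 ∧ -h - c' ≤ inner ℝ ν x ∧ inner ℝ ν x ≤ t} ⊆ ball 0 1 :=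
      fun x hx => by rw [mem_ball, dist_zero_right]; exact hx.1
    exact ((measure_mono this).trans_lt measure_ball_lt_top).ne
  refine (measureReal_mono hsub hfin).trans ((hslab ν _ _ hν (by linarith [h1.1, h1.2])).trans ?_)
  apply mul_le_mul_of_nonneg_left _ hCs.le
  linarith [h1.1, h1.2]

end

end Pool.Agent.D0H33.FB
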