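import Pool.Agent.D0H33.FB.A19

set_option autoImplicit false

open Set Metric Filter Topology MeasureTheory
open ExtStar (lap eta wgt)

namespace Pool.Agent.D0H33.FB

noncomputable section

/-- Laplacian of the difference with an affine function -/
lemma lap_vv {D : Set V} {u : V → ℝ} (h : Sol D u) (ν : V) (c : ℝ) {x : V} (hx : x ∈ NN D u) :
    lap (vv u ν c) x = 0 := by
  have hu := h.contDiffAt hx
  have hl : ContDiff ℝ 2 (fun y : V => inner ℝ ν y) := contDiff_const.inner ℝ contDiff_id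
  have h1 : lap (fun y : V => inner ℝ ν y) x = 0 := by
    rw [lap_eq hl.contDiffAt]
    apply Finset.sum_eq_zero
    intro i _
    have : (fun y : V => fderiv ℝ (fun y : V => inner ℝ ν y) y (ee i)) = fun _ => inner ℝ ν (ee i) := by
      funext y
      have : HasFDerivAt (fun y : V => inner ℝ ν y) (innerSL ℝ ν) y := (innerSL ℝ ν).hasFDerivAt
      rw [this.fderiv]; simp
    rw [this]; simp
  have h2 : lap (fun y => u y - inner ℝ ν y) x = 0 := by
    rw [ExtStar.lap_sub u (fun y : V => inner ℝ ν y) x hu hl.contDiffAt, h.harm x hx, h1, sub_zero]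
  have h3 : lap (fun y => (u y - inner ℝ ν y) - c) x = 0 := by
    rw [ExtStar.lap_sub (fun y => u y - inner ℝ ν y) (fun _ => c) x (hu.sub hl.contDiffAt)
      contDiffAt_const, h2, ExtStar.lap_const, sub_zero]
  exact h3

/-- Taylor expansion of the symmetrised kernel against the cut off function -/
theorem kernel_affine : ∃ C : ℝ, 0 < C ∧ ∀ (P : V → ℝ) (I : ℝ) (ν : V), Continuous P → ‖ν‖ = 1 → 0 ≤ I →
    (∀ (k : V → ℝ) (B : ℝ), Continuous k → 0 ≤ B → (∀ y, |k y| ≤ B) → (∀ y, 3 / 4 ≤ ‖y‖ → k y = 0) →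
      ∫ y, |P y * k y| ≤ B * I) →
    ∃ (b0 : ℝ) (b1 : V), inner ℝ ν b1 = 0 ∧ |b0| ≤ C * I ∧ ‖b1‖ ≤ C * I ∧
      ∀ x : V, ‖x‖ ≤ 1 / 8 →
        |(∫ y, P y * (qk (1 / 8) (y - x) + qk (1 / 8) (y - rf ν x))) - (b0 + inner ℝ b1 x)| ≤
          C * ‖x‖ ^ 2 * I := by
  have hfar : ∀ z : V, 1 / 8 ≤ ‖z‖ → qk (1 / 8) z = 0 := fun z hz => qk_far (by norm_num) hz
  obtain ⟨M, hM, m1, m2, m3, m4, m5⟩ := C2_bounds (qk_C2 (1 / 8)) (supp_of_far hfar)
  refine ⟨4 * M, by positivity, ?_⟩
  intro P I ν hP hν hI hint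
  set q := qk (1 / 8) with hq
  have hqs : ContDiff ℝ 2 q := qk_C2 _
  have hq1 : ContDiff ℝ 1 q := hqs.of_le (by norm_num)
  have hqc : Continuous q := hqs.continuous
  have hgc : Continuous (gr q) := gr_continuous hq1
  have hg0 : ∀ y : V, 1 / 8 < ‖y‖ → fderiv ℝ q y = 0 := fun y hy => fderiv_far hfar hy
  set w : V → V := fun y => (-2 : ℝ) • (gr q y - (inner ℝ ν (gr q y)) • ν) with hw
  have hwc : Continuous w := by fun_prop
  have hwn : ∀ y, ‖w y‖ ≤ 4 * M := by
    intro y
    simp only [hw]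
    rw [norm_smul]
    have h1 : ‖gr q y‖ ≤ M := by rw [gr_norm]; exact m2 y
    have h2 : |inner ℝ ν (gr q y)| ≤ ‖gr q y‖ := by
      have := abs_real_inner_le_norm ν (gr q y)
      rwa [hν, one_mul] at this
    have h3 : ‖gr q y - (inner ℝ ν (gr q y)) • ν‖ ≤ M + M := by
      refine (norm_sub_le _ _).trans (add_le_add h1 ?_)
      rw [norm_smul, hν, mul_one, Real.norm_eq_abs]
      exact h2.trans h1
    have : ‖(-2 : ℝ)‖ = 2 := by norm_num
    rw [this]; linarith
  have hw0 : ∀ y : V, 1 / 8 < ‖y‖ → w y = 0 := by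
    intro y hy
    have : gr q y = 0 := by unfold gr; rw [hg0 y hy]; simp
    simp only [hw]; rw [this]; simp
  have hwx : ∀ y x, inner ℝ (w y) x = fderiv ℝ q y ((-2 : ℝ) • (x - (inner ℝ ν x) • ν)) := by
    intro y x
    simp only [hw]
    rw [inner_smul_left, inner_sub_left, inner_smul_left, map_smul, map_sub, map_smul, gr_inner,
      ← gr_inner q y ν, real_inner_comm ν (gr q y)]
    simp only [conj_trivial, smul_eq_mul]
    ring
  have csq : HasCompactSupport q := supp_of_far hfar
  have csw : HasCompactSupport w := by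
    apply HasCompactSupport.intro (isCompact_closedBall (0 : V) (1 / 8))
    intro y hy
    rw [mem_closedBall, dist_zero_right, not_le] at hy
    exact hw0 y hy
  have iPw : Integrable (fun y => P y • w y) := by
    apply (hP.smul hwc).integrable_of_hasCompactSupport
    exact csw.smul_left
  refine ⟨2 * ∫ y, P y * q y, ∫ y, P y • w y, ?_, ?_, ?_, ?_⟩
  · rw [← integral_inner iPw ν]
    have : (fun y => inner ℝ ν (P y • w y)) = fun _ => (0 : ℝ) := by
      funext y
      simp only [hw]
      rw [inner_smul_right, inner_smul_right, inner_sub_right, inner_smul_right,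
        real_inner_self_eq_norm_sq, hν]
      ring
    rw [this]; simp
  · have h1 := hint q M hqc hM.le m1 (fun y hy => hfar y (by linarith))
    rw [abs_mul, abs_of_pos (by norm_num : (0:ℝ) < 2)]
    have h2 : |∫ y, P y * q y| ≤ M * I := abs_integral_le_integral_abs.trans h1
    have : 0 ≤ M * I := by positivity
    linarith
  · refine (norm_integral_le_integral_norm _).trans ?_
    have h1 := hint (fun y => ‖w y‖) (4 * M) hwc.norm (by positivity)
      (fun y => by rw [abs_of_nonneg (norm_nonneg _)]; exact hwn y)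
      (fun y hy => by rw [hw0 y (by linarith)]; simp)
    refine le_trans (le_of_eq ?_) h1
    congr 1
    funext y
    rw [norm_smul, abs_mul, Real.norm_eq_abs, abs_of_nonneg (norm_nonneg (w y))]
  · intro x hx
    have hrx : ‖rf ν x‖ ≤ 1 / 8 := by rw [rf_norm hν]; exact hx
    have hfar2 : ∀ (z : V), ‖z‖ ≤ 1 / 8 → ∀ y : V, 1 / 4 ≤ ‖y‖ → q (y - z) = 0 := by
      intro z hz y hy
      apply hfar
      have := norm_sub_norm_le y z
      linarith
    have c1 : Continuous (fun y => q (y - x)) := hqc.comp (continuous_id.sub continuous_const)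
    have c2 : Continuous (fun y => q (y - rf ν x)) := hqc.comp (continuous_id.sub continuous_const)
    set R : V → ℝ := fun y => q (y - x) + q (y - rf ν x) - 2 * q y - inner ℝ (w y) x with hR
    have hRc : Continuous R := by
      have : Continuous (fun y => inner ℝ (w y) x) := hwc.inner continuous_const
      exact ((c1.add c2).sub (continuous_const.mul hqc)).sub this
    have hR0 : ∀ y : V, 1 / 4 ≤ ‖y‖ → R y = 0 := by
      intro y hy
      simp only [hR]
      rw [hfar2 x hx y hy, hfar2 _ hrx y hy, hfar y (by linarith), hw0 y (by linarith)]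
      simp
    have hRb : ∀ y, |R y| ≤ 2 * M * ‖x‖ ^ 2 := by
      intro y
      have h1 := m5 y (-x)
      have h2 := m5 y (-(rf ν x))
      rw [norm_neg] at h1 h2
      rw [rf_norm hν] at h2
      have e : R y = (q (y + -x) - q y - fderiv ℝ q y (-x)) +
          (q (y + -(rf ν x)) - q y - fderiv ℝ q y (-(rf ν x))) := by
        simp only [hR]
        rw [hwx, ← sub_eq_add_neg, ← sub_eq_add_neg]
        have e2 : (-2 : ℝ) • (x - (inner ℝ ν x) • ν) = -x + -(rf ν x) := by
          unfold rf; module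
        rw [e2, map_add]
        ring
      rw [e]
      refine (abs_add_le _ _).trans ?_
      linarith
    have cs1 : HasCompactSupport (fun y => P y * (q (y - x) + q (y - rf ν x))) := by
      apply HasCompactSupport.intro (isCompact_closedBall (0 : V) (1 / 4))
      intro y hy
      rw [mem_closedBall, dist_zero_right, not_le] at hy
      rw [hfar2 x hx y hy.le, hfar2 _ hrx y hy.le]; simp
    have csR : HasCompactSupport (fun y => P y * R y) := by
      apply HasCompactSupport.intro (isCompact_closedBall (0 : V) (1 / 4))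
      intro y hy
      rw [mem_closedBall, dist_zero_right, not_le] at hy
      rw [hR0 y hy.le]; simp
    have iR : Integrable (fun y => P y * R y) := (hP.mul hRc).integrable_of_hasCompactSupport csR
    have iq : Integrable (fun y => P y * q y) :=
      (hP.mul hqc).integrable_of_hasCompactSupport csq.mul_left
    have iw : Integrable (fun y => inner ℝ (P y • w y) x) := by
      have : Continuous (fun y => inner ℝ (P y • w y) x) := (hP.smul hwc).inner continuous_const
      apply this.integrable_of_hasCompactSupport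
      apply HasCompactSupport.intro (isCompact_closedBall (0 : V) (1 / 8))
      intro y hy
      rw [mem_closedBall, dist_zero_right, not_le] at hy
      rw [hw0 y hy]; simp
    have e1 : inner ℝ (∫ y, P y • w y) x = ∫ y, inner ℝ (P y • w y) x := by
      rw [real_inner_comm, ← integral_inner iPw x]
      congr 1
      funext y
      rw [real_inner_comm]
    have e2 : (∫ y, P y * (q (y - x) + q (y - rf ν x))) =
        2 * (∫ y, P y * q y) + (∫ y, inner ℝ (P y • w y) x) + ∫ y, P y * R y := by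
      have iqw : Integrable (fun y => 2 * (P y * q y) + inner ℝ (P y • w y) x) :=
        (iq.const_mul 2).add iw
      rw [← integral_const_mul, ← integral_add (iq.const_mul 2) iw, ← integral_add iqw iR]
      congr 1
      funext y
      simp only [hR]
      rw [inner_smul_left]
      simp only [conj_trivial]
      ring
    rw [e1, e2, add_sub_cancel_left]
    have h3 := hint R (2 * M * ‖x‖ ^ 2) hRc (by positivity) hRb (fun y hy => hR0 y (by linarith))
    refine abs_integral_le_integral_abs.trans (h3.trans ?_)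
    have : 0 ≤ M * ‖x‖ ^ 2 * I := by positivity
    nlinarith

/-- approximation by affine functions at points away from the plane -/
theorem good_approx (L c κ : ℝ) (hL : 1 ≤ L) : ∃ C : ℝ, 0 < C ∧ ∀ s0 : ℝ, 0 < s0 → s0 ≤ 1 / 8 →
    ∃ M : ℝ, 0 < M ∧ ∀ (δ : ℝ) (D : Set V) (u : V → ℝ) (ν : V) (c' h τ : ℝ),
      Cfg L c κ δ D u → ‖ν‖ = 1 → Cln h δ D u ν c' → 4 * h ≤ τ → 8 * τ ≤ s0 →
      ∃ (a0 : ℝ) (a1 : V), inner ℝ ν a1 = 0 ∧
        |a0| ≤ C * Real.sqrt (exc δ D u ν c' + δ + h ^ 5) ∧
        ‖a1‖ ≤ C * Real.sqrt (exc δ D u ν c' + δ + h ^ 5) ∧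
        ∀ x : V, ‖x‖ ≤ 1 / 8 → s0 ≤ inner ℝ ν x →
          |vv u ν c' x - (a0 + inner ℝ a1 x)| ≤
            C * ‖x‖ ^ 2 * Real.sqrt (exc δ D u ν c' + δ + h ^ 5) +
            M * (exc δ D u ν c' + δ + h ^ 5 +
              Real.sqrt τ * Real.sqrt (exc δ D u ν c' + δ + h ^ 5)) := by
  obtain ⟨Ck, hCk, hker⟩ := kernel_affine
  obtain ⟨Ce, hCe, heven⟩ := even_term L c κ hL
  have hκp := kap_pos
  have hom := om_pos
  refine ⟨Ck * Real.sqrt om / kap, by positivity, ?_⟩
  intro s0 hs0 hs08
  have hs : 0 < s0 / 2 := by positivity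
  have hsT : s0 / 2 ≤ 1 / 8 := by linarith
  have hQfar : ∀ z : V, 1 / 8 ≤ ‖z‖ → Qs (s0 / 2) (1 / 8) z = 0 := fun z hz => Qs_far hs hsT hz
  obtain ⟨MQ, hMQ, n1, n2, n3, n4, n5⟩ := C2_bounds (Qs_C2 (s0 / 2) (1 / 8)) (supp_of_far hQfar)
  refine ⟨Ce * (2 * MQ) / kap, by positivity, ?_⟩
  intro δ D u ν c' h τ hc hν hcl hhτ hτs
  have hδ := hc.δ0
  have hh0 := hcl.h0
  have hτ0 : 0 < τ := by linarith
  have hδτ : 3 * δ ≤ τ := by linarith [hcl.hδ]
  have hexc := exc_nonneg δ D u ν c'
  set E := exc δ D u ν c' + δ + h ^ 5 with hE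
  have hE0 : 0 < E := by positivity
  have hin : ∀ x : V, |inner ℝ ν x| ≤ ‖x‖ := fun x => by
    have := abs_real_inner_le_norm ν x
    rwa [hν, one_mul] at this
  have hc' := abs_le.1 hcl.hc
  have hNh : ∀ y : V, ‖y‖ < 7 / 8 → τ / 2 < inner ℝ ν y → y ∈ NN D u := by
    intro y hy1 hy2
    apply hcl.pos y hy1
    linarith [hc'.1]
  have hN : ∀ y : V, ‖y‖ ≤ 3 / 4 → τ ≤ inner ℝ ν y → y ∈ NN D u := fun y h1 h2 =>
    hNh y (by linarith) (by linarith)
  obtain ⟨P, hP, P1, P2, P3, P4⟩ := cutP (v := vv u ν c') (ν := ν) hτ0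
    ((vv_C1 hc.sol ν c').mono fun y hy => hNh y hy.1 hy.2)
  -- kernel part
  obtain ⟨b0, b1, hb1, hb0n, hb1n, hbx⟩ := hker P (Real.sqrt om * Real.sqrt (exc δ D u ν c')) ν
    hP.continuous hν (by positivity) (by
      intro k B hk hB hkB hk0
      exact hc.Pint (by linarith) hν (by linarith) hN hP.continuous hB
        (fun y h1 h2 => (P1 y h1 h2).1)
        (fun y h1 h2 => by
          rw [(P3 y h1 h2).1, abs_mul, abs_of_nonneg (chi_nonneg _)]
          exact mul_le_of_le_one_left (abs_nonneg _) (chi_le_one _)) hk hkB hk0)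
  have hI : Real.sqrt om * Real.sqrt (exc δ D u ν c') ≤ Real.sqrt om * Real.sqrt E := by
    apply mul_le_mul_of_nonneg_left _ (Real.sqrt_nonneg _)
    apply Real.sqrt_le_sqrt
    have : 0 ≤ h ^ 5 := by positivity
    rw [hE]; linarith
  refine ⟨b0 / kap, (kap)⁻¹ • b1, ?_, ?_, ?_, ?_⟩
  · rw [inner_smul_right, hb1, mul_zero]
  · rw [abs_div, abs_of_pos hκp, div_le_iff₀ hκp]
    have h1 := hb0n.trans (mul_le_mul_of_nonneg_left hI hCk.le)
    refine h1.trans (le_of_eq ?_)
    field_simp
  · rw [norm_smul, Real.norm_eq_abs, abs_of_pos (by positivity), inv_mul_le_iff₀ hκp]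
    have h1 := hb1n.trans (mul_le_mul_of_nonneg_left hI hCk.le)
    refine h1.trans (le_of_eq ?_)
    field_simp
  intro x hx hxs
  -- the two representation formulas
  set Q := Qs (s0 / 2) (1 / 8) with hQ
  have hrx : ‖rf ν x‖ ≤ 1 / 8 := by rw [rf_norm hν]; exact hx
  have hrin : inner ℝ ν (rf ν x) = - inner ℝ ν x := rf_inner hν x
  have r1 := repr hP x hs hsT (by
    intro y hy
    rw [mem_closedBall, dist_eq_norm] at hy
    have h1 := hin (y - x)
    rw [inner_sub_right] at h1
    have h2 := (abs_le.1 (h1.trans hy)).1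
    have h3 : ‖y‖ ≤ 3 / 4 := by
      have := norm_add_le (y - x) x
      rw [sub_add_cancel] at this
      linarith
    have h4 : 2 * τ < inner ℝ ν y := by linarith
    rw [(P4 y h3 h4).2]
    exact lap_vv hc.sol ν c' (hN y h3 (by linarith)))
  have r2 := repr hP (rf ν x) hs hsT (by
    intro y hy
    rw [mem_closedBall, dist_eq_norm] at hy
    have h1 := hin (y - rf ν x)
    rw [inner_sub_right, hrin] at h1
    have h2 := (abs_le.1 (h1.trans hy)).2
    have h3 : ‖y‖ ≤ 3 / 4 := by
      have := norm_add_le (y - rf ν x) (rf ν x)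
      rw [sub_add_cancel] at this
      linarith
    exact (P1 y h3 (by linarith)).2.2)
  have hPx : P x = vv u ν c' x := (P4 x (by linarith) (by linarith)).1
  have hPrx : P (rf ν x) = 0 := (P1 (rf ν x) (by linarith) (by rw [hrin]; linarith)).1
  rw [hPx] at r1
  rw [hPrx, mul_zero] at r2
  -- the even function
  set F : V → ℝ := fun y => Q (y - x) + Q (y - rf ν x) with hF
  have hsubx : ∀ z : V, ContDiff ℝ 2 (fun y : V => y - z) := fun z => contDiff_id.sub contDiff_const
  have hQx : ∀ z : V, ContDiff ℝ 2 (fun y => Q (y - z)) := fun z => (Qs_C2 _ _).comp (hsubx z)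
  have hFs : ContDiff ℝ 2 F := (hQx x).add (hQx _)
  have hFd : ∀ y, fderiv ℝ F y = fderiv ℝ (fun y => Q (y - x)) y +
      fderiv ℝ (fun y => Q (y - rf ν x)) y := by
    intro y
    exact fderiv_fun_add ((hQx x).differentiable (by norm_num) y) ((hQx _).differentiable (by norm_num) y)
  have hQd : ∀ z y : V, fderiv ℝ (fun y => Q (y - z)) y = fderiv ℝ Q (y - z) := by
    intro z y
    exact fderiv_comp_sub z
  have hfar2 : ∀ (z : V), ‖z‖ ≤ 1 / 8 → ∀ y : V, 1 / 4 ≤ ‖y‖ → Q (y - z) = 0 := by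
    intro z hz y hy
    apply hQfar
    have := norm_sub_norm_le y z
    linarith
  have hFb : ∀ y, |F y| ≤ 2 * MQ := fun y => (abs_add_le _ _).trans (by
    have := n1 (y - x); have := n1 (y - rf ν x); linarith)
  have hFg : ∀ y, ‖fderiv ℝ F y‖ ≤ 2 * MQ := fun y => by
    rw [hFd, hQd, hQd]
    exact (norm_add_le _ _).trans (by
      have := n2 (y - x); have := n2 (y - rf ν x); linarith)
  have hFν : ∀ y, |fderiv ℝ F y ν| ≤ 2 * MQ * |inner ℝ ν y| := fun y =>
    even_ker ((Qs_C2 _ _).differentiable (by norm_num)) (fun z w hzw => Qs_radial _ _ hzw) n3 hν x y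
  have hterm := heven δ D u ν c' h τ hc hν hcl hhτ (by linarith) P F (2 * MQ) hP
    (fun y h1 h2 => (P1 y h1 h2).2.1) (fun y h1 h2 => (P3 y h1 h2).2) (hFs.of_le (by norm_num))
    (fun y hy => by
      simp only [hF]
      rw [hfar2 x hx y (by linarith), hfar2 _ hrx y (by linarith), add_zero])
    (by positivity) hFb hFg hFν
  have hgP : Continuous (gr P) := gr_continuous (hP.of_le (by norm_num))
  have hi : ∀ z : V, ‖z‖ ≤ 1 / 8 → Integrable (fun y => fderiv ℝ (fun y => Q (y - z)) y (gr P y)) := by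
    intro z hz
    have h1 : Continuous (fun y => fderiv ℝ (fun y => Q (y - z)) y (gr P y)) :=
      (((hQx z).continuous_fderiv (by norm_num))).clm_apply hgP
    apply h1.integrable_of_hasCompactSupport
    apply HasCompactSupport.intro (isCompact_closedBall (0 : V) (1 / 4))
    intro y hy
    rw [mem_closedBall, dist_zero_right, not_le] at hy
    rw [fderiv_far (hfar2 z hz) hy]; simp
  have hi2 : ∀ z : V, ‖z‖ ≤ 1 / 8 → Integrable (fun y => P y * qk (1 / 8) (y - z)) := by
    intro z hz
    have h1 : Continuous (fun y => P y * qk (1 / 8) (y - z)) :=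
      hP.continuous.mul ((qk_C2 _).continuous.comp (hsubx z).continuous)
    apply h1.integrable_of_hasCompactSupport
    apply HasCompactSupport.intro (isCompact_closedBall (0 : V) (1 / 4))
    intro y hy
    rw [mem_closedBall, dist_zero_right, not_le] at hy
    rw [qk_far (by norm_num) (by have := norm_sub_norm_le y z; linarith), mul_zero]
  have e1 : ∫ y, fderiv ℝ F y (gr P y) = (∫ y, fderiv ℝ (fun y => Q (y - x)) y (gr P y)) +
      ∫ y, fderiv ℝ (fun y => Q (y - rf ν x)) y (gr P y) := by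
    rw [← integral_add (hi x hx) (hi _ hrx)]
    congr 1
    funext y
    rw [hFd, _root_.add_apply]
  have e2 : ∫ y, P y * (qk (1 / 8) (y - x) + qk (1 / 8) (y - rf ν x)) =
      (∫ y, P y * qk (1 / 8) (y - x)) + ∫ y, P y * qk (1 / 8) (y - rf ν x) := by
    rw [← integral_add (hi2 x hx) (hi2 _ hrx)]
    congr 1
    funext y
    ring
  have hsum : kap * vv u ν c' x = (∫ y, P y * (qk (1 / 8) (y - x) + qk (1 / 8) (y - rf ν x))) +
      ∫ y, fderiv ℝ F y (gr P y) := by
    rw [e1, e2]; linarith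
  have hb := hbx x hx
  rw [inner_smul_left]
  simp only [conj_trivial]
  have e3 : vv u ν c' x - (b0 / kap + kap⁻¹ * inner ℝ b1 x) =
      (((∫ y, P y * (qk (1 / 8) (y - x) + qk (1 / 8) (y - rf ν x))) - (b0 + inner ℝ b1 x)) +
        ∫ y, fderiv ℝ F y (gr P y)) / kap := by
    rw [eq_div_iff hκp.ne', ← add_sub_right_comm, ← hsum]
    field_simp
  rw [e3, abs_div, abs_of_pos hκp, div_le_iff₀ hκp]
  refine (abs_add_le _ _).trans ?_
  have h5 : Ck * ‖x‖ ^ 2 * (Real.sqrt om * Real.sqrt (exc δ D u ν c')) ≤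
      Ck * ‖x‖ ^ 2 * (Real.sqrt om * Real.sqrt E) := mul_le_mul_of_nonneg_left hI (by positivity)
  have h6 : (Ck * Real.sqrt om / kap * ‖x‖ ^ 2 * Real.sqrt E +
      Ce * (2 * MQ) / kap * (E + Real.sqrt τ * Real.sqrt E)) * kap =
      Ck * ‖x‖ ^ 2 * (Real.sqrt om * Real.sqrt E) +
        Ce * (2 * MQ) * (E + Real.sqrt τ * Real.sqrt E) := by field_simp
  rw [h6]
  exact add_le_add (hb.trans h5) hterm

end

end Pool.Agent.D0H33.FB
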