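import Pool.Agent.D0H33.FB.A20

set_option autoImplicit false

open Set Metric Filter Topology MeasureTheory
open ExtStar (lap eta wgt)

namespace Pool.Agent.D0H33.FB

noncomputable section

lemma sq_add_le2 (x y : ℝ) : (x + y) ^ 2 ≤ 2 * x ^ 2 + 2 * y ^ 2 := by
  nlinarith [sq_nonneg (x - y)]

lemma sq_sub_le2 (x y : ℝ) : (x - y) ^ 2 ≤ 2 * x ^ 2 + 2 * y ^ 2 := by
  nlinarith [sq_nonneg (x + y)]

lemma sq_le_of_abs {x y : ℝ} (h : |x| ≤ y) : x ^ 2 ≤ y ^ 2 := by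
  rw [← sq_abs]; exact pow_le_pow_left₀ (abs_nonneg _) h 2

/-- the integral estimates in one step -/
lemma step_est {L c κ δ : ℝ} {D : Set V} {u : V → ℝ} {ν : V} {c' h Cs Cl Cg M τ s0 ρ E R : ℝ}
    (hL : 1 ≤ L) (hcfg : Cfg L c κ δ D u) (hν : ‖ν‖ = 1) (hcl : Cln h δ D u ν c')
    (hCs : 0 < Cs) (hslab : ∀ (ν : V) (a b : ℝ), ‖ν‖ = 1 → a ≤ b →
      (volume : Measure V).real {x | ‖x‖ < 1 ∧ a ≤ inner ℝ ν x ∧ inner ℝ ν x ≤ b} ≤ Cs * (b - a))
    (hCg : 0 < Cg) (hM : 0 < M) (hτ0 : 0 < τ) (hs00 : 0 < s0) (hs08 : s0 ≤ 1 / 8)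
    (hρ0 : 0 < ρ) (hρ16 : ρ ≤ 1 / 16) (hEpos : 0 < E) (hR : R = Real.sqrt E) (hhs : 2 * h ≤ s0)
    (hslE : ∫ x in NN D u ∩ (ann (3 * δ) (1 / 2) ∩ {x | inner ℝ ν x + c' < 2 * s0}),
      vv u ν c' x ^ 2 ≤ Cl * (2 * s0) * E)
    {a0 : ℝ} {a1 : V} (ha1 : inner ℝ ν a1 = 0) (ha0n : |a0| ≤ Cg * R) (ha1n : ‖a1‖ ≤ Cg * R)
    (hgx : ∀ x : V, ‖x‖ ≤ 1 / 8 → s0 ≤ inner ℝ ν x →
      |vv u ν c' x - (a0 + inner ℝ a1 x)| ≤ Cg * ‖x‖ ^ 2 * R + M * (E + Real.sqrt τ * R)) :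
    ∃ ν' : V, ‖ν'‖ = 1 ∧ ‖ν' - ν‖ ≤ Cg * R + Cg ^ 2 * E ∧
      ∫ x in NN D u ∩ ann δ ρ, vv u ν' (c' + a0) x ^ 2 ≤
      2 * ((2 * (Cl * (2 * s0) * E + (L + 2) ^ 2 * (om * (4 * δ) ^ 3)) +
      8 * Cg ^ 2 * E * (Cs * (2 * s0))) +
      (2 * Cg ^ 2 * ρ ^ 4 * E + 4 * M ^ 2 * (E ^ 2 + τ * E)) * (om * ρ ^ 3)) +
      2 * Cg ^ 4 * E ^ 2 * ρ ^ 2 * (om * ρ ^ 3) := by
  have hom := om_pos
  have hδ := hcfg.δ0
  have hh0 := hcl.h0
  have hR0 : 0 ≤ R := by rw [hR]; exact Real.sqrt_nonneg _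
  have hR2 : R ^ 2 = E := by rw [hR]; exact Real.sq_sqrt hEpos.le
  have hin : ∀ x : V, |inner ℝ ν x| ≤ ‖x‖ := fun x => by
    have := abs_real_inner_le_norm ν x
    rwa [hν, one_mul] at this
  -- the new direction
  set w := ν + a1 with hw
  have hw2 : ‖w‖ ^ 2 = 1 + ‖a1‖ ^ 2 := by
    rw [hw, norm_add_sq_real, hν, ha1]; ring
  have hw1 : 1 ≤ ‖w‖ := by
    by_contra hn
    push Not at hn
    have : ‖w‖ ^ 2 < 1 := by
      have := norm_nonneg w
      nlinarith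
    nlinarith [sq_nonneg ‖a1‖]
  have hw0 : 0 < ‖w‖ := by linarith
  have hwE : ‖w‖ - 1 ≤ Cg ^ 2 * E := by
    have h1 : ‖a1‖ ^ 2 ≤ (Cg * R) ^ 2 := pow_le_pow_left₀ (norm_nonneg _) ha1n 2
    have h2 : (‖w‖ - 1) * 1 ≤ (‖w‖ - 1) * (‖w‖ + 1) :=
      mul_le_mul_of_nonneg_left (by linarith) (by linarith)
    have h3 : (Cg * R) ^ 2 = Cg ^ 2 * E := by rw [mul_pow, hR2]
    nlinarith only [h1, h2, h3, hw2]
  set ν' := ‖w‖⁻¹ • w with hν'
  have hν'n : ‖ν'‖ = 1 := by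
    rw [hν', norm_smul, Real.norm_eq_abs, abs_of_pos (by positivity), inv_mul_cancel₀ hw0.ne']
  have hwν' : ‖w - ν'‖ ≤ Cg ^ 2 * E := by
    have h1 : w - ν' = (1 - ‖w‖⁻¹) • w := by rw [hν']; module
    have h2 : 0 ≤ 1 - ‖w‖⁻¹ := by
      have : ‖w‖⁻¹ ≤ 1 := inv_le_one_of_one_le₀ hw1
      linarith
    rw [h1, norm_smul, Real.norm_eq_abs, abs_of_nonneg h2, sub_mul, inv_mul_cancel₀ hw0.ne', one_mul]
    exact hwE
  refine ⟨ν', hν'n, ?_, ?_⟩
  · have h1 : ν' - ν = a1 - (w - ν') := by rw [hw]; abel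
    rw [h1]
    refine (norm_sub_le _ _).trans ?_
    linarith only [ha1n, hwν']
  -- the main integral
  set S := NN D u ∩ ann δ ρ with hS
  have hlinm : Continuous (fun y : V => inner ℝ ν y) := by fun_prop
  have hSm : MeasurableSet S := hcfg.sol.meas_NN.inter (ann_meas _ _)
  have hSsub : S ⊆ NN D u ∩ ann δ 1 := fun y hy => ⟨hy.1, hy.2.1, by linarith [hy.2.2]⟩
  have hSfin : volume S < ⊤ := (measure_mono inter_subset_right).trans_lt (ann_fin _ _)
  have hSvol : (volume : Measure V).real S ≤ om * ρ ^ 3 :=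
    (measureReal_mono inter_subset_right (ann_fin _ _).ne).trans (ann_vol hρ0.le)
  set p : V → ℝ := fun x => a0 + inner ℝ a1 x with hp
  have hpc : Continuous p := by fun_prop
  have hpb : ∀ x ∈ ann δ 1, |p x| ≤ 2 * Cg * R := by
    intro x hx
    simp only [hp]
    have h1 := abs_real_inner_le_norm a1 x
    have h2 : ‖a1‖ * ‖x‖ ≤ Cg * R * 1 := mul_le_mul ha1n hx.2.le (norm_nonneg _) (by positivity)
    exact (abs_add_le _ _).trans (by linarith)
  have hvvc : ContinuousOn (vv u ν c') (NN D u) := (vv_cont hcfg.sol ν c').mono fun x hx => hx.1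
  have iD : IntegrableOn (fun x => (vv u ν c' x - p x) ^ 2) (NN D u ∩ ann δ 1) := by
    apply hcfg.sol.int_bdd (ann_meas _ _) (ann_fin _ _) ((hvvc.sub hpc.continuousOn).pow 2)
      (C := (L + 1 + |c'| + 2 * Cg * R) ^ 2)
    intro x hx hxa
    show |(vv u ν c' x - p x) ^ 2| ≤ (L + 1 + |c'| + 2 * Cg * R) ^ 2
    rw [abs_of_nonneg (sq_nonneg _), ← sq_abs]
    apply pow_le_pow_left₀ (abs_nonneg _)
    refine (abs_sub _ _).trans (add_le_add (hcfg.vv_bd1 (by linarith) hν hxa) (hpb x hxa))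
  have iN : IntegrableOn (fun x => vv u ν' (c' + a0) x ^ 2) (NN D u ∩ ann δ 1) :=
    hcfg.exc_int (by linarith) hν'n
  have iv := hcfg.exc_int (c' := c') (by linarith) hν
  -- step 1: reduce to the difference with `p`
  have st1 : ∫ x in S, vv u ν' (c' + a0) x ^ 2 ≤ 2 * (∫ x in S, (vv u ν c' x - p x) ^ 2) +
      2 * Cg ^ 4 * E ^ 2 * ρ ^ 2 * (om * ρ ^ 3) := by
    have i0 : IntegrableOn (fun _ : V => 2 * Cg ^ 4 * E ^ 2 * ρ ^ 2) S :=
      integrableOn_const (hs := hSfin.ne)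
    have i1 : IntegrableOn (fun x => 2 * (vv u ν c' x - p x) ^ 2) S :=
      (iD.mono_set hSsub).const_mul 2
    calc ∫ x in S, vv u ν' (c' + a0) x ^ 2
        ≤ ∫ x in S, (2 * (vv u ν c' x - p x) ^ 2 + 2 * Cg ^ 4 * E ^ 2 * ρ ^ 2) := by
          apply setIntegral_mono_on (iN.mono_set hSsub) (i1.add i0) hSm
          intro x hx
          have h1 : vv u ν' (c' + a0) x = (vv u ν c' x - p x) + inner ℝ (w - ν') x := by
            unfold vv
            simp only [hp, hw]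
            rw [inner_sub_left, inner_add_left]
            ring
          rw [h1]
          have h2 : |inner ℝ (w - ν') x| ≤ Cg ^ 2 * E * ρ :=
            (abs_real_inner_le_norm _ _).trans (mul_le_mul hwν' hx.2.2.le (norm_nonneg _) (by positivity))
          have h3 : (inner ℝ (w - ν') x) ^ 2 ≤ (Cg ^ 2 * E * ρ) ^ 2 := sq_le_of_abs h2
          have h4 := sq_add_le2 (vv u ν c' x - p x) (inner ℝ (w - ν') x)
          show ((vv u ν c' x - p x) + inner ℝ (w - ν') x) ^ 2 ≤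
            2 * (vv u ν c' x - p x) ^ 2 + 2 * Cg ^ 4 * E ^ 2 * ρ ^ 2
          have h5 : (Cg ^ 2 * E * ρ) ^ 2 = Cg ^ 4 * E ^ 2 * ρ ^ 2 := by ring
          linarith only [h4, h3, h5]
      _ = 2 * (∫ x in S, (vv u ν c' x - p x) ^ 2) +
          (volume : Measure V).real S * (2 * Cg ^ 4 * E ^ 2 * ρ ^ 2) := by
          rw [integral_add i1 i0, integral_const_mul, setIntegral_const, smul_eq_mul]
      _ ≤ _ := by
          have : (volume : Measure V).real S * (2 * Cg ^ 4 * E ^ 2 * ρ ^ 2) ≤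
              om * ρ ^ 3 * (2 * Cg ^ 4 * E ^ 2 * ρ ^ 2) :=
            mul_le_mul_of_nonneg_right hSvol (by positivity)
          linarith only [this]
  -- step 2: split into good and bad part
  set W : Set V := {x | inner ℝ ν x < s0} with hW
  have hWm : MeasurableSet W := (isOpen_lt hlinm continuous_const).measurableSet
  have st2 : ∫ x in S, (vv u ν c' x - p x) ^ 2 =
      (∫ x in S ∩ W, (vv u ν c' x - p x) ^ 2) + ∫ x in S \ W, (vv u ν c' x - p x) ^ 2 :=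
    (integral_inter_add_sdiff hWm (iD.mono_set hSsub)).symm
  have st3 : ∫ x in S \ W, (vv u ν c' x - p x) ^ 2 ≤
      (2 * Cg ^ 2 * ρ ^ 4 * E + 4 * M ^ 2 * (E ^ 2 + τ * E)) * (om * ρ ^ 3) := by
    have hSWm : MeasurableSet (S \ W) := hSm.diff hWm
    have hSWf : volume (S \ W) < ⊤ := (measure_mono sdiff_subset).trans_lt hSfin
    have i0 : IntegrableOn (fun _ : V => 2 * Cg ^ 2 * ρ ^ 4 * E + 4 * M ^ 2 * (E ^ 2 + τ * E))
      (S \ W) := integrableOn_const (hs := hSWf.ne)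
    calc ∫ x in S \ W, (vv u ν c' x - p x) ^ 2
        ≤ ∫ x in S \ W, (2 * Cg ^ 2 * ρ ^ 4 * E + 4 * M ^ 2 * (E ^ 2 + τ * E)) := by
          apply setIntegral_mono_on (iD.mono_set (sdiff_subset.trans hSsub)) i0 hSWm
          intro x hx
          have hxs : s0 ≤ inner ℝ ν x := not_lt.1 hx.2
          have hxρ : ‖x‖ ≤ ρ := hx.1.2.2.le
          have h1 := hgx x (by linarith only [hxρ, hρ16]) hxs
          have h2 : Cg * ‖x‖ ^ 2 * R ≤ Cg * ρ ^ 2 * R := by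
            have : ‖x‖ ^ 2 ≤ ρ ^ 2 := pow_le_pow_left₀ (norm_nonneg _) hxρ 2
            gcongr
          have h3 : |vv u ν c' x - p x| ≤ Cg * ρ ^ 2 * R + M * (E + Real.sqrt τ * R) := by
            simp only [hp]; linarith only [h1, h2]
          have h4 := sq_le_of_abs h3
          have h5 := sq_add_le2 (Cg * ρ ^ 2 * R) (M * (E + Real.sqrt τ * R))
          have h6 : (Cg * ρ ^ 2 * R) ^ 2 = Cg ^ 2 * ρ ^ 4 * E := by rw [← hR2]; ring
          have h7 : (M * (E + Real.sqrt τ * R)) ^ 2 ≤ 2 * M ^ 2 * (E ^ 2 + τ * E) := by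
            have e1 : (Real.sqrt τ * R) ^ 2 = τ * E := by
              rw [mul_pow, Real.sq_sqrt hτ0.le, hR2]
            have e2 := sq_add_le2 E (Real.sqrt τ * R)
            rw [mul_pow]
            rw [e1] at e2
            have e3 := mul_le_mul_of_nonneg_left e2 (sq_nonneg M)
            linarith only [e3]
          linarith only [h4, h5, h6, h7]
      _ = (volume : Measure V).real (S \ W) *
          (2 * Cg ^ 2 * ρ ^ 4 * E + 4 * M ^ 2 * (E ^ 2 + τ * E)) := by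
          rw [setIntegral_const, smul_eq_mul]
      _ ≤ (om * ρ ^ 3) * (2 * Cg ^ 2 * ρ ^ 4 * E + 4 * M ^ 2 * (E ^ 2 + τ * E)) := by
          apply mul_le_mul_of_nonneg_right _ (by positivity)
          exact (measureReal_mono sdiff_subset hSfin.ne).trans hSvol
      _ = _ := by ring
  -- the bad part
  have hSWm : MeasurableSet (S ∩ W) := hSm.inter hWm
  have hSWs : S ∩ W ⊆ NN D u ∩ ann δ 1 := inter_subset_left.trans hSsub
  have hSWf : volume (S ∩ W) < ⊤ := (measure_mono inter_subset_left).trans_lt hSfin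
  have hSWv : (volume : Measure V).real (S ∩ W) ≤ Cs * (2 * s0) := by
    have h1 := Cfg.slabN hCs hslab hν hcl (t := s0) hs00.le
    have h2 : S ∩ W ⊆ NN D u ∩ (ann δ (3 / 4) ∩ {y | inner ℝ ν y < s0}) := by
      intro x hx
      exact ⟨hx.1.1, ⟨hx.1.2.1, by linarith [hx.1.2.2]⟩, hx.2⟩
    have h3 : volume (NN D u ∩ (ann δ (3 / 4) ∩ {y | inner ℝ ν y < s0})) ≠ ⊤ :=
      ((measure_mono (inter_subset_right.trans inter_subset_left)).trans_lt (ann_fin _ _)).ne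
    refine (measureReal_mono h2 h3).trans (h1.trans ?_)
    apply mul_le_mul_of_nonneg_left _ hCs.le
    linarith
  have st4 : ∫ x in S ∩ W, (vv u ν c' x - p x) ^ 2 ≤ 2 * (∫ x in S ∩ W, vv u ν c' x ^ 2) +
      8 * Cg ^ 2 * E * (Cs * (2 * s0)) := by
    have i0 : IntegrableOn (fun _ : V => 8 * Cg ^ 2 * E) (S ∩ W) :=
      integrableOn_const (hs := hSWf.ne)
    have i1 : IntegrableOn (fun x => 2 * vv u ν c' x ^ 2) (S ∩ W) := (iv.mono_set hSWs).const_mul 2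
    calc ∫ x in S ∩ W, (vv u ν c' x - p x) ^ 2
        ≤ ∫ x in S ∩ W, (2 * vv u ν c' x ^ 2 + 8 * Cg ^ 2 * E) := by
          apply setIntegral_mono_on (iD.mono_set hSWs) (i1.add i0) hSWm
          intro x hx
          have h1 : (p x) ^ 2 ≤ (2 * Cg * R) ^ 2 := sq_le_of_abs (hpb x (hSWs hx).2)
          have h2 : (2 * Cg * R) ^ 2 = 4 * Cg ^ 2 * E := by rw [← hR2]; ring
          have h3 := sq_sub_le2 (vv u ν c' x) (p x)
          show (vv u ν c' x - p x) ^ 2 ≤ 2 * vv u ν c' x ^ 2 + 8 * Cg ^ 2 * E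
          linarith only [h1, h2, h3]
      _ = 2 * (∫ x in S ∩ W, vv u ν c' x ^ 2) +
          (volume : Measure V).real (S ∩ W) * (8 * Cg ^ 2 * E) := by
          rw [integral_add i1 i0, integral_const_mul, setIntegral_const, smul_eq_mul]
      _ ≤ _ := by
          have : (volume : Measure V).real (S ∩ W) * (8 * Cg ^ 2 * E) ≤
              Cs * (2 * s0) * (8 * Cg ^ 2 * E) :=
            mul_le_mul_of_nonneg_right hSWv (by positivity)
          linarith only [this]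
  -- v^2 in the bad part
  set X : Set V := {x | 3 * δ < ‖x‖} with hX
  have hXm : MeasurableSet X := (isOpen_lt continuous_const continuous_norm).measurableSet
  have st5 : ∫ x in S ∩ W, vv u ν c' x ^ 2 ≤ Cl * (2 * s0) * E + (L + 2) ^ 2 * (om * (4 * δ) ^ 3) := by
    rw [← integral_inter_add_sdiff hXm (iv.mono_set hSWs)]
    apply add_le_add
    · refine le_trans ?_ hslE
      apply setIntegral_mono_set (iv.mono_set ?_)
      · filter_upwards with x
        positivity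
      · apply HasSubset.Subset.eventuallyLE
        intro x hx
        have hc4 := (abs_le.1 hcl.hc).2
        have h1 : inner ℝ ν x < s0 := hx.1.2
        have h2 : ‖x‖ < ρ := hx.1.1.2.2
        exact ⟨hx.1.1.1, ⟨hx.2, by linarith⟩, by show inner ℝ ν x + c' < 2 * s0; linarith⟩
      · intro x hx
        have h1 : 3 * δ < ‖x‖ := hx.2.1.1
        have h2 : ‖x‖ < 1 / 2 := hx.2.1.2
        exact ⟨hx.1, by linarith, by linarith⟩
    · have hsub4 : (S ∩ W) \ X ⊆ NN D u ∩ ann δ (4 * δ) := by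
        intro x hx
        have h1 : ¬ (3 * δ < ‖x‖) := hx.2
        push Not at h1
        exact ⟨hx.1.1.1, hx.1.1.2.1, by linarith⟩
      have hf4 : volume ((S ∩ W) \ X) < ⊤ := (measure_mono sdiff_subset).trans_lt hSWf
      have i0 : IntegrableOn (fun _ : V => (L + 2) ^ 2) ((S ∩ W) \ X) :=
        integrableOn_const (hs := hf4.ne)
      calc ∫ x in (S ∩ W) \ X, vv u ν c' x ^ 2 ≤ ∫ x in (S ∩ W) \ X, (L + 2) ^ 2 := by
            apply setIntegral_mono_on (iv.mono_set (sdiff_subset.trans hSWs)) i0 (hSWm.diff hXm)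
            intro x hx
            rw [← sq_abs]
            apply pow_le_pow_left₀ (abs_nonneg _)
            have h1 := hcfg.vv_bd1 (c' := c') (by linarith) hν (hSWs hx.1).2
            have h2 := hcl.hc
            have h3 := hcl.hs
            linarith
        _ = (volume : Measure V).real ((S ∩ W) \ X) * (L + 2) ^ 2 := by
            rw [setIntegral_const, smul_eq_mul]
        _ ≤ (om * (4 * δ) ^ 3) * (L + 2) ^ 2 := by
            apply mul_le_mul_of_nonneg_right _ (by positivity)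
            refine (measureReal_mono (hsub4.trans inter_subset_right) (ann_fin _ _).ne).trans ?_
            exact ann_vol (by positivity)
        _ = _ := by ring
  rw [st2] at st1
  linarith only [st1, st3, st4, st5]

/-- one improvement step -/
theorem one_step (L c κ : ℝ) (hL : 1 ≤ L) (hc : 0 < c) (hκ : 1 ≤ κ) : ∃ ρ ε C : ℝ,
    0 < ρ ∧ ρ ≤ 1 / 16 ∧ 0 < ε ∧ 0 < C ∧
    ∀ (δ : ℝ) (D : Set V) (u : V → ℝ) (ν : V) (c' : ℝ), Cfg L c κ δ D u → ‖ν‖ = 1 →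
      exc δ D u ν c' + δ ≤ ε → ∃ (ν' : V) (c'' : ℝ), ‖ν'‖ = 1 ∧
        ‖ν' - ν‖ ≤ C * Real.sqrt (exc δ D u ν c' + δ) ∧
        |c'' - c'| ≤ C * Real.sqrt (exc δ D u ν c' + δ) ∧
        ∫ x in NN D u ∩ ann δ ρ, vv u ν' c'' x ^ 2 ≤ 1 / 4 * ρ ^ 5 * (exc δ D u ν c' + δ) := by
  obtain ⟨M0, hM0, hclean⟩ := clean_all L c κ hL hc hκ
  obtain ⟨Cs, hCs, hslab⟩ := slab_vol
  obtain ⟨Cl, hCl, hsl⟩ := slabL2 L c κ hL
  obtain ⟨Cg, hCg, hgood⟩ := good_approx L c κ hL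
  have hom := om_pos
  -- the choice of ρ
  set A := 4 * Cg ^ 2 * om * (1 + M0) with hA
  have hA0 : 0 < A := by positivity
  set ρ := min (1 / 16) (1 / (24 * (A + 1))) with hρ
  have hρ0 : 0 < ρ := by positivity
  have hρ16 : ρ ≤ 1 / 16 := min_le_left _ _
  have hρA : A * ρ ^ 2 ≤ 1 / 24 := by
    have h1 : ρ ≤ 1 / (24 * (A + 1)) := min_le_right _ _
    rw [le_div_iff₀ (by positivity)] at h1
    have h2 : ρ ^ 2 ≤ ρ := by nlinarith
    nlinarith
  -- the choice of s0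
  set B := (8 * Cl + 32 * Cg ^ 2 * Cs) * (1 + M0) with hB
  have hB0 : 0 < B := by positivity
  set s0 := min (1 / 8) (ρ ^ 5 / (24 * B)) with hs0
  have hs00 : 0 < s0 := by positivity
  have hs08 : s0 ≤ 1 / 8 := min_le_left _ _
  have hsB : B * s0 ≤ ρ ^ 5 / 24 := by
    have h1 : s0 ≤ ρ ^ 5 / (24 * B) := min_le_right _ _
    rw [le_div_iff₀ (by positivity)] at h1
    linarith
  obtain ⟨M, hM, hgoodM⟩ := hgood s0 hs00 hs08
  -- the choice of τ
  set F := 8 * om * M ^ 2 * (1 + M0) with hF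
  have hF0 : 0 < F := by positivity
  set τ := min (s0 / 8) (ρ ^ 2 / (24 * F)) with hτ
  have hτ0 : 0 < τ := by positivity
  have hτs : 8 * τ ≤ s0 := by
    have : τ ≤ s0 / 8 := min_le_left _ _
    linarith
  have hτF : F * τ ≤ ρ ^ 2 / 24 := by
    have h1 : τ ≤ ρ ^ 2 / (24 * F) := min_le_right _ _
    rw [le_div_iff₀ (by positivity)] at h1
    linarith
  obtain ⟨ε1, hε1, hcl1⟩ := hclean (τ / 4) (by positivity)
  -- smallness of the excess
  set G := 8 * om * M ^ 2 * (1 + M0) ^ 2 with hG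
  set H := 256 * om * (L + 2) ^ 2 with hH
  set J := 2 * Cg ^ 4 * om * (1 + M0) ^ 2 with hJ
  have hG0 : 0 < G := by positivity
  have hH0 : 0 < H := by positivity
  have hJ0 : 0 < J := by positivity
  set ε := min (min ε1 1) (min (ρ ^ 2 / (24 * G)) (min (ρ ^ 5 / (24 * H)) (1 / (24 * J)))) with hε
  have hε0 : 0 < ε := by positivity
  refine ⟨ρ, ε, (Cg ^ 2 * (1 + M0) + Cg * Real.sqrt (1 + M0)), hρ0, hρ16, hε0, by positivity, ?_⟩
  intro δ D u ν c' hcfg hν hE0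
  have hexc := exc_nonneg δ D u ν c'
  have hδ := hcfg.δ0
  obtain ⟨h, hh5, hhτ, hcl⟩ := hcl1 δ D u ν c' hcfg hν (hE0.trans ((min_le_left _ _).trans (min_le_left _ _)))
  set E0 := exc δ D u ν c' + δ with hE0def
  have hE0pos : 0 < E0 := by positivity
  have hE1 : E0 ≤ 1 := hE0.trans ((min_le_left _ _).trans (min_le_right _ _))
  have hEG : G * E0 ≤ ρ ^ 2 / 24 := by
    have h1 : E0 ≤ ρ ^ 2 / (24 * G) := hE0.trans ((min_le_right _ _).trans (min_le_left _ _))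
    rw [le_div_iff₀ (by positivity)] at h1
    linarith
  have hEH : H * E0 ≤ ρ ^ 5 / 24 := by
    have h1 : E0 ≤ ρ ^ 5 / (24 * H) :=
      hE0.trans ((min_le_right _ _).trans ((min_le_right _ _).trans (min_le_left _ _)))
    rw [le_div_iff₀ (by positivity)] at h1
    linarith
  have hEJ : J * E0 ≤ 1 / 24 := by
    have h1 : E0 ≤ 1 / (24 * J) :=
      hE0.trans ((min_le_right _ _).trans ((min_le_right _ _).trans (min_le_right _ _)))
    rw [le_div_iff₀ (by positivity)] at h1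
    linarith
  have hδE : δ ≤ E0 := by linarith
  have hh0 := hcl.h0
  have hEeq : exc δ D u ν c' + δ + h ^ 5 = (1 + M0) * E0 := by rw [hh5]; ring
  obtain ⟨a0, a1, ha1, ha0n, ha1n, hgx⟩ := hgoodM δ D u ν c' h τ hcfg hν hcl (by linarith) hτs
  have hslE := hsl δ D u ν c' h (2 * s0) hcfg hν hcl (by linarith) (by linarith)
  rw [hEeq] at ha0n ha1n hgx hslE
  set E := (1 + M0) * E0 with hEdef
  have hEpos : 0 < E := by positivity
  obtain ⟨ν', hν'n, hν'ν, hint⟩ := step_est (R := Real.sqrt E) hL hcfg hν hcl hCs hslab hCg hM hτ0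
    hs00 hs08 hρ0 hρ16 hEpos rfl (by linarith) hslE ha1 ha0n ha1n hgx
  have hRE : Real.sqrt E = Real.sqrt (1 + M0) * Real.sqrt E0 := by
    rw [hEdef, Real.sqrt_mul (by linarith)]
  have hE0s : E0 ≤ Real.sqrt E0 := by
    have h1 := Real.sq_sqrt hE0pos.le
    have h2 : Real.sqrt E0 ≤ 1 := Real.sqrt_le_one.2 hE1
    have h3 := Real.sqrt_nonneg E0
    nlinarith only [h1, h2, h3]
  rw [hRE] at hν'ν ha0n
  refine ⟨ν', c' + a0, hν'n, ?_, ?_, ?_⟩
  · have h2 : Cg ^ 2 * E ≤ Cg ^ 2 * (1 + M0) * Real.sqrt E0 := by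
      rw [hEdef]
      have : Cg ^ 2 * (1 + M0) * E0 ≤ Cg ^ 2 * (1 + M0) * Real.sqrt E0 :=
        mul_le_mul_of_nonneg_left hE0s (by positivity)
      linarith only [this]
    linarith only [h2, hν'ν]
  · rw [add_sub_cancel_left]
    have : 0 ≤ Cg ^ 2 * (1 + M0) * Real.sqrt E0 := by positivity
    linarith only [this, ha0n]
  -- final computation
  have k1 : A * ρ ^ 2 * (ρ ^ 5 * E0) ≤ 1 / 24 * (ρ ^ 5 * E0) :=
    mul_le_mul_of_nonneg_right hρA (by positivity)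
  have k2 : B * s0 * E0 ≤ ρ ^ 5 / 24 * E0 := mul_le_mul_of_nonneg_right hsB hE0pos.le
  have k3 : F * τ * (ρ ^ 3 * E0) ≤ ρ ^ 2 / 24 * (ρ ^ 3 * E0) :=
    mul_le_mul_of_nonneg_right hτF (by positivity)
  have k4 : G * E0 * (ρ ^ 3 * E0) ≤ ρ ^ 2 / 24 * (ρ ^ 3 * E0) :=
    mul_le_mul_of_nonneg_right hEG (by positivity)
  have k5 : H * δ ^ 3 ≤ ρ ^ 5 / 24 * E0 := by
    have h1 : δ ^ 3 ≤ E0 * E0 := by
      have hd1 : δ ≤ 1 := by linarith only [hδE, hE1]
      have h2 : δ ^ 3 = δ * (δ * δ) := by ring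
      rw [h2]
      calc δ * (δ * δ) ≤ 1 * (E0 * E0) := by gcongr
        _ = _ := one_mul _
    calc H * δ ^ 3 ≤ H * (E0 * E0) := mul_le_mul_of_nonneg_left h1 hH0.le
      _ = H * E0 * E0 := by ring
      _ ≤ _ := mul_le_mul_of_nonneg_right hEH hE0pos.le
  have k6 : J * E0 * (ρ ^ 5 * E0) ≤ 1 / 24 * (ρ ^ 5 * E0) :=
    mul_le_mul_of_nonneg_right hEJ (by positivity)
  have fin : 2 * ((2 * (Cl * (2 * s0) * E + (L + 2) ^ 2 * (om * (4 * δ) ^ 3)) +
      8 * Cg ^ 2 * E * (Cs * (2 * s0))) +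
      (2 * Cg ^ 2 * ρ ^ 4 * E + 4 * M ^ 2 * (E ^ 2 + τ * E)) * (om * ρ ^ 3)) +
      2 * Cg ^ 4 * E ^ 2 * ρ ^ 2 * (om * ρ ^ 3) =
      A * ρ ^ 2 * (ρ ^ 5 * E0) + B * s0 * E0 + F * τ * (ρ ^ 3 * E0) + G * E0 * (ρ ^ 3 * E0) +
        H * δ ^ 3 + J * E0 * (ρ ^ 5 * E0) := by
    rw [hA, hB, hF, hG, hH, hJ, hEdef]
    ring
  rw [fin] at hint
  refine hint.trans ?_
  have e : ρ ^ 2 / 24 * (ρ ^ 3 * E0) = 1 / 24 * (ρ ^ 5 * E0) := by ring
  rw [e] at k3 k4
  linarith only [k1, k2, k3, k4, k5, k6]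

end

end Pool.Agent.D0H33.FB
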