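import Pool.Agent.D0H33.FB.A08
import Pool.Agent.H631.ES.X04
import Pool.Agent.H631.ES.X12

set_option autoImplicit false

open Set Metric Filter Topology MeasureTheory
open ExtStar (lap eta wgt)

namespace Pool.Agent.D0H33.FB

noncomputable section

variable {D : Set V} {u : V → ℝ}

/-- rescaled function -/
def scl (y : V) (r : ℝ) (u : V → ℝ) (x : V) : ℝ := u (y + r • x) / r

/-- rescaled domain -/
def sclD (y : V) (r : ℝ) (D : Set V) : Set V := {x | y + r • x ∈ D}

/-- the affine homeomorphism -/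
def hom (y : V) {r : ℝ} (hr : r ≠ 0) : V ≃ₜ V := (Homeomorph.smulOfNeZero r hr).trans (Homeomorph.addLeft y)

lemma hom_apply (y : V) {r : ℝ} (hr : r ≠ 0) (x : V) : hom y hr x = y + r • x := rfl

lemma NN_scl (y : V) {r : ℝ} (hr : 0 < r) : NN (sclD y r D) (scl y r u) = {x | y + r • x ∈ NN D u} := by
  ext x
  constructor
  · rintro ⟨h1, h2⟩
    refine ⟨h1, ?_⟩
    unfold scl at h2
    exact (div_pos_iff_of_pos_right hr).1 h2
  · rintro ⟨h1, h2⟩
    refine ⟨h1, ?_⟩
    unfold scl
    exact div_pos h2 hr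

lemma FF_scl (y : V) {r : ℝ} (hr : 0 < r) : FF (sclD y r D) (scl y r u) = {x | y + r • x ∈ FF D u} := by
  unfold FF
  rw [NN_scl y hr]
  have h1 : {x | y + r • x ∈ NN D u} = (hom y hr.ne') ⁻¹' (NN D u) := rfl
  have h2 : frontier ((hom y hr.ne') ⁻¹' (NN D u)) = (hom y hr.ne') ⁻¹' (frontier (NN D u)) :=
    ((hom y hr.ne').preimage_frontier _).symm
  rw [h1, h2]
  rfl

lemma aff_smooth (y : V) (r : ℝ) {n : WithTop ℕ∞} : ContDiff ℝ n (fun x : V => y + r • x) :=
  contDiff_const.add (contDiff_const_smul r)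

lemma aff_fderiv (y : V) (r : ℝ) (x : V) :
    HasFDerivAt (fun x : V => y + r • x) (r • ContinuousLinearMap.id ℝ V) x :=
  ((hasFDerivAt_id x).const_smul r).const_add y

lemma scl_fderiv (y : V) {r : ℝ} (hr : 0 < r) {G : V → ℝ} {x : V}
    (hG : DifferentiableAt ℝ G (y + r • x)) : fderiv ℝ (scl y r G) x = fderiv ℝ G (y + r • x) := by
  have h1 : HasFDerivAt (scl y r G) (r⁻¹ • ((fderiv ℝ G (y + r • x)).comp
      (r • ContinuousLinearMap.id ℝ V))) x := by
    have := (HasFDerivAt.comp x hG.hasFDerivAt (aff_fderiv y r x)).const_mul r⁻¹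
    refine this.congr_of_eventuallyEq ?_
    filter_upwards with z
    unfold scl
    simp only [Function.comp]
    rw [div_eq_inv_mul]
  rw [h1.fderiv]
  ext w
  simp only [_root_.smul_apply, ContinuousLinearMap.comp_apply, ContinuousLinearMap.id_apply,
    map_smul, smul_eq_mul]
  field_simp

lemma Sol.scale (h : Sol D u) (y : V) {r : ℝ} (hr : 0 < r) : Sol (sclD y r D) (scl y r u) where
  op := h.op.preimage (aff_smooth y r (n := 0)).continuous
  cont := by
    have h1 : ContinuousOn (fun x : V => u (y + r • x)) (sclD y r D) :=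
      h.cont.comp (aff_smooth y r (n := 0)).continuous.continuousOn (fun x hx => hx)
    exact h1.div_const r
  nonneg := fun x hx => div_nonneg (h.nonneg _ hx) hr.le
  smooth := by
    rw [NN_scl y hr]
    have h1 : ContDiffOn ℝ 2 (fun x : V => u (y + r • x)) {x | y + r • x ∈ NN D u} :=
      h.smooth.comp (aff_smooth y r).contDiffOn (fun x hx => hx)
    exact h1.div_const r
  harm := by
    intro x hx
    rw [NN_scl y hr] at hx
    have hx' : y + r • x ∈ NN D u := hx
    have c1 : ContDiffAt ℝ 2 (fun z : V => u (y + z)) (r • x) := by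
      have : ContDiffAt ℝ 2 u (y + r • x) := h.contDiffAt hx'
      exact this.comp (r • x) (contDiff_const.add contDiff_id).contDiffAt
    have c2 : ContDiffAt ℝ 2 (fun x : V => u (y + r • x)) x :=
      (h.contDiffAt hx').comp x (aff_smooth y r).contDiffAt
    have e1 : lap (fun x : V => u (y + r • x)) x = 0 := by
      have h1 := ExtStar.lap_scale r (fun z : V => u (y + z)) x c1
      have h2 := ExtStar.lap_transl' u y (r • x)
      have h3 : lap (fun x : V => u (y + r • x)) x = r ^ 2 * lap u (y + r • x) := by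
        rw [← h2]; exact h1
      rw [h3, h.harm _ hx', mul_zero]
    have e2 : lap (scl y r u) x = r⁻¹ * lap (fun x : V => u (y + r • x)) x := by
      have : scl y r u = fun x => r⁻¹ * u (y + r • x) := by
        funext z; unfold scl; rw [div_eq_inv_mul]
      rw [this]
      exact ExtStar.lap_smul r⁻¹ (fun x : V => u (y + r • x)) x c2
    rw [e2, e1, mul_zero]
  bdry := by
    intro p hp
    rw [FF_scl y hr] at hp
    obtain ⟨G, hG1, hG0, hGn, hG⟩ := h.bdry _ hp
    have hd : DifferentiableAt ℝ G (y + r • p) := hG1.differentiableAt (by norm_num)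
    refine ⟨scl y r G, ?_, ?_, ?_, ?_⟩
    · have : ContDiffAt ℝ 1 (fun x : V => G (y + r • x)) p :=
        hG1.comp p (aff_smooth y r).contDiffAt
      exact this.div_const r
    · unfold scl; rw [hG0, zero_div]
    · rw [scl_fderiv y hr hd]; exact hGn
    · have hc : Tendsto (fun x : V => y + r • x) (𝓝 p) (𝓝 (y + r • p)) :=
        (aff_smooth y r (n := 0)).continuous.tendsto p
      filter_upwards [hc.eventually hG] with x hx
      unfold scl
      refine ⟨?_, ?_⟩
      · rw [div_pos_iff_of_pos_right hr, div_pos_iff_of_pos_right hr]; exact hx.1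
      · intro h0
        rw [div_pos_iff_of_pos_right hr] at h0
        rw [hx.2 h0]

lemma gr_scl (h : Sol D u) (y : V) {r : ℝ} (hr : 0 < r) {x : V} (hx : y + r • x ∈ NN D u) :
    gr (scl y r u) x = gr u (y + r • x) := by
  unfold gr
  rw [scl_fderiv y hr (h.diffAt hx)]

/-- volume of rescaled sets -/
lemma vol_scl (y : V) {r : ℝ} (hr : 0 < r) (S : Set V) :
    (volume : Measure V).real {x | y + r • x ∈ S} = (r ^ 3)⁻¹ * (volume : Measure V).real S := by
  have h1 : {x : V | y + r • x ∈ S} = (fun x : V => r • x) ⁻¹' ((fun x => y + x) ⁻¹' S) := rfl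
  unfold Measure.real
  rw [h1, Measure.addHaar_preimage_smul (volume : Measure V) hr.ne', measure_preimage_add,
    ENNReal.toReal_mul, ENNReal.toReal_ofReal (abs_nonneg _)]
  have hfr : Module.finrank ℝ V = 3 := finrank_euclideanSpace_fin
  rw [hfr, abs_of_pos (by positivity)]

/-- integrals of rescaled functions -/
lemma int_scl (y : V) {r : ℝ} (hr : 0 < r) {S : Set V} (hS : MeasurableSet S) (f : V → ℝ) :
    ∫ x in {x | y + r • x ∈ S}, f (y + r • x) = (r ^ 3)⁻¹ * ∫ x in S, f x := by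
  have hm : MeasurableSet {x : V | y + r • x ∈ S} :=
    (aff_smooth y r (n := 0)).continuous.measurable hS
  rw [← integral_indicator hm, ← integral_indicator hS]
  have h1 : ({x | y + r • x ∈ S} : Set V).indicator (fun x => f (y + r • x)) =
      fun x => S.indicator f (y + r • x) := by
    funext x
    by_cases hx : y + r • x ∈ S
    · rw [indicator_of_mem (by exact hx : x ∈ {x : V | y + r • x ∈ S}), indicator_of_mem hx]
    · rw [indicator_of_notMem (by exact hx : x ∉ {x : V | y + r • x ∈ S}), indicator_of_notMem hx]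
  rw [h1]
  have h2 := Measure.integral_comp_smul (volume : Measure V) (fun x => S.indicator f (y + x)) r
  rw [h2, integral_add_left_eq_self (fun x => S.indicator f x) y]
  have hfr : Module.finrank ℝ V = 3 := finrank_euclideanSpace_fin
  rw [hfr, abs_of_pos (by positivity), smul_eq_mul]

lemma scl_scl (r s : ℝ) (hr : 0 < r) (hs : 0 < s) : scl 0 s (scl 0 r u) = scl 0 (r * s) u := by
  funext x
  unfold scl
  rw [zero_add, zero_add, zero_add, smul_smul]
  field_simp

lemma sclD_sclD (r s : ℝ) : sclD 0 s (sclD 0 r D) = sclD 0 (r * s) D := by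
  ext x
  unfold sclD
  simp only [mem_ofPred_eq, zero_add, smul_smul]

lemma scl_one : scl 0 1 u = u := by
  funext x; unfold scl; simp

lemma sclD_one : sclD 0 1 D = D := by
  ext x; unfold sclD; simp

lemma norm_rsmul {r : ℝ} (hr : 0 < r) (x : V) : ‖r • x‖ = r * ‖x‖ := by
  rw [norm_smul, Real.norm_eq_abs, abs_of_pos hr]

lemma ann_scl {r : ℝ} (hr : 0 < r) (a b : ℝ) (x : V) :
    x ∈ ann (a / r) (b / r) ↔ r • x ∈ ann a b := by
  unfold ann
  simp only [mem_ofPred_eq]
  rw [norm_rsmul hr, div_lt_iff₀ hr, lt_div_iff₀ hr, mul_comm r]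

/-- rescaling of configurations -/
lemma Cfg.scale {L c κ δ : ℝ} (h : Cfg L c κ δ D u) (hκ : 0 < κ) {r : ℝ} (hr : 0 < r) (hr1 : r ≤ 1) :
    Cfg L c κ (δ / r) (sclD 0 r D) (scl 0 r u) := by
  have key : ∀ x : V, δ / r < ‖x‖ → ‖x‖ < 1 → δ < ‖r • x‖ ∧ ‖r • x‖ < 1 := by
    intro x h1 h2
    rw [norm_rsmul hr]
    rw [div_lt_iff₀ hr] at h1
    exact ⟨by linarith, by nlinarith [norm_nonneg x]⟩
  refine ⟨h.sol.scale 0 hr, div_pos h.δ0 hr, ?_, ?_, ?_, ?_⟩
  · intro x h1 h2
    obtain ⟨k1, k2⟩ := key x h1 h2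
    show 0 + r • x ∈ D
    rw [zero_add]
    exact h.sub _ k1 k2
  · intro x hx h1 h2
    obtain ⟨k1, k2⟩ := key x h1 h2
    rw [NN_scl 0 hr] at hx
    rw [gr_scl h.sol 0 hr hx]
    have hx' : (0 : V) + r • x ∈ NN D u := hx
    rw [zero_add] at hx' ⊢
    exact h.lip _ hx' k1 k2
  · intro x h1 h2
    obtain ⟨k1, k2⟩ := key x h1 h2
    unfold scl
    rw [zero_add, div_le_iff₀ hr]
    refine (h.bd _ k1 k2).trans (le_of_eq ?_)
    rw [norm_rsmul hr]; ring
  · intro t ht1 ht2
    have h1 : NN (sclD 0 r D) (scl 0 r u) ∩ ann (t / κ) t =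
        {x | (0 : V) + r • x ∈ NN D u ∩ ann (r * t / κ) (r * t)} := by
      rw [NN_scl 0 hr]
      ext x
      have e1 : x ∈ ann (t / κ) t ↔ r • x ∈ ann (r * t / κ) (r * t) := by
        rw [← ann_scl hr]
        have a1 : r * t / κ / r = t / κ := by field_simp
        have a2 : r * t / r = t := by field_simp
        rw [a1, a2]
      constructor
      · rintro ⟨a, b⟩
        refine ⟨a, ?_⟩
        rw [zero_add]
        exact e1.1 b
      · rintro ⟨a, b⟩
        rw [zero_add] at b
        exact ⟨a, e1.2 b⟩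
    rw [h1, vol_scl 0 hr]
    have ht0 : 0 ≤ t := le_trans (by have := h.δ0; positivity) ht1
    have h2 := h.dens (r * t) (by
      have : κ * (δ / r) * r ≤ t * r := mul_le_mul_of_nonneg_right ht1 hr.le
      have e : κ * (δ / r) * r = κ * δ := by field_simp
      linarith) (by nlinarith)
    have h3 : (r ^ 3)⁻¹ * (c * (r * t) ^ 3) = c * t ^ 3 := by field_simp
    rw [← h3]
    exact mul_le_mul_of_nonneg_left h2 (by positivity)

/-- rescaling of the excess -/
lemma exc_scl {δ : ℝ} (h : Sol D u) {r : ℝ} (hr : 0 < r) (ν : V) (c : ℝ) :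
    exc (δ / r) (sclD 0 r D) (scl 0 r u) ν (c / r) =
      (r ^ 5)⁻¹ * ∫ x in NN D u ∩ ann δ r, vv u ν c x ^ 2 := by
  unfold exc
  have h1 : NN (sclD 0 r D) (scl 0 r u) ∩ ann (δ / r) 1 =
      {x | (0 : V) + r • x ∈ NN D u ∩ ann δ r} := by
    rw [NN_scl 0 hr]
    ext x
    have e1 : x ∈ ann (δ / r) 1 ↔ r • x ∈ ann δ r := by
      rw [← ann_scl hr]
      rw [div_self hr.ne']
    constructor
    · rintro ⟨a, b⟩
      refine ⟨a, ?_⟩
      rw [zero_add]
      exact e1.1 b
    · rintro ⟨a, b⟩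
      rw [zero_add] at b
      exact ⟨a, e1.2 b⟩
  rw [h1]
  have h2 : ∀ x : V, vv (scl 0 r u) ν (c / r) x ^ 2 =
      (fun z => (r ^ 2)⁻¹ * vv u ν c z ^ 2) (0 + r • x) := by
    intro x
    unfold vv scl
    simp only [zero_add, inner_smul_right]
    field_simp
  simp_rw [h2]
  rw [int_scl 0 hr (h.meas_NN.inter (ann_meas _ _)) (fun z => (r ^ 2)⁻¹ * vv u ν c z ^ 2),
    integral_const_mul]
  field_simp

end

end Pool.Agent.D0H33.FB
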