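import Pool.Agent.D0H33.FB.A21
import Pool.Agent.D0H33.FB.A22

set_option autoImplicit false

open Set Metric Filter Topology MeasureTheory
open ExtStar (lap eta wgt)

namespace Pool.Agent.D0H33.FB

noncomputable section

/-- iteration of the improvement step -/
theorem iterate (L c κ : ℝ) (hL : 1 ≤ L) (hc : 0 < c) (hκ : 1 ≤ κ) : ∃ ρ : ℝ, 0 < ρ ∧ ρ ≤ 1 / 16 ∧
    ∀ η : ℝ, 0 < η → ∃ ε : ℝ, 0 < ε ∧ ε ≤ η ∧
    ∀ (δ : ℝ) (D : Set V) (u : V → ℝ) (ν : V) (c' : ℝ), Cfg L c κ δ D u → ‖ν‖ = 1 →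
      exc δ D u ν c' + δ ≤ ε → ∀ k : ℕ, δ / ρ ^ k ≤ ε / 2 →
      ∃ (νk : V) (ck : ℝ), ‖νk‖ = 1 ∧ ‖νk - ν‖ ≤ η ∧
        exc (δ / ρ ^ k) (sclD 0 (ρ ^ k) D) (scl 0 (ρ ^ k) u) νk ck + δ / ρ ^ k ≤ ε := by
  obtain ⟨ρ, ε1, C, hρ0, hρ16, hε1, hC, hstep⟩ := one_step L c κ hL hc hκ
  refine ⟨ρ, hρ0, hρ16, ?_⟩
  intro η hη
  set ε := min ε1 (min η ((η / (6 * C)) ^ 2)) with hε
  have hε0 : 0 < ε := by positivity
  refine ⟨ε, hε0, (min_le_right _ _).trans (min_le_left _ _), ?_⟩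
  intro δ D u ν c' hcfg hν hE k hk
  have hδ := hcfg.δ0
  have hsε : 6 * C * Real.sqrt ε ≤ η := by
    have h1 : Real.sqrt ε ≤ η / (6 * C) := by
      rw [Real.sqrt_le_left (by positivity)]
      exact (min_le_right _ _).trans (min_le_right _ _)
    rw [le_div_iff₀ (by positivity)] at h1
    linarith
  -- the invariant
  have inv : ∀ k : ℕ, δ / ρ ^ k ≤ ε / 2 → ∃ (νk : V) (ck : ℝ), ‖νk‖ = 1 ∧
      exc (δ / ρ ^ k) (sclD 0 (ρ ^ k) D) (scl 0 (ρ ^ k) u) νk ck + δ / ρ ^ k ≤ ε ∧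
      ‖νk - ν‖ + 2 * C * Real.sqrt (exc (δ / ρ ^ k) (sclD 0 (ρ ^ k) D) (scl 0 (ρ ^ k) u) νk ck +
        δ / ρ ^ k) ≤ 2 * C * Real.sqrt ε + 4 * C * Real.sqrt (δ / ρ ^ k) := by
    intro k
    induction k with
    | zero =>
      intro _
      refine ⟨ν, c', hν, ?_, ?_⟩
      · simp only [pow_zero, div_one]
        rw [sclD_one, scl_one]; exact hE
      · simp only [pow_zero, div_one]
        rw [sclD_one, scl_one, sub_self, norm_zero, zero_add]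
        have h1 := Real.sqrt_le_sqrt hE
        have h2 := Real.sqrt_nonneg δ
        have h3 := mul_le_mul_of_nonneg_left h1 (by positivity : 0 ≤ 2 * C)
        have h4 : 0 ≤ 4 * C * Real.sqrt δ := by positivity
        linarith
    | succ k ih =>
      intro hk1
      have hρk : 0 < ρ ^ k := by positivity
      have hρk1 : 0 < ρ ^ (k + 1) := by positivity
      have hρk1' : ρ ^ k ≤ 1 := pow_le_one₀ hρ0.le (by linarith)
      have hδk : δ / ρ ^ k = ρ * (δ / ρ ^ (k + 1)) := by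
        rw [pow_succ]; field_simp
      have hδk1 : 0 < δ / ρ ^ (k + 1) := by positivity
      have hk0 : δ / ρ ^ k ≤ ε / 2 := by
        rw [hδk]
        nlinarith
      obtain ⟨νk, ck, hνk, hEk, hinv⟩ := ih hk0
      have hcfgk := hcfg.scale (by linarith) hρk hρk1'
      set δk := δ / ρ ^ k with hδkdef
      set Ek := exc δk (sclD 0 (ρ ^ k) D) (scl 0 (ρ ^ k) u) νk ck + δk with hEkdef
      obtain ⟨ν', c'', hν', hνν, -, hint⟩ := hstep δk (sclD 0 (ρ ^ k) D) (scl 0 (ρ ^ k) u) νk ck hcfgk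
        hνk (hEk.trans (min_le_left _ _))
      have hsc := exc_scl (δ := δk) hcfgk.sol hρ0 ν' c''
      rw [scl_scl _ _ hρk hρ0, sclD_sclD, ← pow_succ] at hsc
      have hδe : δk / ρ = δ / ρ ^ (k + 1) := by rw [hδkdef, pow_succ]; field_simp
      rw [hδe] at hsc
      have hexc1 : exc (δ / ρ ^ (k + 1)) (sclD 0 (ρ ^ (k + 1)) D) (scl 0 (ρ ^ (k + 1)) u) ν' (c'' / ρ)
          ≤ 1 / 4 * Ek := by
        rw [hsc, inv_mul_le_iff₀ (by positivity)]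
        calc _ ≤ 1 / 4 * ρ ^ 5 * Ek := hint
          _ = ρ ^ 5 * (1 / 4 * Ek) := by ring
      have hEk0 : 0 ≤ Ek := by
        have := exc_nonneg δk (sclD 0 (ρ ^ k) D) (scl 0 (ρ ^ k) u) νk ck
        have := hcfgk.δ0
        positivity
      have hexc0 := exc_nonneg (δ / ρ ^ (k + 1)) (sclD 0 (ρ ^ (k + 1)) D) (scl 0 (ρ ^ (k + 1)) u) ν' (c'' / ρ)
      set Ek1 := exc (δ / ρ ^ (k + 1)) (sclD 0 (ρ ^ (k + 1)) D) (scl 0 (ρ ^ (k + 1)) u) ν' (c'' / ρ) +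
        δ / ρ ^ (k + 1) with hEk1
      refine ⟨ν', c'' / ρ, hν', by linarith, ?_⟩
      have hs1 : Real.sqrt Ek1 ≤ 1 / 2 * Real.sqrt Ek + Real.sqrt (δ / ρ ^ (k + 1)) := by
        rw [Real.sqrt_le_left (by positivity)]
        have h1 := Real.sq_sqrt hEk0
        have h2 := Real.sq_sqrt hδk1.le
        have h3 := Real.sqrt_nonneg Ek
        have h4 := Real.sqrt_nonneg (δ / ρ ^ (k + 1))
        have h5 : 0 ≤ Real.sqrt Ek * Real.sqrt (δ / ρ ^ (k + 1)) := by positivity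
        have h6 : (1 / 2 * Real.sqrt Ek + Real.sqrt (δ / ρ ^ (k + 1))) ^ 2 =
          1 / 4 * (Real.sqrt Ek) ^ 2 + Real.sqrt Ek * Real.sqrt (δ / ρ ^ (k + 1)) +
            (Real.sqrt (δ / ρ ^ (k + 1))) ^ 2 := by ring
        rw [h6, h1, h2]
        linarith
      have hs2 : Real.sqrt δk ≤ 1 / 2 * Real.sqrt (δ / ρ ^ (k + 1)) := by
        rw [Real.sqrt_le_left (by positivity), mul_pow, Real.sq_sqrt hδk1.le, hδk]
        nlinarith
      have hn : ‖ν' - ν‖ ≤ ‖νk - ν‖ + C * Real.sqrt Ek := by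
        have : ν' - ν = (ν' - νk) + (νk - ν) := by abel
        rw [this]
        refine (norm_add_le _ _).trans ?_
        linarith
      have h7 := mul_le_mul_of_nonneg_left hs1 (by positivity : 0 ≤ 2 * C)
      have h8 := mul_le_mul_of_nonneg_left hs2 (by positivity : 0 ≤ 4 * C)
      linarith
  obtain ⟨νk, ck, hνk, hEk, hinv⟩ := inv k hk
  refine ⟨νk, ck, hνk, ?_, hEk⟩
  have h1 : 0 ≤ 2 * C * Real.sqrt (exc (δ / ρ ^ k) (sclD 0 (ρ ^ k) D) (scl 0 (ρ ^ k) u) νk ck +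
        δ / ρ ^ k) := by positivity
  have h2 : Real.sqrt (δ / ρ ^ k) ≤ Real.sqrt ε := Real.sqrt_le_sqrt (by linarith)
  have h3 := mul_le_mul_of_nonneg_left h2 (by positivity : 0 ≤ 4 * C)
  linarith

end

end Pool.Agent.D0H33.FB
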