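import Pool.Agent.D0H33.FB.A22
import Pool.Agent.H631.ES.X02
import Pool.Agent.H631.ES.X03
import Pool.Agent.H631.ES.X05
import Pool.Agent.H631.ES.X13
import Pool.Agent.H631.ES.X14
import Pool.Agent.H631.ES.X38

set_option autoImplicit false

open Set Metric Filter Topology MeasureTheory
open ExtStar (lap eta wgt Quasi)

namespace Pool.Agent.D0H33.FB

noncomputable section

variable {D : Set V} {u : V → ℝ}

lemma Sol.quasi (h : Sol D u) {U : Set V} (hU : U ⊆ NN D u) : Quasi (d := 3) 0 U u := by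
  refine ⟨h.smooth.mono hU, fun x hx => ⟨(hU hx).2.le, ?_⟩⟩
  rw [h.harm x (hU hx)]; simp

/-- distance to the complement of the positive phase -/
def dN (D : Set V) (u : V → ℝ) (x : V) : ℝ := infDist x (NN D u)ᶜ

lemma Sol.ball_dN (_h : Sol D u) {x : V} {r : ℝ} (hr : r ≤ dN D u x) : ball x r ⊆ NN D u := by
  intro y hy
  by_contra hn
  have h1 : dN D u x ≤ dist x y := infDist_le_dist_of_mem hn
  rw [mem_ball, dist_comm] at hy
  linarith

/-- touching estimate: the value at the centre of a touching ball is controlled by the radius -/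
lemma touch : ∃ C : ℝ, 0 < C ∧ ∀ (D : Set V) (u : V → ℝ) (z : V) (R : ℝ), Sol D u →
    R ≤ 1 → closedBall z R ⊆ D → z ∈ NN D u → ((NN D u)ᶜ).Nonempty → dN D u z ≤ R →
    u z ≤ C * dN D u z := by
  obtain ⟨c5, hc5, hbh⟩ := ExtStar.ball_harnack 3 0 (le_refl 0)
  refine ⟨Real.exp 7 / (14 * c5), by positivity, ?_⟩
  intro D u z R h hR1 hRD hz hne hd
  set d := dN D u z with hddef
  have hcl : IsClosed (NN D u)ᶜ := h.isOpen_NN.isClosed_compl
  obtain ⟨p, hp, hpd⟩ := hcl.exists_infDist_eq_dist hne z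
  have hd0 : 0 < d := by
    rw [hddef]; unfold dN
    rw [← hcl.notMem_iff_infDist_pos hne]
    exact fun hn => hn hz
  have hpz : ‖p - z‖ = d := by
    rw [hddef]; unfold dN; rw [hpd, dist_comm, dist_eq_norm]
  have hball : ball z d ⊆ NN D u := h.ball_dN (le_refl _)
  have hdR : closedBall z d ⊆ D := (closedBall_subset_closedBall hd).trans hRD
  have hpD : p ∈ D := hdR (by rw [mem_closedBall, dist_eq_norm]; exact hpz.le)
  have hpF : p ∈ FF D u := by
    apply h.mem_FF hpD
    · have h1 : p ∈ closure (ball z d) := by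
        rw [closure_ball z hd0.ne', mem_closedBall, dist_eq_norm]; exact hpz.le
      exact closure_mono hball h1
    · intro hn; exact hp ⟨hpD, hn⟩
  have hup : u p = 0 := h.zero_of_FF hpF
  -- the barrier
  set α := 7 / d ^ 2 with hα
  have hα0 : 0 < α := by positivity
  have hαd : α * d ^ 2 = 7 := by rw [hα]; field_simp
  set E0 := Real.exp (-(α * d ^ 2)) with hE0
  set b : V → ℝ := fun y => Real.exp (-(α * ‖y - z‖ ^ 2)) - E0 with hb
  have hbs : ContDiff ℝ 2 (fun y : V => Real.exp (-(α * ‖y - z‖ ^ 2))) := by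
    apply Real.contDiff_exp.comp
    exact (contDiff_const.mul ((contDiff_id.sub contDiff_const).norm_sq ℝ)).neg
  have hbs' : ContDiff ℝ 2 b := hbs.sub contDiff_const
  have hblap : ∀ y, lap b y = (4 * α ^ 2 * ‖y - z‖ ^ 2 - 6 * α) * Real.exp (-(α * ‖y - z‖ ^ 2)) := by
    intro y
    have h1 : lap b y = lap (fun y : V => Real.exp (-(α * ‖y - z‖ ^ 2))) y - lap (fun _ : V => E0) y :=
      ExtStar.lap_sub _ _ y hbs.contDiffAt contDiffAt_const
    rw [h1, ExtStar.lap_const, sub_zero, ExtStar.lap_gauss]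
    norm_num
  set ε := c5 * u z with hε
  have hε0 : 0 < ε := mul_pos hc5 hz.2
  set K : Set V := {y | d / 2 ≤ ‖y - z‖ ∧ ‖y - z‖ ≤ d} with hK
  have hcn : Continuous (fun y : V => ‖y - z‖) := (continuous_id.sub continuous_const).norm
  have hKc : IsCompact K := by
    have h1 : IsClosed K := (isClosed_le continuous_const hcn).inter (isClosed_le hcn continuous_const)
    exact (isCompact_closedBall z d).of_isClosed_subset h1 fun y hy => by
      rw [mem_closedBall, dist_eq_norm]; exact hy.2
  have hcomp := ExtStar.comp_compact (d := 3) K hKc (fun y => u y - ε * b y) (by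
      refine ContinuousOn.sub (h.cont.mono fun y hy => hdR ?_)
        (continuous_const.mul hbs'.continuous).continuousOn
      rw [mem_closedBall, dist_eq_norm]; exact hy.2) (by
    intro x hxK hx
    have hb1 : b x ≤ 1 := by
      simp only [hb]
      have h1 : Real.exp (-(α * ‖x - z‖ ^ 2)) ≤ 1 := by
        rw [Real.exp_le_one_iff]; have : 0 ≤ α * ‖x - z‖ ^ 2 := by positivity
        linarith
      have h2 : 0 < E0 := Real.exp_pos _
      linarith
    have hlt : ‖x - z‖ < d := by
      rcases lt_or_eq_of_le hxK.2 with h1 | h1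
      · exact h1
      · exfalso
        have h2 : b x = 0 := by simp only [hb, hE0]; rw [h1]; simp
        have h3 := h.nonneg x (hdR (by rw [mem_closedBall, dist_eq_norm]; exact hxK.2))
        rw [h2, mul_zero, sub_zero] at hx
        linarith
    have hgt : d / 2 < ‖x - z‖ := by
      rcases lt_or_eq_of_le hxK.1 with h1 | h1
      · exact h1
      · exfalso
        have h2 := hbh (NN D u) u z x d h.isOpen_NN (h.quasi (le_refl _)) hd0 (hd.trans hR1) hball (by
          rw [mem_ball, dist_eq_norm, ← h1]; linarith)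
        have h3 : ε * b x ≤ ε := mul_le_of_le_one_right hε0.le hb1
        linarith
    have hxN : x ∈ NN D u := hball (by rw [mem_ball, dist_eq_norm]; exact hlt)
    refine ⟨?_, ?_, ?_⟩
    · rw [mem_interior_iff_mem_nhds]
      have h1 : IsOpen {y : V | d / 2 < ‖y - z‖ ∧ ‖y - z‖ < d} :=
        (isOpen_lt continuous_const hcn).inter (isOpen_lt hcn continuous_const)
      exact mem_of_superset (h1.mem_nhds ⟨hgt, hlt⟩) fun y hy => ⟨hy.1.le, hy.2.le⟩
    · exact (h.contDiffAt hxN).sub (contDiffAt_const.mul hbs'.contDiffAt)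
    · have h1 : lap (fun y => u y - ε * b y) x = lap u x - lap (fun y => ε * b y) x :=
        ExtStar.lap_sub u (fun y => ε * b y) x (h.contDiffAt hxN)
          (contDiffAt_const.mul hbs'.contDiffAt)
      have h2 : lap (fun y => ε * b y) x = ε * lap b x := ExtStar.lap_smul ε b x hbs'.contDiffAt
      rw [h1, h2, h.harm x hxN, hblap]
      have h3 : 0 < 4 * α ^ 2 * ‖x - z‖ ^ 2 - 6 * α := by
        have h4 : (d / 2) ^ 2 < ‖x - z‖ ^ 2 := by
          apply pow_lt_pow_left₀ hgt (by positivity) (by norm_num)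
        have h5 : α * (d / 2) ^ 2 = 7 / 4 := by rw [div_pow, ← mul_div_assoc, hαd]; norm_num
        have h6 : 7 / 4 < α * ‖x - z‖ ^ 2 := by rw [← h5]; exact mul_lt_mul_of_pos_left h4 hα0
        nlinarith
      have h4 := Real.exp_pos (-(α * ‖x - z‖ ^ 2))
      have : 0 < ε * ((4 * α ^ 2 * ‖x - z‖ ^ 2 - 6 * α) * Real.exp (-(α * ‖x - z‖ ^ 2))) := by
        positivity
      linarith)
  -- compare the derivatives at the touching point
  obtain ⟨G, hG1, hG0, hGn, hG⟩ := h.bdry p hpF
  set e : V := d⁻¹ • (z - p) with he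
  have hen : ‖e‖ = 1 := by
    rw [he, norm_smul, Real.norm_eq_abs, abs_of_pos (by positivity), norm_sub_rev, hpz,
      inv_mul_cancel₀ hd0.ne']
  have hline : HasDerivAt (fun t : ℝ => p + t • e) e 0 := by
    have h1 : HasDerivAt (fun t : ℝ => t • e) ((1 : ℝ) • e) 0 := (hasDerivAt_id (0 : ℝ)).smul_const e
    rw [one_smul] at h1
    exact h1.const_add p
  have hGd : HasDerivAt (fun t : ℝ => G (p + t • e)) (fderiv ℝ G p e) 0 := by
    have h1 : HasFDerivAt G (fderiv ℝ G p) (p + (0 : ℝ) • e) := by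
      rw [zero_smul, add_zero]
      exact (hG1.differentiableAt (by norm_num)).hasFDerivAt
    exact h1.comp_hasDerivAt 0 hline
  -- along the line the distance to z is `d - t`
  have hdist : ∀ t : ℝ, 0 ≤ t → t ≤ d → ‖p + t • e - z‖ = d - t := by
    intro t ht0 ht1
    have h1 : p + t • e - z = (1 - t / d) • (p - z) := by
      rw [he, smul_smul, div_eq_mul_inv]; module
    rw [h1, norm_smul, hpz, Real.norm_eq_abs, abs_of_nonneg (by
      have : t / d ≤ 1 := (div_le_one hd0).2 ht1
      linarith)]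
    field_simp
  have hkey : ∀ᶠ t : ℝ in 𝓝[>] 0, ε * (Real.exp (-(α * (d - t) ^ 2)) - E0) ≤ G (p + t • e) := by
    have h1 : Tendsto (fun t : ℝ => p + t • e) (𝓝[>] 0) (𝓝 p) := by
      have := hline.continuousAt.tendsto
      rw [zero_smul, add_zero] at this
      exact this.mono_left nhdsWithin_le_nhds
    have h2 : Ioo (0 : ℝ) (d / 2) ∈ 𝓝[>] (0 : ℝ) := Ioo_mem_nhdsGT (by positivity)
    filter_upwards [h1.eventually hG, h2] with t ht1 ht2
    have h3 := hdist t ht2.1.le (by linarith [ht2.2])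
    have hN : p + t • e ∈ NN D u := hball (by
      rw [mem_ball, dist_eq_norm, h3]; linarith [ht2.1])
    have h4 := hcomp (p + t • e) ⟨by rw [h3]; linarith [ht2.2], by rw [h3]; linarith [ht2.1]⟩
    have h5 := ht1.2 hN.2
    rw [← h5]
    simp only [hb] at h4
    rw [h3] at h4
    linarith
  have hB : HasDerivAt (fun t : ℝ => ε * (Real.exp (-(α * (d - t) ^ 2)) - E0))
      (ε * (E0 * (2 * α * d))) 0 := by
    have h1 : HasDerivAt (fun t : ℝ => d - t) (-1) 0 := by
      simpa using (hasDerivAt_id (0 : ℝ)).const_sub d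
    have h2 : HasDerivAt (fun t : ℝ => -(α * (d - t) ^ 2)) (2 * α * d) 0 := by
      have := ((h1.pow 2).const_mul α).neg
      refine this.congr_deriv ?_
      norm_num
      ring
    have h3 := ((h2.exp).sub_const E0).const_mul ε
    refine h3.congr_deriv ?_
    rw [sub_zero]
  have hcmp : ε * (E0 * (2 * α * d)) ≤ fderiv ℝ G p e := by
    -- difference quotient
    have h1 := hGd.sub hB
    have h2 : ∀ᶠ t : ℝ in 𝓝[>] 0, 0 ≤ G (p + t • e) - ε * (Real.exp (-(α * (d - t) ^ 2)) - E0) := by
      filter_upwards [hkey] with t ht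
      linarith
    have h3 : (fun t : ℝ => G (p + t • e) - ε * (Real.exp (-(α * (d - t) ^ 2)) - E0)) 0 = 0 := by
      simp only
      rw [zero_smul, add_zero, hG0, sub_zero]
      simp [hE0]
    have h4 := h1.hasDerivWithinAt (s := Ioi (0 : ℝ))
    rw [hasDerivWithinAt_iff_tendsto_slope' (by simp)] at h4
    have h5 : 0 ≤ fderiv ℝ G p e - ε * (E0 * (2 * α * d)) := by
      refine ge_of_tendsto h4 ?_
      filter_upwards [h2, self_mem_nhdsWithin] with t ht ht0
      have ht0' : (0 : ℝ) < t := ht0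
      rw [slope_def_field]
      have h6 : ((fun t : ℝ => G (p + t • e)) - fun t : ℝ => ε * (Real.exp (-(α * (d - t) ^ 2)) - E0)) 0 = 0 := h3
      rw [h6, sub_zero, sub_zero]
      exact div_nonneg ht ht0'.le
    linarith
  have h1 : fderiv ℝ G p e ≤ 1 := by
    have := (le_abs_self _).trans (le_op (fderiv ℝ G p) e)
    rwa [hGn, hen, one_mul] at this
  have h2 : ε * (E0 * (2 * α * d)) ≤ 1 := hcmp.trans h1
  have h3 : E0 * Real.exp 7 = 1 := by
    rw [hE0, hαd, ← Real.exp_add]; simp
  have h4 : 2 * α * d * d = 14 := by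
    have : 2 * α * d * d = 2 * (α * d ^ 2) := by ring
    rw [this, hαd]; norm_num
  have h5 : u z * (14 * c5) ≤ Real.exp 7 * d := by
    have e1 : ε * (E0 * (2 * α * d)) * (Real.exp 7 * d) = u z * (14 * c5) := by
      calc ε * (E0 * (2 * α * d)) * (Real.exp 7 * d) = ε * (E0 * Real.exp 7) * (2 * α * d * d) := by ring
        _ = u z * (14 * c5) := by rw [h3, h4, hε]; ring
    rw [← e1]
    have : 0 ≤ Real.exp 7 * d := by positivity
    nlinarith
  rw [div_mul_eq_mul_div, le_div_iff₀ (by positivity)]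
  exact h5

end

end Pool.Agent.D0H33.FB
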