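import Pool.Agent.D0H33.FB.A24

set_option autoImplicit false

open Set Metric Filter Topology MeasureTheory
open ExtStar (lap eta wgt Quasi)

namespace Pool.Agent.D0H33.FB

noncomputable section

variable {D : Set V} {u : V → ℝ}

/-- transport of bounds along segments -/
lemma seg_bound : ∃ C : ℝ, 1 ≤ C ∧ ∀ (D : Set V) (u : V → ℝ) (a b : V) (B : ℝ), Sol D u →
    (∀ z ∈ segment ℝ a b, closedBall z (1 / 16) ⊆ D) → ‖a - b‖ ≤ 2 → ((NN D u)ᶜ).Nonempty →
    0 ≤ B → u b ≤ B → u a ≤ C * (B + 1) := by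
  obtain ⟨Ct, hCt, htouch⟩ := touch
  obtain ⟨Cc, hCc, hchain⟩ := ExtStar.chain 3 0 (le_refl 0)
  set X := Real.exp (Cc / (1 / 16) * 2) with hX
  have hX1 : 1 ≤ X := by rw [hX]; apply Real.one_le_exp; positivity
  refine ⟨X * (Ct + 1), by nlinarith, ?_⟩
  intro D u a b B h hD hab hne hB hub
  -- points close to the complement
  have hclose : ∀ z ∈ segment ℝ a b, dN D u z ≤ 1 / 16 → u z ≤ Ct := by
    intro z hz hd
    by_cases hzN : z ∈ NN D u
    · have h1 := htouch D u z (1 / 16) h (by norm_num) (hD z hz) hzN hne hd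
      have h2 : Ct * dN D u z ≤ Ct * 1 := mul_le_mul_of_nonneg_left (by linarith) hCt.le
      linarith
    · have hzD : z ∈ D := hD z hz (mem_closedBall_self (by norm_num))
      rw [h.eq_zero_of_not_mem hzD hzN]; exact hCt.le
  set w : ℝ → V := fun t => a + t • (b - a) with hw
  have hwc : Continuous w := by fun_prop
  have hw0 : w 0 = a := by simp [hw]
  have hw1 : w 1 = b := by simp [hw]
  have hwseg : ∀ t ∈ Icc (0 : ℝ) 1, w t ∈ segment ℝ a b := by
    intro t ht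
    rw [segment_eq_image']
    exact ⟨t, ht, rfl⟩
  have hdc : Continuous (fun t => dN D u (w t)) := (continuous_infDist_pt _).comp hwc
  set S : Set ℝ := Icc 0 1 ∩ {t | dN D u (w t) ≤ 1 / 16} with hS
  have hScl : IsCompact S := isCompact_Icc.of_isClosed_subset
    (isClosed_Icc.inter (isClosed_le hdc continuous_const)) inter_subset_left
  -- chain from a to w t
  have hch : ∀ t ∈ Icc (0 : ℝ) 1, (∀ s ∈ Icc (0 : ℝ) t, 1 / 16 ≤ dN D u (w s)) →
      u a ≤ X * u (w t) := by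
    intro t ht hs
    have h1 := hchain u (NN D u) a (w t) (1 / 16) h.isOpen_NN (by norm_num) (by norm_num)
      (h.quasi (le_refl _)) (by
        intro z hz
        rw [segment_eq_image'] at hz
        obtain ⟨θ, hθ, rfl⟩ := hz
        have e : a + θ • (w t - a) = w (θ * t) := by simp only [hw]; module
        simp only
        rw [e]
        apply h.ball_dN
        exact hs (θ * t) ⟨mul_nonneg hθ.1 ht.1, by nlinarith [hθ.2, ht.1]⟩)
    have hwN : w t ∈ NN D u :=
      h.ball_dN (hs t ⟨ht.1, le_refl _⟩) (mem_ball_self (by norm_num))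
    refine h1.trans (mul_le_mul_of_nonneg_right ?_ hwN.2.le)
    rw [hX]
    apply Real.exp_le_exp.2
    apply mul_le_mul_of_nonneg_left _ (by positivity)
    have e : a - w t = t • (a - b) := by simp only [hw]; module
    rw [e, norm_smul, Real.norm_eq_abs, abs_of_nonneg ht.1]
    have := mul_le_of_le_one_left (norm_nonneg (a - b)) ht.2
    linarith
  by_cases hne' : S.Nonempty
  · obtain ⟨t, htS, htmin⟩ := hScl.exists_isLeast hne'
    have hlt : ∀ s ∈ Icc (0 : ℝ) 1, s < t → 1 / 16 < dN D u (w s) := by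
      intro s hs hst
      by_contra hn
      push Not at hn
      have := htmin ⟨hs, hn⟩
      linarith
    have hut : u (w t) ≤ Ct := hclose _ (hwseg t htS.1) htS.2
    rcases eq_or_lt_of_le htS.1.1 with h0 | h0
    · rw [← h0, hw0] at hut
      calc u a ≤ Ct := hut
        _ ≤ 1 * (Ct + 1) * (0 + 1) := by linarith
        _ ≤ X * (Ct + 1) * (B + 1) := by gcongr
    · have hge : 1 / 16 ≤ dN D u (w t) := by
        have hl : Tendsto (fun s => dN D u (w s)) (𝓝[<] t) (𝓝 (dN D u (w t))) :=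
          hdc.continuousAt.tendsto.mono_left nhdsWithin_le_nhds
        refine ge_of_tendsto hl ?_
        filter_upwards [Ioo_mem_nhdsLT h0] with s hs
        exact (hlt s ⟨hs.1.le, hs.2.le.trans htS.1.2⟩ hs.2).le
      have h1 := hch t htS.1 (by
        intro s hs
        rcases eq_or_lt_of_le hs.2 with h2 | h2
        · rw [h2]; exact hge
        · exact (hlt s ⟨hs.1, hs.2.trans htS.1.2⟩ h2).le)
      calc u a ≤ X * u (w t) := h1
        _ ≤ X * Ct := mul_le_mul_of_nonneg_left hut (by positivity)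
        _ ≤ X * (Ct + 1) * (B + 1) := by nlinarith [mul_nonneg (by positivity : 0 ≤ X * (Ct + 1)) hB]
  · have h1 := hch 1 ⟨zero_le_one, le_refl _⟩ (by
      intro s hs
      by_contra hn
      push Not at hn
      exact hne' ⟨s, hs, hn.le⟩)
    rw [hw1] at h1
    calc u a ≤ X * u b := h1
      _ ≤ X * B := mul_le_mul_of_nonneg_left hub (by positivity)
      _ ≤ X * (Ct + 1) * (B + 1) := by nlinarith [mul_nonneg (by positivity : 0 ≤ X * Ct) hB]

/-- a unit vector orthogonal to `x` and in the half space of `p` -/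
lemma exists_orth (x p : V) : ∃ q : V, ‖q‖ = 1 ∧ inner ℝ x q = 0 ∧ 0 ≤ inner ℝ q p := by
  have h1 : ∃ q : V, q ≠ 0 ∧ inner ℝ x q = 0 := by
    have hfr : Module.finrank ℝ (Submodule.span ℝ {x} : Submodule ℝ V) ≤ 1 := by
      have := finrank_span_le_card (R := ℝ) ({x} : Set V)
      simpa using this
    have h2 : 0 < Module.finrank ℝ ((Submodule.span ℝ {x})ᗮ : Submodule ℝ V) := by
      have h3 := Submodule.finrank_add_finrank_orthogonal (Submodule.span ℝ {x} : Submodule ℝ V)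
      have h4 : Module.finrank ℝ V = 3 := finrank_euclideanSpace_fin
      omega
    obtain ⟨q, hq⟩ := Module.finrank_pos_iff_exists_ne_zero.1 h2
    refine ⟨q, fun h => hq (Subtype.ext h), ?_⟩
    exact (Submodule.mem_orthogonal _ _).1 q.2 x (Submodule.mem_span_singleton_self x)
  obtain ⟨q, hq0, hq⟩ := h1
  have hqn : 0 < ‖q‖ := norm_pos_iff.2 hq0
  by_cases hs : 0 ≤ inner ℝ q p
  · refine ⟨‖q‖⁻¹ • q, ?_, ?_, ?_⟩
    · rw [norm_smul, Real.norm_eq_abs, abs_of_pos (by positivity), inv_mul_cancel₀ hqn.ne']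
    · rw [inner_smul_right, hq, mul_zero]
    · rw [inner_smul_left]; simp only [conj_trivial]; positivity
  · push Not at hs
    refine ⟨(-‖q‖⁻¹) • q, ?_, ?_, ?_⟩
    · rw [norm_smul, Real.norm_eq_abs, abs_neg, abs_of_pos (by positivity), inv_mul_cancel₀ hqn.ne']
    · rw [inner_smul_right, hq, mul_zero]
    · rw [inner_smul_left]
      simp only [conj_trivial]
      have : 0 < ‖q‖⁻¹ := by positivity
      nlinarith

/-- segments between unit vectors with nonnegative inner product stay away from zero -/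
lemma seg_norm {a b : V} (ha : ‖a‖ = 1) (hb : ‖b‖ = 1) (hab : 0 ≤ inner ℝ a b) {z : V}
    (hz : z ∈ segment ℝ a b) : 7 / 10 ≤ ‖z‖ ∧ ‖z‖ ≤ 1 := by
  obtain ⟨s, t, hs, ht, hst, rfl⟩ := hz
  have h1 : ‖s • a + t • b‖ ^ 2 = s ^ 2 + 2 * (s * t * inner ℝ a b) + t ^ 2 := by
    rw [norm_add_sq_real, norm_smul, norm_smul, ha, hb, inner_smul_left, inner_smul_right,
      Real.norm_eq_abs, Real.norm_eq_abs, mul_one, mul_one, sq_abs, sq_abs]
    simp only [conj_trivial]
    ring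
  have hab1 : inner ℝ a b ≤ 1 := by
    have := real_inner_le_norm a b
    rwa [ha, hb, one_mul] at this
  have hst0 : 0 ≤ s * t := mul_nonneg hs ht
  have ht' : t = 1 - s := by linarith
  constructor
  · by_contra hn
    push Not at hn
    have h2 : ‖s • a + t • b‖ ^ 2 < (7 / 10) ^ 2 := pow_lt_pow_left₀ hn (norm_nonneg _) (by norm_num)
    have h3 : 0 ≤ s * t * inner ℝ a b := mul_nonneg hst0 hab
    rw [h1, ht'] at h2
    nlinarith [sq_nonneg (2 * s - 1), h3]
  · by_contra hn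
    push Not at hn
    have h2 : 1 < ‖s • a + t • b‖ ^ 2 := by nlinarith
    have h3 : s * t * inner ℝ a b ≤ s * t * 1 := mul_le_mul_of_nonneg_left hab1 hst0
    rw [h1] at h2
    nlinarith

/-- Lipschitz bound on the unit sphere -/
lemma lip_unit : ∃ L : ℝ, 1 ≤ L ∧ ∀ (D : Set V) (u : V → ℝ) (p x : V), Sol D u →
    ann (1 / 2) 2 ⊆ D → p ∈ FF D u → ‖p‖ = 1 → ‖x‖ = 1 → u x ≤ L ∧ (x ∈ NN D u → ‖gr u x‖ ≤ L) := by
  obtain ⟨Cs, hCs, hseg⟩ := seg_bound
  obtain ⟨Ct, hCt, htouch⟩ := touch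
  obtain ⟨Cg, hCg, hgrad⟩ := ExtStar.grad_harnack 3 0 (le_refl 0)
  set B := Cs * (Cs * (0 + 1) + 1) with hB
  have hB1 : 1 ≤ B := by nlinarith
  refine ⟨B + 16 * Cg * B + Cg * Ct, by nlinarith [mul_pos hCg hCt, mul_pos hCg (by linarith : 0 < B)], ?_⟩
  intro D u p x h hD hp hp1 hx1
  obtain ⟨q, hq1, hxq, hqp⟩ := exists_orth x p
  have hpN : p ∉ NN D u := by
    have := hp.2
    rw [h.isOpen_NN.frontier_eq] at this
    exact this.2
  have hne : ((NN D u)ᶜ).Nonempty := ⟨p, hpN⟩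
  have hcb : ∀ z : V, 7 / 10 ≤ ‖z‖ → ‖z‖ ≤ 1 → closedBall z (1 / 16) ⊆ D := by
    intro z hz1 hz2 y hy
    apply hD
    rw [mem_closedBall, dist_eq_norm] at hy
    have h1 : ‖z‖ ≤ ‖y‖ + ‖y - z‖ := by
      have := norm_sub_le y (y - z)
      rwa [sub_sub_cancel] at this
    have h2 : ‖y‖ ≤ ‖z‖ + ‖y - z‖ := by
      have := norm_add_le z (y - z)
      rwa [add_sub_cancel] at this
    exact ⟨by linarith, by linarith⟩
  have hn2 : ∀ a b : V, ‖a‖ = 1 → ‖b‖ = 1 → ‖a - b‖ ≤ 2 := by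
    intro a b ha hb
    have := norm_sub_le a b
    linarith
  have h1 := hseg D u q p 0 h (fun z hz => hcb z (seg_norm hq1 hp1 hqp hz).1 (seg_norm hq1 hp1 hqp hz).2)
    (hn2 _ _ hq1 hp1) hne (le_refl _) (h.zero_of_FF hp).le
  have h2 := hseg D u x q (Cs * (0 + 1)) h
    (fun z hz => hcb z (seg_norm hx1 hq1 hxq.ge hz).1 (seg_norm hx1 hq1 hxq.ge hz).2)
    (hn2 _ _ hx1 hq1) hne (by positivity) h1
  have hux : u x ≤ B := h2
  refine ⟨by nlinarith [mul_pos hCg hCt, mul_pos hCg (by linarith : 0 < B)], ?_⟩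
  intro hxN
  have hd0 : 0 < dN D u x := by
    unfold dN
    rw [← h.isOpen_NN.isClosed_compl.notMem_iff_infDist_pos hne]
    exact fun hn => hn hxN
  rw [gr_norm]
  by_cases hd : dN D u x ≤ 1 / 16
  · have h3 := htouch D u x (1 / 16) h (by norm_num) (hcb x (by rw [hx1]; norm_num) hx1.le) hxN hne hd
    have h4 := hgrad u x (dN D u x) hd0 (hd.trans (by norm_num)) (h.quasi (h.ball_dN (le_refl _)))
    have h5 : Cg / dN D u x * u x ≤ Cg * Ct := by
      rw [div_mul_eq_mul_div, div_le_iff₀ hd0]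
      have := mul_le_mul_of_nonneg_left h3 hCg.le
      linarith
    nlinarith [mul_pos hCg (by linarith : 0 < B)]
  · push Not at hd
    have h4 := hgrad u x (1 / 16) (by norm_num) (by norm_num) (h.quasi (h.ball_dN hd.le))
    have h5 : Cg / (1 / 16) * u x ≤ 16 * Cg * B := by
      have : Cg / (1 / 16) = 16 * Cg := by ring
      rw [this]
      exact mul_le_mul_of_nonneg_left hux (by positivity)
    nlinarith [mul_pos hCg hCt]

/-- Lipschitz bound in the annulus -/
theorem lip_ann : ∃ L : ℝ, 1 ≤ L ∧ ∀ (D : Set V) (u : V → ℝ) (δ : ℝ), Sol D u → 0 < δ →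
    ann δ 1 ⊆ D → (∀ ρ : ℝ, δ < ρ → ρ < 1 → ∃ p ∈ FF D u, ‖p‖ = ρ) →
    ∀ x : V, 2 * δ < ‖x‖ → ‖x‖ < 1 / 2 → u x ≤ L * ‖x‖ ∧ (x ∈ NN D u → ‖gr u x‖ ≤ L) := by
  obtain ⟨L, hL, hunit⟩ := lip_unit
  refine ⟨L, hL, ?_⟩
  intro D u δ h hδ hD hF x hx1 hx2
  have hx0 : 0 < ‖x‖ := by linarith
  obtain ⟨p, hp, hpn⟩ := hF ‖x‖ (by linarith) (by linarith)
  have hsc := h.scale 0 hx0
  have h1 := hunit (sclD 0 ‖x‖ D) (scl 0 ‖x‖ u) (‖x‖⁻¹ • p) (‖x‖⁻¹ • x) hsc (by
    intro y hy
    show (0 : V) + ‖x‖ • y ∈ D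
    rw [zero_add]
    apply hD
    constructor
    · rw [norm_rsmul hx0]
      nlinarith [hy.1]
    · rw [norm_rsmul hx0]
      nlinarith [hy.2]) (by
    rw [FF_scl 0 hx0]
    show (0 : V) + ‖x‖ • ‖x‖⁻¹ • p ∈ FF D u
    rw [zero_add, smul_smul, mul_inv_cancel₀ hx0.ne', one_smul]
    exact hp) (by
    rw [norm_rsmul (by positivity), hpn, inv_mul_cancel₀ hx0.ne']) (by
    rw [norm_rsmul (by positivity), inv_mul_cancel₀ hx0.ne'])
  have e1 : (0 : V) + ‖x‖ • ‖x‖⁻¹ • x = x := by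
    rw [zero_add, smul_smul, mul_inv_cancel₀ hx0.ne', one_smul]
  constructor
  · have h2 := h1.1
    unfold scl at h2
    rw [e1, div_le_iff₀ hx0] at h2
    exact h2
  · intro hxN
    have hxN' : (0 : V) + ‖x‖ • ‖x‖⁻¹ • x ∈ NN D u := by rw [e1]; exact hxN
    have h2 := h1.2 (by rw [NN_scl 0 hx0]; exact hxN')
    rw [gr_scl h 0 hx0 hxN', e1] at h2
    exact h2

end

end Pool.Agent.D0H33.FB
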