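import Mathlib
import Pool.Agent.Helper133.Brouwer
import Pool.Agent.D0H33.FB.A10

set_option autoImplicit false

open Set Metric Filter Topology MeasureTheory
open ExtStar (lap)

namespace Pool.Agent.D0H33.FB

noncomputable section

/-- a contractible set avoiding the origin contains no sphere around the origin -/
theorem no_sphere {X : Set V} (hX : (0 : V) ∉ X) [hc : ContractibleSpace X] {ρ : ℝ} (hρ : 0 < ρ)
    (hS : ∀ x : V, ‖x‖ = ρ → x ∈ X) : False := by
  obtain ⟨y, ⟨H⟩⟩ := id_nullhomotopic X
  -- H : Homotopy id (const y)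
  set s : V → X := fun x => if h : x ≠ 0 then
    ⟨(ρ / ‖x‖) • x, hS _ (by
      have h0 : 0 < ‖x‖ := norm_pos_iff.2 h
      rw [norm_smul, Real.norm_of_nonneg (by positivity)]
      field_simp)⟩ else y with hs
  have hsval : ∀ x : V, x ≠ 0 → ((s x : X) : V) = (ρ / ‖x‖) • x := by
    intro x hx
    simp only [hs]
    rw [dif_pos hx]
  have hscont : ∀ x : V, x ≠ 0 → ContinuousAt s x := by
    intro x hx
    rw [Topology.IsInducing.subtypeVal.continuousAt_iff]
    have h1 : ContinuousAt (fun z : V => (ρ / ‖z‖) • z) x := by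
      have h2 : ContinuousAt (fun z : V => ρ / ‖z‖) x :=
        continuousAt_const.div continuous_norm.continuousAt (norm_ne_zero_iff.2 hx)
      exact h2.smul continuousAt_id
    apply h1.congr
    filter_upwards [isOpen_ne.mem_nhds hx] with z hz
    exact (hsval z hz).symm
  set τ : V → unitInterval := fun x => Set.projIcc 0 1 zero_le_one (2 - 2 * ‖x‖) with hτ
  have hτc : Continuous τ := continuous_projIcc.comp (by fun_prop)
  set f : V → X := fun x => if ‖x‖ < 1 / 2 then y else H (τ x, s x) with hf
  have hτ1 : ∀ x : V, ‖x‖ ≤ 1 / 2 → τ x = 1 := by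
    intro x hx
    simp only [hτ]
    exact Set.projIcc_of_right_le _ (by linarith)
  have hτ0 : ∀ x : V, 1 ≤ ‖x‖ → τ x = 0 := by
    intro x hx
    simp only [hτ]
    exact Set.projIcc_of_le_left _ (by linarith)
  have hfc : Continuous f := by
    rw [continuous_iff_continuousAt]
    intro x
    by_cases hx : ‖x‖ < 1 / 2
    · have h1 : ContinuousAt (fun _ : V => y) x := continuousAt_const
      apply h1.congr
      filter_upwards [(isOpen_lt continuous_norm continuous_const).mem_nhds hx] with z hz
      have hz' : ‖z‖ < 1 / 2 := hz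
      simp only [hf]
      rw [if_pos hz']
    · push Not at hx
      have hx0 : x ≠ 0 := by
        intro h0
        rw [h0, norm_zero] at hx
        linarith
      have h1 : ContinuousAt (fun z : V => H (τ z, s z)) x := by
        have h2 : ContinuousAt (fun z : V => (τ z, s z)) x := hτc.continuousAt.prodMk (hscont x hx0)
        exact H.continuous.continuousAt.comp h2
      apply h1.congr
      filter_upwards [isOpen_ne.mem_nhds hx0] with z hz
      simp only [hf]
      split_ifs with hz2
      · rw [hτ1 z hz2.le]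
        simp
      · rfl
  have hne : ∀ x : V, ((f x : X) : V) ≠ 0 := by
    intro x h0
    have := (f x).2
    rw [h0] at this
    exact hX this
  set F : V → V := fun x => -((‖((f x : X) : V)‖)⁻¹ • ((f x : X) : V)) with hF
  have hFc : Continuous F := by
    have h1 : Continuous (fun x : V => ((f x : X) : V)) := continuous_subtype_val.comp hfc
    have h2 : Continuous (fun x : V => (‖((f x : X) : V)‖)⁻¹) :=
      h1.norm.inv₀ (fun x => norm_ne_zero_iff.2 (hne x))
    exact (h2.smul h1).neg
  have hFn : ∀ x, ‖F x‖ = 1 := by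
    intro x
    simp only [hF]
    rw [norm_neg, norm_smul, norm_inv, norm_norm]
    exact inv_mul_cancel₀ (norm_ne_zero_iff.2 (hne x))
  obtain ⟨x, hx⟩ := Pool.Agent.Helper133.Brouwer.brouwer_euclidean 3 F hFc 1 (fun x => (hFn x).le)
  have hx1 : ‖x‖ = 1 := by
    rw [← hx]
    exact hFn x
  have hx0 : x ≠ 0 := by
    intro h0
    rw [h0, norm_zero] at hx1
    norm_num at hx1
  have hfx : ((f x : X) : V) = ρ • x := by
    simp only [hf]
    rw [if_neg (by rw [hx1]; norm_num), hτ0 x hx1.ge]
    rw [H.apply_zero]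
    rw [ContinuousMap.id_apply, hsval x hx0, hx1, div_one]
  have hFx : F x = -x := by
    simp only [hF]
    rw [hfx, norm_smul, hx1, Real.norm_of_nonneg hρ.le, mul_one, smul_smul, inv_mul_cancel₀ hρ.ne', one_smul]
  rw [hFx] at hx
  apply hx0
  have h2 : (2 : ℝ) • x = 0 := by
    rw [two_smul]
    nth_rewrite 1 [← hx]
    simp
  exact (smul_eq_zero.1 h2).resolve_left (by norm_num)

/-- if both phases are contractible then every sphere meets the free boundary -/
theorem sphere_meets {D : Set V} {u : V → ℝ} {δ : ℝ} (h : Sol D u) (hδ : 0 < δ) (hD : ann δ 1 ⊆ D)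
    {X Y : Set V} (hX0 : (0 : V) ∉ X) (hY0 : (0 : V) ∉ Y) (hX : ∀ x ∈ D, 0 < u x → x ∈ X)
    (hY : ∀ x ∈ D, u x = 0 → x ∈ Y) (hcX : ContractibleSpace X) (hcY : ContractibleSpace Y) :
    ∀ ρ : ℝ, δ < ρ → ρ < 1 → ∃ p ∈ FF D u, ‖p‖ = ρ := by
  intro ρ hρ1 hρ2
  by_contra hcon
  push Not at hcon
  have hrk : 1 < Module.rank ℝ V := by
    rw [← Module.finrank_eq_rank, finrank_euclideanSpace]
    norm_num
  have hS : IsPreconnected (sphere (0 : V) ρ) := isPreconnected_sphere hrk 0 ρ
  have hSD : sphere (0 : V) ρ ⊆ D := by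
    intro x hx
    apply hD
    rw [mem_sphere_zero_iff_norm] at hx
    exact ⟨by rw [hx]; exact hρ1, by rw [hx]; exact hρ2⟩
  rcases h.clean hS hSD (fun x hx hxF => hcon x hxF (mem_sphere_zero_iff_norm.1 hx)) with h1 | h1
  · exact no_sphere hX0 (hδ.trans hρ1) (fun x hx => by
      have := h1 (mem_sphere_zero_iff_norm.2 hx)
      exact hX x this.1 this.2)
  · exact no_sphere hY0 (hδ.trans hρ1) (fun x hx => by
      have h2 := h1 x (mem_sphere_zero_iff_norm.2 hx)
      have h3 := hSD (mem_sphere_zero_iff_norm.2 hx)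
      exact hY x h3 (h.eq_zero_of_not_mem h3 h2))

end

end Pool.Agent.D0H33.FB
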