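import Mathlib
import Pool.Agent.D0H33.FB.A25
import Pool.Agent.D0H33.FB.A23
import Pool.Agent.D0H33.FB.A07

set_option autoImplicit false

open Set Metric Filter Topology MeasureTheory
open ExtStar (lap)

namespace Pool.Agent.D0H33.FB

noncomputable section

lemma ball_ann {p : V} {t r a b : ℝ} (h1 : a ≤ ‖p‖ - r) (h2 : ‖p‖ + r ≤ b) (_ht : t = r) :
    ball p r ⊆ ann a b := by
  intro x hx
  rw [mem_ball, dist_eq_norm] at hx
  have h3 : ‖p‖ ≤ ‖x‖ + ‖x - p‖ := by
    have := norm_sub_le x (x - p)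
    simpa using this
  have h4 : ‖x‖ ≤ ‖p‖ + ‖x - p‖ := by
    have := norm_add_le p (x - p)
    simpa using this
  exact ⟨by linarith, by linarith⟩

/-- configurations from solutions -/
theorem cfg_consts (L : ℝ) (hL : 1 ≤ L) : ∃ c κ : ℝ, 0 < c ∧ 8 ≤ κ ∧
    (∀ (D : Set V) (u : V → ℝ) (δ : ℝ), Sol D u → 0 < δ → ann δ 1 ⊆ D →
      (∀ ρ : ℝ, δ < ρ → ρ < 1 → ∃ p ∈ FF D u, ‖p‖ = ρ) →
      (∀ x : V, δ < ‖x‖ → ‖x‖ < 1 → u x ≤ L * ‖x‖ ∧ (x ∈ NN D u → ‖gr u x‖ ≤ L)) →
      Cfg L c κ δ D u) ∧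
    (∀ (D : Set V) (u : V → ℝ) (δ : ℝ), Sol D u → 0 < δ → closedBall 0 1 ⊆ D →
      (∀ x ∈ NN D u, ‖x‖ ≤ 1 → ‖gr u x‖ ≤ L) → (0 : V) ∈ FF D u → Cfg L c κ δ D u) := by
  obtain ⟨c0, hc0, hdens⟩ := density L (by linarith)
  have hom := om_pos
  refine ⟨c0 / 64, max 8 (2 * om / c0), by positivity, le_max_left _ _, ?_, ?_⟩
  · intro D u δ h hδ hD hF hlip
    refine ⟨h, hδ, fun x h1 h2 => hD ⟨h1, h2⟩, fun x hx h1 h2 => (hlip x h1 h2).2 hx,
      fun x h1 h2 => (hlip x h1 h2).1, ?_⟩
    intro t ht1 ht2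
    have hκ8 : (8 : ℝ) ≤ max 8 (2 * om / c0) := le_max_left _ _
    generalize max 8 (2 * om / c0) = κ at hκ8 ht1 ⊢
    have ht8 : 8 * δ ≤ t := le_trans (by nlinarith) ht1
    have ht0 : 0 < t := by linarith
    obtain ⟨p, hp, hpn⟩ := hF (t / 2) (by linarith) (by linarith)
    have hcl : closedBall p (t / 4) ⊆ ann δ 1 := by
      intro x hx
      rw [mem_closedBall, dist_eq_norm] at hx
      have h3 : ‖p‖ ≤ ‖x‖ + ‖x - p‖ := by
        have := norm_sub_le x (x - p)
        simpa using this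
      have h4 : ‖x‖ ≤ ‖p‖ + ‖x - p‖ := by
        have := norm_add_le p (x - p)
        simpa using this
      exact ⟨by linarith, by linarith⟩
    have h1 := hdens D u p (t / 4) h (by linarith) (hcl.trans hD)
      (fun x hx hxb => (hlip x (hcl hxb).1 (hcl hxb).2).2 hx)
      (frontier_subset_closure hp.2)
    have htk : t / κ ≤ t / 8 := by
      apply div_le_div_of_nonneg_left ht0.le (by norm_num) hκ8
    have h2 : ball p (t / 4) ⊆ ann (t / κ) t :=
      ball_ann (t := t / 4) (by linarith) (by linarith) rfl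
    have h3 : (volume : Measure V).real (NN D u ∩ ball p (t / 4)) ≤
        (volume : Measure V).real (NN D u ∩ ann (t / κ) t) := by
      exact measureReal_mono (inter_subset_inter_right _ h2)
        ((measure_mono inter_subset_right).trans_lt (ann_fin _ _)).ne
    refine le_trans (le_of_eq ?_) (h1.trans h3)
    ring
  · intro D u δ h hδ hD hlip h0
    have hu0 : u 0 = 0 := h.zero_of_FF h0
    refine ⟨h, hδ, ?_, ?_, ?_, ?_⟩
    · intro x _ h2
      apply hD
      rw [mem_closedBall, dist_zero_right]; exact h2.le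
    · intro x hx _ h2
      exact hlip x hx h2.le
    · intro x _ h2
      have h3 := h.lip_convex (L := L) (by linarith) (convex_closedBall (0 : V) 1) hD
        (fun z hz hzb => hlip z hz (by rwa [mem_closedBall, dist_zero_right] at hzb))
        (x := x) (y := 0) (by rw [mem_closedBall, dist_zero_right]; exact h2.le)
        (mem_closedBall_self (by norm_num))
      rw [hu0, sub_zero, sub_zero] at h3
      exact (le_abs_self _).trans h3
    · intro t ht1 ht2
      have hκ8 : (8 : ℝ) ≤ max 8 (2 * om / c0) := le_max_left _ _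
      have hκ2 : 2 * om / c0 ≤ max 8 (2 * om / c0) := le_max_right _ _
      generalize max 8 (2 * om / c0) = κ at hκ8 ht1 hκ2 ⊢
      have hκ0 : 0 < κ := by linarith
      have ht8 : 8 * δ ≤ t := le_trans (by nlinarith) ht1
      have ht0 : 0 < t := by linarith
      have hb : closedBall (0 : V) t ⊆ closedBall 0 1 := closedBall_subset_closedBall (by linarith)
      have h1 := hdens D u 0 t h ht0 (hb.trans hD)
        (fun x hx hxb => hlip x hx (by
          have := hb hxb
          rwa [mem_closedBall, dist_zero_right] at this))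
        (frontier_subset_closure h0.2)
      have hsub : NN D u ∩ ball 0 t ⊆ (NN D u ∩ ann (t / κ) t) ∪ closedBall 0 (t / κ) := by
        intro x hx
        by_cases hxk : ‖x‖ ≤ t / κ
        · right
          rw [mem_closedBall, dist_zero_right]; exact hxk
        · left
          push Not at hxk
          have h4 := hx.2
          rw [mem_ball, dist_zero_right] at h4
          exact ⟨hx.1, hxk, h4⟩
      have h2 : (volume : Measure V).real (NN D u ∩ ball 0 t) ≤
          (volume : Measure V).real (NN D u ∩ ann (t / κ) t) + om * (t / κ) ^ 3 := by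
        rw [← vol_closedBall (0 : V) (r := t / κ) (by positivity)]
        refine (measureReal_mono hsub ?_).trans (measureReal_union_le _ _)
        have e1 : (volume : Measure V) (NN D u ∩ ann (t / κ) t) ≠ ⊤ :=
          ((measure_mono inter_subset_right).trans_lt (ann_fin _ _)).ne
        have e2 : (volume : Measure V) (closedBall (0 : V) (t / κ)) ≠ ⊤ :=
          measure_closedBall_lt_top.ne
        exact measure_union_ne_top e1 e2
      have h3 : om * (t / κ) ^ 3 ≤ c0 / 2 * t ^ 3 := by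
        have h5 : om ≤ c0 / 2 * κ ^ 3 := by
          have h6 : 2 * om ≤ κ * c0 := by rwa [div_le_iff₀ hc0] at hκ2
          have h7 : κ ≤ κ ^ 3 := by nlinarith [sq_nonneg κ]
          nlinarith
        rw [div_pow, mul_div_assoc', div_le_iff₀ (by positivity)]
        have h6 : 0 ≤ t ^ 3 := by positivity
        nlinarith
      have h6 : 0 ≤ c0 * t ^ 3 := by positivity
      linarith

/-- from a solution in the annulus to a configuration -/
theorem cfg_main : ∃ L c κ : ℝ, 1 ≤ L ∧ 0 < c ∧ 8 ≤ κ ∧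
    (∀ (D : Set V) (u : V → ℝ) (δ : ℝ), Sol D u → 0 < δ → ann δ 1 ⊆ D →
      (∀ ρ : ℝ, δ < ρ → ρ < 1 → ∃ p ∈ FF D u, ‖p‖ = ρ) →
      Cfg L c κ (4 * δ) (sclD 0 (1 / 2) D) (scl 0 (1 / 2) u)) ∧
    (∀ (D : Set V) (u : V → ℝ) (δ : ℝ), Sol D u → 0 < δ → closedBall 0 1 ⊆ D →
      (∀ x ∈ NN D u, ‖x‖ ≤ 1 → ‖gr u x‖ ≤ L) → (0 : V) ∈ FF D u → Cfg L c κ δ D u) := by
  obtain ⟨L, hL, hlip⟩ := lip_ann
  obtain ⟨c, κ, hc, hκ, h1, h2⟩ := cfg_consts L hL
  refine ⟨L, c, κ, hL, hc, hκ, ?_, h2⟩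
  intro D u δ h hδ hD hF
  have hh : (0 : ℝ) < 1 / 2 := by norm_num
  have hn : ∀ x : V, ‖(0 : V) + (1 / 2 : ℝ) • x‖ = ‖x‖ / 2 := by
    intro x
    rw [zero_add, norm_rsmul hh]; ring
  apply h1 _ _ _ (h.scale 0 hh) (by linarith)
  · intro x hx
    apply hD
    exact ⟨by rw [hn]; linarith [hx.1], by rw [hn]; linarith [hx.2]⟩
  · intro ρ hρ1 hρ2
    obtain ⟨p, hp, hpn⟩ := hF (ρ / 2) (by linarith) (by linarith)
    refine ⟨(2 : ℝ) • p, ?_, ?_⟩
    · rw [FF_scl 0 hh]
      show (0 : V) + (1 / 2 : ℝ) • (2 : ℝ) • p ∈ FF D u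
      rw [zero_add, smul_smul]
      norm_num
      exact hp
    · rw [norm_rsmul (by norm_num), hpn]; ring
  · intro x hx1 hx2
    have h3 := hlip D u δ h hδ hD hF ((0 : V) + (1 / 2 : ℝ) • x) (by rw [hn]; linarith)
      (by rw [hn]; linarith)
    rw [hn] at h3
    constructor
    · unfold scl
      have := h3.1
      rw [div_le_iff₀ hh]
      linarith
    · intro hx
      rw [NN_scl 0 hh] at hx
      rw [gr_scl h 0 hh hx]
      exact h3.2 hx

end

end Pool.Agent.D0H33.FB
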