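import Mathlib
import Pool.Agent.D0H33.FB.A20

set_option autoImplicit false

open Set Metric Filter Topology MeasureTheory
open ExtStar (lap)

namespace Pool.Agent.D0H33.FB

noncomputable section

lemma ddchi_bd : ∃ C : ℝ, 0 < C ∧ ∀ t, |deriv (deriv chi) t| ≤ C := by
  have hc : Continuous (deriv (deriv chi)) := by
    have h1 : ContDiff ℝ 2 chi := chi_smooth (n := 2)
    have h2 : ContDiff ℝ 1 (deriv chi) := by
      have h : (2 : WithTop ℕ∞) = 1 + 1 := by norm_num
      rw [h, contDiff_succ_iff_deriv] at h1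
      exact h1.2.2
    exact h2.continuous_deriv (by norm_num)
  obtain ⟨C, hC⟩ := (isCompact_Icc (a := (0 : ℝ)) (b := 3)).exists_bound_of_continuousOn
    hc.continuousOn
  refine ⟨max C 1, by positivity, fun t => ?_⟩
  by_cases h1 : t < 1
  · have : deriv chi =ᶠ[𝓝 t] fun _ => (0 : ℝ) := by
      filter_upwards [isOpen_Iio.mem_nhds h1] with r hr
      exact dchi_zero (le_of_lt hr)
    rw [this.deriv_eq]; simp
  by_cases h2 : 2 < t
  · have : deriv chi =ᶠ[𝓝 t] fun _ => (0 : ℝ) := by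
      filter_upwards [isOpen_Ioi.mem_nhds h2] with r hr
      exact dchi_zero' (le_of_lt hr)
    rw [this.deriv_eq]; simp
  · push Not at h1 h2
    exact (hC t ⟨by linarith, by linarith⟩).trans (le_max_left _ _)

lemma dchi_diff (t : ℝ) : DifferentiableAt ℝ (deriv chi) t := by
  have h1 : ContDiff ℝ 2 chi := chi_smooth (n := 2)
  have h2 : ContDiff ℝ 1 (deriv chi) := by
    have h : (2 : WithTop ℕ∞) = 1 + 1 := by norm_num
    rw [h, contDiff_succ_iff_deriv] at h1
    exact h1.2.2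
  exact h2.differentiable (by norm_num) t

/-- Laplacian of the product with a one dimensional cut off -/
lemma lap_cut : ∃ C : ℝ, 0 < C ∧ ∀ (v : V → ℝ) (ν x : V) (τ : ℝ), 0 < τ → ‖ν‖ = 1 →
    ContDiffAt ℝ 2 v x → lap v x = 0 →
    |lap (fun y => chi (inner ℝ ν y / τ) * v y) x| ≤ C * (|v x| / τ ^ 2 + ‖fderiv ℝ v x‖ / τ) := by
  obtain ⟨C1, hC1, hd1⟩ := dchi_bd
  obtain ⟨C2, hC2, hd2⟩ := ddchi_bd
  refine ⟨2 * C1 + C2, by positivity, ?_⟩
  intro v ν x τ hτ hν hv hl
  have hlinD0 : ∀ y : V, HasFDerivAt (fun y : V => inner ℝ ν y / τ) (τ⁻¹ • innerSL ℝ ν) y := by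
    intro y
    have := (innerSL ℝ ν).hasFDerivAt (x := y) |>.mul_const τ⁻¹
    simpa [div_eq_mul_inv] using this
  set lin : V → ℝ := fun y => inner ℝ ν y / τ with hlin
  have hlinD : ∀ y, HasFDerivAt lin (τ⁻¹ • innerSL ℝ ν) y := hlinD0
  have hA : ∀ y, HasFDerivAt (fun y : V => chi (lin y))
      (deriv chi (lin y) • (τ⁻¹ • innerSL ℝ ν)) y := fun y =>
    (chi_diff _).hasDerivAt.comp_hasFDerivAt y (hlinD y)
  have hA' : ∀ y, HasFDerivAt (fun y : V => deriv chi (lin y))
      (deriv (deriv chi) (lin y) • (τ⁻¹ • innerSL ℝ ν)) y := fun y =>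
    (dchi_diff _).hasDerivAt.comp_hasFDerivAt y (hlinD y)
  have hlinS : ContDiff ℝ 2 lin := (contDiff_const.inner ℝ contDiff_id).div_const τ
  have hav : ContDiffAt ℝ 2 (fun y => chi (lin y) * v y) x :=
    (((chi_smooth (n := 2)).comp hlinS).contDiffAt).mul hv
  have hev : ∀ᶠ y in 𝓝 x, ContDiffAt ℝ 2 v y := hv.eventually (by simp)
  have hi : ∀ w : V, fderiv ℝ (fun y => fderiv ℝ (fun y => chi (lin y) * v y) y w) x w =
      chi (lin x) * fderiv ℝ (fun y => fderiv ℝ v y w) x w +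
      2 * (deriv chi (lin x) * (τ⁻¹ * inner ℝ ν w)) * fderiv ℝ v x w +
      v x * (deriv (deriv chi) (lin x) * (τ⁻¹ * inner ℝ ν w) * (τ⁻¹ * inner ℝ ν w)) := by
    intro w
    have h1 : (fun y => fderiv ℝ (fun y => chi (lin y) * v y) y w) =ᶠ[𝓝 x]
        fun y => chi (lin y) * fderiv ℝ v y w + v y * (deriv chi (lin y) * (τ⁻¹ * inner ℝ ν w)) := by
      filter_upwards [hev] with y hy
      have h2 : HasFDerivAt (fun y => chi (lin y) * v y) _ y :=
        (hA y).mul (hy.differentiableAt (by norm_num)).hasFDerivAt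
      rw [h2.fderiv]
      simp
    rw [h1.fderiv_eq]
    have h3 : DifferentiableAt ℝ (fderiv ℝ v) x :=
      (hv.fderiv_right (m := 1) (by norm_num)).differentiableAt (by norm_num)
    have h4 : DifferentiableAt ℝ (fun y => fderiv ℝ v y w) x :=
      (h3.hasFDerivAt.clm_apply (hasFDerivAt_const w x)).differentiableAt
    have h5 : HasFDerivAt (fun y => chi (lin y) * fderiv ℝ v y w) _ x := (hA x).mul h4.hasFDerivAt
    have h6 : HasFDerivAt (fun y => deriv chi (lin y) * (τ⁻¹ * inner ℝ ν w)) _ x :=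
      (hA' x).mul_const (τ⁻¹ * inner ℝ ν w)
    have h7 : HasFDerivAt (fun y => v y * (deriv chi (lin y) * (τ⁻¹ * inner ℝ ν w))) _ x :=
      (hv.differentiableAt (by norm_num)).hasFDerivAt.mul h6
    have h8 := h5.add h7
    have e : (fun y => chi (lin y) * fderiv ℝ v y w) + (fun y => v y * (deriv chi (lin y) * (τ⁻¹ * inner ℝ ν w))) =
        fun y => chi (lin y) * fderiv ℝ v y w + v y * (deriv chi (lin y) * (τ⁻¹ * inner ℝ ν w)) := rfl
    rw [e] at h8
    rw [h8.fderiv]
    simp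
    ring
  rw [lap_eq hav]
  have hsum : ∑ i, fderiv ℝ (fun y => fderiv ℝ (fun y => chi (lin y) * v y) y (ee i)) x (ee i) =
      chi (lin x) * lap v x + 2 * (deriv chi (lin x) * τ⁻¹) * fderiv ℝ v x ν +
        v x * (deriv (deriv chi) (lin x) * (τ⁻¹ * τ⁻¹)) * ‖ν‖ ^ 2 := by
    have e1 : ∀ i, inner ℝ ν (ee i) = ν i := by
      intro i
      unfold ee
      rw [EuclideanSpace.inner_single_right]
      simp
    have e2 : ‖ν‖ ^ 2 = ∑ i, ν i * ν i := by
      rw [EuclideanSpace.norm_sq_eq]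
      apply Finset.sum_congr rfl
      intro i _
      rw [Real.norm_eq_abs, sq_abs, sq]
    rw [lap_eq hv, clm_sum (fderiv ℝ v x) ν, e2, Finset.mul_sum, Finset.mul_sum, Finset.mul_sum,
      ← Finset.sum_add_distrib, ← Finset.sum_add_distrib]
    apply Finset.sum_congr rfl
    intro i _
    rw [hi (ee i), e1 i]
    ring
  rw [hsum, hl, hν, mul_zero, zero_add, one_pow, mul_one]
  have b1 : |2 * (deriv chi (lin x) * τ⁻¹) * fderiv ℝ v x ν| ≤ 2 * C1 * (‖fderiv ℝ v x‖ / τ) := by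
    rw [abs_mul, abs_mul, abs_mul, abs_of_pos (by norm_num : (0:ℝ) < 2), abs_of_pos (inv_pos.2 hτ)]
    have h1 := le_op (fderiv ℝ v x) ν
    rw [hν, mul_one] at h1
    have h2 := hd1 (lin x)
    calc 2 * (|deriv chi (lin x)| * τ⁻¹) * |fderiv ℝ v x ν|
        ≤ 2 * (C1 * τ⁻¹) * ‖fderiv ℝ v x‖ := by gcongr
      _ = 2 * C1 * (‖fderiv ℝ v x‖ / τ) := by ring
  have b2 : |v x * (deriv (deriv chi) (lin x) * (τ⁻¹ * τ⁻¹))| ≤ C2 * (|v x| / τ ^ 2) := by
    rw [abs_mul, abs_mul, abs_of_pos (by positivity : (0:ℝ) < τ⁻¹ * τ⁻¹)]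
    have h2 := hd2 (lin x)
    calc |v x| * (|deriv (deriv chi) (lin x)| * (τ⁻¹ * τ⁻¹))
        ≤ |v x| * (C2 * (τ⁻¹ * τ⁻¹)) := by gcongr
      _ = C2 * (|v x| / τ ^ 2) := by field_simp
  have p1 : 0 ≤ ‖fderiv ℝ v x‖ / τ := by positivity
  have p2 : 0 ≤ |v x| / τ ^ 2 := by positivity
  refine (abs_add_le _ _).trans ((add_le_add b1 b2).trans ?_)
  nlinarith [mul_nonneg hC1.le p2, mul_nonneg hC2.le p1]

/-- Taylor expansion of the antisymmetrised kernel against the cut off function -/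
theorem kernel_odd : ∃ C : ℝ, 0 < C ∧ ∀ (P : V → ℝ) (I : ℝ) (ν : V), Continuous P → ‖ν‖ = 1 → 0 ≤ I →
    (∀ (k : V → ℝ) (B : ℝ), Continuous k → 0 ≤ B → (∀ y, |k y| ≤ B) → (∀ y, 3 / 4 ≤ ‖y‖ → k y = 0) →
      ∫ y, |P y * k y| ≤ B * I) →
    ∃ b : ℝ, |b| ≤ C * I ∧ ∀ x : V, ‖x‖ ≤ 1 / 8 →
        |(∫ y, P y * (qk (1 / 8) (y - x) - qk (1 / 8) (y - rf ν x))) - b * inner ℝ ν x| ≤
          C * ‖x‖ ^ 2 * I := by
  have hfar : ∀ z : V, 1 / 8 ≤ ‖z‖ → qk (1 / 8) z = 0 := fun z hz => qk_far (by norm_num) hz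
  obtain ⟨M, hM, m1, m2, m3, m4, m5⟩ := C2_bounds (qk_C2 (1 / 8)) (supp_of_far hfar)
  refine ⟨2 * M, by positivity, ?_⟩
  intro P I ν hP hν hI hint
  set q := qk (1 / 8) with hq
  have hqs : ContDiff ℝ 2 q := qk_C2 _
  have hq1 : ContDiff ℝ 1 q := hqs.of_le (by norm_num)
  have hqc : Continuous q := hqs.continuous
  have hg0 : ∀ y : V, 1 / 8 < ‖y‖ → fderiv ℝ q y = 0 := fun y hy => fderiv_far hfar hy
  have hdc : Continuous (fun y => fderiv ℝ q y ν) :=
    (hq1.continuous_fderiv (by norm_num)).clm_apply continuous_const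
  refine ⟨-2 * ∫ y, P y * fderiv ℝ q y ν, ?_, ?_⟩
  · have h1 := hint (fun y => fderiv ℝ q y ν) M hdc hM.le
      (fun y => by
        have := le_op (fderiv ℝ q y) ν
        rw [hν, mul_one] at this
        exact this.trans (m2 y))
      (fun y hy => by rw [hg0 y (by linarith)]; simp)
    rw [abs_mul, abs_of_neg (by norm_num : (-2:ℝ) < 0)]
    have h2 : |∫ y, P y * fderiv ℝ q y ν| ≤ M * I := abs_integral_le_integral_abs.trans h1
    have : 0 ≤ M * I := by positivity
    linarith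
  · intro x hx
    have hrx : ‖rf ν x‖ ≤ 1 / 8 := by rw [rf_norm hν]; exact hx
    have hfar2 : ∀ (z : V), ‖z‖ ≤ 1 / 8 → ∀ y : V, 1 / 4 ≤ ‖y‖ → q (y - z) = 0 := by
      intro z hz y hy
      apply hfar
      have := norm_sub_norm_le y z
      linarith
    have c1 : Continuous (fun y => q (y - x)) := hqc.comp (continuous_id.sub continuous_const)
    have c2 : Continuous (fun y => q (y - rf ν x)) := hqc.comp (continuous_id.sub continuous_const)
    set R : V → ℝ := fun y => q (y - x) - q (y - rf ν x) + 2 * inner ℝ ν x * fderiv ℝ q y ν with hR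
    have hRc : Continuous R := (c1.sub c2).add (continuous_const.mul hdc)
    have hR0 : ∀ y : V, 1 / 4 ≤ ‖y‖ → R y = 0 := by
      intro y hy
      simp only [hR]
      rw [hfar2 x hx y hy, hfar2 _ hrx y hy, hg0 y (by linarith)]
      simp
    have hRb : ∀ y, |R y| ≤ 2 * M * ‖x‖ ^ 2 := by
      intro y
      have h1 := m5 y (-x)
      have h2 := m5 y (-(rf ν x))
      rw [norm_neg] at h1 h2
      rw [rf_norm hν] at h2
      have e : R y = (q (y + -x) - q y - fderiv ℝ q y (-x)) -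
          (q (y + -(rf ν x)) - q y - fderiv ℝ q y (-(rf ν x))) := by
        simp only [hR]
        rw [← sub_eq_add_neg, ← sub_eq_add_neg, map_neg, map_neg]
        unfold rf
        rw [map_sub, map_smul]
        simp only [smul_eq_mul]
        ring
      rw [e]
      refine (abs_sub _ _).trans ?_
      linarith
    have iR : Integrable (fun y => P y * R y) := by
      apply (hP.mul hRc).integrable_of_hasCompactSupport
      apply HasCompactSupport.intro (isCompact_closedBall (0 : V) (1 / 4))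
      intro y hy
      rw [mem_closedBall, dist_zero_right, not_le] at hy
      rw [Pi.mul_apply, hR0 y hy.le]; simp
    have iw : Integrable (fun y => P y * fderiv ℝ q y ν) := by
      apply (hP.mul hdc).integrable_of_hasCompactSupport
      apply HasCompactSupport.intro (isCompact_closedBall (0 : V) (1 / 8))
      intro y hy
      rw [mem_closedBall, dist_zero_right, not_le] at hy
      rw [Pi.mul_apply, hg0 y hy]; simp
    have e2 : (∫ y, P y * (q (y - x) - q (y - rf ν x))) =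
        -2 * inner ℝ ν x * (∫ y, P y * fderiv ℝ q y ν) + ∫ y, P y * R y := by
      rw [← integral_const_mul, ← integral_add (iw.const_mul _) iR]
      congr 1
      funext y
      simp only [hR]
      ring
    rw [e2]
    have e3 : -2 * inner ℝ ν x * (∫ y, P y * fderiv ℝ q y ν) + (∫ y, P y * R y) -
        (-2 * ∫ y, P y * fderiv ℝ q y ν) * inner ℝ ν x = ∫ y, P y * R y := by ring
    rw [e3]
    have h3 := hint R (2 * M * ‖x‖ ^ 2) hRc (by positivity) hRb (fun y hy => hR0 y (by linarith))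
    refine abs_integral_le_integral_abs.trans (h3.trans (le_of_eq ?_))
    ring

end

end Pool.Agent.D0H33.FB
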