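import Mathlib
import Pool.Agent.D0H33.FB.A28

set_option autoImplicit false

open Set Metric Filter Topology MeasureTheory
open ExtStar (lap)

namespace Pool.Agent.D0H33.FB

noncomputable section

/-- flat solutions are small near the plane -/
lemma flat_small {L c κ δ : ℝ} {D : Set V} {u : V → ℝ} (hL : 1 ≤ L) (hc : Cfg L c κ δ D u) {ν : V}
    (hν : ‖ν‖ = 1) {τ : ℝ} (hτ : 4 * δ ≤ τ) (hτ1 : τ ≤ 1 / 64)
    (hneg : ∀ x ∈ ann δ 1, inner ℝ ν x < -τ → x ∉ NN D u) {y : V} (hy : y ∈ ann δ 1)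
    (hy3 : ‖y‖ ≤ 3 / 4) (hy2 : inner ℝ ν y ≤ 2 * τ) (hy4 : -τ ≤ inner ℝ ν y) : u y ≤ 6 * L * τ := by
  have hδ := hc.δ0
  have hτ0 : 0 < τ := by linarith
  by_cases h1 : ‖y‖ ≤ 6 * τ
  · have := hc.bd y hy.1 hy.2
    nlinarith
  · push Not at h1
    set z := y - (4 * τ) • ν with hz
    have hseg : segment ℝ z y ⊆ ann δ 1 := by
      intro w hw
      have h2 : ‖w - y‖ ≤ 4 * τ := by
        have h3 : w ∈ closedBall y (4 * τ) := by
          apply (convex_closedBall y (4 * τ)).segment_subset _ _ hw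
          · rw [mem_closedBall, dist_eq_norm, hz, sub_sub_cancel_left, norm_neg, norm_smul, hν,
              mul_one, Real.norm_of_nonneg (by positivity)]
          · exact mem_closedBall_self (by positivity)
        rwa [mem_closedBall, dist_eq_norm] at h3
      have h3 : ‖y‖ ≤ ‖w‖ + ‖w - y‖ := by
        have := norm_sub_le w (w - y)
        simpa using this
      have h4 : ‖w‖ ≤ ‖y‖ + ‖w - y‖ := by
        have := norm_add_le y (w - y)
        simpa using this
      exact ⟨by linarith, by linarith⟩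
    have hzz : inner ℝ ν z = inner ℝ ν y - 4 * τ := by
      rw [hz, inner_sub_right, inner_smul_right, real_inner_self_eq_norm_sq, hν]; ring
    have hza : z ∈ ann δ 1 := hseg (left_mem_segment ℝ z y)
    have hzN : z ∉ NN D u := hneg z hza (by rw [hzz]; linarith)
    have hz0 : u z = 0 := hc.sol.eq_zero_of_not_mem (hc.sub z hza.1 hza.2) hzN
    have h5 := hc.sol.lip_convex (L := L) (by linarith) (convex_segment z y)
      (fun w hw => hc.sub w (hseg hw).1 (hseg hw).2)
      (fun w hw hws => hc.lip w hw (hseg hws).1 (hseg hws).2)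
      (right_mem_segment ℝ z y) (left_mem_segment ℝ z y)
    rw [hz0, sub_zero] at h5
    have h6 : ‖y - z‖ = 4 * τ := by
      rw [hz, sub_sub_cancel, norm_smul, hν, mul_one, Real.norm_of_nonneg (by positivity)]
    rw [h6] at h5
    have := (le_abs_self _).trans h5
    nlinarith

/-- integrals against the cut off function: sup bound -/
lemma Pint_sup {P k : V → ℝ} {A B : ℝ} (hPc : Continuous P) (hA : 0 ≤ A) (hB : 0 ≤ B)
    (hP : ∀ y : V, ‖y‖ < 3 / 4 → |P y| ≤ A) (hk : Continuous k) (hkB : ∀ y, |k y| ≤ B)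
    (hk0 : ∀ y, 3 / 4 ≤ ‖y‖ → k y = 0) :
    ∫ y, |P y * k y| ≤ B * (A * om) := by
  have hom := om_pos
  have h1 : ∫ y, |P y * k y| = ∫ y in ball (0 : V) (3 / 4), |P y * k y| := by
    symm
    apply setIntegral_eq_integral_of_forall_compl_eq_zero
    intro y hy
    rw [mem_ball, dist_zero_right, not_lt] at hy
    rw [hk0 y hy]; simp
  rw [h1]
  have h2 : ∫ y in ball (0 : V) (3 / 4), |P y * k y| ≤ ∫ y in ball (0 : V) (3 / 4), A * B := by
    apply setIntegral_mono_on
    · have : Continuous (fun y => |P y * k y|) := (hPc.mul hk).abs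
      exact (this.continuousOn.integrableOn_compact (isCompact_closedBall (0 : V) (3 / 4))).mono_set
        ball_subset_closedBall
    · exact integrableOn_const (hs := measure_ball_lt_top.ne)
    · exact measurableSet_ball
    · intro y hy
      rw [mem_ball, dist_zero_right] at hy
      show |P y * k y| ≤ A * B
      rw [abs_mul]
      exact mul_le_mul (hP y hy) (hkB y) (abs_nonneg _) hA
  refine h2.trans ?_
  rw [setIntegral_const, vol_ball _ (r := 3 / 4) (by norm_num), smul_eq_mul]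
  have : 0 ≤ A * B := by positivity
  nlinarith [mul_nonneg this hom.le]

/-- flat solutions are close to multiples of the half space solution -/
theorem init_rep (L c κ : ℝ) (hL : 1 ≤ L) : ∃ C : ℝ, 0 < C ∧ ∀ s0 : ℝ, 0 < s0 → s0 ≤ 1 / 8 →
    ∀ γ : ℝ, 0 < γ → ∃ ε : ℝ, 0 < ε ∧ ∀ (δ : ℝ) (D : Set V) (u : V → ℝ) (ν : V),
      Cfg L c κ δ D u → ‖ν‖ = 1 → δ ≤ ε → (∀ x ∈ ann δ 1, ε < inner ℝ ν x → x ∈ NN D u) →
      (∀ x ∈ ann δ 1, inner ℝ ν x < -ε → x ∉ NN D u) →
      ∃ α : ℝ, |α| ≤ C ∧ ∀ x : V, ‖x‖ ≤ 1 / 8 → s0 ≤ inner ℝ ν x →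
          |u x - α * inner ℝ ν x| ≤ C * ‖x‖ ^ 2 + γ := by
  obtain ⟨Ck, hCk, hker⟩ := kernel_odd
  obtain ⟨Cl, hCl, hlap⟩ := lap_cut
  obtain ⟨Cs, hCs, hslab⟩ := slab_vol
  have hκp := kap_pos
  have hom := om_pos
  refine ⟨Ck * (L * om) / kap, by positivity, ?_⟩
  intro s0 hs0 hs08 γ hγ
  have hs : 0 < s0 / 2 := by positivity
  have hsT : s0 / 2 ≤ 1 / 8 := by linarith
  have hQfar : ∀ z : V, 1 / 8 ≤ ‖z‖ → Qs (s0 / 2) (1 / 8) z = 0 := fun z hz => Qs_far hs hsT hz
  obtain ⟨MQ, hMQ, n1, n2, n3, n4, n5⟩ := C2_bounds (Qs_C2 (s0 / 2) (1 / 8)) (supp_of_far hQfar)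
  set τ : ℝ := min (s0 / 16) (γ * kap / (Cl * (7 * L) * (4 * MQ) * Cs)) with hτdef
  have hτ0 : 0 < τ := by rw [hτdef]; positivity
  have hτs : τ ≤ s0 / 16 := min_le_left _ _
  have hτγ : Cl * (7 * L) * (4 * MQ) * Cs * τ ≤ γ * kap := by
    have h1 : τ ≤ γ * kap / (Cl * (7 * L) * (4 * MQ) * Cs) := min_le_right _ _
    rw [le_div_iff₀ (by positivity)] at h1
    linarith
  clear_value τ
  refine ⟨τ / 4, by positivity, ?_⟩
  intro δ D u ν hc hν hδε hpos hneg
  have hδ := hc.δ0
  have hin : ∀ x : V, |inner ℝ ν x| ≤ ‖x‖ := fun x => by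
    have := abs_real_inner_le_norm ν x
    rwa [hν, one_mul] at this
  have hNh : ∀ y : V, ‖y‖ < 7 / 8 → τ / 2 < inner ℝ ν y → y ∈ NN D u := by
    intro y hy1 hy2
    have := (le_abs_self _).trans (hin y)
    exact hpos y ⟨by linarith, by linarith⟩ (by linarith)
  have hN : ∀ y : V, ‖y‖ ≤ 3 / 4 → τ ≤ inner ℝ ν y → y ∈ NN D u := fun y h1 h2 =>
    hNh y (by linarith) (by linarith)
  obtain ⟨P, hP, P1, P2, P3, P4⟩ := cutP (v := u) (ν := ν) hτ0
    (hc.sol.smooth.mono fun y hy => hNh y hy.1 hy.2)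
  have hPb : ∀ y : V, ‖y‖ < 3 / 4 → |P y| ≤ L := by
    intro y hy
    by_cases h1 : inner ℝ ν y < τ
    · rw [(P1 y hy.le h1).1, abs_zero]; linarith
    · push Not at h1
      have h2 := (le_abs_self _).trans (hin y)
      rw [(P3 y hy.le h1).1, abs_mul, abs_of_nonneg (chi_nonneg _)]
      have h3 := hc.bd y (by linarith) (by linarith)
      have h4 := hc.sol.nonneg y (hc.sub y (by linarith) (by linarith))
      rw [abs_of_nonneg h4]
      have h5 := chi_le_one (inner ℝ ν y / τ)
      have h6 := chi_nonneg (inner ℝ ν y / τ)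
      nlinarith [norm_nonneg y]
  obtain ⟨b, hb, hbx⟩ := hker P (L * om) ν hP.continuous hν (by positivity) (by
      intro k B hk hB hkB hk0
      exact Pint_sup hP.continuous (by linarith) hB hPb hk hkB hk0)
  refine ⟨b / kap, ?_, ?_⟩
  · rw [abs_div, abs_of_pos hκp]
    exact div_le_div_of_nonneg_right hb hκp.le
  intro x hx hxs
  set Q := Qs (s0 / 2) (1 / 8) with hQ
  have hrx : ‖rf ν x‖ ≤ 1 / 8 := by rw [rf_norm hν]; exact hx
  have hrin : inner ℝ ν (rf ν x) = - inner ℝ ν x := rf_inner hν x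
  have r1 := repr hP x hs hsT (by
    intro y hy
    rw [mem_closedBall, dist_eq_norm] at hy
    have h1 := hin (y - x)
    rw [inner_sub_right] at h1
    have h2 := (abs_le.1 (h1.trans hy)).1
    have h3 : ‖y‖ ≤ 3 / 4 := by
      have := norm_add_le (y - x) x
      rw [sub_add_cancel] at this
      linarith
    have h4 : 2 * τ < inner ℝ ν y := by linarith
    rw [(P4 y h3 h4).2]
    exact hc.sol.harm y (hN y h3 (by linarith)))
  have r2 := repr hP (rf ν x) hs hsT (by
    intro y hy
    rw [mem_closedBall, dist_eq_norm] at hy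
    have h1 := hin (y - rf ν x)
    rw [inner_sub_right, hrin] at h1
    have h2 := (abs_le.1 (h1.trans hy)).2
    have h3 : ‖y‖ ≤ 3 / 4 := by
      have := norm_add_le (y - rf ν x) (rf ν x)
      rw [sub_add_cancel] at this
      linarith
    exact (P1 y h3 (by linarith)).2.2)
  have hPx : P x = u x := (P4 x (by linarith) (by linarith)).1
  have hPrx : P (rf ν x) = 0 := (P1 (rf ν x) (by linarith) (by rw [hrin]; linarith)).1
  rw [hPx] at r1
  rw [hPrx, mul_zero] at r2
  -- the odd function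
  set F : V → ℝ := fun y => Q (y - x) - Q (y - rf ν x) with hF
  have hsubx : ∀ z : V, ContDiff ℝ 2 (fun y : V => y - z) := fun z => contDiff_id.sub contDiff_const
  have hQx : ∀ z : V, ContDiff ℝ 2 (fun y => Q (y - z)) := fun z => (Qs_C2 _ _).comp (hsubx z)
  have hFs : ContDiff ℝ 2 F := (hQx x).sub (hQx _)
  have hFd : ∀ y, fderiv ℝ F y = fderiv ℝ (fun y => Q (y - x)) y -
      fderiv ℝ (fun y => Q (y - rf ν x)) y := by
    intro y
    exact fderiv_fun_sub ((hQx x).differentiable (by norm_num) y) ((hQx _).differentiable (by norm_num) y)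
  have hfar2 : ∀ (z : V), ‖z‖ ≤ 1 / 8 → ∀ y : V, 1 / 4 ≤ ‖y‖ → Q (y - z) = 0 := by
    intro z hz y hy
    apply hQfar
    have := norm_sub_norm_le y z
    linarith
  have hF0 : ∀ y : V, 1 / 4 ≤ ‖y‖ → F y = 0 := by
    intro y hy
    simp only [hF]
    rw [hfar2 x hx y hy, hfar2 _ hrx y hy, sub_zero]
  have hFν : ∀ y, |F y| ≤ 2 * MQ * |inner ℝ ν y| := fun y =>
    odd_ker (fun z w hzw => Qs_radial _ _ hzw) n4 hν x y
  have hgP : Continuous (gr P) := gr_continuous (hP.of_le (by norm_num))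
  have hi : ∀ z : V, ‖z‖ ≤ 1 / 8 → Integrable (fun y => fderiv ℝ (fun y => Q (y - z)) y (gr P y)) := by
    intro z hz
    have h1 : Continuous (fun y => fderiv ℝ (fun y => Q (y - z)) y (gr P y)) :=
      (((hQx z).continuous_fderiv (by norm_num))).clm_apply hgP
    apply h1.integrable_of_hasCompactSupport
    apply HasCompactSupport.intro (isCompact_closedBall (0 : V) (1 / 4))
    intro y hy
    rw [mem_closedBall, dist_zero_right, not_le] at hy
    rw [fderiv_far (hfar2 z hz) hy]; simp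
  have hi2 : ∀ z : V, ‖z‖ ≤ 1 / 8 → Integrable (fun y => P y * qk (1 / 8) (y - z)) := by
    intro z hz
    have h1 : Continuous (fun y => P y * qk (1 / 8) (y - z)) :=
      hP.continuous.mul ((qk_C2 _).continuous.comp (hsubx z).continuous)
    apply h1.integrable_of_hasCompactSupport
    apply HasCompactSupport.intro (isCompact_closedBall (0 : V) (1 / 4))
    intro y hy
    rw [mem_closedBall, dist_zero_right, not_le] at hy
    rw [qk_far (by norm_num) (by have := norm_sub_norm_le y z; linarith), mul_zero]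
  have e1 : ∫ y, fderiv ℝ F y (gr P y) = (∫ y, fderiv ℝ (fun y => Q (y - x)) y (gr P y)) -
      ∫ y, fderiv ℝ (fun y => Q (y - rf ν x)) y (gr P y) := by
    rw [← integral_sub (hi x hx) (hi _ hrx)]
    congr 1
    funext y
    rw [hFd, _root_.sub_apply]
  have e2 : ∫ y, P y * (qk (1 / 8) (y - x) - qk (1 / 8) (y - rf ν x)) =
      (∫ y, P y * qk (1 / 8) (y - x)) - ∫ y, P y * qk (1 / 8) (y - rf ν x) := by
    rw [← integral_sub (hi2 x hx) (hi2 _ hrx)]
    congr 1
    funext y
    ring
  have hFc : HasCompactSupport F := by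
    apply HasCompactSupport.intro (isCompact_closedBall (0 : V) (1 / 4))
    intro y hy
    rw [mem_closedBall, dist_zero_right, not_le] at hy
    exact hF0 y hy.le
  have hgreen := green2 hP (hFs.of_le (by norm_num)) hFc
  -- bound for the last integral
  set S : Set V := {x | ‖x‖ < 1 ∧ τ ≤ inner ℝ ν x ∧ inner ℝ ν x ≤ 2 * τ} with hS
  have hSm : MeasurableSet S := by
    have h1 : IsOpen {x : V | ‖x‖ < 1} := isOpen_lt continuous_norm continuous_const
    have h2 : IsClosed {x : V | τ ≤ inner ℝ ν x} := isClosed_le continuous_const (by fun_prop)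
    have h3 : IsClosed {x : V | inner ℝ ν x ≤ 2 * τ} := isClosed_le (by fun_prop) continuous_const
    exact h1.measurableSet.inter (h2.measurableSet.inter h3.measurableSet)
  have hSf : volume S < ⊤ := by
    have : S ⊆ ball (0 : V) 1 := fun x hx => by rw [mem_ball, dist_zero_right]; exact hx.1
    exact (measure_mono this).trans_lt measure_ball_lt_top
  have hzero : ∀ y, y ∉ S → lap P y * F y = 0 := by
    intro y hy
    by_cases h1 : 1 / 4 ≤ ‖y‖
    · rw [hF0 y h1, mul_zero]
    · push Not at h1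
      by_cases h2 : inner ℝ ν y < τ
      · rw [(P1 y (by linarith) h2).2.2, zero_mul]
      · push Not at h2
        by_cases h3 : 2 * τ < inner ℝ ν y
        · rw [(P4 y (by linarith) h3).2, hc.sol.harm y (hN y (by linarith) h2), zero_mul]
        · push Not at h3
          exact absurd ⟨by linarith, h2, h3⟩ hy
  have hbdS : ∀ y ∈ S, |lap P y * F y| ≤ Cl * (7 * L) * (4 * MQ) := by
    intro y hy
    by_cases h1 : 1 / 4 ≤ ‖y‖
    · rw [hF0 y h1, mul_zero, abs_zero]; positivity
    · push Not at h1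
      have hyN := hN y (by linarith) hy.2.1
      have h2 := (le_abs_self _).trans (hin y)
      have h20 := hy.2.1
      have hya : y ∈ ann δ 1 := ⟨by linarith, hy.1⟩
      have h3 : lap P y = lap (fun y => chi (inner ℝ ν y / τ) * u y) y :=
        ExtStar.lap_congr _ _ y (P2 y (by linarith))
      have h4 := hlap u ν y τ hτ0 hν (hc.sol.contDiffAt hyN) (hc.sol.harm y hyN)
      rw [← h3] at h4
      have h5 : u y ≤ 6 * L * τ := flat_small hL hc hν (by linarith) (by linarith)
        (fun x hx hxn => hneg x hx (by linarith)) hya (by linarith) hy.2.2 (by linarith)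
      have h6 := hc.lip y hyN hya.1 hya.2
      rw [gr_norm] at h6
      have h7 : |u y| / τ ^ 2 + ‖fderiv ℝ u y‖ / τ ≤ 7 * L / τ := by
        rw [abs_of_pos hyN.2]
        have a1 : u y / τ ^ 2 ≤ 6 * L / τ := by
          rw [div_le_div_iff₀ (by positivity) hτ0]
          nlinarith
        have a2 : ‖fderiv ℝ u y‖ / τ ≤ L / τ := div_le_div_of_nonneg_right h6 hτ0.le
        have a3 : 7 * L / τ = 6 * L / τ + L / τ := by ring
        linarith
      have h8 : |F y| ≤ 2 * MQ * (2 * τ) := by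
        refine (hFν y).trans ?_
        rw [abs_of_pos (by linarith [hy.2.1])]
        exact mul_le_mul_of_nonneg_left hy.2.2 (by positivity)
      rw [abs_mul]
      calc |lap P y| * |F y| ≤ (Cl * (7 * L / τ)) * (2 * MQ * (2 * τ)) := by
            apply mul_le_mul (h4.trans (mul_le_mul_of_nonneg_left h7 hCl.le)) h8 (abs_nonneg _)
              (by positivity)
        _ = Cl * (7 * L) * (4 * MQ) := by field_simp; ring
  have hterm : |∫ y, fderiv ℝ F y (gr P y)| ≤ γ * kap := by
    rw [hgreen, abs_neg]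
    have h1 : ∫ y, lap P y * F y = ∫ y in S, lap P y * F y :=
      (setIntegral_eq_integral_of_forall_compl_eq_zero hzero).symm
    rw [h1, ← Real.norm_eq_abs]
    refine (norm_setIntegral_le_of_norm_le_const hSf (fun y hy => hbdS y hy)).trans ?_
    have h2 := hslab ν τ (2 * τ) hν (by linarith)
    refine le_trans (mul_le_mul_of_nonneg_left h2 (by positivity)) ?_
    refine le_trans (le_of_eq ?_) hτγ
    ring
  have hsum : kap * u x = (∫ y, P y * (qk (1 / 8) (y - x) - qk (1 / 8) (y - rf ν x))) +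
      ∫ y, fderiv ℝ F y (gr P y) := by
    rw [e1, e2]; linarith
  have hb2 := hbx x hx
  have e3 : u x - b / kap * inner ℝ ν x =
      (((∫ y, P y * (qk (1 / 8) (y - x) - qk (1 / 8) (y - rf ν x))) - b * inner ℝ ν x) +
        ∫ y, fderiv ℝ F y (gr P y)) / kap := by
    rw [eq_div_iff hκp.ne', ← add_sub_right_comm, ← hsum]
    field_simp
  rw [e3, abs_div, abs_of_pos hκp, div_le_iff₀ hκp]
  refine (abs_add_le _ _).trans ((add_le_add hb2 hterm).trans (le_of_eq ?_))
  field_simp

end

end Pool.Agent.D0H33.FB
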