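import Mathlib
import Pool.Agent.D0H33.FB.A29
import Pool.Agent.D0H33.FB.A24

set_option autoImplicit false

open Set Metric Filter Topology MeasureTheory
open ExtStar (lap)

namespace Pool.Agent.D0H33.FB

noncomputable section

/-- interior gradient bound away from the plane -/
lemma grad_close : ∃ C : ℝ, 0 < C ∧ ∀ (D : Set V) (u : V → ℝ) (w x : V) (s γ : ℝ), Sol D u →
    0 < s → s ≤ 1 → 0 < γ → ball x s ⊆ NN D u → (∀ y ∈ ball x s, |u y - inner ℝ w y| ≤ γ) →
    ‖gr u x - w‖ ≤ C * γ / s := by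
  obtain ⟨Cg, hCg, hgrad⟩ := ExtStar.grad_harnack 3 0 (le_refl 0)
  refine ⟨3 * Cg, by positivity, ?_⟩
  intro D u w x s γ h hs hs1 hγ hb hclose
  have hx : x ∈ ball x s := mem_ball_self hs
  have hq : ExtStar.Quasi (d := 3) 0 (ball x s) (vv u w (-2 * γ)) := by
    refine ⟨(vv_C1 h w _).mono hb, fun y hy => ⟨?_, ?_⟩⟩
    · have := abs_le.1 (hclose y hy)
      unfold vv
      linarith [this.1]
    · rw [lap_vv h w _ (hb hy)]; simp
  have h1 := hgrad (vv u w (-2 * γ)) x s hs hs1 hq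
  rw [← gr_norm, gr_vv h w _ (hb hx)] at h1
  refine h1.trans ?_
  have h2 : vv u w (-2 * γ) x ≤ 3 * γ := by
    have := abs_le.1 (hclose x hx)
    unfold vv
    linarith [this.2]
  calc Cg / s * vv u w (-2 * γ) x ≤ Cg / s * (3 * γ) :=
        mul_le_mul_of_nonneg_left h2 (by positivity)
    _ = 3 * Cg * γ / s := by ring

/-- the test function -/
def psi (x : V) : ℝ := (max 0 (1 - 4 * ‖x‖ ^ 2)) ^ 2

lemma psi_C1 : ContDiff ℝ 1 psi := by
  unfold psi
  have h1 : ContDiff ℝ 1 (fun x : V => 1 - 4 * ‖x‖ ^ 2) :=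
    contDiff_const.sub (contDiff_const.mul (contDiff_norm_sq ℝ))
  exact contDiff_mx2.comp h1

lemma psi_fderiv (x w : V) : fderiv ℝ psi x w = -16 * (max 0 (1 - 4 * ‖x‖ ^ 2)) * inner ℝ x w := by
  have h1 : HasFDerivAt (fun x : V => 1 - 4 * ‖x‖ ^ 2) (-((4 : ℝ) • (2 • innerSL ℝ x))) x := by
    have h2 : HasFDerivAt (fun x : V => ‖x‖ ^ 2) (2 • innerSL ℝ x) x :=
      (hasStrictFDerivAt_norm_sq x).hasFDerivAt
    exact (h2.const_mul 4).const_sub 1
  have h3 := (hasDerivAt_mx2 (1 - 4 * ‖x‖ ^ 2)).comp_hasFDerivAt x h1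
  have h4 : HasFDerivAt psi _ x := h3
  rw [h4.fderiv]
  simp
  ring

lemma psi_zero {x : V} (hx : 1 / 2 ≤ ‖x‖) : psi x = 0 := by
  unfold psi
  rw [max_eq_left (by nlinarith)]
  norm_num

lemma psi_nonneg (x : V) : 0 ≤ psi x := sq_nonneg _

lemma psi_le_one (x : V) : psi x ≤ 1 := by
  unfold psi
  have h1 : max 0 (1 - 4 * ‖x‖ ^ 2) ≤ 1 := max_le (by norm_num) (by nlinarith [sq_nonneg ‖x‖])
  have h0 : 0 ≤ max 0 (1 - 4 * ‖x‖ ^ 2) := le_max_left _ _
  nlinarith

lemma psi_dzero {x : V} (hx : 1 / 2 ≤ ‖x‖) : fderiv ℝ psi x = 0 := by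
  ext w
  rw [psi_fderiv, max_eq_left (by nlinarith)]
  simp

lemma psi_grad (x : V) : ‖fderiv ℝ psi x‖ ≤ 8 := by
  by_cases hx : 1 / 2 ≤ ‖x‖
  · rw [psi_dzero hx]; simp
  · push Not at hx
    apply ContinuousLinearMap.opNorm_le_bound _ (by norm_num)
    intro w
    rw [psi_fderiv, Real.norm_eq_abs, abs_mul, abs_mul]
    have h1 : |max 0 (1 - 4 * ‖x‖ ^ 2)| ≤ 1 := by
      rw [abs_of_nonneg (le_max_left _ _)]
      exact max_le (by norm_num) (by nlinarith [sq_nonneg ‖x‖])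
    have h2 := abs_real_inner_le_norm x w
    have h3 : |(-16 : ℝ)| = 16 := by norm_num
    rw [h3]
    calc 16 * |max 0 (1 - 4 * ‖x‖ ^ 2)| * |inner ℝ x w| ≤ 16 * 1 * (‖x‖ * ‖w‖) := by
          gcongr
      _ ≤ 8 * ‖w‖ := by nlinarith [norm_nonneg w]

/-- the slope is one -/
theorem slope_one (L c κ Cα : ℝ) (hL : 1 ≤ L) (hCα : 0 < Cα) : ∀ t : ℝ, 0 < t → t ≤ 1 →
    ∃ s γ : ℝ, 0 < s ∧ s ≤ 1 / 32 ∧ s ≤ t ∧ 0 < γ ∧ γ ≤ t ∧
    ∀ (δ : ℝ) (D : Set V) (u : V → ℝ) (ν : V) (α : ℝ), Cfg L c κ δ D u → ‖ν‖ = 1 → |α| ≤ Cα →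
      2 * δ ≤ s → (∀ x ∈ ann δ 1, s < inner ℝ ν x → x ∈ NN D u) →
      (∀ x ∈ ann δ 1, inner ℝ ν x < -s → x ∉ NN D u) →
      (∀ x : V, ‖x‖ ≤ 1 → s ≤ inner ℝ ν x → |u x - α * inner ℝ ν x| ≤ γ) → |α - 1| ≤ t := by
  obtain ⟨Cg, hCg, hgrad⟩ := grad_close
  obtain ⟨Cs, hCs, hslab⟩ := slab_vol
  obtain ⟨Ch, hCh, hhol⟩ := hol_int
  have hom := om_pos
  intro t ht ht1
  set A : ℝ := (3 * L ^ 2 + 1) * (24 * Cs + Ch) with hA
  have hA0 : 0 < A := by positivity
  set s : ℝ := min (min (1 / 32) t) (t * om / (16384 * A)) with hs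
  have hs0 : 0 < s := by positivity
  have hs1 : s ≤ 1 / 32 := (min_le_left _ _).trans (min_le_left _ _)
  have hst : s ≤ t := (min_le_left _ _).trans (min_le_right _ _)
  have hs2 : 16384 * A * s ≤ t * om := by
    have : s ≤ t * om / (16384 * A) := min_le_right _ _
    rw [le_div_iff₀ (by positivity)] at this
    linarith
  clear_value s
  set g : ℝ := min 1 (t / (131072 * (3 + 2 * Cα))) with hg
  have hg0 : 0 < g := by positivity
  have hg1 : g ≤ 1 := min_le_left _ _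
  have hg2 : 131072 * (3 + 2 * Cα) * g ≤ t := by
    have : g ≤ t / (131072 * (3 + 2 * Cα)) := min_le_right _ _
    rw [le_div_iff₀ (by positivity)] at this
    linarith
  clear_value g
  set γ : ℝ := min (min (1 / 4) t) (g * s / Cg) with hγ
  have hγ0 : 0 < γ := by positivity
  have hγ1 : γ ≤ 1 / 4 := (min_le_left _ _).trans (min_le_left _ _)
  have hγt : γ ≤ t := (min_le_left _ _).trans (min_le_right _ _)
  have hγ2 : Cg * γ / s ≤ g := by
    have : γ ≤ g * s / Cg := min_le_right _ _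
    rw [le_div_iff₀ hCg] at this
    rw [div_le_iff₀ hs0]
    linarith
  clear_value γ
  refine ⟨s, γ, hs0, hs1, hst, hγ0, hγt, ?_⟩
  intro δ D u ν α hc hν hα hδs hpos hneg happ
  have hδ := hc.δ0
  have hin : ∀ x : V, |inner ℝ ν x| ≤ ‖x‖ := fun x => by
    have := abs_real_inner_le_norm ν x
    rwa [hν, one_mul] at this
  -- gradient
  have hgr : ∀ x : V, ‖x‖ < 1 / 2 → 2 * s < inner ℝ ν x → ‖gr u x - α • ν‖ ≤ g := by
    intro x hx1 hx2
    refine (hgrad D u (α • ν) x s γ hc.sol hs0 (by linarith) hγ0 ?_ ?_).trans hγ2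
    · intro y hy
      rw [mem_ball, dist_eq_norm] at hy
      have h1 := hin (y - x)
      rw [inner_sub_right] at h1
      have h2 := (abs_le.1 (h1.trans hy.le)).1
      have h4 := (le_abs_self _).trans (hin y)
      have h3 : ‖y‖ ≤ ‖x‖ + ‖y - x‖ := by
        have := norm_add_le x (y - x)
        simpa using this
      have h5 : s < inner ℝ ν y := by
        have h6 : |inner ℝ ν y - inner ℝ ν x| ≤ ‖y - x‖ := h1
        have := (abs_le.1 h6).1
        linarith
      exact hpos y ⟨by linarith, by linarith⟩ h5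
    · intro y hy
      rw [mem_ball, dist_eq_norm] at hy
      have h1 := hin (y - x)
      rw [inner_sub_right] at h1
      have h2 := (abs_le.1 h1).1
      have h3 : ‖y‖ ≤ ‖x‖ + ‖y - x‖ := by
        have := norm_add_le x (y - x)
        simpa using this
      rw [inner_smul_left]
      exact happ y (by linarith) (by linarith)
  -- the inner variation identity
  have htest := hc.test psi_C1 (fun x hx => psi_zero (by linarith))
  have hIV := htest.IV hc.sol (Kc_compact δ) hc.KcD ν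
  set f : V → ℝ := fun x => psi x * hol δ x with hf
  set Φ : V → ℝ := fun x => (‖gr u x‖ ^ 2 + 1) * fderiv ℝ f x ν -
        2 * fderiv ℝ u x ν * fderiv ℝ f x (gr u x) with hΦ
  have hfd : ∀ x, fderiv ℝ f x = psi x • fderiv ℝ (hol δ) x + hol δ x • fderiv ℝ psi x := by
    intro x
    exact fderiv_fun_mul (psi_C1.differentiable (by norm_num) x)
      ((hol_smooth δ (n := 1)).differentiable (by norm_num) x)
  have hfn : ∀ x, ‖fderiv ℝ f x‖ ≤ 8 + ‖fderiv ℝ (hol δ) x‖ := by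
    intro x
    rw [hfd]
    refine (norm_add_le _ _).trans ?_
    rw [norm_smul, norm_smul, Real.norm_eq_abs, Real.norm_eq_abs, abs_of_nonneg (psi_nonneg x),
      abs_of_nonneg (hol_nonneg δ x)]
    have h1 := psi_le_one x
    have h2 := hol_le_one δ x
    have h3 := psi_grad x
    have h4 := norm_nonneg (fderiv ℝ psi x)
    have h5 := norm_nonneg (fderiv ℝ (hol δ) x)
    have h6 := psi_nonneg x
    have h7 := hol_nonneg δ x
    nlinarith
  have hΦle : ∀ x ∈ NN D u, x ∈ ann δ 1 → |Φ x| ≤ (3 * L ^ 2 + 1) * ‖fderiv ℝ f x‖ := by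
    intro x hx hxa
    have h1 := hc.lip x hx hxa.1 hxa.2
    have h2 := le_op (fderiv ℝ f x) ν
    rw [hν, mul_one] at h2
    have h3 := le_op (fderiv ℝ f x) (gr u x)
    have h4 := le_op (fderiv ℝ u x) ν
    rw [hν, mul_one, ← gr_norm] at h4
    have h5 := norm_nonneg (fderiv ℝ f x)
    have h6 := norm_nonneg (gr u x)
    have h7 : ‖gr u x‖ ^ 2 ≤ L ^ 2 := pow_le_pow_left₀ h6 h1 2
    simp only [hΦ]
    refine (abs_sub _ _).trans ?_
    rw [abs_mul, abs_mul, abs_mul, abs_of_nonneg (by positivity : (0:ℝ) ≤ ‖gr u x‖ ^ 2 + 1),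
      abs_of_pos (by norm_num : (0:ℝ) < 2)]
    calc (‖gr u x‖ ^ 2 + 1) * |fderiv ℝ f x ν| + 2 * |fderiv ℝ u x ν| * |fderiv ℝ f x (gr u x)|
        ≤ (‖gr u x‖ ^ 2 + 1) * ‖fderiv ℝ f x‖ + 2 * ‖gr u x‖ * (‖fderiv ℝ f x‖ * ‖gr u x‖) := by
          gcongr
      _ = (3 * ‖gr u x‖ ^ 2 + 1) * ‖fderiv ℝ f x‖ := by ring
      _ ≤ (3 * L ^ 2 + 1) * ‖fderiv ℝ f x‖ := by gcongr
  have hK0 : ∀ x ∈ NN D u, x ∉ Kc δ → fderiv ℝ f x = 0 := fun x hx hxK =>
    htest.fderiv_zero hc.sol (Kc_compact δ).isClosed hx hxK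
  have hint1 : ∫ x in NN D u, Φ x = ∫ x in NN D u ∩ ann δ 1, Φ x := hc.int_eq (by
    intro x hx hxK
    simp only [hΦ]
    rw [hK0 x hx hxK]; simp)
  rw [hint1] at hIV
  set T : Set V := {x | 2 * s < inner ℝ ν x} with hT
  have hTm : MeasurableSet T := (isOpen_lt continuous_const (by fun_prop)).measurableSet
  have hWm : MeasurableSet (NN D u ∩ ann δ 1) := hc.sol.meas_NN.inter (ann_meas _ _)
  have hWf : volume (NN D u ∩ ann δ 1) < ⊤ := (measure_mono inter_subset_right).trans_lt (ann_fin _ _)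
  have hfc : Continuous (fun x => fderiv ℝ f x) :=
    ((psi_C1.mul (hol_smooth δ (n := 1))).continuous_fderiv (by norm_num))
  have hΦc : ContinuousOn Φ (NN D u) := by
    have a1 : ContinuousOn (fun x => fderiv ℝ f x ν) (NN D u) :=
      (hfc.clm_apply continuous_const).continuousOn
    have a2 : ContinuousOn (fun x => fderiv ℝ f x (gr u x)) (NN D u) :=
      hfc.continuousOn.clm_apply hc.sol.gr_cont
    have a3 : ContinuousOn (fun x => fderiv ℝ u x ν) (NN D u) :=
      (hc.sol.smooth.continuousOn_fderiv_of_isOpen hc.sol.isOpen_NN (by norm_num)).clm_apply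
        continuousOn_const
    have a4 : ContinuousOn (fun x => ‖gr u x‖ ^ 2 + 1) (NN D u) :=
      (hc.sol.gr_cont.norm.pow 2).add continuousOn_const
    exact (a4.mul a1).sub ((continuousOn_const.mul a3).mul a2)
  obtain ⟨hi1, hi2, hi3, hi4⟩ := hhol δ (NN D u ∩ ann δ 1) hδ hWm
  have hIf : IntegrableOn (fun x => (3 * L ^ 2 + 1) * (8 + ‖fderiv ℝ (hol δ) x‖)) (NN D u ∩ ann δ 1) := by
    have a0 : IntegrableOn (fun _ : V => (8 : ℝ)) (NN D u ∩ ann δ 1) :=
      integrableOn_const (hs := hWf.ne)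
    exact (a0.add hi1).const_mul _
  have hΦi : IntegrableOn Φ (NN D u ∩ ann δ 1) := by
    refine hIf.mono' ((hΦc.mono inter_subset_left).aestronglyMeasurable hWm) ?_
    rw [ae_restrict_iff' hWm]
    filter_upwards with x hx
    rw [Real.norm_eq_abs]
    exact (hΦle x hx.1 hx.2).trans (mul_le_mul_of_nonneg_left (hfn x) (by positivity))
  -- the part near the plane
  have hsp : ∫ x in NN D u ∩ ann δ 1, Φ x = (∫ x in (NN D u ∩ ann δ 1) ∩ T, Φ x) +
      ∫ x in (NN D u ∩ ann δ 1) \ T, Φ x := (integral_inter_add_sdiff hTm hΦi).symm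
  have hout : |∫ x in (NN D u ∩ ann δ 1) \ T, Φ x| ≤ A * s := by
    have h1 : ∫ x in (NN D u ∩ ann δ 1) \ T, |Φ x| ≤
        ∫ x in (NN D u ∩ ann δ 1) \ T, (3 * L ^ 2 + 1) * (8 + ‖fderiv ℝ (hol δ) x‖) := by
      apply setIntegral_mono_on
      · exact (hΦi.mono_set sdiff_subset).abs
      · exact hIf.mono_set sdiff_subset
      · exact hWm.diff hTm
      · intro x hx
        exact (hΦle x hx.1.1 hx.1.2).trans (mul_le_mul_of_nonneg_left (hfn x) (by positivity))
    have hvol : (volume : Measure V).real ((NN D u ∩ ann δ 1) \ T) ≤ Cs * (3 * s) := by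
      have h2 := hslab ν (-s) (2 * s) hν (by linarith)
      have h3 : (NN D u ∩ ann δ 1) \ T ⊆
          {x | ‖x‖ < 1 ∧ -s ≤ inner ℝ ν x ∧ inner ℝ ν x ≤ 2 * s} := by
        intro x hx
        refine ⟨hx.1.2.2, ?_, not_lt.1 hx.2⟩
        by_contra hn
        exact hneg x hx.1.2 (not_le.1 hn) hx.1.1
      refine (measureReal_mono h3 ?_).trans (h2.trans (le_of_eq (by ring)))
      have : {x : V | ‖x‖ < 1 ∧ -s ≤ inner ℝ ν x ∧ inner ℝ ν x ≤ 2 * s} ⊆ ball (0 : V) 1 :=
        fun x hx => by rw [mem_ball, dist_zero_right]; exact hx.1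
      exact ((measure_mono this).trans_lt measure_ball_lt_top).ne
    have h4 : ∫ x in (NN D u ∩ ann δ 1) \ T, (3 * L ^ 2 + 1) * (8 + ‖fderiv ℝ (hol δ) x‖) ≤
        (3 * L ^ 2 + 1) * (8 * (Cs * (3 * s)) + Ch * δ ^ 2) := by
      rw [integral_const_mul]
      apply mul_le_mul_of_nonneg_left _ (by positivity)
      have hf2 : volume ((NN D u ∩ ann δ 1) \ T) < ⊤ := (measure_mono sdiff_subset).trans_lt hWf
      have a0 : IntegrableOn (fun _ : V => (8 : ℝ)) ((NN D u ∩ ann δ 1) \ T) :=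
        integrableOn_const (hs := hf2.ne)
      have a1 : IntegrableOn (fun x => ‖fderiv ℝ (hol δ) x‖) ((NN D u ∩ ann δ 1) \ T) :=
        hi1.mono_set sdiff_subset
      rw [integral_add a0 a1, setIntegral_const, smul_eq_mul]
      obtain ⟨-, -, h5, -⟩ := hhol δ ((NN D u ∩ ann δ 1) \ T) hδ (hWm.diff hTm)
      linarith
    have h6 : (3 * L ^ 2 + 1) * (8 * (Cs * (3 * s)) + Ch * δ ^ 2) ≤ A * s := by
      rw [hA, mul_assoc]
      apply mul_le_mul_of_nonneg_left _ (by positivity)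
      have : δ ^ 2 ≤ s := by nlinarith
      nlinarith
    exact abs_integral_le_integral_abs.trans (h1.trans (h4.trans h6))
  -- the part away from the plane
  have hWT : MeasurableSet ((NN D u ∩ ann δ 1) ∩ T) := hWm.inter hTm
  have hTf : volume ((NN D u ∩ ann δ 1) ∩ T) < ⊤ := (measure_mono inter_subset_left).trans_lt hWf
  set e : ℝ := 8 * ((3 + 2 * Cα) * g) with he
  have he0 : 0 < e := by positivity
  have hpt : ∀ x ∈ (NN D u ∩ ann δ 1) ∩ T, |Φ x - (1 - α ^ 2) * fderiv ℝ psi x ν| ≤ e := by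
    intro x hx
    have hxT : 2 * s < inner ℝ ν x := hx.2
    have hxn := (le_abs_self _).trans (hin x)
    have hfx : fderiv ℝ f x = fderiv ℝ psi x := by
      rw [hfd, ((hol_grad.choose_spec.2 δ hδ x).2 (by linarith)), smul_zero, zero_add,
        hol_one hδ (by linarith), one_smul]
    by_cases hx2 : 1 / 2 ≤ ‖x‖
    · simp only [hΦ]
      rw [hfx, psi_dzero hx2]
      simp
      exact he0.le
    · push Not at hx2
      have ha := hgr x hx2 hxT
      set a := gr u x - α • ν with ha'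
      have hgu : gr u x = α • ν + a := by rw [ha']; abel
      have h1 : ‖gr u x‖ ^ 2 = α ^ 2 + 2 * α * inner ℝ ν a + ‖a‖ ^ 2 := by
        rw [hgu, norm_add_sq_real, norm_smul, hν, mul_one, Real.norm_eq_abs, sq_abs,
          inner_smul_left]
        simp only [conj_trivial]
        ring
      have h2 : fderiv ℝ u x ν = α + inner ℝ ν a := by
        rw [← gr_inner, hgu, inner_add_left, inner_smul_left, real_inner_self_eq_norm_sq, hν,
          real_inner_comm]
        simp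
      have h3 : fderiv ℝ psi x (gr u x) = α * fderiv ℝ psi x ν + fderiv ℝ psi x a := by
        rw [hgu, map_add, map_smul, smul_eq_mul]
      have h4 : Φ x - (1 - α ^ 2) * fderiv ℝ psi x ν =
          ‖a‖ ^ 2 * fderiv ℝ psi x ν - 2 * (α + inner ℝ ν a) * fderiv ℝ psi x a := by
        simp only [hΦ]
        rw [hfx, h1, h2, h3]
        ring
      rw [h4]
      have h5 := le_op (fderiv ℝ psi x) ν
      rw [hν, mul_one] at h5
      have h6 := le_op (fderiv ℝ psi x) a
      have h7 := psi_grad x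
      have h8 : |inner ℝ ν a| ≤ ‖a‖ := hin a
      have h9 := norm_nonneg a
      have h10 : ‖a‖ ≤ 1 := ha.trans hg1
      have h11 : |fderiv ℝ psi x ν| ≤ 8 := h5.trans h7
      have h12 : |fderiv ℝ psi x a| ≤ 8 * ‖a‖ := h6.trans (mul_le_mul_of_nonneg_right h7 h9)
      have h13 : |α + inner ℝ ν a| ≤ Cα + ‖a‖ := (abs_add_le _ _).trans (add_le_add hα h8)
      refine (abs_sub _ _).trans ?_
      rw [abs_mul, abs_mul, abs_mul, abs_of_nonneg (by positivity : (0:ℝ) ≤ ‖a‖ ^ 2),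
        abs_of_pos (by norm_num : (0:ℝ) < 2)]
      calc ‖a‖ ^ 2 * |fderiv ℝ psi x ν| + 2 * |α + inner ℝ ν a| * |fderiv ℝ psi x a|
          ≤ ‖a‖ ^ 2 * 8 + 2 * (Cα + ‖a‖) * (8 * ‖a‖) := by gcongr
        _ = 8 * ((3 * ‖a‖ + 2 * Cα) * ‖a‖) := by ring
        _ ≤ 8 * ((3 + 2 * Cα) * g) := by
          have h14 : 3 * ‖a‖ + 2 * Cα ≤ 3 + 2 * Cα := by linarith
          gcongr
  have hpsic : Continuous (fun x => fderiv ℝ psi x ν) :=
    (psi_C1.continuous_fderiv (by norm_num)).clm_apply continuous_const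
  have hpsiI : ∀ S : Set V, MeasurableSet S → volume S < ⊤ → IntegrableOn (fun x => fderiv ℝ psi x ν) S := by
    intro S hS hSf
    have a0 : IntegrableOn (fun _ : V => (8 : ℝ)) S := integrableOn_const (hs := hSf.ne)
    refine a0.mono' hpsic.aestronglyMeasurable ?_
    filter_upwards with x
    rw [Real.norm_eq_abs]
    have h5 := le_op (fderiv ℝ psi x) ν
    rw [hν, mul_one] at h5
    exact h5.trans (psi_grad x)
  have hinn : |(∫ x in (NN D u ∩ ann δ 1) ∩ T, Φ x) -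
      (1 - α ^ 2) * ∫ x in (NN D u ∩ ann δ 1) ∩ T, fderiv ℝ psi x ν| ≤ e * om := by
    have hi5 : IntegrableOn Φ ((NN D u ∩ ann δ 1) ∩ T) := hΦi.mono_set inter_subset_left
    have hi6 := (hpsiI _ hWT hTf).const_mul (1 - α ^ 2)
    rw [← integral_const_mul, ← integral_sub hi5 hi6, ← Real.norm_eq_abs]
    refine (norm_setIntegral_le_of_norm_le_const hTf (fun x hx => hpt x hx)).trans ?_
    apply mul_le_mul_of_nonneg_left _ he0.le
    have h1 : (volume : Measure V).real ((NN D u ∩ ann δ 1) ∩ T) ≤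
        (volume : Measure V).real (NN D u ∩ ann δ 1) := measureReal_mono inter_subset_left hWf.ne
    exact h1.trans (hc.vol_le univ)
  -- lower bound
  have hlow : om / 4096 ≤ - ∫ x in (NN D u ∩ ann δ 1) ∩ T, fderiv ℝ psi x ν := by
    rw [← integral_neg]
    have hb1 : ball ((1 / 4 : ℝ) • ν) (1 / 16) ⊆ (NN D u ∩ ann δ 1) ∩ T := by
      intro x hx
      rw [mem_ball, dist_eq_norm] at hx
      have h1 := hin (x - (1 / 4 : ℝ) • ν)
      rw [inner_sub_right, inner_smul_right, real_inner_self_eq_norm_sq, hν] at h1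
      have h2 := (abs_le.1 (h1.trans hx.le)).1
      have h3 : ‖x‖ ≤ ‖(1 / 4 : ℝ) • ν‖ + ‖x - (1 / 4 : ℝ) • ν‖ := by
        have := norm_add_le ((1 / 4 : ℝ) • ν) (x - (1 / 4 : ℝ) • ν)
        simpa using this
      rw [norm_smul, hν] at h3
      norm_num at h3 h2
      have h4 := (le_abs_self _).trans (hin x)
      have hxa : x ∈ ann δ 1 := ⟨by linarith, by linarith⟩
      exact ⟨⟨hpos x hxa (by linarith), hxa⟩, show 2 * s < inner ℝ ν x by linarith⟩
    have h1 : ∫ x in ball ((1 / 4 : ℝ) • ν) (1 / 16), (1 : ℝ) ≤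
        ∫ x in ball ((1 / 4 : ℝ) • ν) (1 / 16), -fderiv ℝ psi x ν := by
      apply setIntegral_mono_on
      · exact integrableOn_const (hs := measure_ball_lt_top.ne)
      · exact (hpsiI _ measurableSet_ball measure_ball_lt_top).neg
      · exact measurableSet_ball
      · intro x hx
        show 1 ≤ -fderiv ℝ psi x ν
        rw [mem_ball, dist_eq_norm] at hx
        have h1 := hin (x - (1 / 4 : ℝ) • ν)
        rw [inner_sub_right, inner_smul_right, real_inner_self_eq_norm_sq, hν] at h1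
        have h2 := (abs_le.1 (h1.trans hx.le)).1
        have h3 : ‖x‖ ≤ ‖(1 / 4 : ℝ) • ν‖ + ‖x - (1 / 4 : ℝ) • ν‖ := by
          have := norm_add_le ((1 / 4 : ℝ) • ν) (x - (1 / 4 : ℝ) • ν)
          simpa using this
        rw [norm_smul, hν] at h3
        norm_num at h3 h2
        have h4 : ‖x‖ ≤ 5 / 16 := by linarith
        have h5 : ‖x‖ ^ 2 ≤ 25 / 256 := by nlinarith [norm_nonneg x]
        rw [psi_fderiv, max_eq_right (by linarith), real_inner_comm]
        have h6 : 3 / 16 ≤ inner ℝ ν x := by linarith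
        nlinarith
    have h2 : ∫ x in ball ((1 / 4 : ℝ) • ν) (1 / 16), -fderiv ℝ psi x ν ≤
        ∫ x in (NN D u ∩ ann δ 1) ∩ T, -fderiv ℝ psi x ν := by
      apply setIntegral_mono_set
      · exact (hpsiI _ hWT hTf).neg
      · rw [EventuallyLE, ae_restrict_iff' hWT]
        filter_upwards with x hx
        show 0 ≤ -fderiv ℝ psi x ν
        have hxT : 2 * s < inner ℝ ν x := hx.2
        rw [psi_fderiv, real_inner_comm]
        have h0 : 0 ≤ max 0 (1 - 4 * ‖x‖ ^ 2) := le_max_left _ _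
        nlinarith [mul_nonneg h0 (by linarith : (0:ℝ) ≤ inner ℝ ν x)]
      · exact (LE.le.eventuallyLE hb1)
    rw [setIntegral_const, vol_ball _ (r := 1 / 16) (by norm_num), smul_eq_mul] at h1
    refine le_trans (le_of_eq ?_) (h1.trans h2)
    ring
  -- conclusion for the square
  set J := ∫ x in (NN D u ∩ ann δ 1) ∩ T, fderiv ℝ psi x ν with hJ
  have hsq : |1 - α ^ 2| * (om / 4096) ≤ e * om + A * s := by
    have h1 : (∫ x in (NN D u ∩ ann δ 1) ∩ T, Φ x) = - ∫ x in (NN D u ∩ ann δ 1) \ T, Φ x := by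
      linarith only [hIV, hsp]
    rw [h1] at hinn
    have h2 : |(1 - α ^ 2) * J| ≤ e * om + A * s := by
      have h3 : (1 - α ^ 2) * J = -((-∫ x in (NN D u ∩ ann δ 1) \ T, Φ x) - (1 - α ^ 2) * J) -
          ∫ x in (NN D u ∩ ann δ 1) \ T, Φ x := by ring
      rw [h3]
      refine (abs_sub _ _).trans ?_
      rw [abs_neg]
      exact add_le_add hinn hout
    refine le_trans ?_ h2
    rw [abs_mul]
    apply mul_le_mul_of_nonneg_left _ (abs_nonneg _)
    exact hlow.trans (neg_le_abs J)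
  have hsq2 : |1 - α ^ 2| ≤ t / 2 := by
    have h1 : |1 - α ^ 2| * om ≤ 4096 * (e * om + A * s) := by linarith
    have h2 : 4096 * e ≤ t / 4 := by rw [he]; linarith
    have h3 : 4096 * (A * s) ≤ t / 4 * om := by linarith
    have h4 : |1 - α ^ 2| * om ≤ t / 2 * om := by nlinarith
    exact le_of_mul_le_mul_right h4 hom
  have hαlow : -(1 / 2) ≤ α := by
    have h1 : inner ℝ ν ((1 / 2 : ℝ) • ν) = 1 / 2 := by
      rw [inner_smul_right, real_inner_self_eq_norm_sq, hν]; norm_num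
    have hn : ‖(1 / 2 : ℝ) • ν‖ = 1 / 2 := by
      rw [norm_smul, hν]; norm_num
    have h2 := happ ((1 / 2 : ℝ) • ν) (by rw [hn]; norm_num) (by rw [h1]; linarith)
    rw [h1] at h2
    have h3 := hc.sol.nonneg ((1 / 2 : ℝ) • ν) (hc.sub _ (by rw [hn]; linarith) (by rw [hn]; norm_num))
    have := (abs_le.1 h2).2
    linarith
  have h1 : |1 - α ^ 2| = |α - 1| * |1 + α| := by
    rw [← abs_mul, ← abs_neg]; congr 1; ring
  have h2 : 1 / 2 ≤ |1 + α| := by
    rw [abs_of_nonneg (by linarith)]; linarith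
  rw [h1] at hsq2
  have h3 := abs_nonneg (α - 1)
  nlinarith

end

end Pool.Agent.D0H33.FB
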