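import Mathlib
import Pool.Agent.D0H33.FB.A23

set_option autoImplicit false

open Set Metric Filter Topology MeasureTheory
open ExtStar (lap)

namespace Pool.Agent.D0H33.FB

noncomputable section

/-- the normal at a free boundary point is controlled by the excess -/
theorem normal_close (L c κ : ℝ) (hL : 1 ≤ L) (hc : 0 < c) (hκ : 1 ≤ κ) : ∀ η : ℝ, 0 < η →
    ∃ ε : ℝ, 0 < ε ∧ ∀ (D : Set V) (u : V → ℝ) (ν : V) (c' : ℝ), ‖ν‖ = 1 →
      (∀ δ : ℝ, 0 < δ → Cfg L c κ δ D u) → (0 : V) ∈ D → (∀ δ : ℝ, 0 < δ → exc δ D u ν c' ≤ ε) →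
      ∀ G : V → ℝ, ContDiffAt ℝ 1 G 0 → G 0 = 0 → ‖fderiv ℝ G 0‖ = 1 →
        (∀ᶠ x in 𝓝 (0 : V), (0 < u x ↔ 0 < G x) ∧ (0 < u x → u x = G x)) →
        ‖gr G 0 - ν‖ ≤ η := by
  obtain ⟨ρ, hρ0, hρ16, hit⟩ := iterate L c κ hL hc hκ
  obtain ⟨M, hM, hclean⟩ := clean_all L c κ hL hc hκ
  intro η hη
  set ηc : ℝ := η ^ 2 / 40 with hηc
  have hηc0 : 0 < ηc := by positivity
  obtain ⟨εc, hεc, hcl⟩ := hclean ηc hηc0
  obtain ⟨ε, hε0, hεη, hmain⟩ := hit (min (η / 2) εc) (by positivity)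
  have hε1 : ε ≤ εc := hεη.trans (min_le_right _ _)
  refine ⟨ε / 2, by positivity, ?_⟩
  intro D u ν c' hν hcfg h0D hexc G hG hG0 hGn hGu
  set n := gr G 0 with hn
  have hn1 : ‖n‖ = 1 := by rw [hn, gr_norm, hGn]
  -- differentiability
  have hGd : HasFDerivAt G (fderiv ℝ G 0) 0 := (hG.differentiableAt (by norm_num)).hasFDerivAt
  have hGl : ∀ᶠ y in 𝓝 (0 : V), ‖G y - inner ℝ n y‖ ≤ ηc * ‖y‖ := by
    have h1 := hGd.isLittleO
    rw [Asymptotics.isLittleO_iff] at h1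
    filter_upwards [h1 hηc0] with y hy
    rw [hG0, sub_zero, sub_zero] at hy
    rw [hn, gr_inner]
    exact hy
  have hev := hGl.and hGu
  obtain ⟨r, hr, hball⟩ := Metric.eventually_nhds_iff_ball.1 hev
  obtain ⟨N, hN⟩ := exists_pow_lt_of_lt_one hr (by linarith : ρ < 1)
  have hρN : 0 < ρ ^ N := by positivity
  have hρN1 : ρ ^ N ≤ 1 := pow_le_one₀ hρ0.le (by linarith)
  have hδ : 0 < ρ ^ N * (ε / 2) := by positivity
  have hδle : ρ ^ N * (ε / 2) ≤ ε / 2 := by nlinarith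
  obtain ⟨νN, cN, hνN, hνd, hexN⟩ := hmain (ρ ^ N * (ε / 2)) D u ν c' (hcfg _ hδ) hν
    (by linarith [hexc _ hδ]) N (by rw [mul_div_cancel_left₀ _ hρN.ne'])
  rw [mul_div_cancel_left₀ _ hρN.ne'] at hexN
  have hcfgN : Cfg L c κ (ε / 2) (sclD 0 (ρ ^ N) D) (scl 0 (ρ ^ N) u) := by
    have := (hcfg _ hδ).scale (by linarith : 0 < κ) hρN hρN1
    rwa [mul_div_cancel_left₀ _ hρN.ne'] at this
  obtain ⟨h, -, hh, hCln⟩ := hcl (ε / 2) _ _ νN cN hcfgN hνN (hexN.trans hε1)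
  have hh0 := hCln.h0
  -- the test point
  have hsq : ‖n - νN‖ ^ 2 = 2 - 2 * inner ℝ n νN := by
    rw [norm_sub_sq_real, hn1, hνN]; ring
  have hkey : ‖n - νN‖ ^ 2 ≤ 10 * ηc := by
    by_contra hcon
    push Not at hcon
    set x : V := (1 / 4 : ℝ) • (n - νN) with hx
    have hxn : ‖x‖ ≤ 1 / 2 := by
      rw [hx, norm_smul]
      have := norm_sub_le n νN
      rw [hn1, hνN] at this
      norm_num
      linarith
    have hx1 : inner ℝ n x = ‖n - νN‖ ^ 2 / 8 := by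
      rw [hx, inner_smul_right, inner_sub_right, real_inner_self_eq_norm_sq, hn1, hsq]; ring
    have hx2 : inner ℝ νN x = -(‖n - νN‖ ^ 2 / 8) := by
      rw [hx, inner_smul_right, inner_sub_right, real_inner_self_eq_norm_sq, hνN, hsq,
        real_inner_comm]; ring
    have hcN := (abs_le.1 hCln.hc).2
    have h1 : x ∉ NN (sclD 0 (ρ ^ N) D) (scl 0 (ρ ^ N) u) := by
      apply hCln.neg x (by linarith)
      rw [hx2]
      linarith
    apply h1
    have h2 : ‖ρ ^ N • x‖ < r := by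
      rw [norm_rsmul hρN]
      nlinarith
    have h3 := hball (ρ ^ N • x) (by rw [mem_ball, dist_zero_right]; exact h2)
    obtain ⟨h4, h5, -⟩ := h3
    rw [NN_scl 0 hρN]
    show (0 : V) + ρ ^ N • x ∈ NN D u
    rw [zero_add]
    have h6 : 0 < G (ρ ^ N • x) := by
      rw [Real.norm_eq_abs, inner_smul_right, norm_rsmul hρN, hx1] at h4
      have h7 := (abs_le.1 h4).1
      have h8 : ηc * (ρ ^ N * ‖x‖) ≤ ρ ^ N * ηc := by
        have : ηc * ‖x‖ ≤ ηc * 1 := mul_le_mul_of_nonneg_left (by linarith) hηc0.le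
        nlinarith
      have h9 : ρ ^ N * ηc < ρ ^ N * (‖n - νN‖ ^ 2 / 8) := by
        apply mul_lt_mul_of_pos_left _ hρN
        linarith
      linarith
    refine ⟨?_, h5.2 h6⟩
    by_cases hx0 : x = 0
    · rw [hx0, smul_zero]; exact h0D
    · have hxp : 0 < ‖ρ ^ N • x‖ := by
        rw [norm_rsmul hρN]; exact mul_pos hρN (norm_pos_iff.2 hx0)
      refine (hcfg (‖ρ ^ N • x‖ / 2) (by positivity)).sub _ (by linarith) ?_
      rw [norm_rsmul hρN]
      nlinarith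
  have h1 : ‖n - νN‖ ≤ η / 2 := by
    have h2 : ‖n - νN‖ ^ 2 ≤ (η / 2) ^ 2 := by rw [hηc] at hkey; linarith
    exact (pow_le_pow_iff_left₀ (norm_nonneg _) (by positivity) (by norm_num)).1 h2
  have h2 : ‖νN - ν‖ ≤ η / 2 := hνd.trans (min_le_left _ _)
  have h3 : n - ν = (n - νN) + (νN - ν) := by abel
  rw [h3]
  exact (norm_add_le _ _).trans (by linarith)

end

end Pool.Agent.D0H33.FB
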