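import Mathlib
import Pool.Agent.D0H33.FB.A32

set_option autoImplicit false

open Set Metric Filter Topology MeasureTheory
open ExtStar (lap)

namespace Pool.Agent.D0H33.FB

noncomputable section

variable {D : Set V} {u : V → ℝ}

/-- `G` is a smooth extension of `u` across the free boundary point `p` -/
def Gd (u G : V → ℝ) (p : V) : Prop := ContDiffAt ℝ 1 G p ∧ G p = 0 ∧ ‖fderiv ℝ G p‖ = 1 ∧
    ∀ᶠ x in 𝓝 p, (0 < u x ↔ 0 < G x) ∧ (0 < u x → u x = G x)

lemma Gd.scl {G : V → ℝ} {y p : V} {r : ℝ} (hr : 0 < r) (h : Gd u G (y + r • p)) :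
    Gd (scl y r u) (scl y r G) p ∧ gr (scl y r G) p = gr G (y + r • p) := by
  obtain ⟨hG1, hG0, hGn, hG⟩ := h
  have hd : DifferentiableAt ℝ G (y + r • p) := hG1.differentiableAt (by norm_num)
  refine ⟨⟨?_, ?_, ?_, ?_⟩, ?_⟩
  · have : ContDiffAt ℝ 1 (fun x : V => G (y + r • x)) p :=
      hG1.comp p (aff_smooth y r).contDiffAt
    exact this.div_const r
  · unfold FB.scl; rw [hG0, zero_div]
  · rw [scl_fderiv y hr hd]; exact hGn
  · have hc : Tendsto (fun x : V => y + r • x) (𝓝 p) (𝓝 (y + r • p)) :=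
      (aff_smooth y r (n := 0)).continuous.tendsto p
    filter_upwards [hc.eventually hG] with x hx
    unfold FB.scl
    refine ⟨?_, ?_⟩
    · rw [div_pos_iff_of_pos_right hr, div_pos_iff_of_pos_right hr]; exact hx.1
    · intro h0
      rw [div_pos_iff_of_pos_right hr] at h0
      rw [hx.2 h0]
  · unfold gr
    rw [scl_fderiv y hr hd]

/-- recentering the excess -/
lemma recenter {L c κ δ : ℝ} (hL : 1 ≤ L) (h : Cfg L c κ δ D u) {ν : V} (hν : ‖ν‖ = 1) (c' : ℝ)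
    {p : V} {R : ℝ} (hR : 0 < R) (h1 : δ + R ≤ ‖p‖) (h2 : ‖p‖ + R ≤ 1) (δ' : ℝ) :
    exc δ' (sclD p R D) (scl p R u) ν ((c' + inner ℝ ν p) / R) ≤ (R ^ 5)⁻¹ * exc δ D u ν c' := by
  unfold exc
  set S : Set V := {z | (1 / R) • (z - p) ∈ ann δ' 1} with hS
  have hSm : MeasurableSet S := by
    have : Continuous (fun z : V => (1 / R) • (z - p)) := by fun_prop
    exact this.measurable (ann_meas _ _)
  have e1 : NN (sclD p R D) (scl p R u) ∩ ann δ' 1 = {x | p + R • x ∈ NN D u ∩ S} := by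
    rw [NN_scl p hR]
    ext x
    have e2 : (1 / R) • (p + R • x - p) = x := by
      rw [add_sub_cancel_left, smul_smul, one_div, inv_mul_cancel₀ hR.ne', one_smul]
    constructor
    · rintro ⟨a, b⟩
      refine ⟨a, ?_⟩
      show (1 / R) • (p + R • x - p) ∈ ann δ' 1
      rw [e2]; exact b
    · rintro ⟨a, b⟩
      refine ⟨a, ?_⟩
      have b' : (1 / R) • (p + R • x - p) ∈ ann δ' 1 := b
      rwa [e2] at b'
  rw [e1]
  have e3 : ∀ x : V, vv (scl p R u) ν ((c' + inner ℝ ν p) / R) x ^ 2 =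
      (fun z => (R ^ 2)⁻¹ * vv u ν c' z ^ 2) (p + R • x) := by
    intro x
    unfold vv scl
    simp only [inner_add_right, inner_smul_right]
    field_simp
    ring
  simp_rw [e3]
  rw [int_scl p hR (h.sol.meas_NN.inter hSm) (fun z => (R ^ 2)⁻¹ * vv u ν c' z ^ 2),
    integral_const_mul]
  have e4 : (R ^ 3)⁻¹ * ((R ^ 2)⁻¹ * ∫ x in NN D u ∩ S, vv u ν c' x ^ 2) =
      (R ^ 5)⁻¹ * ∫ x in NN D u ∩ S, vv u ν c' x ^ 2 := by
    rw [← mul_assoc, ← mul_inv]; congr 2; ring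
  rw [e4]
  apply mul_le_mul_of_nonneg_left _ (by positivity)
  apply setIntegral_mono_set (h.exc_int (by linarith) hν)
  · filter_upwards with x
    exact sq_nonneg _
  · apply LE.le.eventuallyLE
    intro z hz
    refine ⟨hz.1, ?_⟩
    have hz2 : (1 / R) • (z - p) ∈ ann δ' 1 := hz.2
    have h3 : ‖z - p‖ < R := by
      have := hz2.2
      rw [norm_smul, Real.norm_of_nonneg (by positivity)] at this
      rwa [one_div, inv_mul_lt_iff₀ hR, mul_one] at this
    have h4 : ‖p‖ ≤ ‖z‖ + ‖z - p‖ := by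
      have := norm_sub_le z (z - p)
      simpa using this
    have h5 : ‖z‖ ≤ ‖p‖ + ‖z - p‖ := by
      have := norm_add_le p (z - p)
      simpa using this
    exact ⟨by linarith, by linarith⟩

/-- small excess gives cone conditions and control of normals -/
theorem cone_normals (L c κ : ℝ) (hL : 1 ≤ L) (hc : 0 < c) (hκ : 1 ≤ κ)
    (hA : ∀ (D : Set V) (u : V → ℝ) (δ : ℝ), Sol D u → 0 < δ → closedBall 0 1 ⊆ D →
      (∀ x ∈ NN D u, ‖x‖ ≤ 1 → ‖gr u x‖ ≤ L) → (0 : V) ∈ FF D u → Cfg L c κ δ D u) :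
    ∀ η : ℝ, 0 < η → ∃ ε K : ℝ, 0 < ε ∧ 1 ≤ K ∧
      ∀ (δ : ℝ) (D : Set V) (u : V → ℝ) (ν : V), Cfg L c κ δ D u → ‖ν‖ = 1 →
        exc δ D u ν 0 + δ ≤ ε → ∀ x : V, K * δ < ‖x‖ → ‖x‖ < 1 / 2 →
          (η * ‖x‖ < inner ℝ ν x → x ∈ NN D u) ∧ (inner ℝ ν x < -(η * ‖x‖) → x ∉ NN D u) ∧
          (x ∈ FF D u → ∀ G, Gd u G x → ‖gr G x - ν‖ ≤ η) := by
  obtain ⟨ρ, hρ0, hρ16, hit⟩ := iterate L c κ hL hc hκ
  obtain ⟨M, hM, hclean⟩ := clean_all L c κ hL hc hκ
  intro η hη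
  set ηc : ℝ := η * ρ / 8 with hηc
  have hηc0 : 0 < ηc := by positivity
  obtain ⟨εc, hεc, hcl⟩ := hclean ηc hηc0
  obtain ⟨εn, hεn, hnorm⟩ := normal_close L c κ hL hc hκ (η / 2) (by positivity)
  obtain ⟨ε, hε0, hεη, hmain⟩ := hit (min (min (η / 2) εc) (min ((ρ / 8) ^ 5 * εn) (ρ / 8)))
    (by positivity)
  have hε1 : ε ≤ η / 2 := hεη.trans ((min_le_left _ _).trans (min_le_left _ _))
  have hε2 : ε ≤ εc := hεη.trans ((min_le_left _ _).trans (min_le_right _ _))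
  have hε3 : ε ≤ (ρ / 8) ^ 5 * εn := hεη.trans ((min_le_right _ _).trans (min_le_left _ _))
  have hε4 : ε ≤ ρ / 8 := hεη.trans ((min_le_right _ _).trans (min_le_right _ _))
  have hη2 : min (min (η / 2) εc) (min ((ρ / 8) ^ 5 * εn) (ρ / 8)) ≤ η / 2 :=
    (min_le_left _ _).trans (min_le_left _ _)
  refine ⟨ε, max 1 (1 / ε), hε0, le_max_left _ _, ?_⟩
  intro δ D u ν hcfg hν hexc x hx1 hx2
  have hδ := hcfg.δ0
  have hxK : δ < ε * ‖x‖ := by
    have h1 : 1 / ε * δ < ‖x‖ := lt_of_le_of_lt (mul_le_mul_of_nonneg_right (le_max_right _ _) hδ.le) hx1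
    rw [one_div, inv_mul_lt_iff₀ hε0] at h1
    exact h1
  have hx0 : 0 < ‖x‖ := by
    by_contra hn
    push Not at hn
    nlinarith [norm_nonneg x]
  obtain ⟨k, hk1, hk2⟩ := exists_nat_pow_near_of_lt_one (x := 2 * ‖x‖) (y := ρ) (by positivity)
    (by linarith) hρ0 (by linarith)
  set a := ρ ^ k with ha
  have ha0 : 0 < a := by positivity
  have ha1 : a ≤ 1 := pow_le_one₀ hρ0.le (by linarith)
  have hk1' : a * ρ < 2 * ‖x‖ := by rw [ha, ← pow_succ]; exact hk1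
  obtain ⟨νk, ck, hνk, hνd, hexk⟩ := hmain δ D u ν 0 hcfg hν hexc k (by
    rw [← ha, div_le_iff₀ ha0]
    nlinarith)
  rw [← ha] at hexk
  have hcfgk : Cfg L c κ (δ / a) (sclD 0 a D) (scl 0 a u) := hcfg.scale (by linarith) ha0 ha1
  have hek := exc_nonneg (δ / a) (sclD 0 a D) (scl 0 a u) νk ck
  obtain ⟨h, -, hh, hCln⟩ := hcl (δ / a) _ _ νk ck hcfgk hνk (hexk.trans hε2)
  have hh0 := hCln.h0
  have hck := abs_le.1 hCln.hc
  set D' := sclD 0 a D with hD'
  set u' := scl 0 a u with hu'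
  set x' : V := a⁻¹ • x with hx'
  have hax : (0 : V) + a • x' = x := by
    rw [zero_add, hx', smul_smul, mul_inv_cancel₀ ha0.ne', one_smul]
  have hxn : ‖x'‖ * a = ‖x‖ := by
    rw [hx', norm_smul, Real.norm_of_nonneg (by positivity)]
    field_simp
  have hx'1 : ρ / 2 < ‖x'‖ := by
    have : ρ / 2 * a < ‖x'‖ * a := by rw [hxn]; linarith
    exact lt_of_mul_lt_mul_right this ha0.le
  have hx'2 : ‖x'‖ ≤ 1 / 2 := by
    have : ‖x'‖ * a ≤ 1 / 2 * a := by rw [hxn]; linarith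
    exact le_of_mul_le_mul_right this ha0
  have hνx : inner ℝ ν x = a * inner ℝ ν x' := by
    rw [← hax, zero_add, inner_smul_right]
  have hνk2 : ‖νk - ν‖ ≤ η / 2 := hνd.trans hη2
  have hdiff : |inner ℝ νk x' - inner ℝ ν x'| ≤ η / 2 * ‖x'‖ := by
    rw [← inner_sub_left]
    exact (abs_real_inner_le_norm _ _).trans (mul_le_mul_of_nonneg_right hνk2 (norm_nonneg _))
  have hdiff' := abs_le.1 hdiff
  have hx'η : η / 2 * ‖x'‖ > 5 / 4 * h := by
    have h1 : η / 2 * (ρ / 2) < η / 2 * ‖x'‖ := mul_lt_mul_of_pos_left hx'1 (by positivity)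
    have h2 : 5 / 4 * h ≤ 5 / 4 * ηc := by linarith
    rw [hηc] at h2
    nlinarith [mul_pos hη hρ0]
  refine ⟨?_, ?_, ?_⟩
  · intro h1
    rw [hνx, ← hxn] at h1
    have h2 : η * ‖x'‖ < inner ℝ ν x' := by
      have : a * (η * ‖x'‖) < a * inner ℝ ν x' := by linarith
      exact lt_of_mul_lt_mul_left this ha0.le
    have h3 : x' ∈ NN D' u' := by
      apply hCln.pos x' (by linarith)
      linarith [hdiff'.1, hck.1]
    rw [NN_scl 0 ha0] at h3
    have h4 : (0 : V) + a • x' ∈ NN D u := h3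
    rwa [hax] at h4
  · intro h1 hxN
    rw [hνx, ← hxn] at h1
    have h2 : inner ℝ ν x' < -(η * ‖x'‖) := by
      have : a * inner ℝ ν x' < a * -(η * ‖x'‖) := by linarith
      exact lt_of_mul_lt_mul_left this ha0.le
    refine hCln.neg x' (by linarith) (by linarith [hdiff'.2, hck.2]) ?_
    rw [NN_scl 0 ha0]
    show (0 : V) + a • x' ∈ NN D u
    rwa [hax]
  · intro hxF G hG
    have hxF' : x' ∈ FF D' u' := by
      rw [FF_scl 0 ha0]
      show (0 : V) + a • x' ∈ FF D u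
      rwa [hax]
    rw [← hax] at hG
    obtain ⟨hG1, hG1g⟩ := hG.scl ha0
    rw [hax] at hG1g
    set R : ℝ := ρ / 8 with hR
    have hR0 : 0 < R := by positivity
    have hδa : δ / a ≤ ε := by linarith
    have hRp : δ / a + R ≤ ‖x'‖ := by linarith
    have hRp2 : ‖x'‖ + R ≤ 1 := by linarith
    have hx'R : x' + R • (0 : V) = x' := by rw [smul_zero, add_zero]
    have hG1' : Gd u' (scl 0 a G) (x' + R • (0 : V)) := by rw [hx'R]; exact hG1
    obtain ⟨hG2, hG2g⟩ := hG1'.scl hR0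
    rw [hx'R] at hG2g
    have hann : ∀ y : V, ‖y‖ ≤ 1 → x' + R • y ∈ ann (δ / a) 1 := by
      intro y hy
      have h3 : ‖R • y‖ ≤ R := by rw [norm_rsmul hR0]; nlinarith
      have h4 : ‖x'‖ ≤ ‖x' + R • y‖ + ‖R • y‖ := by
        have := norm_sub_le (x' + R • y) (R • y)
        simpa using this
      have h5 : ‖x' + R • y‖ ≤ ‖x'‖ + ‖R • y‖ := norm_add_le _ _
      exact ⟨by linarith, by linarith⟩
    have hsol2 : Sol (sclD x' R D') (scl x' R u') := hcfgk.sol.scale x' hR0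
    have hD2 : closedBall (0 : V) 1 ⊆ sclD x' R D' := by
      intro y hy
      rw [mem_closedBall, dist_zero_right] at hy
      have := hann y hy
      exact hcfgk.sub _ this.1 this.2
    have hlip2 : ∀ y ∈ NN (sclD x' R D') (scl x' R u'), ‖y‖ ≤ 1 → ‖gr (scl x' R u') y‖ ≤ L := by
      intro y hy hy1
      rw [NN_scl x' hR0] at hy
      rw [gr_scl hcfgk.sol x' hR0 hy]
      have := hann y hy1
      exact hcfgk.lip _ hy this.1 this.2
    have hF2 : (0 : V) ∈ FF (sclD x' R D') (scl x' R u') := by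
      rw [FF_scl x' hR0]
      show x' + R • (0 : V) ∈ FF D' u'
      rwa [hx'R]
    have hfin := hnorm (sclD x' R D') (scl x' R u') νk ((ck + inner ℝ νk x') / R) hνk
      (fun δ' hδ' => hA _ _ δ' hsol2 hδ' hD2 hlip2 hF2) hF2.1 (by
        intro δ' _
        refine (recenter hL hcfgk hνk ck hR0 hRp hRp2 δ').trans ?_
        rw [inv_mul_le_iff₀ (by positivity)]
        have : 0 < δ / a := by positivity
        linarith) (scl x' R (scl 0 a G)) hG2.1 hG2.2.1 hG2.2.2.1 hG2.2.2.2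
    rw [hG2g, hG1g] at hfin
    have h3 : gr G x - ν = (gr G x - νk) + (νk - ν) := by abel
    rw [h3]
    exact (norm_add_le _ _).trans (by linarith)

end

end Pool.Agent.D0H33.FB
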