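import Mathlib
import Pool.Agent.D0H33.FB.A33

set_option autoImplicit false

open Set Metric Filter Topology MeasureTheory
open ExtStar (lap)

namespace Pool.Agent.D0H33.FB

noncomputable section

abbrev W := EuclideanSpace ℝ (Fin 2)

/-- the embedding of the plane -/
def io : W →L[ℝ] V := LinearMap.toContinuousLinearMap
  { toFun := fun y => !₂[y 0, y 1, 0]
    map_add' := by intro x y; ext i; fin_cases i <;> simp
    map_smul' := by intro c x; ext i; fin_cases i <;> simp }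

lemma io_apply (y : W) : io y = !₂[y 0, y 1, 0] := rfl

/-- the projection to the plane -/
def pr (x : V) : W := !₂[x 0, x 1]

/-- vertical lines -/
def li (y : W) (t : ℝ) : V := io y + t • ee 2

lemma ee_norm (i : Fin 3) : ‖ee i‖ = 1 := by
  unfold ee; simp

lemma ee_inner (i : Fin 3) (x : V) : inner ℝ (ee i) x = x i := by
  unfold ee
  rw [EuclideanSpace.inner_single_left]
  simp

lemma li_two (y : W) (t : ℝ) : (li y t) 2 = t := by
  unfold li ee
  rw [io_apply]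
  simp

lemma li_zero (y : W) (t : ℝ) : (li y t) 0 = y 0 := by
  unfold li ee
  rw [io_apply]
  simp

lemma li_one (y : W) (t : ℝ) : (li y t) 1 = y 1 := by
  unfold li ee
  rw [io_apply]
  simp

lemma li_pr (x : V) : li (pr x) (x 2) = x := by
  ext i
  fin_cases i
  · show (li (pr x) (x 2)) 0 = x 0
    rw [li_zero]; rfl
  · show (li (pr x) (x 2)) 1 = x 1
    rw [li_one]; rfl
  · show (li (pr x) (x 2)) 2 = x 2
    rw [li_two]

lemma li_norm (y : W) (t : ℝ) : ‖li y t‖ ^ 2 = ‖y‖ ^ 2 + t ^ 2 := by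
  rw [EuclideanSpace.norm_sq_eq, EuclideanSpace.norm_sq_eq, Fin.sum_univ_three, Fin.sum_univ_two,
    li_zero, li_one, li_two]
  simp only [Real.norm_eq_abs, sq_abs]

lemma io_norm (y : W) : ‖io y‖ = ‖y‖ := by
  have h := li_norm y 0
  unfold li at h
  rw [zero_smul, add_zero] at h
  have h2 : ‖io y‖ ^ 2 = ‖y‖ ^ 2 := by rw [h]; ring
  exact (sq_eq_sq₀ (norm_nonneg _) (norm_nonneg _)).1 h2

lemma li_inner (y : W) (t : ℝ) : inner ℝ (ee 2) (li y t) = t := by
  rw [ee_inner, li_two]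

lemma li_ge (y : W) (t : ℝ) : ‖y‖ ≤ ‖li y t‖ := by
  have h := li_norm y t
  have : ‖y‖ ^ 2 ≤ ‖li y t‖ ^ 2 := by rw [h]; nlinarith [sq_nonneg t]
  exact (pow_le_pow_iff_left₀ (norm_nonneg _) (norm_nonneg _) (by norm_num)).1 this

lemma li_le {y : W} {t : ℝ} (ht : |t| ≤ ‖y‖) : ‖li y t‖ ≤ 2 * ‖y‖ := by
  have h := li_norm y t
  have h2 : t ^ 2 ≤ ‖y‖ ^ 2 := by
    rw [← sq_abs]; exact pow_le_pow_left₀ (abs_nonneg _) ht 2
  have : ‖li y t‖ ^ 2 ≤ (2 * ‖y‖) ^ 2 := by rw [h]; nlinarith [sq_nonneg ‖y‖]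
  exact (pow_le_pow_iff_left₀ (norm_nonneg _) (by positivity) (by norm_num)).1 this

lemma li_cont (y : W) : Continuous (li y) := by
  unfold li; fun_prop

lemma li_add (y z : W) (s t : ℝ) : li (y + z) (s + t) = li y s + li z t := by
  unfold li
  rw [map_add, add_smul]; abel

lemma li_shift (y : W) (s t : ℝ) : li y (s + t) = li y s + t • ee 2 := by
  unfold li
  rw [add_smul]; abel

/-- cone and normal conditions in an annulus -/
structure Cone (η a b : ℝ) (D : Set V) (u : V → ℝ) : Prop where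
  sol : Sol D u
  a0 : 0 < a
  η0 : 0 < η
  η1 : η ≤ 1 / 100
  sub : ann a b ⊆ D
  pos : ∀ x ∈ ann a b, η * ‖x‖ < x 2 → x ∈ NN D u
  neg : ∀ x ∈ ann a b, x 2 < -(η * ‖x‖) → x ∉ NN D u
  nor : ∀ x ∈ ann a b, x ∈ FF D u → ∀ G, Gd u G x → ‖gr G x - ee 2‖ ≤ η

section cone

variable {η a b : ℝ} {D : Set V} {u : V → ℝ}

lemma Cone.F_abs (h : Cone η a b D u) {x : V} (hx : x ∈ ann a b) (hF : x ∈ FF D u) :
    |x 2| ≤ η * ‖x‖ := by
  rw [abs_le]
  have hfr := hF.2
  rw [h.sol.isOpen_NN.frontier_eq] at hfr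
  constructor
  · by_contra hn
    push Not at hn
    have hc1 : Continuous (fun z : V => z 2) := by fun_prop
    have hopen : IsOpen (ann a b ∩ {z : V | z 2 < -(η * ‖z‖)}) :=
      (ann_open a b).inter (isOpen_lt hc1 (by fun_prop))
    obtain ⟨z, hz1, hz2⟩ := mem_closure_iff.1 hfr.1 _ hopen ⟨hx, hn⟩
    exact h.neg z hz1.1 hz1.2 hz2
  · by_contra hn
    push Not at hn
    exact hfr.2 (h.pos x hx hn)

/-- sign of the extension along the vertical direction -/
lemma Cone.local_sign (h : Cone η a b D u) {x : V} (hx : x ∈ ann a b) (hF : x ∈ FF D u) :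
    ∃ r : ℝ, 0 < r ∧ ∀ s : ℝ, 0 < s → s < r → x + s • ee 2 ∈ NN D u ∧ x + (-s) • ee 2 ∉ NN D u := by
  obtain ⟨G, hG⟩ := h.sol.bdry x hF
  have hGd : Gd u G x := hG
  have hn := h.nor x hx hF G hGd
  obtain ⟨hG1, hG0, hGn, hGu⟩ := hG
  have hη1 := h.η1
  -- normal component
  have hcomp : 99 / 100 ≤ fderiv ℝ G x (ee 2) := by
    rw [← gr_inner]
    have h1 : inner ℝ (gr G x) (ee 2) = 1 + inner ℝ (gr G x - ee 2) (ee 2) := by
      rw [inner_sub_left, real_inner_self_eq_norm_sq, ee_norm]; ring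
    rw [h1]
    have h2 := abs_real_inner_le_norm (gr G x - ee 2) (ee 2)
    rw [ee_norm, mul_one] at h2
    have := (abs_le.1 (h2.trans hn)).1
    linarith
  have hGd : HasFDerivAt G (fderiv ℝ G x) x := (hG1.differentiableAt (by norm_num)).hasFDerivAt
  have hGl : ∀ᶠ y in 𝓝 x, ‖G y - G x - fderiv ℝ G x (y - x)‖ ≤ 1 / 2 * ‖y - x‖ := by
    have h1 := hGd.isLittleO
    rw [Asymptotics.isLittleO_iff] at h1
    exact h1 (by norm_num : (0:ℝ) < 1 / 2)
  have hD : ∀ᶠ y in 𝓝 x, y ∈ D := h.sol.op.mem_nhds hF.1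
  obtain ⟨r, hr, hball⟩ := Metric.eventually_nhds_iff_ball.1 (hGl.and (hGu.and hD))
  refine ⟨r, hr, ?_⟩
  intro s hs hsr
  have key : ∀ σ : ℝ, |σ| < r → |G (x + σ • ee 2) - σ * fderiv ℝ G x (ee 2)| ≤ 1 / 2 * |σ| ∧
      (0 < u (x + σ • ee 2) ↔ 0 < G (x + σ • ee 2)) ∧ x + σ • ee 2 ∈ D := by
    intro σ hσ
    have h1 : ‖x + σ • ee 2 - x‖ = |σ| := by
      rw [add_sub_cancel_left, norm_smul, ee_norm, mul_one, Real.norm_eq_abs]
    obtain ⟨h2, h3, h4⟩ := hball (x + σ • ee 2) (by rw [mem_ball, dist_eq_norm, h1]; exact hσ)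
    rw [h1, hG0, sub_zero, add_sub_cancel_left, map_smul, smul_eq_mul, Real.norm_eq_abs] at h2
    exact ⟨h2, h3.1, h4⟩
  have hs1 : |s| = s := abs_of_pos hs
  constructor
  · obtain ⟨h1, h2, h3⟩ := key s (by rw [hs1]; exact hsr)
    refine ⟨h3, h2.2 ?_⟩
    rw [hs1] at h1
    have := (abs_le.1 h1).1
    nlinarith
  · obtain ⟨h1, h2, h3⟩ := key (-s) (by rw [abs_neg, hs1]; exact hsr)
    intro hN
    have h4 := h2.1 hN.2
    rw [abs_neg, hs1] at h1
    have := (abs_le.1 h1).2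
    nlinarith

lemma Cone.li_ann (h : Cone η a b D u) {y : W} (hy : a < ‖y‖) (hy2 : ‖y‖ < b / 2) {t : ℝ}
    (ht : |t| ≤ ‖y‖) : li y t ∈ ann a b :=
  ⟨lt_of_lt_of_le hy (li_ge y t), lt_of_le_of_lt (li_le ht) (by linarith)⟩

/-- the positive phase is an upper set on vertical segments -/
lemma Cone.upper (h : Cone η a b D u) {y : W} (hy : a < ‖y‖) (hy2 : ‖y‖ < b / 2) {s t : ℝ}
    (hs : -‖y‖ ≤ s) (hst : s ≤ t) (ht : t ≤ ‖y‖) (hN : li y s ∈ NN D u) : li y t ∈ NN D u := by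
  by_contra hn
  set S : Set ℝ := Icc s t ∩ {r | li y r ∉ NN D u} with hS
  have hcl : IsClosed {r : ℝ | li y r ∉ NN D u} := by
    have : IsOpen (li y ⁻¹' (NN D u)) := h.sol.isOpen_NN.preimage (li_cont y)
    exact this.isClosed_compl
  have hScomp : IsCompact S := isCompact_Icc.inter_right hcl
  have hSne : S.Nonempty := ⟨t, ⟨hst, le_refl _⟩, hn⟩
  obtain ⟨r, hr1, hr2⟩ := hScomp.exists_isLeast hSne
  have hrs : s < r := by
    rcases hr1.1.1.eq_or_lt with h1 | h1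
    · rw [← h1] at hr1
      exact absurd hN hr1.2
    · exact h1
  have hbelow : ∀ q : ℝ, s ≤ q → q < r → li y q ∈ NN D u := by
    intro q hq1 hq2
    by_contra hnq
    have := hr2 (show q ∈ S from ⟨⟨hq1, by linarith [hr1.1.2]⟩, hnq⟩)
    linarith
  have hra : li y r ∈ ann a b := h.li_ann hy hy2 (abs_le.2 ⟨by linarith, by linarith [hr1.1.2]⟩)
  have hrF : li y r ∈ FF D u := by
    apply h.sol.mem_FF (h.sub hra)
    · have h1 : r ∈ closure (Ico s r) := by
        rw [closure_Ico hrs.ne]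
        exact ⟨hrs.le, le_refl _⟩
      have h2 : MapsTo (li y) (Ico s r) (NN D u) := fun q hq => hbelow q hq.1 hq.2
      exact h2.closure (li_cont y) h1
    · intro h0
      exact hr1.2 ⟨h.sub hra, h0⟩
  obtain ⟨r0, hr0, hsign⟩ := h.local_sign hra hrF
  set e := min (r0 / 2) ((r - s) / 2) with he
  have he0 : 0 < e := by
    have : 0 < r - s := by linarith
    positivity
  have he1 : e ≤ r0 / 2 := min_le_left _ _
  have he2 : e ≤ (r - s) / 2 := min_le_right _ _
  have h1 := (hsign e he0 (by linarith)).2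
  rw [← li_shift] at h1
  exact h1 (hbelow (r + -e) (by linarith) (by linarith))

/-- the height function -/
lemma Cone.height (h : Cone η a b D u) {y : W} (hy : a < ‖y‖) (hy2 : ‖y‖ < b / 2) :
    ∃ g : ℝ, |g| ≤ 2 * η * ‖y‖ ∧ (∀ t : ℝ, |t| ≤ ‖y‖ → (li y t ∈ NN D u ↔ g < t)) ∧
      li y g ∈ FF D u ∧ ∀ t : ℝ, |t| ≤ ‖y‖ → li y t ∈ FF D u → t = g := by
  have ha := h.a0
  have hη0 := h.η0
  have hη1 := h.η1
  have hy0 : 0 < ‖y‖ := by linarith
  set S : Set ℝ := Icc (-‖y‖) ‖y‖ ∩ {r | li y r ∉ NN D u} with hS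
  have hcl : IsClosed {r : ℝ | li y r ∉ NN D u} := by
    have : IsOpen (li y ⁻¹' (NN D u)) := h.sol.isOpen_NN.preimage (li_cont y)
    exact this.isClosed_compl
  have hScomp : IsCompact S := isCompact_Icc.inter_right hcl
  have hab : |‖y‖| ≤ ‖y‖ := by rw [abs_of_pos hy0]
  have habn : |-‖y‖| ≤ ‖y‖ := by rw [abs_neg, abs_of_pos hy0]
  have hSne : S.Nonempty := by
    refine ⟨-‖y‖, ⟨le_refl _, by linarith⟩, ?_⟩
    show li y (-‖y‖) ∉ NN D u
    apply h.neg _ (h.li_ann hy hy2 habn)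
    rw [li_two]
    have := li_le habn
    nlinarith
  obtain ⟨g, hg1, hg2⟩ := hScomp.exists_isGreatest hSne
  have htop : li y ‖y‖ ∈ NN D u := by
    apply h.pos _ (h.li_ann hy hy2 hab)
    rw [li_two]
    have := li_le hab
    nlinarith
  have hgt : g < ‖y‖ := by
    rcases hg1.1.2.eq_or_lt with h1 | h1
    · rw [h1] at hg1
      exact absurd htop hg1.2
    · exact h1
  have hg : |g| ≤ ‖y‖ := abs_le.2 ⟨hg1.1.1, hg1.1.2⟩
  have hga := h.li_ann hy hy2 hg
  have hiff : ∀ t : ℝ, |t| ≤ ‖y‖ → (li y t ∈ NN D u ↔ g < t) := by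
    intro t ht
    have ht' := abs_le.1 ht
    constructor
    · intro h1
      by_contra hn
      push Not at hn
      exact hg1.2 (h.upper hy hy2 ht'.1 hn hg1.1.2 h1)
    · intro h1
      by_contra hn
      have := hg2 (show t ∈ S from ⟨ht', hn⟩)
      linarith
  have hgF : li y g ∈ FF D u := by
    apply h.sol.mem_FF (h.sub hga)
    · have h1 : g ∈ closure (Ioc g ‖y‖) := by
        rw [closure_Ioc hgt.ne]
        exact ⟨le_refl _, hgt.le⟩
      have h2 : MapsTo (li y) (Ioc g ‖y‖) (NN D u) := fun q hq =>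
        (hiff q (abs_le.2 ⟨by linarith [hg1.1.1, hq.1], hq.2⟩)).2 hq.1
      exact h2.closure (li_cont y) h1
    · intro h0
      exact hg1.2 ⟨h.sub hga, h0⟩
  refine ⟨g, ?_, hiff, hgF, ?_⟩
  · have h1 := h.F_abs hga hgF
    rw [li_two] at h1
    have h2 := li_le hg
    nlinarith
  · intro t ht htF
    have ht' := abs_le.1 ht
    have hta := h.li_ann hy hy2 ht
    have htN : li y t ∉ NN D u := by
      have h1 := htF.2
      rw [h.sol.isOpen_NN.frontier_eq] at h1
      exact h1.2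
    have htg : t ≤ g := by
      by_contra hn
      exact htN ((hiff t ht).2 (not_le.1 hn))
    rcases htg.eq_or_lt with h1 | h1
    · exact h1
    · exfalso
      obtain ⟨r0, hr0, hsign⟩ := h.local_sign hta htF
      set e := min (r0 / 2) ((g - t) / 2) with he
      have he0 : 0 < e := by
        have : 0 < g - t := by linarith
        positivity
      have he1 : e ≤ r0 / 2 := min_le_left _ _
      have he2 : e ≤ (g - t) / 2 := min_le_right _ _
      have h2 := (hsign e he0 (by linarith)).1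
      rw [← li_shift] at h2
      have h3 := (hiff (t + e) (abs_le.2 ⟨by linarith, by linarith⟩)).1 h2
      linarith

end cone

end

end Pool.Agent.D0H33.FB
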