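import Mathlib
import Pool.Agent.D0H33.FB.A35

set_option autoImplicit false

open Set Metric Filter Topology MeasureTheory
open ExtStar (lap)

namespace Pool.Agent.D0H33.FB

noncomputable section

/-- radial cut off in the plane -/
def rc (A : ℝ) (y : W) : ℝ := chi (‖y‖ ^ 2 / A ^ 2)

lemma rc_smooth (A : ℝ) {n : ℕ∞} : ContDiff ℝ n (rc A) := by
  unfold rc
  exact chi_smooth.comp ((contDiff_norm_sq ℝ).div_const _)

lemma rc_zero {A : ℝ} (hA : 0 < A) {y : W} (hy : ‖y‖ ≤ A) : rc A y = 0 := by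
  unfold rc
  apply chi_zero
  rw [div_le_one (by positivity)]
  exact pow_le_pow_left₀ (norm_nonneg _) hy 2

lemma rc_one {A : ℝ} (hA : 0 < A) {y : W} (hy : 2 * A ^ 2 ≤ ‖y‖ ^ 2) : rc A y = 1 := by
  unfold rc
  apply chi_one
  rwa [le_div_iff₀ (by positivity)]

lemma rc_nonneg (A : ℝ) (y : W) : 0 ≤ rc A y := chi_nonneg _

lemma rc_le_one (A : ℝ) (y : W) : rc A y ≤ 1 := chi_le_one _

lemma rc_grad : ∃ C : ℝ, 0 < C ∧ ∀ (A : ℝ) (y : W), 0 < A → 0 < ‖y‖ →
    ‖fderiv ℝ (rc A) y‖ ≤ C / ‖y‖ := by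
  obtain ⟨C, hC, hd⟩ := dchi_bd
  refine ⟨4 * C, by positivity, ?_⟩
  intro A y hA hy
  have h1 : HasFDerivAt (fun y : W => ‖y‖ ^ 2 / A ^ 2) ((A ^ 2)⁻¹ • (2 • innerSL ℝ y)) y := by
    have h2 : HasFDerivAt (fun y : W => ‖y‖ ^ 2) (2 • innerSL ℝ y) y :=
      (hasStrictFDerivAt_norm_sq y).hasFDerivAt
    have := h2.mul_const (A ^ 2)⁻¹
    simpa [div_eq_mul_inv] using this
  have h3 : HasFDerivAt (rc A) _ y := (chi_diff (‖y‖ ^ 2 / A ^ 2)).hasDerivAt.comp_hasFDerivAt y h1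
  rw [h3.fderiv]
  apply ContinuousLinearMap.opNorm_le_bound _ (by positivity)
  intro w
  have e1 : (deriv chi (‖y‖ ^ 2 / A ^ 2) • ((A ^ 2)⁻¹ • (2 • innerSL ℝ y))) w =
      deriv chi (‖y‖ ^ 2 / A ^ 2) * (2 * (A ^ 2)⁻¹ * inner ℝ y w) := by
    simp only [_root_.smul_apply, smul_eq_mul, innerSL_apply_apply, nsmul_eq_mul, Nat.cast_ofNat]
    ring
  rw [e1, Real.norm_eq_abs, abs_mul, abs_mul, abs_mul]
  have h4 := abs_real_inner_le_norm y w
  by_cases h5 : 2 ≤ ‖y‖ ^ 2 / A ^ 2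
  · rw [dchi_zero' h5, abs_zero, zero_mul]; positivity
  · push Not at h5
    have h6 := hd (‖y‖ ^ 2 / A ^ 2)
    rw [abs_of_pos (by norm_num : (0:ℝ) < 2), abs_of_pos (by positivity : 0 < (A ^ 2)⁻¹)]
    rw [div_lt_iff₀ (by positivity)] at h5
    have h7 : (A ^ 2)⁻¹ ≤ 2 / ‖y‖ ^ 2 := by
      rw [inv_eq_one_div, div_le_div_iff₀ (by positivity) (by positivity)]
      linarith
    calc |deriv chi (‖y‖ ^ 2 / A ^ 2)| * (2 * (A ^ 2)⁻¹ * |inner ℝ y w|)
        ≤ C * (2 * (2 / ‖y‖ ^ 2) * (‖y‖ * ‖w‖)) := by gcongr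
      _ = 4 * C / ‖y‖ * ‖w‖ := by field_simp; ring

/-- the graph theorem -/
theorem graph : ∃ η : ℝ, 0 < η ∧ η ≤ 1 / 100 ∧ ∀ (a b : ℝ) (D : Set V) (u : V → ℝ), 0 < b → Cone η a b D u →
    ∃ g : W → ℝ, ContDiff ℝ 1 g ∧ (∀ y, ‖fderiv ℝ g y‖ ≤ 1 / 100) ∧
      ∀ x : V, 4 * a < ‖x‖ → ‖x‖ < b / 4 → (x ∈ FF D u ↔ x 2 = g (pr x)) := by
  obtain ⟨C, hC, hrc⟩ := rc_grad
  set η : ℝ := 1 / (100 * (2 + 4 * C)) with hη
  have hη0 : 0 < η := by positivity
  have hη1 : η ≤ 1 / 100 := by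
    rw [hη]
    apply one_div_le_one_div_of_le (by norm_num)
    linarith
  have hη2 : (2 + 4 * C) * η = 1 / 100 := by rw [hη]; field_simp
  clear_value η
  refine ⟨η, hη0, hη1, ?_⟩
  intro a b D u hb hcone
  obtain ⟨g, h⟩ := hcone.exists_hgt
  have ha := h.a0
  set ζ : W → ℝ := fun y => rc (2 * a) y * (1 - rc (b / 4) y) with hζ
  set gt : W → ℝ := fun y => ζ y * g y with hgt
  have hζs : ContDiff ℝ 1 ζ := (rc_smooth _ (n := 1)).mul (contDiff_const.sub (rc_smooth _ (n := 1)))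
  have hζ0 : ∀ y, 0 ≤ ζ y := fun y => mul_nonneg (rc_nonneg _ _) (by linarith [rc_le_one (b / 4) y])
  have hζ1 : ∀ y, ζ y ≤ 1 := fun y => by
    have h1 := rc_le_one (2 * a) y
    have h2 := rc_nonneg (2 * a) y
    have h3 := rc_nonneg (b / 4) y
    have h4 := rc_le_one (b / 4) y
    simp only [hζ]
    nlinarith
  -- three cases
  have hcase : ∀ y : W, (gt =ᶠ[𝓝 y] fun _ => 0) ∨ (a < ‖y‖ ∧ ‖y‖ < b / 2 ∧ 2 * a ≤ ‖y‖) := by
    intro y
    by_cases h1 : ‖y‖ < 2 * a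
    · left
      filter_upwards [(isOpen_lt continuous_norm continuous_const).mem_nhds h1] with z hz
      have hz' : ‖z‖ < 2 * a := hz
      simp only [hgt, hζ]
      rw [rc_zero (by positivity) hz'.le]; ring
    · push Not at h1
      by_cases h2 : ‖y‖ < b / 2
      · exact Or.inr ⟨by linarith, h2, h1⟩
      · left
        push Not at h2
        have h3 : b / 2 * (9 / 10) < ‖y‖ := by linarith
        filter_upwards [(isOpen_lt continuous_const continuous_norm).mem_nhds h3] with z hz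
        have hz' : b / 2 * (9 / 10) < ‖z‖ := hz
        simp only [hgt, hζ]
        rw [rc_one (A := b / 4) (by positivity) (by nlinarith)]; ring
  refine ⟨gt, ?_, ?_, ?_⟩
  · rw [contDiff_iff_contDiffAt]
    intro y
    rcases hcase y with h1 | ⟨h1, h2, -⟩
    · exact contDiffAt_const.congr_of_eventuallyEq h1
    · exact hζs.contDiffAt.mul (h.C1 h1 h2)
  · intro y
    rcases hcase y with h1 | ⟨h1, h2, -⟩
    · rw [h1.fderiv_eq]
      simp
    · have hy0 : 0 < ‖y‖ := by linarith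
      have hgd : HasFDerivAt g (fderiv ℝ g y) y := ((h.C1 h1 h2).differentiableAt (by norm_num)).hasFDerivAt
      have hζd : HasFDerivAt ζ (fderiv ℝ ζ y) y := (hζs.differentiable (by norm_num) y).hasFDerivAt
      have hprod : HasFDerivAt gt (ζ y • fderiv ℝ g y + g y • fderiv ℝ ζ y) y := hζd.mul hgd
      rw [hprod.fderiv]
      have d1 : HasFDerivAt (rc (2 * a)) (fderiv ℝ (rc (2 * a)) y) y :=
        ((rc_smooth (2 * a) (n := 1)).differentiable (by norm_num) y).hasFDerivAt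
      have d2 : HasFDerivAt (rc (b / 4)) (fderiv ℝ (rc (b / 4)) y) y :=
        ((rc_smooth (b / 4) (n := 1)).differentiable (by norm_num) y).hasFDerivAt
      have d3 : HasFDerivAt ζ (rc (2 * a) y • (-fderiv ℝ (rc (b / 4)) y) +
          (1 - rc (b / 4) y) • fderiv ℝ (rc (2 * a)) y) y := d1.mul (d2.const_sub 1)
      have hζg : ‖fderiv ℝ ζ y‖ ≤ 2 * C / ‖y‖ := by
        rw [d3.fderiv]
        refine (norm_add_le _ _).trans ?_
        rw [norm_smul, norm_smul, norm_neg, Real.norm_eq_abs, Real.norm_eq_abs,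
          abs_of_nonneg (rc_nonneg _ _), abs_of_nonneg (by linarith [rc_le_one (b / 4) y])]
        have e1 := hrc (2 * a) y (by positivity) hy0
        have e2 := hrc (b / 4) y (by positivity) hy0
        have e3 := rc_le_one (2 * a) y
        have e4 := rc_nonneg (b / 4) y
        have e5 := norm_nonneg (fderiv ℝ (rc (2 * a)) y)
        have e6 := norm_nonneg (fderiv ℝ (rc (b / 4)) y)
        have e7 : 2 * C / ‖y‖ = C / ‖y‖ + C / ‖y‖ := by ring
        rw [e7]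
        nlinarith [rc_nonneg (2 * a) y, rc_le_one (b / 4) y]
      refine (norm_add_le _ _).trans ?_
      rw [norm_smul, norm_smul, Real.norm_eq_abs, Real.norm_eq_abs, abs_of_nonneg (hζ0 y)]
      have f1 := h.grad_le h1 h2
      have f2 := h.gabs y h1 h2
      have f3 : |g y| * ‖fderiv ℝ ζ y‖ ≤ (2 * η * ‖y‖) * (2 * C / ‖y‖) :=
        mul_le_mul f2 hζg (norm_nonneg _) (by positivity)
      have f4 : (2 * η * ‖y‖) * (2 * C / ‖y‖) = 4 * C * η := by field_simp; ring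
      have f5 : ζ y * ‖fderiv ℝ g y‖ ≤ 1 * (2 * η) := mul_le_mul (hζ1 y) f1 (norm_nonneg _) (by norm_num)
      linarith
  · intro x hx1 hx2
    have hgb : ∀ y : W, a < ‖y‖ → ‖y‖ < b / 2 → |g y| ≤ 2 * η * ‖y‖ := h.gabs
    have key : |x 2| ≤ 1 / 10 * ‖x‖ → (a < ‖pr x‖ ∧ ‖pr x‖ < b / 2) ∧ gt (pr x) = g (pr x) ∧
        |x 2| ≤ ‖pr x‖ := by
      intro h1
      have h2 : ‖x‖ ^ 2 = ‖pr x‖ ^ 2 + (x 2) ^ 2 := by
        conv_lhs => rw [← li_pr x]
        exact li_norm _ _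
      have h3 : (x 2) ^ 2 ≤ 1 / 100 * ‖x‖ ^ 2 := by
        rw [← sq_abs]
        have := pow_le_pow_left₀ (abs_nonneg (x 2)) h1 2
        linarith
      have hx0 : 0 < ‖x‖ := by linarith
      have h4 : 9 / 10 * ‖x‖ ≤ ‖pr x‖ := by
        have : (9 / 10 * ‖x‖) ^ 2 ≤ ‖pr x‖ ^ 2 := by nlinarith
        exact (pow_le_pow_iff_left₀ (by positivity) (norm_nonneg _) (by norm_num)).1 this
      have h5 : ‖pr x‖ ≤ ‖x‖ := by
        have : ‖pr x‖ ^ 2 ≤ ‖x‖ ^ 2 := by nlinarith [sq_nonneg (x 2)]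
        exact (pow_le_pow_iff_left₀ (norm_nonneg _) hx0.le (by norm_num)).1 this
      refine ⟨⟨by linarith, by linarith⟩, ?_, by linarith⟩
      simp only [hgt, hζ]
      rw [rc_one (A := 2 * a) (by positivity) (by nlinarith), rc_zero (A := b / 4) (by positivity)
        (by linarith)]
      ring
    have hxa : x ∈ ann a b := ⟨by linarith, by linarith⟩
    constructor
    · intro hF
      have h1 := h.toCone.F_abs hxa hF
      obtain ⟨h2, h3, h4⟩ := key (h1.trans (mul_le_mul_of_nonneg_right (by linarith) (norm_nonneg _)))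
      rw [h3]
      apply h.guniq (pr x) h2.1 h2.2 _ h4
      rwa [li_pr]
    · intro hxg
      have h1 : |x 2| ≤ 1 / 10 * ‖x‖ := by
        rw [hxg]
        rcases hcase (pr x) with h1 | ⟨h1, h2, -⟩
        · rw [h1.self_of_nhds, abs_zero]; positivity
        · simp only [hgt]
          rw [abs_mul, abs_of_nonneg (hζ0 _)]
          have h3 := hgb _ h1 h2
          have h4 : ‖pr x‖ ≤ ‖x‖ := by
            have := li_ge (pr x) (x 2)
            rwa [li_pr] at this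
          have h5 := hζ1 (pr x)
          have h6 := hζ0 (pr x)
          have h7 := abs_nonneg (g (pr x))
          nlinarith
      obtain ⟨h2, h3, h4⟩ := key h1
      have h5 := h.gF (pr x) h2.1 h2.2
      rw [h3] at hxg
      rw [← hxg, li_pr] at h5
      exact h5

end

end Pool.Agent.D0H33.FB
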