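import Mathlib
import Pool.Agent.D0H33.FB.A26
import Pool.Agent.D0H33.FB.A27
import Pool.Agent.D0H33.FB.A31
import Pool.Agent.D0H33.FB.A36

set_option autoImplicit false

open Set Metric Filter Topology MeasureTheory
open ExtStar (lap)

namespace Pool.Agent.D0H33.FB

noncomputable section

/-- flat solutions all of whose spheres meet the free boundary are graphs -/
theorem main_sol : ∃ δ0 ε C : ℝ, 0 < δ0 ∧ δ0 < 1 ∧ 0 < ε ∧ 1 ≤ C ∧
    ∀ (δ : ℝ) (D : Set V) (u : V → ℝ), 0 < δ → δ ≤ δ0 → Sol D u → ann δ 1 ⊆ D →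
      (∀ ρ : ℝ, δ < ρ → ρ < 1 → ∃ p ∈ FF D u, ‖p‖ = ρ) →
      (∀ x ∈ ann δ 1, ε < x 2 → x ∈ NN D u) → (∀ x ∈ ann δ 1, x 2 < -ε → x ∉ NN D u) →
      ∃ g : W → ℝ, ContDiff ℝ 1 g ∧ (∀ y, ‖fderiv ℝ g y‖ ≤ 1 / 100) ∧
        ∀ x : V, C * δ < ‖x‖ → ‖x‖ < 1 / C → (x ∈ FF D u ↔ x 2 = g (pr x)) := by
  obtain ⟨L, c, κ, hL, hc, hκ, hcfg, hart⟩ := cfg_main
  obtain ⟨η, hη0, hη1, hgraph⟩ := graph
  obtain ⟨ε1, K, hε1, hK, hcn⟩ := cone_normals L c κ hL hc (by linarith) hart η hη0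
  obtain ⟨r, ε2, hr0, hr1, hε2, hinit⟩ := init_step L c κ hL (by linarith) ε1 hε1
  refine ⟨min (ε2 / 4) (1 / 2), ε2 / 2, max (8 * K) (16 / r), by positivity,
    lt_of_le_of_lt (min_le_right _ _) (by norm_num), by positivity,
    le_trans (by linarith) (le_max_left _ _), ?_⟩
  intro δ D u hδ hδ0 hsol hD hF hpos hneg
  have hδε : δ ≤ ε2 / 4 := hδ0.trans (min_le_left _ _)
  have hh : (0 : ℝ) < 1 / 2 := by norm_num
  have hc1 := hcfg D u δ hsol hδ hD hF
  have hhalf : ∀ x : V, x ∈ ann (4 * δ) 1 → (0 : V) + (1 / 2 : ℝ) • x ∈ ann δ 1 := by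
    intro x hx
    have h1 := hx.1
    have h2 := hx.2
    rw [zero_add]
    constructor
    · rw [norm_rsmul hh]; linarith
    · rw [norm_rsmul hh]; linarith
  have htwo : ∀ (s : ℝ) (x : V), ((0 : V) + s • x) 2 = s * x 2 := by
    intro s x
    rw [zero_add]; rfl
  have hexc := hinit (4 * δ) (sclD 0 (1 / 2) D) (scl 0 (1 / 2) u) (ee 2) hc1 (ee_norm 2) (by linarith)
    (by
      intro x hx h1
      rw [ee_inner] at h1
      rw [NN_scl 0 hh]
      show (0 : V) + (1 / 2 : ℝ) • x ∈ NN D u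
      apply hpos _ (hhalf x hx)
      rw [htwo]
      linarith)
    (by
      intro x hx h1
      rw [ee_inner] at h1
      rw [NN_scl 0 hh]
      show ¬ (0 : V) + (1 / 2 : ℝ) • x ∈ NN D u
      apply hneg _ (hhalf x hx)
      rw [htwo]
      linarith)
  have hc2 := hc1.scale (by linarith) hr0 hr1
  rw [scl_scl _ _ hh hr0, sclD_sclD] at hexc hc2
  have hmain := hcn (4 * δ / r) _ _ (ee 2) hc2 (ee_norm 2) hexc
  set s : ℝ := 1 / 2 * r with hs
  have hs0 : 0 < s := by positivity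
  have hs1 : s ≤ 1 / 2 := by linarith
  -- the cone conditions in the original variables
  have hres : ∀ x : V, (0 : V) + s • (s⁻¹ • x) = x := by
    intro x
    rw [zero_add, smul_smul, mul_inv_cancel₀ hs0.ne', one_smul]
  have hsx : ∀ x : V, ‖s⁻¹ • x‖ * s = ‖x‖ := by
    intro x
    rw [norm_smul, Real.norm_of_nonneg (by positivity)]
    field_simp
  have hsub : ann (2 * K * δ) (r / 4) ⊆ ann δ 1 := by
    intro x hx
    refine ⟨?_, by linarith [hx.2]⟩
    have := hx.1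
    nlinarith
  have hx' : ∀ x ∈ ann (2 * K * δ) (r / 4), K * (4 * δ / r) < ‖s⁻¹ • x‖ ∧ ‖s⁻¹ • x‖ < 1 / 2 := by
    intro x hx
    constructor
    · have h1 : K * (4 * δ / r) * s < ‖s⁻¹ • x‖ * s := by
        rw [hsx, hs]
        have := hx.1
        refine lt_of_le_of_lt (le_of_eq ?_) this
        field_simp
        ring
      exact lt_of_mul_lt_mul_right h1 hs0.le
    · have h1 : ‖s⁻¹ • x‖ * s < 1 / 2 * s := by
        rw [hsx, hs]
        have := hx.2
        linarith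
      exact lt_of_mul_lt_mul_right h1 hs0.le
  have hinn : ∀ x : V, inner ℝ (ee 2) (s⁻¹ • x) * s = x 2 := by
    intro x
    rw [inner_smul_right, ee_inner]
    field_simp
  have hcone : Cone η (2 * K * δ) (r / 4) D u := by
    refine ⟨hsol, by positivity, hη0, hη1, hsub.trans hD, ?_, ?_, ?_⟩
    · intro x hx h1
      obtain ⟨h2, h3⟩ := hx' x hx
      obtain ⟨h4, -, -⟩ := hmain (s⁻¹ • x) h2 h3
      have h5 : s⁻¹ • x ∈ NN (sclD 0 s D) (scl 0 s u) := by
        apply h4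
        have : η * ‖s⁻¹ • x‖ * s < inner ℝ (ee 2) (s⁻¹ • x) * s := by
          rw [hinn, mul_assoc, hsx]; exact h1
        exact lt_of_mul_lt_mul_right this hs0.le
      rw [NN_scl 0 hs0] at h5
      have h6 : (0 : V) + s • (s⁻¹ • x) ∈ NN D u := h5
      rwa [hres] at h6
    · intro x hx h1 hxN
      obtain ⟨h2, h3⟩ := hx' x hx
      obtain ⟨-, h4, -⟩ := hmain (s⁻¹ • x) h2 h3
      refine h4 ?_ ?_
      · have : inner ℝ (ee 2) (s⁻¹ • x) * s < -(η * ‖s⁻¹ • x‖) * s := by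
          rw [hinn, neg_mul, mul_assoc, hsx]; exact h1
        exact lt_of_mul_lt_mul_right this hs0.le
      · rw [NN_scl 0 hs0]
        show (0 : V) + s • (s⁻¹ • x) ∈ NN D u
        rwa [hres]
    · intro x hx hxF G hG
      obtain ⟨h2, h3⟩ := hx' x hx
      obtain ⟨-, -, h4⟩ := hmain (s⁻¹ • x) h2 h3
      have hG' : Gd u G ((0 : V) + s • (s⁻¹ • x)) := by rw [hres]; exact hG
      obtain ⟨h5, h6⟩ := hG'.scl hs0
      rw [hres] at h6
      rw [← h6]
      apply h4 _ _ h5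
      rw [FF_scl 0 hs0]
      show (0 : V) + s • (s⁻¹ • x) ∈ FF D u
      rwa [hres]
  obtain ⟨g, hg1, hg2, hg3⟩ := hgraph (2 * K * δ) (r / 4) D u (by positivity) hcone
  refine ⟨g, hg1, hg2, ?_⟩
  intro x hx1 hx2
  apply hg3 x
  · have h1 : 8 * K * δ ≤ max (8 * K) (16 / r) * δ :=
      mul_le_mul_of_nonneg_right (le_max_left _ _) hδ.le
    linarith
  · have h1 : 1 / max (8 * K) (16 / r) ≤ r / 16 := by
      rw [div_le_div_iff₀ (by positivity) (by norm_num)]
      have h2 : 16 / r ≤ max (8 * K) (16 / r) := le_max_right _ _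
      have h3 : 16 / r * r = 16 := by field_simp
      nlinarith
    linarith

end

end Pool.Agent.D0H33.FB
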